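import Pool.Agent.Bondy.Defs

/-! # Basic facts on boundaries and walks -/

set_option autoImplicit false

namespace Pool.Agent.Bondy

open Set

variable {V E : Type}

theorem mem_cyc [Fintype E] {inc : E → Bool → V} {x : E → ZMod 2} :
    x ∈ cyc inc ↔ ∀ v, bd inc x v = 0 := by
  unfold cyc
  rw [LinearMap.mem_ker, funext_iff]
  rfl

open Classical in
theorem bd_apply [Fintype E] (inc : E → Bool → V) (x : E → ZMod 2) (v : V) :
    bd inc x v = ∑ h : E × Bool, if inc h.1 h.2 = v then x h.1 else 0 := by
  rw [Fintype.sum_prod_type]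
  rfl

theorem mem_cycOn [Fintype E] {inc : E → Bool → V} {H : Set E} {x : E → ZMod 2} :
    x ∈ cycOn inc H ↔ x ∈ cyc inc ∧ ∀ e, e ∉ H → x e = 0 := Iff.rfl

theorem zmod2_cases (a : ZMod 2) : a = 0 ∨ a = 1 := by
  revert a; decide

theorem zmod2_ne_zero {a : ZMod 2} : a ≠ 0 ↔ a = 1 := by
  revert a; decide

theorem zmod2_add_self (a : ZMod 2) : a + a = 0 := by
  revert a; decide

theorem zmod2_add_eq_zero {a b : ZMod 2} : a + b = 0 ↔ a = b := by
  revert a b; decide

/-! ### Darts -/

@[simp] theorem rv_rv (d : E × Bool) : rv (rv d) = d := by simp [rv]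

@[simp] theorem rv_fst (d : E × Bool) : (rv d).1 = d.1 := rfl

@[simp] theorem tl_rv (inc : E → Bool → V) (d : E × Bool) : tl inc (rv d) = hd inc d := rfl

@[simp] theorem hd_rv (inc : E → Bool → V) (d : E × Bool) : hd inc (rv d) = tl inc d := by
  simp [hd, tl, rv]

theorem rv_ne (d : E × Bool) : rv d ≠ d := by
  rcases d with ⟨e, b⟩
  cases b <;> simp [rv]

theorem rv_injective : Function.Injective (rv : E × Bool → E × Bool) :=
  Function.LeftInverse.injective rv_rv

theorem eq_or_eq_rv {d d' : E × Bool} (h : d.1 = d'.1) : d' = d ∨ d' = rv d := by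
  rcases d with ⟨e, b⟩
  rcases d' with ⟨e', b'⟩
  simp only at h
  subst h
  cases b <;> cases b' <;> simp [rv]

/-! ### Walks -/

@[simp] theorem walk_nil {inc : E → Bool → V} {u w : V} : Walk inc u [] w ↔ u = w := Iff.rfl

@[simp] theorem walk_cons {inc : E → Bool → V} {u w : V} {d : E × Bool} {l : List (E × Bool)} :
    Walk inc u (d :: l) w ↔ tl inc d = u ∧ Walk inc (hd inc d) l w := Iff.rfl

theorem walk_append {inc : E → Bool → V} {u w : V} {l l' : List (E × Bool)} :
    Walk inc u (l ++ l') w ↔ ∃ v, Walk inc u l v ∧ Walk inc v l' w := by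
  induction l generalizing u with
  | nil => simp
  | cons d l ih =>
    simp only [List.cons_append, walk_cons, ih]
    constructor
    · rintro ⟨h, v, h1, h2⟩
      exact ⟨v, ⟨h, h1⟩, h2⟩
    · rintro ⟨v, ⟨h, h1⟩, h2⟩
      exact ⟨h, v, h1, h2⟩

theorem walk_snoc {inc : E → Bool → V} {u w : V} {d : E × Bool} {l : List (E × Bool)} :
    Walk inc u (l ++ [d]) w ↔ Walk inc u l (tl inc d) ∧ hd inc d = w := by
  rw [walk_append]
  constructor
  · rintro ⟨v, h1, h2, h3⟩
    subst h2
    exact ⟨h1, h3⟩
  · rintro ⟨h1, h2⟩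
    exact ⟨_, h1, rfl, h2⟩

theorem Walk.unique_end {inc : E → Bool → V} {u w w' : V} {l : List (E × Bool)}
    (h : Walk inc u l w) (h' : Walk inc u l w') : w = w' := by
  induction l generalizing u with
  | nil => exact h.symm.trans h'
  | cons d l ih => exact ih h.2 h'.2

theorem Walk.unique {inc : E → Bool → V} {u u' w w' : V} {l : List (E × Bool)}
    (h : Walk inc u l w) (h' : Walk inc u' l w') (hl : l ≠ []) : u = u' ∧ w = w' := by
  cases l with
  | nil => exact absurd rfl hl
  | cons d l =>
    have : u = u' := h.1.symm.trans h'.1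
    subst this
    exact ⟨rfl, h.unique_end h'⟩

/-- the reversed walk -/
def rl (l : List (E × Bool)) : List (E × Bool) := (l.map rv).reverse

@[simp] theorem rl_nil : rl ([] : List (E × Bool)) = [] := rfl

@[simp] theorem rl_length (l : List (E × Bool)) : (rl l).length = l.length := by simp [rl]

@[simp] theorem rl_rl (l : List (E × Bool)) : rl (rl l) = l := by
  have h : (rv ∘ rv : E × Bool → E × Bool) = id := funext rv_rv
  simp [rl, List.map_reverse, h]

@[simp] theorem rl_append (l l' : List (E × Bool)) : rl (l ++ l') = rl l' ++ rl l := by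
  simp [rl]

@[simp] theorem rl_cons (d : E × Bool) (l : List (E × Bool)) : rl (d :: l) = rl l ++ [rv d] := by
  simp [rl]

@[simp] theorem rl_eq_nil {l : List (E × Bool)} : rl l = [] ↔ l = [] := by simp [rl]

theorem rl_injective : Function.Injective (rl : List (E × Bool) → List (E × Bool)) :=
  Function.LeftInverse.injective rl_rl

@[simp] theorem mem_rl {d : E × Bool} {l : List (E × Bool)} : d ∈ rl l ↔ rv d ∈ l := by
  simp only [rl, List.mem_reverse, List.mem_map]
  constructor
  · rintro ⟨a, ha, rfl⟩
    simpa using ha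
  · intro h
    exact ⟨_, h, by simp⟩

theorem Walk.rev {inc : E → Bool → V} {u w : V} {l : List (E × Bool)}
    (h : Walk inc u l w) : Walk inc w (rl l) u := by
  induction l generalizing u with
  | nil => exact h.symm
  | cons d l ih =>
    rw [rl_cons, walk_snoc]
    exact ⟨by simpa using ih h.2, by simpa using h.1⟩

theorem walk_rl {inc : E → Bool → V} {u w : V} {l : List (E × Bool)} :
    Walk inc u (rl l) w ↔ Walk inc w l u :=
  ⟨fun h => by simpa using h.rev, fun h => h.rev⟩

theorem Walk.head {inc : E → Bool → V} {u w : V} {l : List (E × Bool)} (h : Walk inc u l w)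
    {d : E × Bool} (hd : d ∈ l.head?) : tl inc d = u := by
  cases l with
  | nil => simp at hd
  | cons d' l =>
    simp only [List.head?_cons, Option.mem_def, Option.some.injEq] at hd
    subst hd
    exact h.1

theorem Walk.last {inc : E → Bool → V} {u w : V} {l : List (E × Bool)} (h : Walk inc u l w)
    {d : E × Bool} (hd : d ∈ l.getLast?) : Bondy.hd inc d = w := by
  rcases List.eq_nil_or_concat l with rfl | ⟨l', d', rfl⟩
  · simp at hd
  · simp only [List.concat_eq_append] at h hd
    simp only [List.getLast?_append, List.getLast?_singleton, Option.some_or, Option.mem_def,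
      Option.some.injEq] at hd
    subst hd
    exact (walk_snoc.1 h).2

/-! ### Reduced walks -/

@[simp] theorem red_nil : Red ([] : List (E × Bool)) := List.isChain_nil

@[simp] theorem red_singleton (d : E × Bool) : Red [d] := List.isChain_singleton d

theorem red_append {l l' : List (E × Bool)} :
    Red (l ++ l') ↔ Red l ∧ Red l' ∧ ∀ x ∈ l.getLast?, ∀ y ∈ l'.head?, y ≠ rv x :=
  List.isChain_append

theorem red_cons_cons {d d' : E × Bool} {l : List (E × Bool)} :
    Red (d :: d' :: l) ↔ d' ≠ rv d ∧ Red (d' :: l) := List.isChain_cons_cons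

theorem Red.of_append_left {l l' : List (E × Bool)} (h : Red (l ++ l')) : Red l :=
  (red_append.1 h).1

theorem Red.of_append_right {l l' : List (E × Bool)} (h : Red (l ++ l')) : Red l' :=
  (red_append.1 h).2.1

theorem Red.of_infix {l l' : List (E × Bool)} (h : Red l) (hl : l' <:+: l) : Red l' := by
  obtain ⟨s, t, rfl⟩ := hl
  exact (Red.of_append_left h).of_append_right

theorem red_rl {l : List (E × Bool)} : Red (rl l) ↔ Red l := by
  unfold Red rl
  rw [List.isChain_reverse, List.isChain_map]
  constructor <;> intro h <;> refine h.imp ?_ <;> intro a b hab h2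
  · apply hab
    simp [h2]
  · apply hab
    simp [h2]

theorem cred_red {l : List (E × Bool)} (h : CRed l) : Red l := Red.of_append_left h

theorem cred_iff {l : List (E × Bool)} :
    CRed l ↔ Red l ∧ ∀ x ∈ l.getLast?, ∀ y ∈ l.head?, y ≠ rv x := by
  unfold CRed
  rw [red_append]
  tauto

/-- cyclic reducedness is invariant under rotation -/
theorem cred_rotate {l l' : List (E × Bool)} (h : CRed (l ++ l')) : CRed (l' ++ l) := by
  rcases eq_or_ne l [] with rfl | hl
  · simpa using h
  rcases eq_or_ne l' [] with rfl | hl'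
  · simpa using h
  rw [cred_iff, red_append] at h ⊢
  obtain ⟨⟨h1, h2, h3⟩, h4⟩ := h
  refine ⟨⟨h2, h1, fun x hx y hy => h4 x ?_ y ?_⟩, fun x hx y hy => h3 x ?_ y ?_⟩
  · rw [List.getLast?_append_of_ne_nil _ hl']
    exact hx
  · rw [List.head?_append_of_ne_nil _ hl]
    exact hy
  · rw [List.getLast?_append_of_ne_nil _ hl] at hx
    exact hx
  · rw [List.head?_append_of_ne_nil _ hl'] at hy
    exact hy

theorem cred_rl {l : List (E × Bool)} : CRed (rl l) ↔ CRed l := by
  unfold CRed
  rw [← rl_append, red_rl]

/-! ### Counting traversals -/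

@[simp] theorem cntE_nil (e : E) : cntE ([] : List (E × Bool)) e = 0 := rfl

open Classical in
theorem cntE_cons (d : E × Bool) (l : List (E × Bool)) (e : E) :
    cntE (d :: l) e = cntE l e + if d.1 = e then 1 else 0 := by
  unfold cntE
  rw [List.countP_cons]
  simp only [decide_eq_true_eq]

theorem cntE_append (l l' : List (E × Bool)) (e : E) :
    cntE (l ++ l') e = cntE l e + cntE l' e := by
  unfold cntE
  rw [List.countP_append]

theorem cntE_rl (l : List (E × Bool)) (e : E) : cntE (rl l) e = cntE l e := by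
  unfold cntE rl
  rw [List.countP_reverse, List.countP_map]
  rfl

theorem cntE_pos {l : List (E × Bool)} {e : E} : 0 < cntE l e ↔ e ∈ esupp l := by
  unfold cntE esupp
  rw [List.countP_pos_iff]
  simp

theorem cntE_eq_zero {l : List (E × Bool)} {e : E} : cntE l e = 0 ↔ e ∉ esupp l := by
  rw [← cntE_pos]
  omega

open Classical in
/-- The parity vector of a walk has boundary the sum of its end vertices. -/
theorem bd_walk [Fintype E] {inc : E → Bool → V} {u w : V} {l : List (E × Bool)}
    (h : Walk inc u l w) (v : V) :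
    bd inc (fun e => (cntE l e : ZMod 2)) v =
      (if u = v then 1 else 0) + (if w = v then 1 else 0) := by
  induction l generalizing u with
  | nil =>
    have : u = w := h
    subst this
    simp only [cntE_nil, Nat.cast_zero, zmod2_add_self]
    have h0 : (fun _ : E => (0 : ZMod 2)) = 0 := rfl
    rw [h0, map_zero]
    rfl
  | cons d l ih =>
    have h2 := ih h.2
    have hfun : (fun e => (cntE (d :: l) e : ZMod 2)) =
        (fun e => (cntE l e : ZMod 2)) + fun e => if d.1 = e then 1 else 0 := by
      funext e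
      rw [cntE_cons]
      push_cast
      rfl
    rw [hfun, map_add, Pi.add_apply, h2]
    have h3 : bd inc (fun e => if d.1 = e then (1 : ZMod 2) else 0) v =
        (if tl inc d = v then 1 else 0) + (if hd inc d = v then 1 else 0) := by
      have : bd inc (fun e => if d.1 = e then (1 : ZMod 2) else 0) v =
          ∑ e, ∑ b : Bool, if inc e b = v then (if d.1 = e then (1 : ZMod 2) else 0) else 0 := rfl
      rw [this, Finset.sum_eq_single d.1]
      · rcases d with ⟨e, b⟩
        rw [Fintype.sum_bool]
        cases b <;> simp only [tl, hd, Bool.not_false, Bool.not_true, if_true] <;>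
          by_cases h4 : inc e false = v <;> by_cases h5 : inc e true = v <;> simp [h4, h5]
      · intro e _ he
        simp [he.symm]
      · simp
    rw [h3, h.1]
    by_cases h4 : hd inc d = v <;> by_cases h5 : w = v <;> by_cases h6 : u = v <;>
      simp [h4, h5, h6] <;> decide

theorem cyc_of_closed [Fintype E] {inc : E → Bool → V} {u : V} {l : List (E × Bool)}
    (h : Walk inc u l u) : (fun e => (cntE l e : ZMod 2)) ∈ cyc inc := by
  rw [mem_cyc]
  intro v
  rw [bd_walk h, zmod2_add_self]

/-! ### Finiteness -/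

theorem finite_lists [Finite E] (n : ℕ) (P : List (E × Bool) → Prop) :
    {l : List (E × Bool) | l.length = n ∧ P l}.Finite :=
  (List.finite_length_eq (E × Bool) n).subset fun _ h => h.1

theorem finite_lists_le [Finite E] (n : ℕ) (P : List (E × Bool) → Prop) :
    {l : List (E × Bool) | l.length ≤ n ∧ P l}.Finite :=
  (List.finite_length_le (E × Bool) n).subset fun _ h => h.1

theorem finite_cnb [Finite E] (inc : E → Bool → V) (R : Set V) (ℓ : ℕ) : (cnb inc R ℓ).Finite :=
  finite_lists ℓ _

/-! ### Neighbourhoods -/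

theorem subset_near (inc : E → Bool → V) (X : Set V) (r : ℕ) : X ⊆ near inc X r :=
  fun v hv => ⟨v, hv, [], rfl, Nat.zero_le _⟩

theorem near_mono (inc : E → Bool → V) {X Y : Set V} {r s : ℕ} (h : X ⊆ Y) (hrs : r ≤ s) :
    near inc X r ⊆ near inc Y s :=
  fun _ ⟨u, hu, l, hl, hlen⟩ => ⟨u, h hu, l, hl, hlen.trans hrs⟩

theorem near_near (inc : E → Bool → V) (X : Set V) (r s : ℕ) :
    near inc (near inc X r) s ⊆ near inc X (r + s) := by
  rintro v ⟨u, ⟨w, hw, l, hl, hlr⟩, l', hl', hls⟩
  exact ⟨w, hw, l ++ l', walk_append.2 ⟨u, hl, hl'⟩, by simp; omega⟩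

/-- distances are symmetric: complements of neighbourhoods -/
theorem near_compl (inc : E → Bool → V) (X : Set V) (r g : ℕ) :
    near inc (near inc X (r + g))ᶜ g ⊆ (near inc X r)ᶜ := by
  rintro v ⟨u, hu, l, hl, hlen⟩ hv
  apply hu
  obtain ⟨w, hw, l', hl', hlen'⟩ := hv
  exact ⟨w, hw, l' ++ rl l, walk_append.2 ⟨v, hl', hl.rev⟩, by simp; omega⟩

theorem Walk.mem_near {inc : E → Bool → V} {u w : V} {l : List (E × Bool)} (h : Walk inc u l w)
    {X : Set V} (hu : u ∈ X) {r : ℕ} (hr : l.length ≤ r) : w ∈ near inc X r :=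
  ⟨u, hu, l, h, hr⟩

/-- every vertex of a walk is near its start -/
theorem Walk.tl_mem_near {inc : E → Bool → V} {u w : V} {l : List (E × Bool)}
    (h : Walk inc u l w) {X : Set V} (hu : u ∈ X) {r : ℕ} (hr : l.length ≤ r + 1)
    {d : E × Bool} (hd : d ∈ l) : tl inc d ∈ near inc X r := by
  obtain ⟨s, t, rfl⟩ := List.append_of_mem hd
  obtain ⟨v, h1, h2⟩ := walk_append.1 h
  refine ⟨u, hu, s, ?_, ?_⟩
  · rw [h2.1]
    exact h1
  · simp at hr
    omega

theorem walk_split {inc : E → Bool → V} {u w : V} {l : List (E × Bool)} (h : Walk inc u l w)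
    (n : ℕ) : ∃ v, Walk inc u (l.take n) v ∧ Walk inc v (l.drop n) w := by
  rw [← List.take_append_drop n l] at h
  exact walk_append.1 h

end Pool.Agent.Bondy
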