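import Pool.Agent.Bondy.Defs

set_option autoImplicit false

namespace Pool.Agent.Bondy

open Set

variable {V E : Type}

/-- the sign of an element of the field with two elements -/
noncomputable def sgF (a : ZMod 2) : ℝ := if a = 0 then 1 else -1

lemma sgF_add (a b : ZMod 2) : sgF (a + b) = sgF a * sgF b := by
  have h : ∀ c : ZMod 2, c = 0 ∨ c = 1 := by decide
  have h2 : (1 : ZMod 2) + 1 = 0 := by decide
  rcases h a with rfl | rfl <;> rcases h b with rfl | rfl <;> simp [sgF, h2]

lemma sgF_of_ne {a : ZMod 2} (h : a ≠ 0) : sgF a = -1 := by simp [sgF, h]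

open Classical in
/-- the cycle space as a finset -/
noncomputable def cycF [Fintype E] (inc : E → Bool → V) : Finset (E → ZMod 2) :=
  Finset.univ.filter (fun x => x ∈ cyc inc)

lemma mem_cycF [Fintype E] (inc : E → Bool → V) (x : E → ZMod 2) :
    x ∈ cycF inc ↔ x ∈ cyc inc := by simp [cycF]

lemma cyc_ncard [Fintype E] (inc : E → Bool → V) :
    (cyc inc : Set (E → ZMod 2)).ncard = (cycF inc).card := by
  rw [← Set.ncard_coe_finset]
  congr 1
  ext x
  simp [mem_cycF]

open Classical in
lemma cyc_ncard_filter [Fintype E] (inc : E → Bool → V) (P : (E → ZMod 2) → Prop) :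
    ∃ NB : Finset (E → ZMod 2), (∀ x, x ∈ NB ↔ x ∈ cycF inc ∧ P x) ∧
      {x | x ∈ cyc inc ∧ P x}.ncard = NB.card := by
  refine ⟨(cycF inc).filter P, fun x => Finset.mem_filter, ?_⟩
  rw [← Set.ncard_coe_finset]
  congr 1
  ext x
  simp [mem_cycF]

/-- character orthogonality on the cycle space -/
lemma sum_sgF [Fintype E] (inc : E → Bool → V) (f : (E → ZMod 2) →ₗ[ZMod 2] ZMod 2)
    (x0 : E → ZMod 2) (h0 : x0 ∈ cyc inc) (h : f x0 ≠ 0) :
    ∑ x ∈ cycF inc, sgF (f x) = 0 := by
  have e : ∑ x ∈ cycF inc, sgF (f (x + x0)) = ∑ x ∈ cycF inc, sgF (f x) := by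
    refine Finset.sum_equiv (Equiv.addRight x0) ?_ ?_
    · intro x
      rw [mem_cycF, mem_cycF]
      constructor
      · intro hx; exact Submodule.add_mem _ hx h0
      · intro hx
        have : x = (x + x0) - x0 := by simp
        rw [this]
        exact Submodule.sub_mem _ hx h0
    · intro x _; rfl
  simp only [map_add, sgF_add, sgF_of_ne h] at e
  rw [← Finset.sum_mul] at e
  linarith

open Classical in
/-- half of the cycle space is nonzero on a live edge -/
lemma half_edge [Fintype E] (inc : E → Bool → V) (f : (E → ZMod 2) →ₗ[ZMod 2] ZMod 2)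
    (x0 : E → ZMod 2) (h0 : x0 ∈ cyc inc) (h : f x0 ≠ 0) :
    2 * (((cycF inc).filter (fun x => f x = 0)).card : ℝ) = ((cycF inc).card : ℝ) := by
  have e := sum_sgF inc f x0 h0 h
  have e1 : ∀ x, sgF (f x) = 2 * (if f x = 0 then (1 : ℝ) else 0) - 1 := by
    intro x
    unfold sgF
    split_ifs <;> norm_num
  simp only [e1, Finset.sum_sub_distrib, ← Finset.mul_sum, Finset.sum_ite, Finset.sum_const_zero,
    add_zero, Finset.sum_const, nsmul_eq_mul, mul_one] at e
  linarith

open Classical in
theorem big_degree [Fintype V] [Fintype E] (inc : E → Bool → V) (H : Set E) (W : Set V)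
    (halive : ∀ e, ∃ x ∈ cyc inc, x e ≠ 0) (v : V) (hv : v ∈ W)
    (h : 32 ≤ {h : E × Bool | h.1 ∉ H ∧ inc h.1 h.2 = v}.ncard) : Concl inc H W (1 / 2) := by
  set D : Finset (E × Bool) := Finset.univ.filter (fun h => h.1 ∉ H ∧ inc h.1 h.2 = v) with hD
  have hDset : {h : E × Bool | h.1 ∉ H ∧ inc h.1 h.2 = v} = (D : Set (E × Bool)) := by
    ext h; simp [hD]
  rw [hDset, Set.ncard_coe_finset] at h
  -- a vector with at least three half-edges in `D` is bad
  have hbad : ∀ x : E → ZMod 2, ¬ Bad inc H W x → (D.filter (fun h => x h.1 ≠ 0)).card ≤ 2 := by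
    intro x hx
    by_contra hcon
    push Not at hcon
    apply hx
    left
    refine ⟨v, hv, ?_⟩
    have : {h : E × Bool | x h.1 ≠ 0 ∧ h.1 ∉ H ∧ inc h.1 h.2 = v} =
        (D.filter (fun h => x h.1 ≠ 0) : Set (E × Bool)) := by
      ext h; simp [hD]; tauto
    rw [this, Set.ncard_coe_finset]
    omega
  unfold Concl
  obtain ⟨NB, hNB, hNBcard⟩ := cyc_ncard_filter inc (fun x => ¬ Bad inc H W x)
  rw [cyc_ncard, hNBcard]
  set C := cycF inc with hC
  by_cases hA : ∃ h1 ∈ D, 3 ≤ (D.filter (fun h' => ∀ x ∈ C, x h1.1 = x h'.1)).card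
  · obtain ⟨h1, hh1, hcard⟩ := hA
    obtain ⟨x0, hx0, hx0e⟩ := halive h1.1
    have e := half_edge inc (LinearMap.proj h1.1) x0 hx0 hx0e
    rw [← hC] at e
    have hsub : NB ⊆ C.filter (fun x => (LinearMap.proj (R := ZMod 2) (φ := fun _ : E => ZMod 2)
        h1.1) x = 0) := by
      intro x hx
      rw [hNB] at hx
      rw [Finset.mem_filter]
      refine ⟨hx.1, ?_⟩
      rw [LinearMap.proj_apply]
      by_contra hne
      have h2 := hbad x hx.2
      have h3 : D.filter (fun h' => ∀ x ∈ C, x h1.1 = x h'.1) ⊆ D.filter (fun h => x h.1 ≠ 0) := by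
        intro h' hh'
        rw [Finset.mem_filter] at hh' ⊢
        refine ⟨hh'.1, ?_⟩
        rw [← hh'.2 x hx.1]
        exact hne
      have h4 := Finset.card_le_card h3
      omega
    have h5 : (NB.card : ℝ) ≤ ((C.filter (fun x => (LinearMap.proj (R := ZMod 2)
        (φ := fun _ : E => ZMod 2) h1.1) x = 0)).card : ℝ) := by
      exact_mod_cast Finset.card_le_card hsub
    linarith
  · push Not at hA
    -- second moment
    have key : ∑ x ∈ C, (∑ h ∈ D, sgF (x h.1)) ^ 2 ≤ 2 * (D.card : ℝ) * C.card := by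
      have e1 : ∀ x : E → ZMod 2, (∑ h ∈ D, sgF (x h.1)) ^ 2 =
          ∑ h ∈ D, ∑ h' ∈ D, sgF (x h.1 + x h'.1) := by
        intro x
        rw [sq, Finset.sum_mul_sum]
        simp only [sgF_add]
      simp only [e1]
      rw [Finset.sum_comm]
      have e2 : ∀ h1 ∈ D, ∑ x ∈ C, ∑ h' ∈ D, sgF (x h1.1 + x h'.1) ≤ 2 * (C.card : ℝ) := by
        intro h1 hh1
        rw [Finset.sum_comm]
        have e3 : ∀ h' ∈ D, ∑ x ∈ C, sgF (x h1.1 + x h'.1) ≤
            if (∀ x ∈ C, x h1.1 = x h'.1) then (C.card : ℝ) else 0 := by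
          intro h' _
          split_ifs with hs
          · calc ∑ x ∈ C, sgF (x h1.1 + x h'.1) ≤ ∑ x ∈ C, (1 : ℝ) := by
                  apply Finset.sum_le_sum
                  intro x _
                  unfold sgF
                  split_ifs <;> norm_num
              _ = C.card := by simp
          · push Not at hs
            obtain ⟨x0, hx0, hne⟩ := hs
            have e4 := sum_sgF inc ((LinearMap.proj h1.1 : (E → ZMod 2) →ₗ[ZMod 2] ZMod 2) +
              LinearMap.proj h'.1) x0 ((mem_cycF inc x0).mp hx0) (by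
                simp only [LinearMap.add_apply, LinearMap.proj_apply]
                have hz : ∀ a b : ZMod 2, a ≠ b → a + b ≠ 0 := by decide
                exact hz _ _ hne)
            simp only [LinearMap.add_apply, LinearMap.proj_apply] at e4
            rw [← hC] at e4
            exact e4.le
        refine (Finset.sum_le_sum e3).trans ?_
        rw [← Finset.sum_filter, Finset.sum_const, nsmul_eq_mul]
        have h6 : ((D.filter (fun h' => ∀ x ∈ C, x h1.1 = x h'.1)).card : ℝ) ≤ 2 := by
          have := hA h1 hh1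
          exact_mod_cast (by omega)
        gcongr
      refine (Finset.sum_le_sum e2).trans ?_
      rw [Finset.sum_const, nsmul_eq_mul]
      linarith
    have key2 : (NB.card : ℝ) * ((D.card : ℝ) - 4) ^ 2 ≤
        ∑ x ∈ C, (∑ h ∈ D, sgF (x h.1)) ^ 2 := by
      calc (NB.card : ℝ) * ((D.card : ℝ) - 4) ^ 2 = ∑ x ∈ NB, ((D.card : ℝ) - 4) ^ 2 := by simp
        _ ≤ ∑ x ∈ NB, (∑ h ∈ D, sgF (x h.1)) ^ 2 := by
            apply Finset.sum_le_sum
            intro x hx
            rw [hNB] at hx
            have h2 := hbad x hx.2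
            have e5 : ∑ h ∈ D, sgF (x h.1) =
                (D.card : ℝ) - 2 * ((D.filter (fun h => x h.1 ≠ 0)).card : ℝ) := by
              have e1 : ∀ a : ZMod 2, sgF a = 1 - 2 * (if a ≠ 0 then (1 : ℝ) else 0) := by
                intro a
                unfold sgF
                by_cases ha : a = 0 <;> simp [ha] <;> norm_num
              simp only [e1, Finset.sum_sub_distrib, ← Finset.mul_sum, ← Finset.sum_filter,
                Finset.sum_const, nsmul_eq_mul, mul_one]
            rw [e5]
            have h3 : ((D.filter (fun h => x h.1 ≠ 0)).card : ℝ) ≤ 2 := by exact_mod_cast h2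
            have h4 : (32 : ℝ) ≤ D.card := by exact_mod_cast h
            apply pow_le_pow_left₀ (by linarith)
            linarith
        _ ≤ _ := by
            apply Finset.sum_le_sum_of_subset_of_nonneg
            · intro x hx
              exact ((hNB x).mp hx).1
            · intro x _ _
              positivity
    have h4 : (32 : ℝ) ≤ D.card := by exact_mod_cast h
    have h5 := key2.trans key
    have h6 : (0 : ℝ) ≤ NB.card := by positivity
    have h7 : 4 * (D.card : ℝ) ≤ ((D.card : ℝ) - 4) ^ 2 := by nlinarith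
    have h8 : (NB.card : ℝ) * (4 * (D.card : ℝ)) ≤ 2 * (D.card : ℝ) * C.card :=
      (mul_le_mul_of_nonneg_left h7 h6).trans h5
    have h9 : (D.card : ℝ) * (2 * NB.card) ≤ (D.card : ℝ) * C.card := by linarith
    have h10 := le_of_mul_le_mul_left h9 (by linarith)
    linarith

end Pool.Agent.Bondy
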