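import Pool.Agent.Bondy.Basic

/-! # Counting reduced walks (module WALKS) -/

set_option autoImplicit false

namespace Pool.Agent.Bondy

open Set

variable {V E : Type}

/-! ### General counting helpers -/

theorem ncard_le_mul_of_fibres {α β : Type*} {S : Set α} {T : Set β} (f : α → β)
    (hT : T.Finite) (hS : S.Finite) (hf : ∀ x ∈ S, f x ∈ T) (n : ℕ)
    (hn : ∀ y ∈ T, {x | x ∈ S ∧ f x = y}.ncard ≤ n) : S.ncard ≤ n * T.ncard := by
  classical
  have h1 : hS.toFinset.card ≤ n * (hS.toFinset.image f).card := by
    refine Finset.card_le_mul_card_image _ n ?_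
    intro y hy
    rw [Finset.mem_image] at hy
    obtain ⟨x, hx, rfl⟩ := hy
    have h2 := hn (f x) (hf x (hS.mem_toFinset.1 hx))
    have h3 : {x' | x' ∈ S ∧ f x' = f x} =
        ((hS.toFinset.filter fun x' => f x' = f x : Finset α) : Set α) := by
      ext x'
      simp
    rw [h3, Set.ncard_coe_finset] at h2
    exact h2
  have h4 : (hS.toFinset.image f).card ≤ T.ncard := by
    rw [Set.ncard_eq_toFinset_card T hT]
    refine Finset.card_le_card ?_
    intro y hy
    rw [Finset.mem_image] at hy
    obtain ⟨x, hx, rfl⟩ := hy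
    rw [hT.mem_toFinset]
    exact hf x (hS.mem_toFinset.1 hx)
  rw [Set.ncard_eq_toFinset_card S hS]
  exact h1.trans (Nat.mul_le_mul_left _ h4)

/-- darts leaving a set -/
theorem ncard_darts_le [Fintype V] [Fintype E] (inc : E → Bool → V) (hdeg : ∀ v, deg inc v ≤ 3)
    (X : Set V) : {d : E × Bool | tl inc d ∈ X}.ncard ≤ 3 * X.ncard := by
  refine ncard_le_mul_of_fibres (tl inc) (Set.toFinite _) (Set.toFinite _) (fun _ h => h) 3 ?_
  intro y _
  refine le_trans (Set.ncard_le_ncard ?_ (Set.toFinite _)) (hdeg y)
  rintro d ⟨_, hd⟩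
  exact hd

theorem ncard_near [Fintype V] [Fintype E] (inc : E → Bool → V) (hdeg : ∀ v, deg inc v ≤ 3)
    (X : Set V) (r : ℕ) : (near inc X r).ncard ≤ 4 ^ r * X.ncard := by
  induction r with
  | zero =>
    have : near inc X 0 ⊆ X := by
      rintro v ⟨u, hu, l, hl, hlen⟩
      have : l = [] := List.length_eq_zero_iff.1 (Nat.le_zero.1 hlen)
      subst this
      rw [walk_nil] at hl
      exact hl ▸ hu
    simpa using Set.ncard_le_ncard this (Set.toFinite _)
  | succ r ih =>
    have h1 : near inc X (r + 1) ⊆
        near inc X r ∪ hd inc '' {d : E × Bool | tl inc d ∈ near inc X r} := by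
      rintro v ⟨u, hu, l, hl, hlen⟩
      rcases List.eq_nil_or_concat l with rfl | ⟨l', d, rfl⟩
      · left
        exact ⟨u, hu, [], hl, Nat.zero_le _⟩
      · right
        simp only [List.concat_eq_append] at hl hlen
        rw [walk_snoc] at hl
        refine ⟨d, ⟨u, hu, l', hl.1, ?_⟩, hl.2⟩
        simp at hlen
        omega
    calc (near inc X (r + 1)).ncard ≤ _ := Set.ncard_le_ncard h1 (Set.toFinite _)
      _ ≤ (near inc X r).ncard + (hd inc '' {d : E × Bool | tl inc d ∈ near inc X r}).ncard :=
        Set.ncard_union_le _ _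
      _ ≤ (near inc X r).ncard + 3 * (near inc X r).ncard := by
        gcongr
        exact (Set.ncard_image_le (Set.toFinite _)).trans (ncard_darts_le inc hdeg _)
      _ = 4 * (near inc X r).ncard := by ring
      _ ≤ 4 * (4 ^ r * X.ncard) := by gcongr
      _ = 4 ^ (r + 1) * X.ncard := by ring

/-! ### Uniqueness of short reduced walks -/

/-- A nonempty list with a repeated tail splits at a closed subwalk. -/
theorem exists_split_of_not_nodup {α β : Type*} (f : α → β) {l : List α}
    (h : ¬ (l.map f).Nodup) :
    ∃ (s t r : List α) (d d' : α), l = s ++ (d :: t) ++ (d' :: r) ∧ f d = f d' := by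
  induction l with
  | nil => simp at h
  | cons a l ih =>
    rw [List.map_cons, List.nodup_cons] at h
    by_cases ha : f a ∈ l.map f
    · rw [List.mem_map] at ha
      obtain ⟨d', hd', hfd'⟩ := ha
      obtain ⟨t, r, rfl⟩ := List.append_of_mem hd'
      exact ⟨[], t, r, a, d', by simp, hfd'.symm⟩
    · have : ¬ (l.map f).Nodup := fun hn => h ⟨ha, hn⟩
      obtain ⟨s, t, r, d, d', hl, hf⟩ := ih this
      exact ⟨a :: s, t, r, d, d', by simp [hl], hf⟩

/-- (*) of the blueprint: there is no short nonempty reduced closed walk in a tree-like region.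
More generally no nonempty reduced closed walk is attached by a short walk to a vertex of a
tree-like region. -/
theorem no_short_closed {inc : E → Bool → V} {a : ℕ} {R : Set V}
    (hT : TreeLike inc a R) {u : V} (hu : u ∈ R) :
    ∀ (n : ℕ) (v : V) (p c : List (E × Bool)), c.length = n → c ≠ [] → Walk inc u p v →
      Walk inc v c v → Red c → 2 * (p.length + c.length) ≤ a → False := by
  intro n
  induction n using Nat.strong_induction_on with
  | _ n ih =>
    intro v p c hn hc hp hcw hred hlen
    by_cases hnd : (c.map (tl inc)).Nodup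
    · -- the first edge is used exactly once
      rcases c with _ | ⟨d, c'⟩
      · exact hc rfl
      have hcount : cntE c' d.1 = 0 := by
        rw [cntE_eq_zero]
        rintro ⟨d', hd', hdd'⟩
        rw [List.map_cons, List.nodup_cons] at hnd
        rcases eq_or_eq_rv hdd'.symm with h | h
        · apply hnd.1
          rw [h] at hd'
          exact List.mem_map_of_mem hd'
        · obtain ⟨s, t, rfl⟩ := List.append_of_mem hd'
          rcases s with _ | ⟨d2, s⟩
          · rw [List.nil_append, red_cons_cons] at hred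
            exact hred.1 h
          · have h1 : tl inc d2 = hd inc d := by
              have := hcw.2
              rw [List.cons_append] at this
              exact this.1
            have h2 : tl inc d' = hd inc d := by rw [h, tl_rv]
            have h3 := hnd.2
            rw [List.cons_append, List.map_cons, List.nodup_cons] at h3
            apply h3.1
            rw [h1, ← h2, List.map_append, List.mem_append]
            right
            exact List.mem_map_of_mem List.mem_cons_self
      have hclosed : Walk inc u (p ++ (d :: c') ++ rl p) u :=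
        walk_append.2 ⟨v, walk_append.2 ⟨v, hp, hcw⟩, hp.rev⟩
      have heven := hT u hu _ hclosed (by
        simp only [List.length_append, rl_length]
        omega) d.1
      rw [cntE_append, cntE_append, cntE_rl, cntE_cons, hcount] at heven
      simp only [if_true] at heven
      obtain ⟨k, hk⟩ := heven
      omega
    · obtain ⟨s, t, r, d, d', rfl, hdd'⟩ := exists_split_of_not_nodup (tl inc) hnd
      rw [walk_append] at hcw
      obtain ⟨v2, h1, h2⟩ := hcw
      rw [walk_append] at h1
      obtain ⟨v1, h3, h4⟩ := h1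
      have hv1 : tl inc d = v1 := h4.1
      have hv2 : tl inc d' = v2 := h2.1
      have hcl : Walk inc v1 (d :: t) v1 := by
        have : v2 = v1 := by rw [← hv1, ← hv2, hdd']
        rw [this] at h4
        exact h4
      refine ih (d :: t).length ?_ v1 (p ++ s) (d :: t) rfl (by simp)
        (walk_append.2 ⟨v, hp, h3⟩) hcl ?_ ?_
      · rw [← hn]
        simp
        omega
      · exact hred.of_append_left.of_append_right
      · simp only [List.length_append, List.length_cons] at hlen ⊢
        omega

theorem nb_unique [Fintype V] [Fintype E] {inc : E → Bool → V} {a : ℕ} {R : Set V}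
    (hT : TreeLike inc a R) {u w : V} {l l' : List (E × Bool)} (hu : u ∈ R)
    (hl : Walk inc u l w) (hr : Red l) (hl' : Walk inc u l' w) (hr' : Red l')
    (hlen : 2 * (l.length + l'.length) ≤ a) : l = l' := by
  induction l using List.reverseRecOn generalizing l' w with
  | nil =>
    by_contra hne
    have hw : u = w := hl
    subst hw
    exact no_short_closed hT hu _ u [] l' rfl (Ne.symm hne) rfl hl' hr' (by simpa using hlen)
  | append_singleton l1 d ih =>
    rcases List.eq_nil_or_concat l' with rfl | ⟨l2, d', rfl⟩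
    · exfalso
      have hw : u = w := hl'
      subst hw
      exact no_short_closed hT hu _ u [] (l1 ++ [d]) rfl (by simp) rfl hl hr
        (by simpa using hlen)
    · simp only [List.concat_eq_append] at hl' hr' hlen ⊢
      by_cases hdd : d = d'
      · subst hdd
        rw [walk_snoc] at hl hl'
        have := ih hl.1 hr.of_append_left hl'.1 hr'.of_append_left (by
          simp only [List.length_append, List.length_singleton] at hlen
          omega)
        rw [this]
      · exfalso
        have hcl : Walk inc u ((l1 ++ [d]) ++ rl (l2 ++ [d'])) u :=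
          walk_append.2 ⟨w, hl, hl'.rev⟩
        refine no_short_closed hT hu _ u [] ((l1 ++ [d]) ++ rl (l2 ++ [d'])) rfl (by simp) rfl
          hcl ?_ ?_
        · rw [red_append]
          refine ⟨hr, red_rl.2 hr', ?_⟩
          intro x hx y hy
          simp only [List.getLast?_append, List.getLast?_singleton, Option.some_or,
            Option.mem_def, Option.some.injEq] at hx
          subst hx
          rw [rl_append, rl_cons, rl_nil, List.nil_append, List.singleton_append,
            List.head?_cons, Option.mem_def, Option.some.injEq] at hy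
          subst hy
          intro h
          exact hdd (rv_injective h).symm
        · simp only [List.length_nil, List.length_append, rl_length] at hlen ⊢
          omega

/-! ### Counting reduced walks from a vertex -/

theorem count_from [Fintype V] [Fintype E] (inc : E → Bool → V) (hdeg : ∀ v, deg inc v ≤ 3)
    (v : V) (m : ℕ) :
    {l : List (E × Bool) | l.length = m + 1 ∧ Red l ∧ ∃ w, Walk inc v l w}.ncard ≤ 3 * 2 ^ m := by
  induction m with
  | zero =>
    have h1 : {l : List (E × Bool) | l.length = 0 + 1 ∧ Red l ∧ ∃ w, Walk inc v l w} ⊆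
        (fun d => [d]) '' {d : E × Bool | inc d.1 d.2 = v} := by
      rintro l ⟨hl, -, w, hw⟩
      obtain ⟨d, rfl⟩ := List.length_eq_one_iff.1 hl
      exact ⟨d, hw.1, rfl⟩
    have h2 := hdeg v
    unfold deg at h2
    calc _ ≤ _ := Set.ncard_le_ncard h1 (Set.toFinite _)
      _ ≤ {d : E × Bool | inc d.1 d.2 = v}.ncard := Set.ncard_image_le (Set.toFinite _)
      _ ≤ 3 * 2 ^ 0 := by simpa using h2
  | succ m ih =>
    have h0 : {l : List (E × Bool) | l.length = m + 1 + 1 ∧ Red l ∧ ∃ w, Walk inc v l w}.ncard ≤
        2 * {l : List (E × Bool) | l.length = m + 1 ∧ Red l ∧ ∃ w, Walk inc v l w}.ncard := by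
      refine ncard_le_mul_of_fibres List.dropLast (finite_lists _ _) (finite_lists _ _) ?_ 2 ?_
      · rintro l ⟨hl, hr, w, hw⟩
        rcases List.eq_nil_or_concat l with rfl | ⟨l', d, rfl⟩
        · simp at hl
        · simp only [List.concat_eq_append] at hl hr hw ⊢
          rw [List.dropLast_concat]
          refine ⟨?_, hr.of_append_left, tl inc d, (walk_snoc.1 hw).1⟩
          simp at hl
          omega
      · rintro l' ⟨hl', hr', w', hw'⟩
        -- the last dart of l'
        rcases List.eq_nil_or_concat l' with rfl | ⟨l1, d1, rfl⟩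
        · simp at hl'
        simp only [List.concat_eq_append] at hl' hr' hw' ⊢
        have h1 : {x | x ∈ {l : List (E × Bool) | l.length = m + 1 + 1 ∧ Red l ∧
            ∃ w, Walk inc v l w} ∧ x.dropLast = l1 ++ [d1]} ⊆
            (fun d => l1 ++ [d1] ++ [d]) '' ({d : E × Bool | inc d.1 d.2 = w'} \ {rv d1}) := by
          rintro x ⟨⟨hx, hxr, w, hxw⟩, hxd⟩
          rcases List.eq_nil_or_concat x with rfl | ⟨x', d, rfl⟩
          · simp at hx
          simp only [List.concat_eq_append] at hx hxr hxw hxd ⊢
          rw [List.dropLast_concat] at hxd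
          subst hxd
          refine ⟨d, ⟨?_, ?_⟩, rfl⟩
          · have := (walk_snoc.1 hxw).1
            exact this.unique_end hw'
          · intro hd1
            rw [Set.mem_singleton_iff] at hd1
            rw [red_append] at hxr
            exact hxr.2.2 d1 (by simp) d (by simp) hd1
        have h2 : rv d1 ∈ {d : E × Bool | inc d.1 d.2 = w'} := by
          have := (walk_snoc.1 hw').2
          exact this
        have h3 := hdeg w'
        unfold deg at h3
        calc _ ≤ _ := Set.ncard_le_ncard h1 (Set.toFinite _)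
          _ ≤ ({d : E × Bool | inc d.1 d.2 = w'} \ {rv d1}).ncard :=
            Set.ncard_image_le (Set.toFinite _)
          _ = {d : E × Bool | inc d.1 d.2 = w'}.ncard - 1 :=
            Set.ncard_sdiff_singleton_of_mem h2
          _ ≤ 2 := by omega
    calc _ ≤ _ := h0
      _ ≤ 2 * (3 * 2 ^ m) := by gcongr
      _ = 3 * 2 ^ (m + 1) := by ring

theorem count_vw [Fintype V] [Fintype E] {inc : E → Bool → V} (hdeg : ∀ v, deg inc v ≤ 3)
    {a : ℕ} {R : Set V} (hT : TreeLike inc a R) (v w : V) (hw : w ∈ R) {ρ m : ℕ}
    (hρ : 4 * ρ ≤ a) (hm : ρ < m) :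
    {l : List (E × Bool) | l.length = m ∧ Red l ∧ Walk inc v l w}.ncard ≤ 3 * 2 ^ (m - ρ - 1) := by
  refine le_trans ?_ (count_from inc hdeg v (m - ρ - 1))
  refine Set.ncard_le_ncard_of_injOn (fun l => l.take (m - ρ)) ?_ ?_ (finite_lists _ _)
  · rintro l ⟨hl, hr, hwalk⟩
    refine ⟨?_, ?_, ?_⟩
    · rw [List.length_take, hl]
      omega
    · exact hr.of_infix (List.take_prefix _ _).isInfix
    · obtain ⟨x, hx, -⟩ := walk_split hwalk (m - ρ)
      exact ⟨x, hx⟩
  · rintro l ⟨hl, hr, hwalk⟩ l' ⟨hl', hr', hwalk'⟩ heq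
    simp only at heq
    obtain ⟨x, hx, hx2⟩ := walk_split hwalk (m - ρ)
    obtain ⟨x', hx', hx2'⟩ := walk_split hwalk' (m - ρ)
    have hxx : x = x' := by
      rw [heq] at hx
      exact hx.unique_end hx'
    subst hxx
    have h1 : rl (l.drop (m - ρ)) = rl (l'.drop (m - ρ)) := by
      refine nb_unique hT hw hx2.rev ?_ hx2'.rev ?_ ?_
      · exact red_rl.2 (hr.of_infix (List.drop_suffix _ _).isInfix)
      · exact red_rl.2 (hr'.of_infix (List.drop_suffix _ _).isInfix)
      · simp only [rl_length, List.length_drop, hl, hl']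
        omega
    have h2 := rl_injective h1
    rw [← List.take_append_drop (m - ρ) l, heq, h2, List.take_append_drop]

/-! ### The base set -/

theorem LConn_vsupp {inc : E → Bool → V} {u : V} {l : List (E × Bool)}
    (hl : Walk inc u l u) : LConn inc (vsupp inc l) := by
  intro U hU
  -- all darts of the walk have both ends in the support
  have hclosed : ∀ d ∈ l, hd inc d ∈ vsupp inc l := by
    intro d hd'
    obtain ⟨s, t, rfl⟩ := List.append_of_mem hd'
    obtain ⟨v1, h1, h2⟩ := walk_append.1 hl
    rcases t with _ | ⟨d2, t⟩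
    · -- last dart, head = u = start of the first dart
      have h3 : hd inc d = u := h2.2
      rcases s with _ | ⟨d0, s⟩
      · refine ⟨d, by simp, ?_⟩
        rw [h3, h2.1]
        exact h1.symm
      · refine ⟨d0, by simp, ?_⟩
        rw [h3]
        exact h1.1
    · refine ⟨d2, by simp, ?_⟩
      exact h2.2.1
  have hstep : ∀ d ∈ l, U (tl inc d) = U (hd inc d) := by
    intro d hd'
    have h1 : tl inc d ∈ vsupp inc l := ⟨d, hd', rfl⟩
    have h2 := hclosed d hd'
    rcases d with ⟨e, b⟩
    cases b
    · exact hU e h1 h2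
    · exact (hU e h2 h1).symm
  have hall : ∀ (l' : List (E × Bool)) (v w : V), (∀ d ∈ l', d ∈ l) → Walk inc v l' w →
      ∀ d ∈ l', U (tl inc d) = U v := by
    intro l'
    induction l' with
    | nil => intro v w _ _ d hd'; simp at hd'
    | cons d0 l' ih =>
      intro v w hsub hw d hd'
      rcases List.mem_cons.1 hd' with rfl | h
      · rw [hw.1]
      · rw [ih _ _ (fun d hd => hsub d (List.mem_cons_of_mem _ hd)) hw.2 d h,
          ← hstep d0 (hsub d0 List.mem_cons_self), hw.1]
  rintro x ⟨d, hd1, rfl⟩ y ⟨d', hd2, rfl⟩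
  rw [hall l u u (fun _ h => h) hl d hd1, hall l u u (fun _ h => h) hl d' hd2]

theorem hd_mem_vsupp {inc : E → Bool → V} {u : V} {l : List (E × Bool)}
    (hl : Walk inc u l u) {d : E × Bool} (hd' : d ∈ l) : hd inc d ∈ vsupp inc l := by
  obtain ⟨s, t, rfl⟩ := List.append_of_mem hd'
  obtain ⟨v1, h1, h2⟩ := walk_append.1 hl
  rcases t with _ | ⟨d2, t⟩
  · have h3 : hd inc d = u := h2.2
    rcases s with _ | ⟨d0, s⟩
    · refine ⟨d, by simp, ?_⟩
      rw [h3, h2.1]
      exact h1.symm
    · refine ⟨d0, by simp, ?_⟩
      rw [h3]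
      exact h1.1
  · refine ⟨d2, by simp, ?_⟩
    exact h2.2.1

theorem ncard_vsupp_le [Fintype V] (inc : E → Bool → V) (l : List (E × Bool)) :
    (vsupp inc l).ncard ≤ l.length := by
  classical
  have : vsupp inc l = ((l.map (tl inc)).toFinset : Set V) := by
    ext v
    simp [vsupp]
  rw [this, Set.ncard_coe_finset]
  exact (List.toFinset_card_le _).trans (by simp)

theorem far_symm {inc : E → Bool → V} {X Y : Set V} (h : Far inc X Y) : Far inc Y X := by
  refine ⟨h.1.symm, fun e b h1 h2 => ?_⟩
  refine h.2 e (!b) h2 ?_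
  simpa using h1

theorem ncard_low_degree [Fintype V] [Fintype E] (inc : E → Bool → V)
    (hdeg : ∀ v, deg inc v ≤ 3) : {v | deg inc v < 3}.ncard ≤ ports inc Set.univ := by
  classical
  have h1 : {h : E × Bool | inc h.1 h.2 ∈ (Set.univ : Set V)}.ncard =
      ∑ v : V, deg inc v := by
    have h2 : {h : E × Bool | inc h.1 h.2 ∈ (Set.univ : Set V)} = Set.univ := by
      ext; simp
    rw [h2, Set.ncard_univ, Nat.card_eq_fintype_card, ← Finset.card_univ]
    rw [Finset.card_eq_sum_card_fiberwise (f := fun h : E × Bool => inc h.1 h.2)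
      (t := Finset.univ) (fun _ _ => by simp)]
    refine Finset.sum_congr rfl fun v _ => ?_
    unfold deg
    rw [Set.ncard_eq_toFinset_card']
    congr 1
    ext h
    simp
  have h3 : {v | deg inc v < 3}.ncard + ∑ v : V, deg inc v ≤ 3 * (Set.univ : Set V).ncard := by
    rw [Set.ncard_eq_toFinset_card', Set.ncard_univ, Nat.card_eq_fintype_card,
      ← Finset.card_univ, mul_comm, ← smul_eq_mul, ← Finset.sum_const]
    have h4 : ({v | deg inc v < 3} : Set V).toFinset.card =
        ∑ v : V, if deg inc v < 3 then 1 else 0 := by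
      rw [← Finset.card_filter]
      congr 1
      ext v
      simp
    rw [h4, ← Finset.sum_add_distrib]
    refine Finset.sum_le_sum fun v _ => ?_
    have := hdeg v
    split_ifs with h
    · omega
    · omega
  unfold ports
  rw [h1]
  omega

theorem base [Fintype V] [Fintype E] (inc : E → Bool → V) (hdeg : ∀ v, deg inc v ≤ 3) (a M : ℕ)
    (hfam : ∀ F : Set (Set V), (∀ Q ∈ F, Short inc a Q) →
      (∀ X ∈ F, ∀ Y ∈ F, X ≠ Y → Far inc X Y) → F.ncard ≤ M) :
    ∃ X0 : Set V, X0.ncard ≤ ports inc Set.univ + M * a ∧ (∀ v, v ∉ X0 → deg inc v = 3) ∧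
      TreeLike inc a (near inc X0 (a + 2))ᶜ := by
  classical
  -- a maximal family
  obtain ⟨F, hF⟩ := (Set.toFinite {F : Set (Set V) | (∀ Q ∈ F, Short inc a Q) ∧
    ∀ X ∈ F, ∀ Y ∈ F, X ≠ Y → Far inc X Y}).exists_maximal ⟨∅, by simp⟩
  obtain ⟨hFs, hFf⟩ : (∀ Q ∈ F, Short inc a Q) ∧
    ∀ X ∈ F, ∀ Y ∈ F, X ≠ Y → Far inc X Y := hF.1
  refine ⟨⋃₀ F ∪ {v | deg inc v < 3}, ?_, ?_, ?_⟩
  · have h1 : (⋃₀ F).ncard ≤ M * a := by
      have h2 : (⋃₀ F).ncard ≤ a * F.ncard := by
        have hsub : ∀ v ∈ ⋃₀ F, ∃ Q ∈ F, v ∈ Q := fun v hv => hv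
        choose! f hf1 hf2 using hsub
        refine ncard_le_mul_of_fibres f (Set.toFinite _) (Set.toFinite _) hf1 a ?_
        intro Q hQ
        refine le_trans (Set.ncard_le_ncard ?_ (Set.toFinite _)) (hFs Q hQ).2.1
        rintro v ⟨hv, rfl⟩
        exact hf2 v hv
      calc _ ≤ _ := h2
        _ ≤ a * M := Nat.mul_le_mul_left _ (hfam F hFs hFf)
        _ = M * a := mul_comm _ _
    calc _ ≤ _ := Set.ncard_union_le _ _
      _ ≤ M * a + ports inc Set.univ := Nat.add_le_add h1 (ncard_low_degree inc hdeg)
      _ = _ := add_comm _ _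
  · intro v hv
    have h1 : ¬ deg inc v < 3 := fun h => hv (Or.inr h)
    have h2 := hdeg v
    omega
  · intro u hu l hl hlen e
    by_contra hodd
    apply hu
    -- the piece
    have hne : l ≠ [] := by
      rintro rfl
      simp at hodd
    have hShort : Short inc a (vsupp inc l) := by
      refine ⟨LConn_vsupp hl, (ncard_vsupp_le inc l).trans hlen,
        fun e => (cntE l e : ZMod 2), cyc_of_closed hl, ?_, ?_⟩
      · intro h0
        have h1 := congrFun h0 e
        simp only [Pi.zero_apply] at h1
        rw [ZMod.natCast_eq_zero_iff] at h1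
        exact hodd (even_iff_two_dvd.2 h1)
      · intro e' he' b
        have h1 : cntE l e' ≠ 0 := by
          intro h0
          simp [h0] at he'
        have h2 : e' ∈ esupp l := cntE_pos.1 (Nat.pos_of_ne_zero h1)
        obtain ⟨d, hd', rfl⟩ := h2
        by_cases hb : b = d.2
        · subst hb
          exact ⟨d, hd', rfl⟩
        · have hb' : b = !d.2 := by
            cases b <;> cases h : d.2 <;> simp_all
          subst hb'
          exact hd_mem_vsupp hl hd'
    have hu_mem : u ∈ vsupp inc l := by
      rcases l with _ | ⟨d, l⟩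
      · exact absurd rfl hne
      · exact ⟨d, by simp, hl.1⟩
    -- some member of F meets or is adjacent to the piece
    have hmeet : ∃ Y ∈ F, ¬ Far inc (vsupp inc l) Y := by
      by_contra hcon
      push Not at hcon
      have hmem : insert (vsupp inc l) F ∈ {F : Set (Set V) | (∀ Q ∈ F, Short inc a Q) ∧
          ∀ X ∈ F, ∀ Y ∈ F, X ≠ Y → Far inc X Y} := by
        refine ⟨?_, ?_⟩
        · rintro Q (rfl | hQ)
          · exact hShort
          · exact hFs Q hQ
        · rintro X (rfl | hX) Y (rfl | hY) hXY
          · exact absurd rfl hXY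
          · exact hcon Y hY
          · exact far_symm (hcon X hX)
          · exact hFf X hX Y hY hXY
      have hle := hF.2 hmem (Set.subset_insert _ _)
      have hmem2 : vsupp inc l ∈ F := hle (Set.mem_insert _ _)
      have := (hcon _ hmem2).1
      rw [Set.disjoint_iff_inter_eq_empty, Set.inter_self] at this
      rw [this] at hu_mem
      exact hu_mem
    obtain ⟨Y, hY, hfar⟩ := hmeet
    -- a vertex of the piece at distance at most one from Y
    have hclose : ∃ x ∈ vsupp inc l, ∃ y ∈ Y, ∃ q, Walk inc y q x ∧ q.length ≤ 1 := by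
      by_cases hd1 : Disjoint (vsupp inc l) Y
      · have : ∃ e b, inc e b ∈ vsupp inc l ∧ inc e (!b) ∈ Y := by
          by_contra hcon
          push Not at hcon
          exact hfar ⟨hd1, hcon⟩
        obtain ⟨e', b, h1, h2⟩ := this
        refine ⟨_, h1, _, h2, [(e', !b)], ?_, by simp⟩
        simp [Walk, tl, hd]
      · rw [Set.not_disjoint_iff] at hd1
        obtain ⟨x, hx1, hx2⟩ := hd1
        exact ⟨x, hx1, x, hx2, [], rfl, by simp⟩
    obtain ⟨x, ⟨d, hdl, rfl⟩, y, hy, q, hq, hqlen⟩ := hclose
    obtain ⟨s, t, rfl⟩ := List.append_of_mem hdl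
    obtain ⟨v1, h1, h2⟩ := walk_append.1 hl
    have hv1 : tl inc d = v1 := h2.1
    refine ⟨y, Or.inl ⟨Y, hY, hy⟩, q ++ rl s, walk_append.2 ⟨v1, hv1 ▸ hq, h1.rev⟩, ?_⟩
    simp only [List.length_append, rl_length, List.length_cons] at hlen ⊢
    omega

end Pool.Agent.Bondy
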