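import Pool.Agent.Bondy.Nice
import Pool.Agent.Bondy.Walks

/-! # No cuts inside nice circuits -/

set_option autoImplicit false

namespace Pool.Agent.Bondy

open Set

variable {V E : Type}

/-! ### Auxiliary facts on closed walks -/

namespace CutsAux

theorem walk_maps {inc : E → Bool → V} {u w : V} {l : List (E × Bool)} (h : Walk inc u l w) :
    l.map (tl inc) ++ [w] = u :: l.map (hd inc) := by
  induction l generalizing u with
  | nil => simpa using h.symm
  | cons d l ih =>
    have h2 := ih h.2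
    rw [List.map_cons, List.cons_append, h2, h.1, List.map_cons]

theorem closed_maps_perm {inc : E → Bool → V} {u : V} {l : List (E × Bool)}
    (h : Walk inc u l u) : (l.map (hd inc)).Perm (l.map (tl inc)) := by
  have h1 := walk_maps h
  have h2 : (u :: l.map (hd inc)).Perm (u :: l.map (tl inc)) := by
    rw [← h1]
    exact List.perm_append_singleton u _
  exact (List.perm_cons u).1 h2

theorem closed_hd_mem {inc : E → Bool → V} {u : V} {l : List (E × Bool)}
    (h : Walk inc u l u) {d : E × Bool} (hd' : d ∈ l) : hd inc d ∈ vsupp inc l := by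
  have h1 : hd inc d ∈ l.map (hd inc) := List.mem_map_of_mem hd'
  rw [(closed_maps_perm h).mem_iff, List.mem_map] at h1
  exact h1

theorem closed_end_mem {inc : E → Bool → V} {u : V} {l : List (E × Bool)}
    (h : Walk inc u l u) {e : E} (he : e ∈ esupp l) (b : Bool) : inc e b ∈ vsupp inc l := by
  obtain ⟨d, hd', rfl⟩ := he
  rcases eq_or_eq_rv (d := d) (d' := (d.1, b)) rfl with h1 | h1
  · refine ⟨d, hd', ?_⟩
    rw [← h1]
    rfl
  · have h2 := closed_hd_mem h hd'
    rw [← tl_rv, ← h1] at h2
    exact h2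

theorem cntE_le_one {l : List (E × Bool)} (h : (l.map Prod.fst).Nodup) (e : E) :
    cntE l e ≤ 1 := by
  classical
  have h1 : cntE l e = (l.map Prod.fst).count e := by
    unfold cntE List.count
    rw [List.countP_map]
    congr 1
  rw [h1]
  exact List.nodup_iff_count_le_one.1 h e

/-- At a vertex of a circuit at most two half-edges belong to the circuit. -/
theorem exists_third [Fintype V] [Fintype E] {inc : E → Bool → V} {u : V} {l : List (E × Bool)}
    (h : Walk inc u l u) (hn : (l.map (tl inc)).Nodup) (p : V) (hp : deg inc p = 3) :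
    ∃ d : E × Bool, tl inc d = p ∧ d.1 ∉ esupp l := by
  by_contra hcon
  push Not at hcon
  have hn' : (l.map (hd inc)).Nodup := (closed_maps_perm h).nodup_iff.2 hn
  have h1 : {d : E × Bool | d ∈ l ∧ tl inc d = p}.ncard ≤ 1 := by
    rw [Set.ncard_le_one]
    rintro a ⟨ha, ha'⟩ b ⟨hb, hb'⟩
    exact List.inj_on_of_nodup_map hn ha hb (ha'.trans hb'.symm)
  have h2 : {d : E × Bool | rv d ∈ l ∧ tl inc d = p}.ncard ≤ 1 := by
    rw [Set.ncard_le_one]
    rintro a ⟨ha, ha'⟩ b ⟨hb, hb'⟩
    apply rv_injective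
    apply List.inj_on_of_nodup_map hn' ha hb
    rw [hd_rv, hd_rv]
    exact ha'.trans hb'.symm
  have h3 : {h : E × Bool | inc h.1 h.2 = p} ⊆
      {d : E × Bool | d ∈ l ∧ tl inc d = p} ∪ {d : E × Bool | rv d ∈ l ∧ tl inc d = p} := by
    intro d hd'
    obtain ⟨d', hd1, hd2⟩ := hcon d hd'
    rcases eq_or_eq_rv hd2 with h4 | h4
    · left
      exact ⟨h4 ▸ hd1, hd'⟩
    · right
      refine ⟨?_, hd'⟩
      rw [h4, rv_rv]
      exact hd1
  have h4 := (Set.ncard_le_ncard h3).trans (Set.ncard_union_le _ _)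
  unfold deg at hp
  omega

/-- the arc between two positions -/
theorem arc_pos {inc : E → Bool → V} {u : V} {l : List (E × Bool)}
    (h : Walk inc u l u) (hn : (l.map Prod.fst).Nodup) {i j : ℕ} {d d' : E × Bool}
    (hij : i < j) (hi : l[i]? = some d) (hj : l[j]? = some d') :
    Walk inc (tl inc d) ((l.take j).drop i) (tl inc d') ∧
    Walk inc (tl inc d') (l.drop j ++ l.take i) (tl inc d) ∧
    (∃ e, cntE ((l.take j).drop i) e = 1) ∧ (∃ e, cntE (l.drop j ++ l.take i) e = 1) := by
  have hjl : j < l.length := by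
    by_contra hc
    rw [List.getElem?_eq_none (by omega)] at hj
    exact absurd hj (by simp)
  obtain ⟨v, h1, h2⟩ := walk_split h i
  obtain ⟨v', h3, h4⟩ := walk_split h j
  have hv : tl inc d = v := h2.head (by rw [List.head?_drop, hi]; rfl)
  have hv' : tl inc d' = v' := h4.head (by rw [List.head?_drop, hj]; rfl)
  subst hv hv'
  obtain ⟨v2, h5, h6⟩ := walk_split h3 i
  rw [List.take_take, min_eq_left hij.le] at h5
  have hv2 := h5.unique_end h1
  subst hv2
  refine ⟨h6, walk_append.2 ⟨u, h4, h1⟩, ?_, ?_⟩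
  · have hd' : d ∈ (l.take j).drop i := by
      rw [List.mem_iff_getElem?]
      refine ⟨0, ?_⟩
      rw [List.getElem?_drop, add_zero, List.getElem?_take_of_lt hij, hi]
    refine ⟨d.1, le_antisymm ?_ (cntE_pos.2 ⟨d, hd', rfl⟩)⟩
    refine le_trans ?_ (cntE_le_one hn d.1)
    conv_rhs => rw [← List.take_append_drop j l, cntE_append, ← List.take_append_drop i (l.take j),
      cntE_append]
    omega
  · have hd' : d' ∈ l.drop j := by
      rw [List.mem_iff_getElem?]
      refine ⟨0, ?_⟩
      rw [List.getElem?_drop, add_zero, hj]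
    refine ⟨d'.1, le_antisymm ?_ (cntE_pos.2 ⟨d', List.mem_append_left _ hd', rfl⟩)⟩
    refine le_trans ?_ (cntE_le_one hn d'.1)
    conv_rhs => rw [← List.take_append_drop j l, cntE_append, ← List.take_append_drop i (l.take j),
      cntE_append, List.take_take, min_eq_left hij.le]
    rw [cntE_append]
    omega

theorem esupp_mono {l l' : List (E × Bool)} (h : l ⊆ l') : esupp l ⊆ esupp l' :=
  fun _ ⟨d, hd', he⟩ => ⟨d, h hd', he⟩

/-- two vertices of a nice circuit at distance at most `g` are joined by a short arc -/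
theorem arc_exists {inc : E → Bool → V} {R' : Set V} {g L : ℕ} {l : List (E × Bool)}
    (hl : NiceIn inc R' g L l) (hn : (l.map Prod.fst).Nodup) {p p1 : V}
    (hp : p ∈ vsupp inc l) (hp1 : p1 ∈ vsupp inc l) {q : List (E × Bool)}
    (hq : Walk inc p q p1) (hlen : q.length ≤ g) :
    ∃ α, Walk inc p α p1 ∧ α.length ≤ g ∧ esupp α ⊆ esupp l ∧ (p ≠ p1 → ∃ e, cntE α e = 1) := by
  obtain ⟨hne, hL, ⟨-, hc, ⟨u, hu⟩, hR⟩, hnice⟩ := hl
  have key : ∀ (p p1 : V) (i j : ℕ) (d d' : E × Bool) (q : List (E × Bool)), i < j →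
      l[i]? = some d → l[j]? = some d' → tl inc d = p → tl inc d' = p1 → Walk inc p q p1 →
      q.length ≤ g →
      ∃ α, Walk inc p α p1 ∧ α.length ≤ g ∧ esupp α ⊆ esupp l ∧ ∃ e, cntE α e = 1 := by
    intro p p1 i j d d' q hij hi hj hdp hdp1 hq hlen
    subst hdp hdp1
    obtain ⟨h1, h2, h3, h4⟩ := arc_pos hu hn hij hi hj
    have hjl : j < l.length := by
      by_contra hc
      rw [List.getElem?_eq_none (by omega)] at hj
      exact absurd hj (by simp)
    by_cases h5 : j - i ≤ g
    · refine ⟨_, h1, ?_, ?_, h3⟩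
      · rw [List.length_drop, List.length_take]
        omega
      · exact esupp_mono fun x hx => List.mem_of_mem_take (List.mem_of_mem_drop hx)
    · by_cases h6 : l.length - (j - i) ≤ g
      · refine ⟨rl (l.drop j ++ l.take i), h2.rev, ?_, ?_, ?_⟩
        · rw [rl_length, List.length_append, List.length_drop, List.length_take]
          omega
        · intro e he
          rw [← cntE_pos, cntE_rl, cntE_pos] at he
          refine esupp_mono ?_ he
          intro x hx
          rcases List.mem_append.1 hx with hx | hx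
          · exact List.mem_of_mem_drop hx
          · exact List.mem_of_mem_take hx
        · obtain ⟨e, he⟩ := h4
          exact ⟨e, by rw [cntE_rl, he]⟩
      · exact absurd (hnice i j d d' hij hi hj (by omega) (by omega) q hq) (by omega)
  obtain ⟨d, hd1, hd2⟩ := hp
  obtain ⟨d', hd1', hd2'⟩ := hp1
  obtain ⟨i, hi⟩ := List.mem_iff_getElem?.1 hd1
  obtain ⟨j, hj⟩ := List.mem_iff_getElem?.1 hd1'
  rcases lt_trichotomy i j with hij | hij | hij
  · obtain ⟨α, h1, h2, h3, h4⟩ := key p p1 i j d d' q hij hi hj hd2 hd2' hq hlen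
    exact ⟨α, h1, h2, h3, fun _ => h4⟩
  · subst hij
    have h1 : d = d' := by
      rw [hi] at hj
      exact Option.some.inj hj
    subst h1
    have h2 : p = p1 := hd2.symm.trans hd2'
    subst h2
    refine ⟨[], rfl, Nat.zero_le _, ?_, fun h => absurd rfl h⟩
    rintro e ⟨x, hx, -⟩
    exact absurd hx (by simp)
  · obtain ⟨α, h1, h2, h3, e, h4⟩ := key p1 p j i d' d (rl q) hij hj hi hd2' hd2 hq.rev
      (by rw [rl_length]; exact hlen)
    refine ⟨rl α, h1.rev, by rw [rl_length]; exact h2, ?_, fun _ => ⟨e, by rw [cntE_rl, h4]⟩⟩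
    intro e he
    rw [← cntE_pos, cntE_rl, cntE_pos] at he
    exact h3 he

/-- a walk without edges in the cut of `X` stays in `X` -/
theorem walk_stays {inc : E → Bool → V} {X : Set V} {u w : V} {l : List (E × Bool)}
    (h : Walk inc u l w) (hu : u ∈ X) (hX : ∀ d ∈ l, d.1 ∉ cutE inc X) : w ∈ X := by
  induction l generalizing u with
  | nil =>
    have : u = w := h
    exact this ▸ hu
  | cons d l ih =>
    refine ih h.2 ?_ fun d' hd' => hX d' (List.mem_cons_of_mem _ hd')
    by_contra hc
    apply hX d List.mem_cons_self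
    refine ⟨d.2, ?_, hc⟩
    have := h.1
    unfold tl at this
    rw [this]
    exact hu

/-! ### The leg argument -/

theorem vsupp_sub {inc : E → Bool → V} {R' : Set V} {g L : ℕ}
    {l : List (E × Bool)} (hl : NiceIn inc R' g L l) {p : V}
    (hp : p ∈ vsupp inc l) : p ∈ R' := by
  obtain ⟨d, hd1, rfl⟩ := hp
  exact hl.2.2.1.2.2.2 d hd1

theorem near_D_sub [Fintype V] [Fintype E] {inc : E → Bool → V} {R R' : Set V} {a g D L : ℕ}
    (h : Ctx inc R R' a g D L) : near inc R' D ⊆ R := by
  refine (near_mono inc (subset_refl _) ?_).trans h.near_sub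
  have := h.hD
  omega

theorem same_circuit [Fintype V] [Fintype E] {inc : E → Bool → V} {R R' : Set V} {a g D L : ℕ}
    (h : Ctx inc R R' a g D L) {l : List (E × Bool)} (hl : NiceIn inc R' g L l) {p p1 : V}
    (hp : p ∈ vsupp inc l) (hp1 : p1 ∈ vsupp inc l) {w : List (E × Bool)}
    (hw : Walk inc p w p1) (hr : Red w) (hne : w ≠ []) (hlen : w.length ≤ D)
    (hA : ∀ d ∈ w, d.1 ∉ esupp l) : False := by
  have hD := h.hD
  have hg := h.hg
  have hpR : p ∈ R := h.near_sub (subset_near _ _ _ (vsupp_sub hl hp))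
  obtain ⟨-, hn, -, -⟩ := nice_basic h hl
  by_cases hpp : p = p1
  · subst hpp
    apply hne
    refine nb_unique h.tree hpR hw hr (rfl : Walk inc p [] p) red_nil ?_
    simp only [List.length_nil]
    omega
  · obtain ⟨α, h1, h2, h3, h4⟩ := arc_exists hl hn hp hp1 hw (by omega)
    obtain ⟨e, he⟩ := h4 hpp
    have h5 := h.tree p hpR (α ++ rl w) (walk_append.2 ⟨p1, h1, hw.rev⟩)
      (by rw [List.length_append, rl_length]; omega) e
    have h6 : cntE w e = 0 := by
      rw [cntE_eq_zero]
      rintro ⟨d, hd1, rfl⟩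
      exact hA d hd1 (h3 (cntE_pos.1 (by omega)))
    rw [cntE_append, cntE_rl, he, h6] at h5
    exact absurd h5 (by decide)

theorem card_esupp_le [Fintype V] [Fintype E] {inc : E → Bool → V} {R R' : Set V} {a g D L : ℕ}
    (h : Ctx inc R R' a g D L) {l l' : List (E × Bool)} (hl : NiceIn inc R' g L l)
    (hl' : NiceIn inc R' g L l') : (esupp l ∪ esupp l').ncard ≤ 2 * L := by
  have h1 := (nice_basic h hl).1
  have h2 := (nice_basic h hl').1
  have h3 := Set.ncard_union_le (esupp l) (esupp l')
  have h4 := hl.2.1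
  have h5 := hl'.2.1
  omega

theorem card_small [Fintype V] [Fintype E] {inc : E → Bool → V} {R R' : Set V} {a g D L : ℕ}
    (h : Ctx inc R R' a g D L) {l l' : List (E × Bool)} (hl : NiceIn inc R' g L l)
    (hl' : NiceIn inc R' g L l') {X : Set V} (hX : 2 * X.ncard ≤ Nat.card V)
    (hcut : cutE inc X ⊆ esupp l ∪ esupp l') : X.ncard ≤ 48 * L ^ 2 := by
  have h1 := h.sep X hX
  have h2 : (cutE inc X).ncard ≤ 2 * L := (Set.ncard_le_ncard hcut).trans (card_esupp_le h hl hl')
  have h3 : (cutE inc X).ncard ^ 2 ≤ (2 * L) ^ 2 := Nat.pow_le_pow_left h2 2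
  calc X.ncard ≤ 12 * (cutE inc X).ncard ^ 2 := h1
    _ ≤ 12 * (2 * L) ^ 2 := Nat.mul_le_mul_left _ h3
    _ = 48 * L ^ 2 := by ring

theorem leg [Fintype V] [Fintype E] {inc : E → Bool → V} {R R' : Set V} {a g D L : ℕ}
    (h : Ctx inc R R' a g D L) {l l' : List (E × Bool)} (hl : NiceIn inc R' g L l)
    (hl' : NiceIn inc R' g L l') (hdisj : l = l' ∨ Disjoint (vsupp inc l) (vsupp inc l'))
    {X : Set V} (hX0 : X.Nonempty) (hX : 2 * X.ncard ≤ Nat.card V)
    (hcut : cutE inc X ⊆ esupp l ∪ esupp l') :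
    ∃ (p p1 : V) (w : List (E × Bool)), p ∈ X ∧ p1 ∈ X ∧ Walk inc p w p1 ∧ Red w ∧ w ≠ [] ∧
      w.length ≤ D ∧ (∀ d ∈ w, d.1 ∉ esupp l ∪ esupp l') ∧
      p ∈ vsupp inc l ∪ vsupp inc l' ∧ p1 ∈ vsupp inc l ∪ vsupp inc l' := by
  classical
  have hD := h.hD
  have hg := h.hg
  have hD1 := h.hD1
  have hcl : ∀ {e : E}, e ∈ esupp l → ∀ b, inc e b ∈ vsupp inc l := by
    intro e he b
    obtain ⟨u, hu⟩ := hl.2.2.1.2.2.1
    exact closed_end_mem hu he b
  have hcl' : ∀ {e : E}, e ∈ esupp l' → ∀ b, inc e b ∈ vsupp inc l' := by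
    intro e he b
    obtain ⟨u, hu⟩ := hl'.2.2.1.2.2.1
    exact closed_end_mem hu he b
  set A := esupp l ∪ esupp l' with hA
  set C := vsupp inc l ∪ vsupp inc l' with hC
  have hAC : ∀ e ∈ A, ∀ b, inc e b ∈ C := by
    rintro e (he | he) b
    · exact Or.inl (hcl he b)
    · exact Or.inr (hcl' he b)
  have hCR : C ⊆ R' := by
    rintro v (hv | hv)
    · exact vsupp_sub hl hv
    · exact vsupp_sub hl' hv
  -- a vertex of X on a circuit
  obtain ⟨p, hpX, hpC⟩ : ∃ p, p ∈ X ∧ p ∈ C := by
    have h1 : 0 < (cutE inc X).ncard := by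
      by_contra hc
      have h2 := h.sep X hX
      have h3 : (cutE inc X).ncard = 0 := by omega
      rw [h3] at h2
      have h4 : 0 < X.ncard := (Set.ncard_pos).2 hX0
      simp at h2
      simp [h2] at h4
    obtain ⟨e, he⟩ := (Set.ncard_pos).1 h1
    obtain ⟨b, hb, -⟩ := id he
    exact ⟨inc e b, hb, hAC e (hcut he) b⟩
  -- the third dart
  obtain ⟨d0, hd0, hd0A⟩ : ∃ d : E × Bool, tl inc d = p ∧ d.1 ∉ A := by
    have hp3 : deg inc p = 3 := h.deg_eq p (h.near_sub (subset_near _ _ _ (hCR hpC)))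
    rcases hdisj with rfl | hdisj
    · obtain ⟨u, hu⟩ := hl.2.2.1.2.2.1
      obtain ⟨d, h1, h2⟩ := exists_third hu (nice_basic h hl).2.2.1 p hp3
      refine ⟨d, h1, ?_⟩
      rintro (h3 | h3) <;> exact h2 h3
    · rcases hpC with hpl | hpl
      · obtain ⟨u, hu⟩ := hl.2.2.1.2.2.1
        obtain ⟨d, h1, h2⟩ := exists_third hu (nice_basic h hl).2.2.1 p hp3
        refine ⟨d, h1, ?_⟩
        rintro (h3 | h3)
        · exact h2 h3
        · have h4 := hcl' h3 d.2
          have h5 : inc d.1 d.2 = p := h1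
          rw [h5] at h4
          exact Set.disjoint_left.1 hdisj hpl h4
      · obtain ⟨u, hu⟩ := hl'.2.2.1.2.2.1
        obtain ⟨d, h1, h2⟩ := exists_third hu (nice_basic h hl').2.2.1 p hp3
        refine ⟨d, h1, ?_⟩
        rintro (h3 | h3)
        · have h4 := hcl h3 d.2
          have h5 : inc d.1 d.2 = p := h1
          rw [h5] at h4
          exact Set.disjoint_left.1 hdisj h4 hpl
        · exact h2 h3
  by_contra hcon
  push Not at hcon
  -- the walks starting at p outside A
  let S : ℕ → Set (List (E × Bool)) := fun n =>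
    {w | w.length = n ∧ Red w ∧ (∃ v, Walk inc p w v) ∧ ∀ d ∈ w, d.1 ∉ A}
  have hfin : ∀ n, (S n).Finite := fun n => finite_lists n _
  have hinX : ∀ n, ∀ w ∈ S n, ∀ v, Walk inc p w v → v ∈ X := by
    rintro n w ⟨-, -, -, hwA⟩ v hv
    exact walk_stays hv hpX fun d hd' hc => hwA d hd' (hcut hc)
  have hnC : ∀ n, 1 ≤ n → n ≤ D → ∀ w ∈ S n, ∀ v, Walk inc p w v → v ∉ C := by
    intro n hn1 hnD w hw v hv hvC
    have h1 := hinX n w hw v hv
    obtain ⟨hlen, hred, -, hwA⟩ := hw
    refine hcon p v w hpX h1 hv hred ?_ (hlen ▸ hnD) hwA hpC hvC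
    rintro rfl
    simp at hlen
    omega
  have hbound : ∀ n, n + 1 ≤ D → 2 ^ n ≤ (S (n + 1)).ncard := by
    intro n
    induction n with
    | zero =>
      intro _
      have h1 : [d0] ∈ S 1 := by
        refine ⟨rfl, red_singleton _, ⟨_, hd0, rfl⟩, ?_⟩
        intro d hd'
        rw [List.mem_singleton] at hd'
        subst hd'
        exact hd0A
      rw [pow_zero]
      exact (Set.ncard_pos (hfin _)).2 ⟨_, h1⟩
    | succ n ih =>
      intro hnD
      have h1 := ih (by omega)
      have h2 : 2 * (S (n + 1)).ncard ≤ (S (n + 1 + 1)).ncard := by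
        rw [Set.ncard_eq_toFinset_card _ (hfin _), Set.ncard_eq_toFinset_card _ (hfin _)]
        refine Finset.mul_card_image_le_card_of_maps_to (f := List.dropLast) ?_ 2 ?_
        · intro w hw
          rw [Set.Finite.mem_toFinset] at hw ⊢
          obtain ⟨hlen, hred, ⟨v, hv⟩, hwA⟩ := hw
          rcases List.eq_nil_or_concat w with rfl | ⟨w', d', rfl⟩
          · simp at hlen
          · rw [List.concat_eq_append] at *
            rw [List.dropLast_concat] at *
            refine ⟨by simpa using hlen, hred.of_append_left, ⟨_, (walk_snoc.1 hv).1⟩, ?_⟩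
            intro d hd'
            exact hwA d (List.mem_append_left _ hd')
        · intro w hw
          rw [Set.Finite.mem_toFinset] at hw
          have hw' := hw
          obtain ⟨hlen, hred, ⟨v, hv⟩, hwA⟩ := hw
          have hvC := hnC (n + 1) (by omega) (by omega) w hw' v hv
          have hvR : v ∈ R := near_D_sub h (hv.mem_near (hCR hpC) (by omega))
          have h3 := h.deg_eq v hvR
          obtain ⟨w', x, rfl⟩ : ∃ w' x, w = w' ++ [x] := by
            rcases List.eq_nil_or_concat w with rfl | ⟨w', d', rfl⟩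
            · simp at hlen
            · exact ⟨w', d', by rw [List.concat_eq_append]⟩
          let Q : Set (E × Bool) := {d | inc d.1 d.2 = v} \ {rv x}
          have hQ : 2 ≤ Q.ncard := by
            have h4 : rv x ∈ {d : E × Bool | inc d.1 d.2 = v} := by
              have h5 := (walk_snoc.1 hv).2
              exact h5
            have h5 := Set.ncard_sdiff_singleton_of_mem h4
            have h6 : {d : E × Bool | inc d.1 d.2 = v}.ncard = 3 := h3
            rw [h6] at h5
            show 2 ≤ ({d : E × Bool | inc d.1 d.2 = v} \ {rv x}).ncard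
            rw [h5]
          have h7 : (fun d => (w' ++ [x]) ++ [d]) '' Q ⊆
              (({w ∈ (hfin (n + 1 + 1)).toFinset | w.dropLast = w' ++ [x]} : Finset _) :
                Set (List (E × Bool))) := by
            rintro _ ⟨d, ⟨hd1, hd2⟩, rfl⟩
            simp only [Finset.coe_filter, Set.Finite.mem_toFinset, Set.mem_ofPred_eq,
              List.dropLast_concat, and_true]
            refine ⟨by simpa using hlen, ?_, ⟨hd inc d, ?_⟩, ?_⟩
            · rw [red_append]
              refine ⟨hred, red_singleton _, ?_⟩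
              intro y hy z hz
              simp only [List.getLast?_append, List.getLast?_singleton, Option.some_or,
                Option.mem_def, Option.some.injEq] at hy
              simp only [List.head?_cons, Option.mem_def, Option.some.injEq] at hz
              subst hy hz
              exact hd2
            · rw [walk_snoc]
              refine ⟨?_, rfl⟩
              have : tl inc d = v := hd1
              rw [this]
              exact hv
            · intro y hy
              rcases List.mem_append.1 hy with hy | hy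
              · exact hwA y hy
              · rw [List.mem_singleton] at hy
                subst hy
                intro hyA
                apply hvC
                have := hAC _ hyA y.2
                have h8 : inc y.1 y.2 = v := hd1
                rw [h8] at this
                exact this
          have h8 : Q.ncard ≤ ((fun d => (w' ++ [x]) ++ [d]) '' Q).ncard := by
            rw [Set.ncard_image_of_injective]
            intro y z hyz
            simpa using hyz
          have h9 := Set.ncard_le_ncard h7 (Finset.finite_toSet _)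
          rw [Set.ncard_coe_finset] at h9
          omega
      calc 2 ^ (n + 1) = 2 * 2 ^ n := by ring
        _ ≤ 2 * (S (n + 1)).ncard := Nat.mul_le_mul_left _ h1
        _ ≤ _ := h2
  have h1 := hbound (D - 1) (by omega)
  rw [show D - 1 + 1 = D by omega] at h1
  -- the end map is injective
  have h2 : (S D).ncard ≤ X.ncard := by
    have hex : ∀ w : List (E × Bool), ∃ v, w ∈ S D → Walk inc p w v := by
      intro w
      by_cases hw : w ∈ S D
      · obtain ⟨-, -, ⟨v, hv⟩, -⟩ := id hw
        exact ⟨v, fun _ => hv⟩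
      · exact ⟨p, fun hc => absurd hc hw⟩
    choose f hf using hex
    refine Set.ncard_le_ncard_of_injOn f ?_ ?_ (Set.toFinite _)
    · intro w hw
      exact hinX D w hw _ (hf w hw)
    · intro w hw w' hw' hff
      have h3 := hf w hw
      have h4 := hf w' hw'
      rw [← hff] at h4
      have hpR : p ∈ R := h.near_sub (subset_near _ _ _ (hCR hpC))
      refine nb_unique h.tree hpR h3 hw.2.1 h4 hw'.2.1 ?_
      rw [hw.1, hw'.1]
      omega
  have h3 := card_small h hl hl' hX hcut
  have h4 := h.hDL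
  omega

/-! ### Cuts as vertex sets -/

theorem cutE_compl (inc : E → Bool → V) (X : Set V) : cutE inc Xᶜ = cutE inc X := by
  ext e
  constructor
  · rintro ⟨b, h1, h2⟩
    refine ⟨!b, ?_, ?_⟩
    · by_contra hc
      exact h2 hc
    · rw [Bool.not_not]
      exact h1
  · rintro ⟨b, h1, h2⟩
    refine ⟨!b, h2, ?_⟩
    rw [Bool.not_not]
    exact fun hc => hc h1

theorem mem_cutE_iff (inc : E → Bool → V) (X : Set V) (e : E) :
    e ∈ cutE inc X ↔ ¬ (inc e false ∈ X ↔ inc e true ∈ X) := by
  constructor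
  · rintro ⟨b, h1, h2⟩
    cases b
    · simp only [Bool.not_false] at h2
      tauto
    · simp only [Bool.not_true] at h2
      tauto
  · intro h
    by_cases h1 : inc e false ∈ X
    · refine ⟨false, h1, ?_⟩
      simp only [Bool.not_false]
      tauto
    · refine ⟨true, ?_, ?_⟩
      · tauto
      · simp only [Bool.not_true]
        exact h1

theorem cutE_symmDiff_sub (inc : E → Bool → V) (X Y : Set V) :
    cutE inc (symmDiff X Y) ⊆ cutE inc X ∪ cutE inc Y := by
  intro e he
  rw [Set.mem_union, mem_cutE_iff, mem_cutE_iff]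
  rw [mem_cutE_iff] at he
  simp only [Set.mem_symmDiff] at he
  tauto

theorem exists_side [Fintype V] [Fintype E] {inc : E → Bool → V} {A : Set E} {c : E → ZMod 2}
    (hc : c ∈ cutsIn inc A) :
    ∃ X : Set V, 2 * X.ncard ≤ Nat.card V ∧ cutE inc X ⊆ A ∧
      ∀ e, c e = 0 ↔ e ∉ cutE inc X := by
  obtain ⟨⟨U, rfl⟩, hA⟩ := hc
  have h1 : ∀ e, cutV inc U e = 0 ↔ e ∉ cutE inc {v | U v = 1} := by
    intro e
    rw [mem_cutE_iff, not_not]
    unfold cutV
    rw [zmod2_add_eq_zero]
    simp only [Set.mem_ofPred_eq]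
    rcases zmod2_cases (U (inc e false)) with h1 | h1 <;>
      rcases zmod2_cases (U (inc e true)) with h2 | h2 <;> simp [h1, h2]
  have h2 : cutE inc {v | U v = 1} ⊆ A := by
    intro e he
    by_contra hc
    exact (h1 e).1 (hA e hc) he
  by_cases h3 : 2 * {v | U v = 1}.ncard ≤ Nat.card V
  · exact ⟨_, h3, h2, h1⟩
  · refine ⟨{v | U v = 1}ᶜ, ?_, ?_, ?_⟩
    · have := Set.ncard_add_ncard_compl {v | U v = 1}
      omega
    · rw [cutE_compl]
      exact h2
    · rw [cutE_compl]
      exact h1

theorem zero_mem_cutsIn (inc : E → Bool → V) (A : Set E) : (0 : E → ZMod 2) ∈ cutsIn inc A := by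
  refine ⟨⟨0, ?_⟩, fun _ _ => rfl⟩
  funext e
  simp [cutV]

theorem cuts_of_no_leg [Fintype V] [Fintype E] {inc : E → Bool → V} {A : Set E}
    (h : ∀ X : Set V, X.Nonempty → 2 * X.ncard ≤ Nat.card V → cutE inc X ⊆ A → False) :
    cutsIn inc A = {0} := by
  ext c
  rw [Set.mem_singleton_iff]
  constructor
  · intro hc
    obtain ⟨X, h1, h2, h3⟩ := exists_side hc
    rcases X.eq_empty_or_nonempty with rfl | hX
    · funext e
      rw [Pi.zero_apply, h3]
      rintro ⟨b, hb, -⟩
      exact hb
    · exact absurd (h X hX h1 h2) id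
  · rintro rfl
    exact zero_mem_cutsIn inc A

end CutsAux

open CutsAux

theorem cuts_single [Fintype V] [Fintype E] {inc : E → Bool → V} {R R' : Set V} {a g D L : ℕ}
    (h : Ctx inc R R' a g D L) {l : List (E × Bool)} (hl : NiceIn inc R' g L l) :
    cutsIn inc (esupp l) = {0} := by
  apply cuts_of_no_leg
  intro X h1 h2 h3
  obtain ⟨p, p1, w, -, -, hw, hr, hne, hlen, hA, hp, hp1⟩ :=
    leg h hl hl (Or.inl rfl) h1 h2 (h3.trans Set.subset_union_left)
  rw [Set.union_self] at hp hp1 hA
  exact same_circuit h hl hp hp1 hw hr hne hlen hA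

theorem cuts_far [Fintype V] [Fintype E] {inc : E → Bool → V} {R R' : Set V} {a g D L : ℕ}
    (h : Ctx inc R R' a g D L) {l l' : List (E × Bool)} (hl : NiceIn inc R' g L l)
    (hl' : NiceIn inc R' g L l') (hdisj : Disjoint (vsupp inc l) (vsupp inc l'))
    (hfar : ∀ u ∈ vsupp inc l, ∀ v ∈ vsupp inc l', ∀ q, Walk inc u q v → D < q.length) :
    cutsIn inc (esupp l ∪ esupp l') = {0} := by
  apply cuts_of_no_leg
  intro X h1 h2 h3
  obtain ⟨p, p1, w, -, -, hw, hr, hne, hlen, hA, hp, hp1⟩ :=
    leg h hl hl' (Or.inr hdisj) h1 h2 h3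
  rcases hp with hp | hp <;> rcases hp1 with hp1 | hp1
  · exact same_circuit h hl hp hp1 hw hr hne hlen fun d hd' hc => hA d hd' (Or.inl hc)
  · exact absurd (hfar p hp p1 hp1 w hw) (by omega)
  · exact absurd (hfar p1 hp1 p hp (rl w) hw.rev) (by rw [rl_length]; omega)
  · exact same_circuit h hl' hp hp1 hw hr hne hlen fun d hd' hc => hA d hd' (Or.inr hc)

/-- contact vertices are spread out on the second circuit -/
theorem CutsAux.contacts_spread [Fintype V] [Fintype E] {inc : E → Bool → V} {R R' : Set V}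
    {a g D L : ℕ} (h : Ctx inc R R' a g D L) {l l' : List (E × Bool)}
    (hl : NiceIn inc R' g L l) (hl' : NiceIn inc R' g L l')
    (hdisj : Disjoint (vsupp inc l) (vsupp inc l')) {i j : ℕ} {d d' : E × Bool}
    (hij : i < j) (hi : l'[i]? = some d) (hj : l'[j]? = some d') (hji : j - i ≤ g - 2 * D)
    {p q : V} (hp : p ∈ vsupp inc l) (hq : q ∈ vsupp inc l) {w w' : List (E × Bool)}
    (hw : Walk inc (tl inc d) w p) (hw' : Walk inc (tl inc d') w' q) (hlen : w.length ≤ D)
    (hlen' : w'.length ≤ D) (hA : ∀ d ∈ w, d.1 ∉ esupp l ∪ esupp l')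
    (hA' : ∀ d ∈ w', d.1 ∉ esupp l ∪ esupp l') : False := by
  have hD := h.hD
  have hg := h.hg
  obtain ⟨u', hu'⟩ := hl'.2.2.1.2.2.1
  obtain ⟨u, hu⟩ := hl.2.2.1.2.2.1
  obtain ⟨-, hn, -, -⟩ := nice_basic h hl
  obtain ⟨-, hn', -, -⟩ := nice_basic h hl'
  have hjl : j < l'.length := by
    by_contra hc
    rw [List.getElem?_eq_none (by omega)] at hj
    exact absurd hj (by simp)
  obtain ⟨h1, -, ⟨e, he⟩, -⟩ := arc_pos hu' hn' hij hi hj
  set β := (l'.take j).drop i with hβ
  have hβl : β.length = j - i := by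
    rw [hβ, List.length_drop, List.length_take]
    omega
  have hβs : esupp β ⊆ esupp l' :=
    esupp_mono fun x hx => List.mem_of_mem_take (List.mem_of_mem_drop hx)
  have h2 : Walk inc p (rl w ++ (β ++ w')) q :=
    walk_append.2 ⟨_, hw.rev, walk_append.2 ⟨_, h1, hw'⟩⟩
  obtain ⟨α, h3, h4, h5, -⟩ := arc_exists hl hn hp hq h2
    (by simp only [List.length_append, rl_length]; omega)
  have hpR : tl inc d ∈ R := by
    refine h.near_sub (subset_near _ _ _ (vsupp_sub hl' ⟨d, ?_, rfl⟩))
    exact List.mem_iff_getElem?.2 ⟨i, hi⟩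
  have h6 := h.tree _ hpR (β ++ (w' ++ (rl α ++ rl w)))
    (walk_append.2 ⟨_, h1, walk_append.2 ⟨_, hw', walk_append.2 ⟨_, h3.rev, hw.rev⟩⟩⟩)
    (by simp only [List.length_append, rl_length]; omega) e
  have heA : e ∈ esupp l' := hβs (cntE_pos.1 (by omega))
  have h7 : cntE w e = 0 := by
    rw [cntE_eq_zero]
    rintro ⟨x, hx, rfl⟩
    exact hA x hx (Or.inr heA)
  have h8 : cntE w' e = 0 := by
    rw [cntE_eq_zero]
    rintro ⟨x, hx, rfl⟩
    exact hA' x hx (Or.inr heA)
  have h9 : cntE α e = 0 := by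
    rw [cntE_eq_zero]
    intro hc
    exact Set.disjoint_left.1 hdisj (closed_end_mem hu (h5 hc) true)
      (closed_end_mem hu' heA true)
  rw [cntE_append, cntE_append, cntE_append, cntE_rl, cntE_rl, he, h7, h8, h9] at h6
  exact absurd h6 (by decide)

theorem cuts_near [Fintype V] [Fintype E] {inc : E → Bool → V} {R R' : Set V} {a g D L : ℕ}
    (h : Ctx inc R R' a g D L) {l l' : List (E × Bool)} (hl : NiceIn inc R' g L l)
    (hl' : NiceIn inc R' g L l') (hdisj : Disjoint (vsupp inc l) (vsupp inc l')) :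
    (cutsIn inc (esupp l ∪ esupp l')).ncard ≤ 2 ^ (L / (g - 2 * D) + 1) := by
  classical
  have hD := h.hD
  have hg := h.hg
  have hD1 := h.hD1
  have hgD : 0 < g - 2 * D := by omega
  set A := esupp l ∪ esupp l' with hA
  -- contact vertices
  let P : Set V := {p' | p' ∈ vsupp inc l' ∧ ∃ q ∈ vsupp inc l, ∃ w, Walk inc p' w q ∧
    w.length ≤ D ∧ ∀ d ∈ w, d.1 ∉ A}
  have hP : P.ncard ≤ L / (g - 2 * D) + 1 := by
    have hex : ∀ p' : V, ∃ i : ℕ, p' ∈ vsupp inc l' → ∃ d, l'[i]? = some d ∧ tl inc d = p' := by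
      intro p'
      by_cases hp' : p' ∈ vsupp inc l'
      · obtain ⟨d, hd1, hd2⟩ := id hp'
        obtain ⟨i, hi⟩ := List.mem_iff_getElem?.1 hd1
        exact ⟨i, fun _ => ⟨d, hi, hd2⟩⟩
      · exact ⟨0, fun hc => absurd hc hp'⟩
    choose pos hpos using hex
    have h1 : P.ncard ≤ (Set.Iio (L / (g - 2 * D) + 1)).ncard := by
      refine Set.ncard_le_ncard_of_injOn (fun p' => pos p' / (g - 2 * D)) ?_ ?_
        (Set.finite_Iio _)
      · rintro p' ⟨hp', -⟩
        obtain ⟨d, hd1, -⟩ := hpos p' hp'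
        have h2 : pos p' < l'.length := by
          by_contra hc
          rw [List.getElem?_eq_none (by omega)] at hd1
          exact absurd hd1 (by simp)
        have h3 := hl'.2.1
        rw [Set.mem_Iio]
        have : pos p' / (g - 2 * D) ≤ L / (g - 2 * D) := Nat.div_le_div_right (by omega)
        omega
      · rintro p' ⟨hp', q, hq, w, hw, hwl, hwA⟩ q' ⟨hq', r, hr, w', hw', hwl', hwA'⟩ hpq
        obtain ⟨d, hd1, hd2⟩ := hpos p' hp'
        obtain ⟨d', hd1', hd2'⟩ := hpos q' hq'
        simp only at hpq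
        have h4 := Nat.div_add_mod (pos p') (g - 2 * D)
        have h5 := Nat.div_add_mod (pos q') (g - 2 * D)
        have h6 := Nat.mod_lt (pos p') hgD
        have h7 := Nat.mod_lt (pos q') hgD
        rw [hpq] at h4
        set t := (g - 2 * D) * (pos q' / (g - 2 * D)) with ht
        rcases lt_trichotomy (pos p') (pos q') with hlt | heq | hlt
        · exfalso
          rw [← hd2] at hw
          rw [← hd2'] at hw'
          exact contacts_spread h hl hl' hdisj hlt hd1 hd1' (by omega) hq hr hw hw' hwl hwl'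
            hwA hwA'
        · rw [heq, hd1'] at hd1
          rw [← hd2, ← hd2', Option.some.inj hd1]
        · exfalso
          rw [← hd2] at hw
          rw [← hd2'] at hw'
          exact contacts_spread h hl hl' hdisj hlt hd1' hd1 (by omega) hr hq hw' hw hwl' hwl
            hwA' hwA
    rwa [show (Set.Iio (L / (g - 2 * D) + 1)) =
      ((Finset.range (L / (g - 2 * D) + 1) : Finset ℕ) : Set ℕ) by ext; simp,
      Set.ncard_coe_finset, Finset.card_range] at h1
  -- every small nonempty set meets P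
  have hmeet : ∀ X : Set V, X.Nonempty → 2 * X.ncard ≤ Nat.card V → cutE inc X ⊆ A →
      (X ∩ P).Nonempty := by
    intro X h1 h2 h3
    obtain ⟨p, p1, w, hpX, hp1X, hw, hr, hne, hlen, hwA, hp, hp1⟩ :=
      leg h hl hl' (Or.inr hdisj) h1 h2 h3
    rcases hp with hp | hp <;> rcases hp1 with hp1 | hp1
    · exact absurd (same_circuit h hl hp hp1 hw hr hne hlen fun d hd' hc => hwA d hd' (Or.inl hc))
        id
    · refine ⟨p1, hp1X, hp1, p, hp, rl w, hw.rev, by rw [rl_length]; exact hlen, ?_⟩
      intro d hd'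
      rw [mem_rl] at hd'
      exact hwA (rv d) hd'
    · exact ⟨p, hpX, hp, p1, hp1, w, hw, hlen, hwA⟩
    · exact absurd (same_circuit h hl' hp hp1 hw hr hne hlen fun d hd' hc => hwA d hd' (Or.inr hc))
        id
  -- the map to subsets of P
  have hex : ∀ c : E → ZMod 2, ∃ X : Set V, c ∈ cutsIn inc A → (2 * X.ncard ≤ Nat.card V ∧
      cutE inc X ⊆ A ∧ ∀ e, c e = 0 ↔ e ∉ cutE inc X) := by
    intro c
    by_cases hc : c ∈ cutsIn inc A
    · obtain ⟨X, hX⟩ := exists_side hc
      exact ⟨X, fun _ => hX⟩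
    · exact ⟨∅, fun h => absurd h hc⟩
  choose X hX using hex
  have h1 : (cutsIn inc A).ncard ≤ (𝒫 P).ncard := by
    refine Set.ncard_le_ncard_of_injOn (fun c => X c ∩ P) ?_ ?_ (Set.toFinite _)
    · intro c _
      exact Set.inter_subset_right
    · intro c hc c' hc' hcc
      simp only at hcc
      obtain ⟨h2, h3, h4⟩ := hX c hc
      obtain ⟨h2', h3', h4'⟩ := hX c' hc'
      have h5 := card_small h hl hl' h2 h3
      have h5' := card_small h hl hl' h2' h3'
      have h6 : (symmDiff (X c) (X c')).ncard ≤ (X c).ncard + (X c').ncard := by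
        refine (Set.ncard_le_ncard ?_ (Set.toFinite _)).trans (Set.ncard_union_le _ _)
        exact symmDiff_le_sup
      have h7 : X c = X c' := by
        by_contra hne
        have h8 : (symmDiff (X c) (X c')).Nonempty := by
          rw [Set.nonempty_iff_ne_empty]
          intro h9
          exact hne (symmDiff_eq_bot.1 h9)
        have hL := h.hL
        obtain ⟨v, hv1, hv2⟩ := hmeet _ h8 (by omega)
          ((cutE_symmDiff_sub inc _ _).trans (Set.union_subset h3 h3'))
        have h9 : v ∈ X c ∩ P ↔ v ∈ X c' ∩ P := by rw [hcc]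
        rw [Set.mem_symmDiff] at hv1
        simp only [Set.mem_inter_iff, hv2, and_true] at h9
        tauto
      funext e
      have h8 : c e = 0 ↔ c' e = 0 := by rw [h4, h4', h7]
      rcases zmod2_cases (c e) with h9 | h9 <;> rcases zmod2_cases (c' e) with h10 | h10 <;>
        rw [h9, h10] at h8 ⊢ <;> simp at h8
  rw [Set.ncard_powerset P (Set.toFinite _)] at h1
  exact h1.trans (Nat.pow_le_pow_right (by norm_num) hP)

end Pool.Agent.Bondy
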