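import Mathlib

/-! # Definitions for the lower bound on pancyclic graphs (MP_18526b_co)

A multigraph on `V` with edge type `E` is an incidence function `inc : E → Bool → V`
(the two ends of `e` are `inc e false` and `inc e true`; loops and parallel edges are allowed).
Half-edges, and also darts of walks, are elements of `E × Bool`.
-/

set_option autoImplicit false

namespace Pool.Agent.Bondy

noncomputable section

variable {V E : Type}

open Classical in
/-- The boundary map over the field with two elements (a loop contributes zero). -/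
def bd [Fintype E] (inc : E → Bool → V) : (E → ZMod 2) →ₗ[ZMod 2] (V → ZMod 2) where
  toFun x v := ∑ e, ∑ b : Bool, if inc e b = v then x e else 0
  map_add' x y := by
    funext v
    simp only [Pi.add_apply, ← Finset.sum_add_distrib]
    refine Finset.sum_congr rfl fun e _ => Finset.sum_congr rfl fun b _ => ?_
    split_ifs <;> simp
  map_smul' c x := by
    funext v
    simp only [Pi.smul_apply, smul_eq_mul, RingHom.id_apply, Finset.mul_sum]
    refine Finset.sum_congr rfl fun e _ => Finset.sum_congr rfl fun b _ => ?_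
    split_ifs <;> simp

/-- The cycle space (all even edge vectors). -/
def cyc [Fintype E] (inc : E → Bool → V) : Submodule (ZMod 2) (E → ZMod 2) :=
  LinearMap.ker (bd inc)

/-- Even edge vectors supported in the edge set `H`. -/
def cycOn [Fintype E] (inc : E → Bool → V) (H : Set E) : Submodule (ZMod 2) (E → ZMod 2) where
  carrier := {x | x ∈ cyc inc ∧ ∀ e, e ∉ H → x e = 0}
  add_mem' := by
    rintro x y ⟨hx, hx'⟩ ⟨hy, hy'⟩
    refine ⟨Submodule.add_mem _ hx hy, fun e he => ?_⟩
    simp [hx' e he, hy' e he]
  zero_mem' := ⟨Submodule.zero_mem _, fun _ _ => rfl⟩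
  smul_mem' := by
    rintro c x ⟨hx, hx'⟩
    refine ⟨Submodule.smul_mem _ c hx, fun e he => ?_⟩
    simp [hx' e he]

/-- Degree (loops count twice). -/
def deg (inc : E → Bool → V) (v : V) : ℕ := {h : E × Bool | inc h.1 h.2 = v}.ncard

/-- `z` is contained in `x` (as edge sets). -/
def SubV (z x : E → ZMod 2) : Prop := ∀ e, z e ≠ 0 → x e ≠ 0

/-- All edges of `z` have both ends in `X`. -/
def Inside (inc : E → Bool → V) (X : Set V) (z : E → ZMod 2) : Prop :=
  ∀ e, z e ≠ 0 → ∀ b, inc e b ∈ X

/-- `x` contains a nonzero even edge set all of whose edges have both ends in `X`. -/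
def CircIn [Fintype E] (inc : E → Bool → V) (X : Set V) (x : E → ZMod 2) : Prop :=
  ∃ z ∈ cyc inc, z ≠ 0 ∧ SubV z x ∧ Inside inc X z

/-- The edge vector `x` is bad with respect to the subgraph with edge set `H` and vertex set `W`. -/
def Bad [Fintype E] (inc : E → Bool → V) (H : Set E) (W : Set V) (x : E → ZMod 2) : Prop :=
  (∃ v ∈ W, 3 ≤ {h : E × Bool | x h.1 ≠ 0 ∧ h.1 ∉ H ∧ inc h.1 h.2 = v}.ncard) ∨
    CircIn inc Wᶜ x

/-- At most a `θ` fraction of the cycle space is not bad. -/
def Concl [Fintype E] (inc : E → Bool → V) (H : Set E) (W : Set V) (θ : ℝ) : Prop :=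
  ({x | x ∈ cyc inc ∧ ¬ Bad inc H W x}.ncard : ℝ) ≤ θ * ((cyc inc : Set (E → ZMod 2)).ncard : ℝ)

/-- Edges between `X` and its complement. -/
def cutE (inc : E → Bool → V) (X : Set V) : Set E := {e | ∃ b, inc e b ∈ X ∧ inc e (!b) ∉ X}

/-- `X` induces a connected subgraph. -/
def LConn (inc : E → Bool → V) (X : Set V) : Prop :=
  ∀ U : V → ZMod 2, (∀ e, inc e false ∈ X → inc e true ∈ X → U (inc e false) = U (inc e true)) →
    ∀ u ∈ X, ∀ v ∈ X, U u = U v

/-- `X` and `Y` are disjoint and no edge joins them. -/
def Far (inc : E → Bool → V) (X Y : Set V) : Prop :=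
  Disjoint X Y ∧ ∀ e b, inc e b ∈ X → inc e (!b) ∉ Y

/-- The cut (coboundary) of `U`. -/
def cutV (inc : E → Bool → V) (U : V → ZMod 2) : E → ZMod 2 :=
  fun e => U (inc e false) + U (inc e true)

/-- The cuts supported in the edge set `A`. -/
def cutsIn (inc : E → Bool → V) (A : Set E) : Set (E → ZMod 2) :=
  {c | (∃ U : V → ZMod 2, c = cutV inc U) ∧ ∀ e, e ∉ A → c e = 0}

/-- The number of missing half-edges of the vertices of `X` (all degrees are at most three). -/
def ports (inc : E → Bool → V) (X : Set V) : ℕ :=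
  3 * X.ncard - {h : E × Bool | inc h.1 h.2 ∈ X}.ncard

/-- All degrees are at most three, there are at most `√N` ports and every proper part has
a large boundary (ports included). -/
def Atomic (inc : E → Bool → V) : Prop :=
  (∀ v, deg inc v ≤ 3) ∧ (ports inc Set.univ) ^ 2 ≤ Nat.card V ∧
    ∀ X : Set V, X.Nonempty → X ≠ Set.univ → X.ncard < ((cutE inc X).ncard + ports inc X) ^ 2

/-- A short piece: connected, at most `a` vertices, containing a nonzero even edge set. -/
def Short [Fintype E] (inc : E → Bool → V) (a : ℕ) (Q : Set V) : Prop :=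
  LConn inc Q ∧ Q.ncard ≤ a ∧ ∃ z ∈ cyc inc, z ≠ 0 ∧ Inside inc Q z

/-- Reduced multigraph (relative to `W`). -/
def Reduced [Fintype E] (inc : E → Bool → V) (W : Set V) : Prop :=
  (∀ e, ∃ x ∈ cyc inc, x e ≠ 0) ∧ ∀ v, v ∉ W → deg inc v = 0 ∨ deg inc v = 3

/-! ### Walks -/

/-- tail (start) of a dart -/
def tl (inc : E → Bool → V) (d : E × Bool) : V := inc d.1 d.2

/-- head (end) of a dart -/
def hd (inc : E → Bool → V) (d : E × Bool) : V := inc d.1 (!d.2)

/-- reverse dart -/
def rv (d : E × Bool) : E × Bool := (d.1, !d.2)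

/-- `l` is a walk from `u` to `w`. -/
def Walk (inc : E → Bool → V) : V → List (E × Bool) → V → Prop
  | u, [], w => u = w
  | u, d :: l, w => tl inc d = u ∧ Walk inc (hd inc d) l w

/-- no immediate backtracking -/
def Red (l : List (E × Bool)) : Prop := l.IsChain (fun d d' => d' ≠ rv d)

/-- no immediate backtracking, cyclically -/
def CRed (l : List (E × Bool)) : Prop := Red (l ++ l)

open Classical in
/-- how often the edge `e` is traversed -/
def cntE (l : List (E × Bool)) (e : E) : ℕ := l.countP (fun d => decide (d.1 = e))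

/-- edges of a walk -/
def esupp (l : List (E × Bool)) : Set E := {e | ∃ d ∈ l, d.1 = e}

/-- starting vertices of the darts of a walk (for a closed walk: all its vertices) -/
def vsupp (inc : E → Bool → V) (l : List (E × Bool)) : Set V := {v | ∃ d ∈ l, tl inc d = v}

/-- Every closed walk of length at most `a` starting in `R` uses every edge an even
number of times. -/
def TreeLike (inc : E → Bool → V) (a : ℕ) (R : Set V) : Prop :=
  ∀ u ∈ R, ∀ l, Walk inc u l u → l.length ≤ a → ∀ e, Even (cntE l e)

/-- vertices at distance at most `r` from `X` -/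
def near (inc : E → Bool → V) (X : Set V) (r : ℕ) : Set V :=
  {v | ∃ u ∈ X, ∃ l, Walk inc u l v ∧ l.length ≤ r}

/-- closed non-backtracking walks of length `ℓ` inside `R` (rooted and directed) -/
def cnb (inc : E → Bool → V) (R : Set V) (ℓ : ℕ) : Set (List (E × Bool)) :=
  {l | l.length = ℓ ∧ CRed l ∧ (∃ u, Walk inc u l u) ∧ ∀ d ∈ l, tl inc d ∈ R}

/-- their normalised number -/
def T (inc : E → Bool → V) (R : Set V) (ℓ : ℕ) : ℝ := ((cnb inc R ℓ).ncard : ℝ) / 2 ^ ℓ

/-- a closed walk is nice when positions at cyclic distance more than `g` are at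
distance more than `g` in the graph -/
def Nice (inc : E → Bool → V) (g : ℕ) (l : List (E × Bool)) : Prop :=
  ∀ i j : ℕ, ∀ d d' : E × Bool, i < j → l[i]? = some d → l[j]? = some d' → g < j - i →
    g < l.length - (j - i) → ∀ q, Walk inc (tl inc d) q (tl inc d') → g < q.length

end

end Pool.Agent.Bondy
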