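import Pool.Agent.Bondy.Defs

/-! # Cycle space / cut space duality over the field with two elements, in counting form -/

set_option autoImplicit false

namespace Pool.Agent.Bondy

open Set

variable {V E : Type}

/-- the standard symmetric bilinear form on edge vectors -/
noncomputable def dotB (E : Type) [Fintype E] : LinearMap.BilinForm (ZMod 2) (E → ZMod 2) :=
  LinearMap.mk₂ (ZMod 2) (fun x y => ∑ e, x e * y e)
    (fun x x' y => by simp only [Pi.add_apply, add_mul, Finset.sum_add_distrib])
    (fun c x y => by simp only [Pi.smul_apply, smul_eq_mul, Finset.mul_sum, mul_assoc])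
    (fun x y y' => by simp only [Pi.add_apply, mul_add, Finset.sum_add_distrib])
    (fun c x y => by
      simp only [Pi.smul_apply, smul_eq_mul, Finset.mul_sum]
      exact Finset.sum_congr rfl fun e _ => by ring)

theorem dotB_apply [Fintype E] (x y : E → ZMod 2) : dotB E x y = ∑ e, x e * y e := rfl

theorem dotB_symm [Fintype E] (x y : E → ZMod 2) : dotB E x y = dotB E y x := by
  simp only [dotB_apply]
  exact Finset.sum_congr rfl fun e _ => mul_comm _ _

theorem dotB_refl (E : Type) [Fintype E] : (dotB E).IsRefl := fun x y h => by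
  rw [dotB_symm, h]

open Classical in
theorem dotB_single [Fintype E] (x : E → ZMod 2) (e : E) :
    dotB E x (Pi.single e 1) = x e := by
  rw [dotB_apply, Finset.sum_eq_single e]
  · simp
  · intro f _ hf
    simp [hf]
  · simp

theorem dotB_nondeg (E : Type) [Fintype E] : (dotB E).Nondegenerate := by
  classical
  refine ⟨fun x hx => ?_, fun x hx => ?_⟩
  · funext e
    rw [← dotB_single x e]
    exact hx _
  · funext e
    rw [← dotB_single x e, dotB_symm]
    exact hx _

/-- the coboundary map -/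
noncomputable def cutL (inc : E → Bool → V) : (V → ZMod 2) →ₗ[ZMod 2] (E → ZMod 2) where
  toFun U := cutV inc U
  map_add' U U' := by
    funext e
    simp only [cutV, Pi.add_apply]
    ring
  map_smul' c U := by
    funext e
    simp only [cutV, Pi.smul_apply, smul_eq_mul, RingHom.id_apply]
    ring

/-- the boundary map is the transpose of the coboundary map -/
theorem dot_cut [Fintype V] [Fintype E] (inc : E → Bool → V) (U : V → ZMod 2)
    (x : E → ZMod 2) : dotB E (cutV inc U) x = ∑ v, U v * bd inc x v := by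
  classical
  have h1 : ∀ v, U v * bd inc x v = ∑ e, ∑ b : Bool, if inc e b = v then U v * x e else 0 := by
    intro v
    simp only [bd, LinearMap.coe_mk, AddHom.coe_mk, Finset.mul_sum, mul_ite, mul_zero]
  simp only [h1]
  rw [Finset.sum_comm, dotB_apply]
  refine Finset.sum_congr rfl fun e _ => ?_
  rw [Finset.sum_comm]
  simp only [Fintype.sum_bool, Finset.sum_ite_eq, Finset.mem_univ, if_true, cutV]
  ring

theorem mem_orthogonal_range [Fintype V] [Fintype E] (inc : E → Bool → V) :
    (dotB E).orthogonal (LinearMap.range (cutL inc)) = cyc inc := by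
  classical
  ext x
  rw [LinearMap.BilinForm.mem_orthogonal_iff]
  constructor
  · intro h
    rw [cyc, LinearMap.mem_ker]
    funext v
    have h2 := h (cutL inc (Pi.single v 1)) ⟨_, rfl⟩
    have h3 : dotB E (cutV inc (Pi.single v 1)) x = 0 := h2
    rw [dot_cut, Finset.sum_eq_single v] at h3
    · simpa using h3
    · intro w _ hw
      simp [hw]
    · simp
  · rintro h _ ⟨U, rfl⟩
    change dotB E (cutV inc U) x = 0
    rw [dot_cut]
    rw [cyc, LinearMap.mem_ker] at h
    simp [h]

/-- edge vectors supported in `A` -/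
def suppIn (A : Set E) : Submodule (ZMod 2) (E → ZMod 2) where
  carrier := {x | ∀ e, e ∉ A → x e = 0}
  add_mem' := fun {x y} hx hy e he => by simp [hx e he, hy e he]
  zero_mem' := fun _ _ => rfl
  smul_mem' := fun c x hx e he => by simp [hx e he]

/-- edge vectors vanishing on `A` -/
def vanOn (A : Set E) : Submodule (ZMod 2) (E → ZMod 2) where
  carrier := {x | ∀ e ∈ A, x e = 0}
  add_mem' := fun {x y} hx hy e he => by simp [hx e he, hy e he]
  zero_mem' := fun _ _ => rfl
  smul_mem' := fun c x hx e he => by simp [hx e he]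

theorem orthogonal_suppIn [Fintype E] (A : Set E) : (dotB E).orthogonal (suppIn A) = vanOn A := by
  classical
  ext x
  rw [LinearMap.BilinForm.mem_orthogonal_iff]
  constructor
  · intro h e he
    have h2 := h (Pi.single e 1) (fun f hf => by
      have : f ≠ e := fun h' => hf (h' ▸ he)
      simp [this])
    rw [dotB_symm, dotB_single] at h2
    exact h2
  · intro h y hy
    rw [dotB_apply]
    refine Finset.sum_eq_zero fun e _ => ?_
    by_cases he : e ∈ A
    · rw [h e he, mul_zero]
    · rw [hy e he, zero_mul]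

theorem ncard_submodule [Fintype E] (S : Submodule (ZMod 2) (E → ZMod 2)) :
    (S : Set (E → ZMod 2)).ncard = 2 ^ Module.finrank (ZMod 2) S := by
  have h := Module.natCard_eq_pow_finrank (K := ZMod 2) (V := S)
  rw [Nat.card_zmod] at h
  rw [← h]
  exact (Nat.card_coe_set_eq (S : Set (E → ZMod 2))).symm

theorem finrank_suppIn [Fintype E] (A : Set E) :
    Module.finrank (ZMod 2) (suppIn A) = A.ncard := by
  classical
  have h1 : (suppIn A : Set (E → ZMod 2)).ncard = 2 ^ A.ncard := by
    let f : (A → ZMod 2) → (E → ZMod 2) := fun x e => if h : e ∈ A then x ⟨e, h⟩ else 0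
    have hf : Function.Injective f := by
      intro x y hxy
      funext ⟨e, he⟩
      have := congrFun hxy e
      simpa [f, he] using this
    have hr : (suppIn A : Set (E → ZMod 2)) = Set.range f := by
      ext x
      constructor
      · intro hx
        refine ⟨fun e => x e, ?_⟩
        funext e
        by_cases he : e ∈ A
        · simp [f, he]
        · simp [f, he, hx e he]
      · rintro ⟨y, rfl⟩ e he
        simp [f, he]
    rw [hr, ← Set.image_univ, Set.ncard_image_of_injective _ hf, Set.ncard_univ,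
      Nat.card_fun, Nat.card_zmod, Nat.card_coe_set_eq]
  rw [ncard_submodule] at h1
  exact Nat.pow_right_injective le_rfl h1

theorem cutsIn_eq [Fintype V] [Fintype E] (inc : E → Bool → V) (A : Set E) :
    cutsIn inc A = ((LinearMap.range (cutL inc) ⊓ suppIn A : Submodule (ZMod 2) (E → ZMod 2)) :
      Set (E → ZMod 2)) := by
  ext c
  constructor
  · rintro ⟨⟨U, rfl⟩, h⟩
    exact ⟨⟨U, rfl⟩, h⟩
  · rintro ⟨⟨U, rfl⟩, h⟩
    exact ⟨⟨U, rfl⟩, h⟩

theorem dual_zero [Fintype V] [Fintype E] (inc : E → Bool → V) (A : Set E) :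
    ((cyc inc ⊓ vanOn A : Submodule (ZMod 2) (E → ZMod 2)) : Set (E → ZMod 2)).ncard
        * 2 ^ A.ncard =
      (cutsIn inc A).ncard * (cyc inc : Set (E → ZMod 2)).ncard := by
  rw [cutsIn_eq, ncard_submodule, ncard_submodule, ncard_submodule, ← pow_add, ← pow_add]
  congr 1
  set C := LinearMap.range (cutL inc) with hC
  have e1 : cyc inc ⊓ vanOn A = (dotB E).orthogonal (C ⊔ suppIn A) := by
    rw [hC, ← mem_orthogonal_range inc, ← orthogonal_suppIn A]
    apply le_antisymm
    · intro x hx
      rw [LinearMap.BilinForm.mem_orthogonal_iff]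
      intro y hy
      obtain ⟨a, ha, b, hb, rfl⟩ := Submodule.mem_sup.1 hy
      have h1 := (LinearMap.BilinForm.mem_orthogonal_iff.1 hx.1) a ha
      have h2 := (LinearMap.BilinForm.mem_orthogonal_iff.1 hx.2) b hb
      rw [map_add, LinearMap.add_apply, h1, h2, add_zero]
    · refine le_inf ?_ ?_
      · exact LinearMap.BilinForm.orthogonal_le le_sup_left
      · exact LinearMap.BilinForm.orthogonal_le le_sup_right
  have h1 := LinearMap.BilinForm.finrank_orthogonal (dotB_nondeg E) (C ⊔ suppIn A)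
  have h2 := LinearMap.BilinForm.finrank_orthogonal (dotB_nondeg E) C
  have h3 := Submodule.finrank_sup_add_finrank_inf_eq C (suppIn A)
  have h4 : Module.finrank (ZMod 2) (C ⊔ suppIn A : Submodule (ZMod 2) (E → ZMod 2)) ≤
      Module.finrank (ZMod 2) (E → ZMod 2) := Submodule.finrank_le _
  have h5 : Module.finrank (ZMod 2) C ≤ Module.finrank (ZMod 2) (E → ZMod 2) :=
    Submodule.finrank_le _
  rw [mem_orthogonal_range inc] at h2
  rw [← e1] at h1
  rw [finrank_suppIn] at h3
  omega

theorem dual_of_nonempty [Fintype V] [Fintype E] (inc : E → Bool → V) (A : Set E)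
    (p : E → ZMod 2) (h : ∃ w ∈ cyc inc, ∀ e ∈ A, w e = p e) :
    {w | w ∈ cyc inc ∧ ∀ e ∈ A, w e = p e}.ncard * 2 ^ A.ncard =
      (cutsIn inc A).ncard * (cyc inc : Set (E → ZMod 2)).ncard := by
  obtain ⟨w₀, hw₀, hp⟩ := h
  rw [← dual_zero]
  congr 1
  have : {w | w ∈ cyc inc ∧ ∀ e ∈ A, w e = p e} = (fun x => w₀ + x) ''
      ((cyc inc ⊓ vanOn A : Submodule (ZMod 2) (E → ZMod 2)) : Set (E → ZMod 2)) := by
    ext w
    constructor
    · rintro ⟨h1, h2⟩
      refine ⟨w - w₀, ⟨Submodule.sub_mem _ h1 hw₀, fun e he => ?_⟩, by simp⟩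
      simp [h2 e he, hp e he]
    · rintro ⟨x, ⟨h1, h2⟩, rfl⟩
      refine ⟨Submodule.add_mem _ hw₀ h1, fun e he => ?_⟩
      have h3 : x e = 0 := h2 e he
      simp [h3, hp e he]
  rw [this, Set.ncard_image_of_injective _ (add_right_injective w₀)]

theorem dual_le [Fintype V] [Fintype E] (inc : E → Bool → V) (A : Set E) (p : E → ZMod 2) :
    {w | w ∈ cyc inc ∧ ∀ e ∈ A, w e = p e}.ncard * 2 ^ A.ncard ≤
      (cutsIn inc A).ncard * (cyc inc : Set (E → ZMod 2)).ncard := by
  by_cases h : ∃ w ∈ cyc inc, ∀ e ∈ A, w e = p e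
  · exact (dual_of_nonempty inc A p h).le
  · have : {w | w ∈ cyc inc ∧ ∀ e ∈ A, w e = p e} = ∅ := by
      ext w
      simp only [mem_ofPred_eq, mem_empty_iff_false, iff_false]
      exact fun h' => h ⟨w, h'.1, h'.2⟩
    rw [this, Set.ncard_empty, zero_mul]
    exact Nat.zero_le _

theorem dual_eq [Fintype V] [Fintype E] (inc : E → Bool → V) (A : Set E) (p : E → ZMod 2)
    (h : cutsIn inc A = {0}) :
    {w | w ∈ cyc inc ∧ ∀ e ∈ A, w e = p e}.ncard * 2 ^ A.ncard =
      (cyc inc : Set (E → ZMod 2)).ncard := by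
  rw [dual_of_nonempty inc A p ?_, h, Set.ncard_singleton, one_mul]
  -- surjectivity of the restriction
  classical
  have h0 := dual_zero inc A
  rw [h, Set.ncard_singleton, one_mul] at h0
  -- the set of restrictions has full size
  let r : (E → ZMod 2) → (E → ZMod 2) := fun x e => if e ∈ A then x e else 0
  have hle : r '' (cyc inc : Set (E → ZMod 2)) ⊆ (suppIn A : Set (E → ZMod 2)) := by
    rintro _ ⟨x, _, rfl⟩ e he
    simp [r, he]
  have hcard : (cyc inc : Set (E → ZMod 2)).ncard ≤
      (r '' (cyc inc : Set (E → ZMod 2))).ncard *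
      ((cyc inc ⊓ vanOn A : Submodule (ZMod 2) (E → ZMod 2)) : Set (E → ZMod 2)).ncard := by
    have hfin : (cyc inc : Set (E → ZMod 2)).Finite := Set.toFinite _
    have hfib : ∀ y ∈ r '' (cyc inc : Set (E → ZMod 2)),
        {x | x ∈ cyc inc ∧ r x = y}.ncard ≤
        ((cyc inc ⊓ vanOn A : Submodule (ZMod 2) (E → ZMod 2)) : Set (E → ZMod 2)).ncard := by
      rintro _ ⟨x₀, hx₀, rfl⟩
      have hs : {x | x ∈ cyc inc ∧ r x = r x₀} ⊆ (fun x => x₀ + x) ''
          ((cyc inc ⊓ vanOn A : Submodule (ZMod 2) (E → ZMod 2)) : Set (E → ZMod 2)) := by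
        rintro x ⟨h1, h2⟩
        refine ⟨x - x₀, ⟨Submodule.sub_mem _ h1 hx₀, fun e he => ?_⟩, by simp⟩
        have := congrFun h2 e
        simp only [r, he, if_true] at this
        simp [this]
      exact (Set.ncard_le_ncard hs).trans (Set.ncard_image_le)
    have := Finset.card_le_mul_card_image_of_maps_to
      (s := (cyc inc : Set (E → ZMod 2)).toFinset)
      (t := (r '' (cyc inc : Set (E → ZMod 2))).toFinset) (f := r)
      (fun x hx => by
        rw [Set.mem_toFinset] at hx ⊢
        exact ⟨x, hx, rfl⟩)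
      (((cyc inc ⊓ vanOn A : Submodule (ZMod 2) (E → ZMod 2)) : Set (E → ZMod 2)).ncard)
      (fun y hy => by
        rw [Set.mem_toFinset] at hy
        refine le_trans (le_of_eq ?_) (hfib y hy)
        rw [Set.ncard_eq_toFinset_card']
        congr 1
        ext x
        simp)
    rw [Set.ncard_eq_toFinset_card', Set.ncard_eq_toFinset_card' (r '' _), mul_comm]
    exact this
  have hsupp : (suppIn A : Set (E → ZMod 2)).ncard = 2 ^ A.ncard := by
    rw [ncard_submodule, finrank_suppIn]
  have hpos : 0 < ((cyc inc ⊓ vanOn A : Submodule (ZMod 2) (E → ZMod 2)) :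
      Set (E → ZMod 2)).ncard := by
    rw [ncard_submodule]
    positivity
  have heq : r '' (cyc inc : Set (E → ZMod 2)) = (suppIn A : Set (E → ZMod 2)) := by
    refine Set.eq_of_subset_of_ncard_le hle ?_ (Set.toFinite _)
    rw [hsupp]
    rw [← h0, mul_comm] at hcard
    exact Nat.le_of_mul_le_mul_right hcard hpos
  have hmem : r p ∈ (suppIn A : Set (E → ZMod 2)) := fun e he => by simp [r, he]
  rw [← heq] at hmem
  obtain ⟨x, hx, hxp⟩ := hmem
  refine ⟨x, hx, fun e he => ?_⟩
  have := congrFun hxp e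
  simpa [r, he] using this

/-- weighted second moment inequality (Cauchy-Schwarz) -/
theorem second_moment {Ω ι : Type} (S : Finset Ω) (I : Finset ι) (A : ι → Set Ω) (c : ι → ℝ)
    (hc : ∀ i ∈ I, 0 ≤ c i) :
    (∑ i ∈ I, c i * ({x | x ∈ S ∧ x ∈ A i}.ncard : ℝ)) ^ 2 ≤
      ({x | x ∈ S ∧ ∃ i ∈ I, x ∈ A i}.ncard : ℝ) *
        ∑ i ∈ I, ∑ j ∈ I, c i * c j * ({x | x ∈ S ∧ x ∈ A i ∧ x ∈ A j}.ncard : ℝ) := by
  classical
  have key : ∀ P : Ω → Prop, ({x | x ∈ S ∧ P x}.ncard : ℝ) = ∑ x ∈ S, if P x then (1 : ℝ) else 0 := by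
    intro P
    have : {x | x ∈ S ∧ P x} = ((S.filter P : Finset Ω) : Set Ω) := by
      ext x
      simp
    rw [this, Set.ncard_coe_finset, Finset.sum_boole]
  set X : Ω → ℝ := fun x => ∑ i ∈ I, c i * (if x ∈ A i then (1 : ℝ) else 0) with hX
  have h1 : ∑ i ∈ I, c i * ({x | x ∈ S ∧ x ∈ A i}.ncard : ℝ) = ∑ x ∈ S, X x := by
    simp only [hX, key]
    rw [Finset.sum_comm]
    exact Finset.sum_congr rfl fun i _ => by rw [Finset.mul_sum]
  have h2 : ∑ i ∈ I, ∑ j ∈ I, c i * c j * ({x | x ∈ S ∧ x ∈ A i ∧ x ∈ A j}.ncard : ℝ) =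
      ∑ x ∈ S, X x ^ 2 := by
    have e1 : ∀ x, X x ^ 2 = ∑ i ∈ I, ∑ j ∈ I,
        c i * c j * (if x ∈ A i ∧ x ∈ A j then (1 : ℝ) else 0) := by
      intro x
      simp only [hX]
      rw [sq, Finset.sum_mul_sum]
      refine Finset.sum_congr rfl fun i _ => Finset.sum_congr rfl fun j _ => ?_
      by_cases h1 : x ∈ A i <;> by_cases h2 : x ∈ A j <;> simp [h1, h2]
    simp only [e1, key]
    rw [Finset.sum_comm (s := S)]
    refine Finset.sum_congr rfl fun i _ => ?_
    rw [Finset.sum_comm (s := S)]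
    refine Finset.sum_congr rfl fun j _ => ?_
    rw [Finset.mul_sum]
    exact Finset.sum_congr rfl fun x _ => by congr
  have h3 : ∑ x ∈ S, X x =
      ∑ x ∈ S, (if ∃ i ∈ I, x ∈ A i then (1 : ℝ) else 0) * X x := by
    refine Finset.sum_congr rfl fun x _ => ?_
    split_ifs with h
    · rw [one_mul]
    · rw [zero_mul]
      refine Finset.sum_eq_zero fun i hi => ?_
      have : x ∉ A i := fun h' => h ⟨i, hi, h'⟩
      simp [this]
  rw [h1, h2, h3]
  refine (Finset.sum_mul_sq_le_sq_mul_sq S _ _).trans (le_of_eq ?_)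
  congr 1
  rw [key]
  exact Finset.sum_congr rfl fun x _ => by split_ifs <;> simp

end Pool.Agent.Bondy
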