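import Pool.Agent.Bondy.EFinalC

/-! # The expander lemma, conclusion -/

set_option autoImplicit false

namespace Pool.Agent.Bondy

open Set

variable {V E : Type}

theorem exp_beats (K : ℕ) (hK : 2 ≤ K) : ∀ b, 4 * K ≤ b → K * (b + 1) ≤ 2 ^ b := by
  intro b hb
  induction b, hb using Nat.le_induction with
  | base =>
    have h1 : K ≤ 2 ^ K := Nat.lt_two_pow_self.le
    have h2 : 8 ≤ 2 ^ (2 * K) * 1 := by
      have : 2 ^ 4 ≤ 2 ^ (2 * K) := Nat.pow_le_pow_right (by norm_num) (by omega)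
      omega
    calc K * (4 * K + 1) ≤ K * (8 * K) := Nat.mul_le_mul_left _ (by omega)
      _ = 8 * (K * K) := by ring
      _ ≤ (2 ^ (2 * K) * 1) * (2 ^ K * 2 ^ K) := Nat.mul_le_mul h2 (Nat.mul_le_mul h1 h1)
      _ = 2 ^ (4 * K) := by
        rw [mul_one, ← pow_add, ← pow_add]
        congr 1
        ring
  | succ b hb ih =>
    have h1 : K ≤ 2 ^ b :=
      (Nat.lt_two_pow_self.le).trans (Nat.pow_le_pow_right (by norm_num) (by omega))
    calc K * (b + 1 + 1) = K * (b + 1) + K := by ring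
      _ ≤ 2 ^ b + 2 ^ b := Nat.add_le_add ih h1
      _ = 2 ^ (b + 1) := by ring

theorem asym (c : ℕ) (hc : 0 < c) : ∃ a0 : ℕ, ∀ a ≥ a0, 2 ^ 28 * (a + 1) ≤ 2 ^ (a / c) := by
  refine ⟨c * (4 * (2 ^ 28 * c)), fun a ha => ?_⟩
  have h1 : 4 * (2 ^ 28 * c) ≤ a / c := by
    rw [Nat.le_div_iff_mul_le hc]
    linarith [Nat.mul_comm c (4 * (2 ^ 28 * c))]
  have h2 := exp_beats (2 ^ 28 * c) (by omega) (a / c) h1
  have h3 : a + 1 ≤ c * (a / c + 1) := Nat.lt_mul_div_succ a hc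
  calc 2 ^ 28 * (a + 1) ≤ 2 ^ 28 * (c * (a / c + 1)) := Nat.mul_le_mul_left _ h3
    _ = 2 ^ 28 * c * (a / c + 1) := by ring
    _ ≤ _ := h2

theorem num_small {N n0 a L b x r : ℕ} (hN : 2 ^ n0 ≤ N) (h200 : 200 * a ≤ n0) (hL : L ≤ 2 ^ a)
    (hb : b ^ 2 ≤ N) (hx : x ≤ b + 2 ^ (12 * a + 4) * a) (ha : 1000 ≤ a) (hr : r ≤ 2 * a + 2) :
    64 * (4 ^ r * x * L) ≤ N := by
  have h4 : 4 ^ r ≤ 2 ^ (4 * a + 4) := by
    calc 4 ^ r ≤ 4 ^ (2 * a + 2) := Nat.pow_le_pow_right (by norm_num) hr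
      _ = 2 ^ (4 * a + 4) := by
        rw [show (4 : ℕ) = 2 ^ 2 by norm_num, ← pow_mul]
        congr 1
        ring
  have hN2 : 2 ^ (200 * a) ≤ N := (Nat.pow_le_pow_right (by norm_num) h200).trans hN
  have ha2 : a ≤ 2 ^ a := Nat.lt_two_pow_self.le
  have hA : 2 ^ (5 * a + 11) * 2 ^ (5 * a + 11) ≤ N := by
    rw [← pow_add]
    exact (Nat.pow_le_pow_right (by norm_num) (by omega)).trans hN2
  have hB : 2 ^ (5 * a + 11) * b ≤ N := by
    rcases le_total (2 ^ (5 * a + 11)) b with h | h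
    · calc _ ≤ b * b := Nat.mul_le_mul_right _ h
        _ = b ^ 2 := by ring
        _ ≤ N := hb
    · exact (Nat.mul_le_mul_left _ h).trans hA
  have hC : 2 ^ (5 * a + 11) * (2 ^ (12 * a + 4) * a) ≤ N := by
    calc _ ≤ 2 ^ (5 * a + 11) * (2 ^ (12 * a + 4) * 2 ^ a) :=
          Nat.mul_le_mul_left _ (Nat.mul_le_mul_left _ ha2)
      _ = 2 ^ (18 * a + 15) := by
        rw [← pow_add, ← pow_add]
        congr 1
        ring
      _ ≤ 2 ^ (200 * a) := Nat.pow_le_pow_right (by norm_num) (by omega)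
      _ ≤ N := hN2
  have hD : 2 * (64 * (4 ^ r * x * L)) ≤ 2 ^ (5 * a + 11) * x := by
    calc 2 * (64 * (4 ^ r * x * L)) ≤ 2 * (64 * (2 ^ (4 * a + 4) * x * 2 ^ a)) := by gcongr
      _ = 2 ^ (5 * a + 11) * x := by
        have : 2 ^ (5 * a + 11) = 2 * (64 * (2 ^ (4 * a + 4) * 2 ^ a)) := by
          rw [← pow_add, show 64 = 2 ^ 6 by norm_num, ← pow_add, ← pow_succ']
          congr 1
          ring
        rw [this]
        ring
  have hE : 2 ^ (5 * a + 11) * x ≤ N + N := by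
    calc _ ≤ 2 ^ (5 * a + 11) * (b + 2 ^ (12 * a + 4) * a) := Nat.mul_le_mul_left _ hx
      _ = 2 ^ (5 * a + 11) * b + 2 ^ (5 * a + 11) * (2 ^ (12 * a + 4) * a) := by ring
      _ ≤ N + N := Nat.add_le_add hB hC
  omega

theorem expander_lemma' (a1 : ℕ) (ha1 : 10 ^ 15 ≤ a1)
    (ha0 : ∀ a ≥ a1, 2 ^ 28 * (a + 1) ≤ 2 ^ (a / 1000000)) (V E : Type) [Fintype V] [Fintype E]
    (inc : E → Bool → V) (hN : 2 ^ (200 * a1) ≤ Nat.card V) (hA : Atomic inc)
    (hfam : ∀ F : Set (Set V), (∀ Q ∈ F, Short inc (Nat.log 2 (Nat.card V) / 200) Q) →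
      (∀ X ∈ F, ∀ Y ∈ F, X ≠ Y → Far inc X Y) →
      F.ncard ≤ 2 ^ (12 * (Nat.log 2 (Nat.card V) / 200) + 4))
    (y0 : E → ZMod 2) (hy0 : ∀ v, deg inc v = 3 → bd inc y0 v = 0) :
    ({w | w ∈ cyc inc ∧ ¬ ∃ z ∈ cyc inc, z ≠ 0 ∧ SubV z (y0 + w)}.ncard : ℝ) ≤
      (1 / 2 + 1 / (Nat.log 2 (Nat.card V) : ℝ)) * ((cyc inc : Set (E → ZMod 2)).ncard : ℝ) := by
  classical
  set N := Nat.card V with hNdef
  set n0 := Nat.log 2 N with hn0def
  set a := n0 / 200 with hadef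
  have hNpos : 0 < N := lt_of_lt_of_le (by positivity) hN
  have hn0 : 200 * a1 ≤ n0 := Nat.le_log_of_pow_le (by norm_num) hN
  have haa : a1 ≤ a := by omega
  have hNlow : 2 ^ n0 ≤ N := Nat.pow_log_le_self 2 hNpos.ne'
  have hNup : N < 2 ^ (n0 + 1) := Nat.lt_pow_succ_log_self (by norm_num) N
  have h200 : 200 * a ≤ n0 := by omega
  have h200' : n0 < 200 * a + 200 := by omega
  have habig : 10 ^ 15 ≤ a := ha1.trans haa
  have hexp : 2 ^ 28 * (a + 1) ≤ 2 ^ (a / 1000000) := ha0 a haa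
  set e := a / 1000000 with hedef
  obtain ⟨X0, hX0card, hX0deg, hX0T⟩ := base inc hA.1 a (2 ^ (12 * a + 4)) hfam
  set g := a / 2000 with hgdef
  set ρ := a / 4 with hρdef
  set m0 := n0 + 5 with hm0def
  set L := 2 * (m0 * 2 ^ 18) with hLdef
  set D := 2 * Nat.log 2 L + 10 with hDdef
  let R : ℕ → Set V := fun j => (near inc X0 (a + 2 + j * g))ᶜ
  have hRanti : ∀ i j, i ≤ j → R j ⊆ R i := by
    intro i j hij
    exact compl_subset_compl.2 (near_mono inc (Subset.refl _)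
      (Nat.add_le_add_left (Nat.mul_le_mul_right _ hij) _))
  have hR0 : ∀ j, TreeLike inc a (R j) := by
    intro j u hu l hl hlen e
    refine hX0T u ?_ l hl hlen e
    have := hRanti 0 j (Nat.zero_le _) hu
    simpa [R] using this
  have hRdeg : ∀ j, ∀ v ∈ R j, deg inc v = 3 := by
    intro j v hv
    refine hX0deg v fun h => hv (subset_near inc X0 _ h)
  have hRnear : ∀ j, near inc (R (j + 1)) g ⊆ R j := by
    intro j
    have h1 : a + 2 + (j + 1) * g = (a + 2 + j * g) + g := by ring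
    simp only [R, h1]
    exact near_compl inc X0 _ _
  -- numerics for L
  have hL1 : L ≤ 2 ^ 28 * (a + 1) := by
    rw [hLdef, hm0def]
    have : n0 + 5 ≤ 205 * (a + 1) := by omega
    omega
  have hLe : L ≤ 2 ^ e := hL1.trans hexp
  have hea : e ≤ a := Nat.div_le_self _ _
  have hLa : L ≤ 2 ^ a := hLe.trans (Nat.pow_le_pow_right (by norm_num) hea)
  have hLpos : 0 < L := by omega
  have hlogL : Nat.log 2 L ≤ e := by
    calc Nat.log 2 L ≤ Nat.log 2 (2 ^ e) := Nat.log_mono_right hLe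
      _ = e := Nat.log_pow (by norm_num) e
  have hDe : D ≤ 2 * e + 10 := by omega
  -- the first input: many closed walks
  have hone : 9 / 8 ≤ Theta inc (R 2000) L := by
    refine eone inc hA.1 (R 2000) (hRdeg 2000) hNpos m0 (by omega) ?_ ?_
    · calc 16 * N ≤ 16 * 2 ^ (n0 + 1) := Nat.mul_le_mul_left _ hNup.le
        _ = 2 ^ m0 := by
          rw [hm0def, show 16 = 2 ^ 4 by norm_num, ← pow_add]
          congr 1
          ring
    · have h1 : ((R 2000)ᶜ).ncard ≤ 4 ^ (a + 2 + 2000 * g) * X0.ncard := by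
        simp only [R, compl_compl]
        exact ncard_near inc hA.1 X0 _
      have h2 : m0 * 2 ^ 18 + 1 ≤ L := by omega
      calc 64 * (((R 2000)ᶜ).ncard * (m0 * 2 ^ 18 + 1)) ≤
          64 * (4 ^ (a + 2 + 2000 * g) * X0.ncard * L) := by gcongr
        _ ≤ N := num_small hNlow h200 hLa hA.2.1 hX0card (by omega) (by omega)
  -- pigeonhole
  set lam : ℝ := 2 ^ (a / 8) with hlam
  obtain ⟨j, hj, hjle⟩ : ∃ j < 2000, Theta inc (R j) L ≤ lam * Theta inc (R (j + 1)) L := by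
    refine pigeon (θ := fun j => Theta inc (R j) L) (by positivity) 2000 ?_ (by norm_num)
    have h1 := Theta_le inc hA.1 (R 0) L
    have h2 : (N : ℝ) * L ≤ lam ^ 2000 := by
      have h3 : N * L ≤ 2 ^ (a / 8 * 2000) := by
        calc N * L ≤ 2 ^ (n0 + 1) * 2 ^ a := Nat.mul_le_mul hNup.le hLa
          _ = 2 ^ (n0 + 1 + a) := by rw [← pow_add]
          _ ≤ _ := Nat.pow_le_pow_right (by norm_num) (by omega)
      rw [hlam, ← pow_mul]
      exact_mod_cast h3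
    calc Theta inc (R 0) L ≤ N * L := h1
      _ ≤ lam ^ 2000 * 1 := by rw [mul_one]; exact h2
      _ ≤ lam ^ 2000 * Theta inc (R 2000) L := by
        refine mul_le_mul_of_nonneg_left (by linarith) (by positivity)
  have hctx : Ctx inc (R j) (R (j + 1)) a g D L :=
    { deg_le := hA.1
      sep := sep inc hA
      tree := hR0 j
      deg_eq := hRdeg j
      near_sub := hRnear j
      hg := by omega
      hD := by omega
      hDL := by
        have h1 : L < 2 ^ (Nat.log 2 L + 1) := Nat.lt_pow_succ_log_self (by norm_num) L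
        have h2 : D - 1 = 7 + 2 * (Nat.log 2 L + 1) := by omega
        rw [h2, pow_add, pow_mul']
        have h3 : L ^ 2 ≤ (2 ^ (Nat.log 2 L + 1)) ^ 2 := Nat.pow_le_pow_left h1.le 2
        have h4 : 0 < (2 ^ (Nat.log 2 L + 1)) ^ 2 := by positivity
        calc 48 * L ^ 2 ≤ 48 * (2 ^ (Nat.log 2 L + 1)) ^ 2 := Nat.mul_le_mul_left _ h3
          _ < 2 ^ 7 * (2 ^ (Nat.log 2 L + 1)) ^ 2 := by omega
      hL := by
        have h1 : L ^ 2 ≤ (2 ^ a) ^ 2 := Nat.pow_le_pow_left hLa 2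
        calc 400 * L ^ 2 ≤ 2 ^ 9 * (2 ^ a) ^ 2 := Nat.mul_le_mul (by norm_num) h1
          _ = 2 ^ (9 + a * 2) := by rw [← pow_mul, ← pow_add]
          _ ≤ 2 ^ n0 := Nat.pow_le_pow_right (by norm_num) (by omega)
          _ ≤ N := hNlow
      hD1 := by omega
      ha := by omega }
  -- the weight of the nice circuits
  have hmu : 1 ≤ ∑ l ∈ NL inc (R (j + 1)) g L, 1 / (2 * (l.length : ℝ)) * (1 / 2 ^ l.length) := by
    have h1 := mu_lower inc hA.1 (R j) (R (j + 1)) g a ρ L (hR0 j) (by omega) (by omega) (hRnear j)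
    refine le_trans ?_ h1
    have h2 : 9 / 8 ≤ Theta inc (R (j + 1)) L :=
      hone.trans (Theta_mono inc (hRanti (j + 1) 2000 (by omega)) L)
    have h3 : 2 * (L : ℝ) ^ 2 * (g + 1) * 2 ^ g / 2 ^ ρ * lam ≤ 1 / 9 := by
      have h4 : 18 * L ^ 2 * (g + 1) * 2 ^ g * 2 ^ (a / 8) ≤ 2 ^ ρ := by
        have h5 : g + 1 ≤ 2 ^ e := by
          have : g + 1 ≤ 2 ^ 28 * (a + 1) := by omega
          exact this.trans hexp
        calc 18 * L ^ 2 * (g + 1) * 2 ^ g * 2 ^ (a / 8) ≤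
            2 ^ 5 * (2 ^ e) ^ 2 * 2 ^ e * 2 ^ g * 2 ^ (a / 8) := by
              gcongr
              norm_num
          _ = 2 ^ (5 + e * 2 + e + g + a / 8) := by
            rw [← pow_mul, ← pow_add, ← pow_add, ← pow_add, ← pow_add]
          _ ≤ 2 ^ ρ := Nat.pow_le_pow_right (by norm_num) (by omega)
      have h6 : (18 : ℝ) * (L : ℝ) ^ 2 * (g + 1) * 2 ^ g * lam ≤ 2 ^ ρ := by
        rw [hlam]
        exact_mod_cast h4
      rw [div_mul_eq_mul_div, div_le_iff₀ (by positivity)]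
      linarith
    have h4 : 2 * (L : ℝ) ^ 2 * (g + 1) * 2 ^ g / 2 ^ ρ * Theta inc (R j) L ≤
        1 / 9 * Theta inc (R (j + 1)) L := by
      calc _ ≤ 2 * (L : ℝ) ^ 2 * (g + 1) * 2 ^ g / 2 ^ ρ * (lam * Theta inc (R (j + 1)) L) :=
            mul_le_mul_of_nonneg_left hjle (by positivity)
        _ = (2 * (L : ℝ) ^ 2 * (g + 1) * 2 ^ g / 2 ^ ρ * lam) * Theta inc (R (j + 1)) L := by ring
        _ ≤ _ := mul_le_mul_of_nonneg_right h3 (Theta_nonneg inc _ L)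
    linarith
  have hfin := second_main hctx (ρ := ρ) (by omega) hy0 hmu
  refine hfin.trans ?_
  refine mul_le_mul_of_nonneg_right ?_ (by positivity)
  -- the final estimate
  obtain ⟨c, hc⟩ : ∃ c : ℕ, c = 2199023255552 := ⟨_, rfl⟩
  have hK : L / (g - 2 * D) ≤ c := by
    rw [hc]
    refine Nat.div_le_of_le_mul ?_
    omega
  have h1 : n0 * (2 ^ (L / (g - 2 * D) + 1) * (L ^ 2 * 4 ^ D)) ≤ 4 * 2 ^ ρ := by
    have h2 : n0 ≤ L := by omega
    calc n0 * (2 ^ (L / (g - 2 * D) + 1) * (L ^ 2 * 4 ^ D)) ≤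
        2 ^ e * (2 ^ (c + 1) * ((2 ^ e) ^ 2 * 4 ^ (2 * e + 10))) := by
          refine Nat.mul_le_mul (h2.trans hLe) (Nat.mul_le_mul ?_ (Nat.mul_le_mul ?_ ?_))
          · exact Nat.pow_le_pow_right (by norm_num) (by omega)
          · exact Nat.pow_le_pow_left hLe 2
          · exact Nat.pow_le_pow_right (by norm_num) hDe
      _ = 2 ^ (e + (c + 1 + (e * 2 + 2 * (2 * e + 10)))) := by
        rw [show (4 : ℕ) = 2 ^ 2 from rfl, ← pow_mul, ← pow_mul, ← pow_add, ← pow_add, ← pow_add]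
      _ ≤ 2 ^ (2 + ρ) := Nat.pow_le_pow_right (by norm_num) (by omega)
      _ = _ := by
        rw [pow_add]
        norm_num
  have h2 : (n0 : ℝ) * (2 ^ (L / (g - 2 * D) + 1) * ((L : ℝ) ^ 2 * 4 ^ D)) ≤ 4 * 2 ^ ρ := by
    exact_mod_cast h1
  have hn0R : (0 : ℝ) < n0 := by
    have : 0 < n0 := by omega
    exact_mod_cast this
  have h3 : (2 : ℝ) ^ (L / (g - 2 * D) + 1) * ((L : ℝ) ^ 2 * 4 ^ D / 2 ^ ρ) / 4 ≤ 1 / n0 := by
    rw [le_div_iff₀ hn0R]
    have h4 : (2 : ℝ) ^ (L / (g - 2 * D) + 1) * ((L : ℝ) ^ 2 * 4 ^ D / 2 ^ ρ) / 4 * n0 =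
        (n0 : ℝ) * (2 ^ (L / (g - 2 * D) + 1) * ((L : ℝ) ^ 2 * 4 ^ D)) / (4 * 2 ^ ρ) := by
      field_simp
    rw [h4, div_le_one (by positivity)]
    exact h2
  linarith

theorem expander_lemma : ∃ N0 : ℕ, ∀ (V E : Type) [Fintype V] [Fintype E] (inc : E → Bool → V),
    N0 ≤ Nat.card V → Atomic inc →
    (∀ F : Set (Set V), (∀ Q ∈ F, Short inc (Nat.log 2 (Nat.card V) / 200) Q) →
      (∀ X ∈ F, ∀ Y ∈ F, X ≠ Y → Far inc X Y) →
      F.ncard ≤ 2 ^ (12 * (Nat.log 2 (Nat.card V) / 200) + 4)) →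
    ∀ y0 : E → ZMod 2, (∀ v, deg inc v = 3 → bd inc y0 v = 0) →
      ({w | w ∈ cyc inc ∧ ¬ ∃ z ∈ cyc inc, z ≠ 0 ∧ SubV z (y0 + w)}.ncard : ℝ) ≤
        (1 / 2 + 1 / (Nat.log 2 (Nat.card V) : ℝ)) * ((cyc inc : Set (E → ZMod 2)).ncard : ℝ) := by
  obtain ⟨a0, ha0⟩ := asym 1000000 (by norm_num)
  obtain ⟨a1, ha1⟩ : ∃ a1, a1 = a0 + 10 ^ 15 := ⟨_, rfl⟩
  refine ⟨2 ^ (200 * a1), ?_⟩
  intro V E _ _ inc hN hA hfam y0 hy0
  exact expander_lemma' a1 (by omega) (fun a ha => ha0 a (by omega)) V E inc hN hA hfam y0 hy0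

end Pool.Agent.Bondy
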