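import Pool.Agent.Bondy.Basic

/-! # Lower bound for closed non-backtracking walks (Cauchy-Schwarz on pairs of walks) -/

set_option autoImplicit false

namespace Pool.Agent.Bondy

open Set

variable {V E : Type}

namespace EOne

/-! ### Fibre counting -/

theorem ncard_le_fibre {α β : Type} {S : Set α} (hS : S.Finite) {T : Set β} (hT : T.Finite)
    (f : α → β) (k : ℕ) (hf : ∀ a ∈ S, f a ∈ T) (hk : ∀ b ∈ T, {a | a ∈ S ∧ f a = b}.ncard ≤ k) :
    S.ncard ≤ k * T.ncard := by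
  classical
  have h1 : S.ncard = hS.toFinset.card := Set.ncard_eq_toFinset_card S hS
  have h2 : T.ncard = hT.toFinset.card := Set.ncard_eq_toFinset_card T hT
  rw [h1, h2, mul_comm, ← smul_eq_mul]
  have h3 : ∀ a ∈ hS.toFinset, f a ∈ hT.toFinset := by
    intro a ha
    rw [Set.Finite.mem_toFinset] at ha ⊢
    exact hf a ha
  rw [Finset.card_eq_sum_card_fiberwise h3, smul_eq_mul, ← smul_eq_mul]
  refine Finset.sum_le_card_nsmul _ _ _ fun b hb => ?_
  rw [Set.Finite.mem_toFinset] at hb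
  refine le_trans (le_of_eq ?_) (hk b hb)
  rw [← Set.ncard_coe_finset]
  congr 1
  ext a
  simp

theorem fibre_le_ncard {α β : Type} {S : Set α} (hS : S.Finite) {T : Set β} (hT : T.Finite)
    (f : α → β) (k : ℕ) (hf : ∀ a ∈ S, f a ∈ T) (hk : ∀ b ∈ T, k ≤ {a | a ∈ S ∧ f a = b}.ncard) :
    k * T.ncard ≤ S.ncard := by
  classical
  have h1 : S.ncard = hS.toFinset.card := Set.ncard_eq_toFinset_card S hS
  have h2 : T.ncard = hT.toFinset.card := Set.ncard_eq_toFinset_card T hT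
  rw [h1, h2, mul_comm, ← smul_eq_mul]
  have h3 : ∀ a ∈ hS.toFinset, f a ∈ hT.toFinset := by
    intro a ha
    rw [Set.Finite.mem_toFinset] at ha ⊢
    exact hf a ha
  rw [Finset.card_eq_sum_card_fiberwise h3]
  refine Finset.card_nsmul_le_sum _ _ _ fun b hb => ?_
  rw [Set.Finite.mem_toFinset] at hb
  refine le_trans (hk b hb) (le_of_eq ?_)
  rw [← Set.ncard_coe_finset]
  congr 1
  ext a
  simp

/-! ### Continuations of a dart -/

theorem deg_pred [Finite E] (inc : E → Bool → V) (c : E × Bool) :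
    {d | tl inc d = tl inc c ∧ d ≠ c}.ncard + 1 = deg inc (tl inc c) := by
  have h : {d : E × Bool | inc d.1 d.2 = tl inc c} =
      insert c {d | tl inc d = tl inc c ∧ d ≠ c} := by
    ext d
    simp only [Set.mem_ofPred_eq, Set.mem_insert_iff]
    constructor
    · intro hd
      by_cases h : d = c
      · exact Or.inl h
      · exact Or.inr ⟨hd, h⟩
    · rintro (rfl | h)
      · rfl
      · exact h.1
  unfold deg
  rw [h, Set.ncard_insert_of_notMem (by simp) (Set.toFinite _)]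

theorem ext_le [Finite E] {inc : E → Bool → V} (hdeg : ∀ v, deg inc v ≤ 3) (c : E × Bool) :
    {d | tl inc d = tl inc c ∧ d ≠ c}.ncard ≤ 2 := by
  have h1 := deg_pred inc c
  have h2 := hdeg (tl inc c)
  omega

theorem ext_eq [Finite E] {inc : E → Bool → V} (c : E × Bool) (h : deg inc (tl inc c) = 3) :
    {d | tl inc d = tl inc c ∧ d ≠ c}.ncard = 2 := by
  have h1 := deg_pred inc c
  omega

/-! ### Walks starting at a vertex -/

theorem snoc_ext {l : List (E × Bool)} (hl : l ≠ []) :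
    ∃ (l' : List (E × Bool)) (c : E × Bool), l = l' ++ [c] := by
  rcases List.eq_nil_or_concat l with h | ⟨l', d', h⟩
  · exact absurd h hl
  · exact ⟨l', d', by simpa using h⟩

theorem red_snoc2 {l : List (E × Bool)} {c d : E × Bool} :
    Red (l ++ [c] ++ [d]) ↔ Red (l ++ [c]) ∧ d ≠ rv c := by
  rw [red_append (l := l ++ [c])]
  simp

/-- reduced walks of length `m + 1` starting at `v` -/
theorem count_start [Fintype E] (inc : E → Bool → V) (hdeg : ∀ v, deg inc v ≤ 3)
    (v : V) (m : ℕ) :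
    {l : List (E × Bool) | l.length = m + 1 ∧ Red l ∧ ∃ w, Walk inc v l w}.ncard ≤ 3 * 2 ^ m := by
  induction m with
  | zero =>
    have h : {l : List (E × Bool) | l.length = 0 + 1 ∧ Red l ∧ ∃ w, Walk inc v l w} ⊆
        (fun d => [d]) '' {d : E × Bool | inc d.1 d.2 = v} := by
      rintro l ⟨h1, _, w, h3⟩
      obtain ⟨d, rfl⟩ := List.length_eq_one_iff.1 (by simpa using h1)
      exact ⟨d, h3.1, rfl⟩
    refine (Set.ncard_le_ncard h (Set.toFinite _)).trans ?_
    refine (Set.ncard_image_le (Set.toFinite _)).trans ?_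
    simpa [deg] using hdeg v
  | succ m ih =>
    have h1 := ncard_le_fibre (finite_lists (m + 1 + 1) fun l => Red l ∧ ∃ w, Walk inc v l w)
      (finite_lists (m + 1) fun l => Red l ∧ ∃ w, Walk inc v l w) List.dropLast 2 ?_ ?_
    · refine h1.trans ?_
      rw [pow_succ]
      have := Nat.mul_le_mul_left 2 ih
      calc _ ≤ 2 * (3 * 2 ^ m) := this
        _ = _ := by ring
    · rintro l ⟨h1, h2, w, h3⟩
      obtain ⟨l', d, rfl⟩ := snoc_ext (l := l) (by rintro rfl; simp at h1)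
      rw [List.dropLast_concat]
      refine ⟨by simpa using h1, h2.of_append_left, _, (walk_snoc.1 h3).1⟩
    · rintro l ⟨h1, h2, w, h3⟩
      obtain ⟨l', c, rfl⟩ := snoc_ext (l := l) (by rintro rfl; simp at h1)
      have hsub : {a | a ∈ {l : List (E × Bool) | l.length = m + 1 + 1 ∧ Red l ∧
          ∃ w, Walk inc v l w} ∧ a.dropLast = l' ++ [c]} ⊆
          (fun d => l' ++ [c] ++ [d]) '' {d | tl inc d = tl inc (rv c) ∧ d ≠ rv c} := by
        rintro a ⟨⟨ha1, ha2, w', ha3⟩, ha4⟩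
        obtain ⟨a', d, rfl⟩ := snoc_ext (l := a) (by rintro rfl; simp at ha1)
        rw [List.dropLast_concat] at ha4
        subst ha4
        refine ⟨d, ⟨?_, (red_snoc2.1 ha2).2⟩, rfl⟩
        have h5 := (walk_snoc.1 ha3).1
        have h6 := (walk_snoc.1 h5).2
        rw [tl_rv, h6]
      refine (Set.ncard_le_ncard hsub (Set.toFinite _)).trans ?_
      exact (Set.ncard_image_le (Set.toFinite _)).trans (ext_le hdeg _)

theorem count_end [Fintype E] (inc : E → Bool → V) (hdeg : ∀ v, deg inc v ≤ 3)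
    (v : V) (m : ℕ) :
    {l : List (E × Bool) | l.length = m + 1 ∧ Red l ∧ ∃ u, Walk inc u l v}.ncard ≤ 3 * 2 ^ m := by
  have h : {l : List (E × Bool) | l.length = m + 1 ∧ Red l ∧ ∃ u, Walk inc u l v} ⊆
      rl '' {l : List (E × Bool) | l.length = m + 1 ∧ Red l ∧ ∃ w, Walk inc v l w} := by
    rintro l ⟨h1, h2, u, h3⟩
    exact ⟨rl l, ⟨by simpa using h1, red_rl.2 h2, u, h3.rev⟩, rl_rl l⟩
  refine (Set.ncard_le_ncard h ((finite_lists (m + 1) _).image _)).trans ?_
  exact (Set.ncard_image_le (finite_lists (m + 1) _)).trans (count_start inc hdeg v m)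

/-- starting vertex -/
def st (inc : E → Bool → V) (l : List (E × Bool)) : Option V := l.head?.map (tl inc)

/-- final vertex -/
def en (inc : E → Bool → V) (l : List (E × Bool)) : Option V := l.getLast?.map (hd inc)

theorem st_eq {inc : E → Bool → V} {u w : V} {l : List (E × Bool)} (h : Walk inc u l w)
    (hl : l ≠ []) : st inc l = some u := by
  cases l with
  | nil => exact absurd rfl hl
  | cons d l => simp [st, h.1]

theorem en_eq {inc : E → Bool → V} {u w : V} {l : List (E × Bool)} (h : Walk inc u l w)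
    (hl : l ≠ []) : en inc l = some w := by
  obtain ⟨l', d, rfl⟩ := snoc_ext hl
  simp [en, (walk_snoc.1 h).2]

/-- reduced walks of length `m` inside `R` -/
def WS (inc : E → Bool → V) (R : Set V) (m : ℕ) : Set (List (E × Bool)) :=
  {l | l.length = m ∧ (Red l ∧ (∃ u w, Walk inc u l w) ∧ ∀ d ∈ l, tl inc d ∈ R ∧ hd inc d ∈ R)}

theorem finite_WS [Finite E] (inc : E → Bool → V) (R : Set V) (m : ℕ) : (WS inc R m).Finite :=
  finite_lists m _

theorem ncard_WS_le [Fintype V] [Fintype E] (inc : E → Bool → V) (hdeg : ∀ v, deg inc v ≤ 3)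
    (R : Set V) (m : ℕ) : (WS inc R (m + 1)).ncard ≤ 3 * 2 ^ m * Nat.card V := by
  have h := ncard_le_fibre (finite_WS inc R (m + 1)) (Set.toFinite (some '' (Set.univ : Set V)))
    (st inc) (3 * 2 ^ m) ?_ ?_
  · rwa [Set.ncard_image_of_injective _ (Option.some_injective V), Set.ncard_univ] at h
  · rintro l ⟨h1, h2, ⟨u, w, h3⟩, h4⟩
    exact ⟨u, trivial, (st_eq h3 (by rintro rfl; simp at h1)).symm⟩
  · rintro _ ⟨v, -, rfl⟩
    refine (Set.ncard_le_ncard ?_ (finite_lists (m + 1) _)).trans (count_start inc hdeg v m)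
    rintro l ⟨⟨h1, h2, ⟨u, w, h3⟩, h4⟩, h5⟩
    rw [st_eq h3 (by rintro rfl; simp at h1)] at h5
    obtain rfl := Option.some_injective V h5
    exact ⟨h1, h2, w, h3⟩

theorem ncard_bad_le [Fintype V] [Fintype E] (inc : E → Bool → V) (hdeg : ∀ v, deg inc v ≤ 3)
    (R : Set V) (m : ℕ) :
    {l : List (E × Bool) | l.length = m + 1 ∧ (Red l ∧ ∃ u w, Walk inc u l w ∧ w ∉ R)}.ncard ≤
      3 * 2 ^ m * (Rᶜ).ncard := by
  have h := ncard_le_fibre (finite_lists (m + 1) fun l => Red l ∧ ∃ u w, Walk inc u l w ∧ w ∉ R)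
    (Set.toFinite (some '' Rᶜ)) (en inc) (3 * 2 ^ m) ?_ ?_
  · rwa [Set.ncard_image_of_injective _ (Option.some_injective V)] at h
  · rintro l ⟨h1, h2, u, w, h3, h4⟩
    exact ⟨w, h4, (en_eq h3 (by rintro rfl; simp at h1)).symm⟩
  · rintro _ ⟨v, -, rfl⟩
    refine (Set.ncard_le_ncard ?_ (finite_lists (m + 1) _)).trans (count_end inc hdeg v m)
    rintro l ⟨⟨h1, h2, u, w, h3, h4⟩, h5⟩
    rw [en_eq h3 (by rintro rfl; simp at h1)] at h5
    obtain rfl := Option.some_injective V h5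
    exact ⟨h1, h2, u, h3⟩

/-- lower bound for the number of reduced walks inside `R` -/
theorem le_ncard_WS [Fintype V] [Fintype E] (inc : E → Bool → V) (hdeg : ∀ v, deg inc v ≤ 3)
    (R : Set V) (hR : ∀ v ∈ R, deg inc v = 3) (m : ℕ) :
    3 * 2 ^ m * Nat.card V ≤ (WS inc R (m + 1)).ncard + 3 * 2 ^ m * ((m + 2) * (Rᶜ).ncard) := by
  induction m with
  | zero =>
    have hRc : R.ncard + (Rᶜ).ncard = Nat.card V := Set.ncard_add_ncard_compl R
    -- darts starting in R
    have h1 : 3 * R.ncard ≤ {d : E × Bool | tl inc d ∈ R}.ncard := by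
      refine fibre_le_ncard (Set.toFinite _) (Set.toFinite R) (tl inc) 3 (fun d hd => hd) ?_
      intro v hv
      refine le_of_eq ?_
      have h := hR v hv
      unfold deg at h
      rw [← h]
      congr 1
      ext d
      constructor
      · intro hd
        have hd' : tl inc d = v := hd
        exact ⟨by show tl inc d ∈ R; rw [hd']; exact hv, hd'⟩
      · rintro ⟨_, hd⟩
        exact hd
    have h2 : {d : E × Bool | hd inc d ∉ R}.ncard ≤ 3 * (Rᶜ).ncard := by
      refine ncard_le_fibre (Set.toFinite _) (Set.toFinite Rᶜ) (hd inc) 3 (fun d hd => hd) ?_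
      intro v hv
      have hsub : {a | a ∈ {d : E × Bool | hd inc d ∉ R} ∧ hd inc a = v} ⊆
          rv '' {h : E × Bool | inc h.1 h.2 = v} := by
        rintro d ⟨_, hd'⟩
        exact ⟨rv d, hd', rv_rv d⟩
      refine (Set.ncard_le_ncard hsub (Set.toFinite _)).trans ?_
      exact (Set.ncard_image_le (Set.toFinite _)).trans (hdeg v)
    have h3 : {d : E × Bool | tl inc d ∈ R}.ncard ≤
        (WS inc R 1).ncard + {d : E × Bool | hd inc d ∉ R}.ncard := by
      have hsub : {d : E × Bool | tl inc d ∈ R} ⊆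
          {d : E × Bool | tl inc d ∈ R ∧ hd inc d ∈ R} ∪ {d : E × Bool | hd inc d ∉ R} := by
        intro d hd'
        by_cases h : hd inc d ∈ R
        · exact Or.inl ⟨hd', h⟩
        · exact Or.inr h
      refine (Set.ncard_le_ncard hsub (Set.toFinite _)).trans ?_
      refine (Set.ncard_union_le _ _).trans ?_
      refine Nat.add_le_add_right ?_ _
      have hinj : Function.Injective (fun d : E × Bool => [d]) := fun a b h => by simpa using h
      rw [← Set.ncard_image_of_injective _ hinj]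
      refine Set.ncard_le_ncard ?_ (finite_WS inc R 1)
      rintro _ ⟨d, hd', rfl⟩
      refine ⟨rfl, red_singleton d, ⟨tl inc d, hd inc d, rfl, rfl⟩, ?_⟩
      intro d' hd''
      rw [List.mem_singleton] at hd''
      rw [hd'']
      exact hd'
    simp only [zero_add, pow_zero, mul_one]
    omega
  | succ m ih =>
    set X : Set (List (E × Bool)) := {l | l.length = m + 1 + 1 ∧
      (Red l ∧ (∃ u w, Walk inc u l w) ∧ l.dropLast ∈ WS inc R (m + 1))} with hX
    have hXf : X.Finite := finite_lists _ _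
    have h1 : 2 * (WS inc R (m + 1)).ncard ≤ X.ncard := by
      refine fibre_le_ncard hXf (finite_WS inc R (m + 1)) List.dropLast 2
        (fun l hl => hl.2.2.2) ?_
      rintro l ⟨h1, h2, ⟨u, w, h3⟩, h4⟩
      obtain ⟨l', c, rfl⟩ := snoc_ext (l := l) (by rintro rfl; simp at h1)
      have hc : hd inc c ∈ R := (h4 c (by simp)).2
      have h5 : {d | tl inc d = tl inc (rv c) ∧ d ≠ rv c}.ncard = 2 :=
        ext_eq (rv c) (by rw [tl_rv]; exact hR _ hc)
      have hinj : Function.Injective (fun d : E × Bool => l' ++ [c] ++ [d]) := by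
        intro a b h
        simpa using h
      rw [← h5, ← Set.ncard_image_of_injective _ hinj]
      refine Set.ncard_le_ncard ?_ (hXf.subset fun a ha => ha.1)
      rintro _ ⟨d, ⟨hd1, hd2⟩, rfl⟩
      have hw : Walk inc u (l' ++ [c] ++ [d]) (hd inc d) := by
        refine walk_snoc.2 ⟨?_, rfl⟩
        rw [hd1, tl_rv, (walk_snoc.1 h3).2]
        exact h3
      refine ⟨⟨by simpa using h1, red_snoc2.2 ⟨h2, hd2⟩, ⟨u, _, hw⟩, ?_⟩, ?_⟩
      · show (l' ++ [c] ++ [d]).dropLast ∈ WS inc R (m + 1)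
        rw [List.dropLast_concat]
        exact ⟨h1, h2, ⟨u, w, h3⟩, h4⟩
      · show (l' ++ [c] ++ [d]).dropLast = _
        rw [List.dropLast_concat]
    have h2 : X.ncard ≤ (WS inc R (m + 1 + 1)).ncard +
        {l : List (E × Bool) | l.length = m + 1 + 1 ∧
          (Red l ∧ ∃ u w, Walk inc u l w ∧ w ∉ R)}.ncard := by
      refine le_trans (Set.ncard_le_ncard ?_ ((finite_WS inc R _).union (finite_lists _ _)))
        (Set.ncard_union_le _ _)
      rintro l ⟨h1, h2, ⟨u, w, h3⟩, h4⟩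
      by_cases hw : w ∈ R
      · left
        refine ⟨h1, h2, ⟨u, w, h3⟩, ?_⟩
        obtain ⟨l', d, rfl⟩ := snoc_ext (l := l) (by rintro rfl; simp at h1)
        rw [List.dropLast_concat] at h4
        obtain ⟨h5, h6, ⟨u', w', h7⟩, h8⟩ := h4
        have h9 := walk_snoc.1 h3
        intro d' hd'
        rcases List.mem_append.1 hd' with h | h
        · exact h8 d' h
        · rw [List.mem_singleton] at h
          subst h
          refine ⟨?_, by rw [h9.2]; exact hw⟩
          obtain ⟨l'', c, rfl⟩ := snoc_ext (l := l') (by rintro rfl; simp at h5)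
          have h10 := (walk_snoc.1 h9.1).2
          rw [← h10]
          exact (h8 c (by simp)).2
      · right
        exact ⟨h1, h2, u, w, h3, hw⟩
    have h3 := ncard_bad_le inc hdeg R (m + 1)
    have h4 : 3 * 2 ^ (m + 1) * Nat.card V = 2 * (3 * 2 ^ m * Nat.card V) := by ring
    have h5 : 3 * 2 ^ (m + 1) * ((m + 1 + 2) * (Rᶜ).ncard) =
        2 * (3 * 2 ^ m * ((m + 2) * (Rᶜ).ncard)) + 3 * 2 ^ (m + 1) * (Rᶜ).ncard := by ring
    omega

/-! ### Pairs of walks -/

/-- `p.1` and `p.2` are reduced walks in `R` with the same ends -/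
def PA (inc : E → Bool → V) (R : Set V) (m : ℕ) : Set (List (E × Bool) × List (E × Bool)) :=
  {p | p.1 ∈ WS inc R m ∧ p.2 ∈ WS inc R m ∧ ∃ u w, Walk inc u p.1 w ∧ Walk inc u p.2 w}

/-- different walks -/
def PB (inc : E → Bool → V) (R : Set V) (m : ℕ) : Set (List (E × Bool) × List (E × Bool)) :=
  {p | p ∈ PA inc R m ∧ p.1 ≠ p.2}

/-- different first darts -/
def PC (inc : E → Bool → V) (R : Set V) (m : ℕ) : Set (List (E × Bool) × List (E × Bool)) :=
  {p | p ∈ PA inc R m ∧ p.1.head? ≠ p.2.head?}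

theorem finite_PA [Finite E] (inc : E → Bool → V) (R : Set V) (m : ℕ) : (PA inc R m).Finite :=
  ((finite_WS inc R m).prod (finite_WS inc R m)).subset fun _ h => ⟨h.1, h.2.1⟩

theorem finite_PB [Finite E] (inc : E → Bool → V) (R : Set V) (m : ℕ) : (PB inc R m).Finite :=
  (finite_PA inc R m).subset fun _ h => h.1

theorem finite_PC [Finite E] (inc : E → Bool → V) (R : Set V) (m : ℕ) : (PC inc R m).Finite :=
  (finite_PA inc R m).subset fun _ h => h.1

/-- Cauchy-Schwarz -/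
theorem sq_le_PA [Fintype V] [Fintype E] (inc : E → Bool → V) (R : Set V) (m : ℕ) :
    (WS inc R (m + 1)).ncard ^ 2 ≤ Nat.card V ^ 2 * (PA inc R (m + 1)).ncard := by
  classical
  set S : Finset (List (E × Bool)) := (finite_WS inc R (m + 1)).toFinset with hS
  set f : List (E × Bool) → Option V × Option V := fun l => (st inc l, en inc l) with hf
  set T : Finset (Option V × Option V) :=
    (Finset.univ.image some) ×ˢ (Finset.univ.image some) with hT
  have hne : ∀ l ∈ WS inc R (m + 1), l ≠ [] := by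
    rintro l ⟨h1, _⟩ rfl
    simp at h1
  have hST : ∀ l ∈ S, f l ∈ T := by
    intro l hl
    rw [hS, Set.Finite.mem_toFinset] at hl
    obtain ⟨h1, h2, ⟨u, w, h3⟩, h4⟩ := hl
    have hl' : l ≠ [] := by rintro rfl; simp at h1
    simp only [hf, hT, Finset.mem_product, st_eq h3 hl', en_eq h3 hl']
    simp
  have hc : S.card = ∑ t ∈ T, (S.filter fun l => f l = t).card :=
    Finset.card_eq_sum_card_fiberwise hST
  have hTc : T.card = Nat.card V ^ 2 := by
    rw [hT, Finset.card_product, Finset.card_image_of_injective _ (Option.some_injective V),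
      Finset.card_univ, Nat.card_eq_fintype_card, sq]
  have hPA : ∑ t ∈ T, (S.filter fun l => f l = t).card ^ 2 ≤ (PA inc R (m + 1)).ncard := by
    have h1 : ((S ×ˢ S).filter fun p => f p.1 = f p.2).card =
        ∑ t ∈ T, (S.filter fun l => f l = t).card ^ 2 := by
      have hmap : ∀ p ∈ (S ×ˢ S).filter (fun p => f p.1 = f p.2), f p.1 ∈ T := by
        intro p hp
        rw [Finset.mem_filter, Finset.mem_product] at hp
        exact hST _ hp.1.1
      rw [Finset.card_eq_sum_card_fiberwise hmap]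
      refine Finset.sum_congr rfl fun t _ => ?_
      rw [sq, ← Finset.card_product]
      congr 1
      ext p
      simp only [Finset.mem_filter, Finset.mem_product]
      constructor
      · rintro ⟨⟨⟨h1, h2⟩, h3⟩, h4⟩
        exact ⟨⟨h1, h4⟩, h2, by rw [← h3]; exact h4⟩
      · rintro ⟨⟨h1, h4⟩, h2, h3⟩
        exact ⟨⟨⟨h1, h2⟩, by rw [h4, h3]⟩, h4⟩
    rw [← h1, ← Set.ncard_coe_finset]
    refine Set.ncard_le_ncard ?_ (finite_PA inc R (m + 1))
    intro p hp
    rw [Finset.mem_coe, Finset.mem_filter, Finset.mem_product, hS, Set.Finite.mem_toFinset,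
      Set.Finite.mem_toFinset] at hp
    obtain ⟨⟨h1, h2⟩, h3⟩ := hp
    obtain ⟨_, _, ⟨u, w, h4⟩, _⟩ := id h1
    obtain ⟨_, _, ⟨u', w', h5⟩, _⟩ := id h2
    simp only [hf, st_eq h4 (hne _ h1), st_eq h5 (hne _ h2), en_eq h4 (hne _ h1),
      en_eq h5 (hne _ h2), Prod.mk.injEq, Option.some.injEq] at h3
    obtain ⟨rfl, rfl⟩ := h3
    exact ⟨h1, h2, u, w, h4, h5⟩
  have hcs : (∑ t ∈ T, (S.filter fun l => f l = t).card) ^ 2 ≤
      T.card * ∑ t ∈ T, (S.filter fun l => f l = t).card ^ 2 := sq_sum_le_card_mul_sum_sq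
  have hWS : (WS inc R (m + 1)).ncard = S.card := Set.ncard_eq_toFinset_card _ _
  rw [hWS, hc, ← hTc]
  exact hcs.trans (Nat.mul_le_mul_left _ hPA)

theorem PA_eq [Finite E] (inc : E → Bool → V) (R : Set V) (m : ℕ) :
    (PA inc R m).ncard ≤ (PB inc R m).ncard + (WS inc R m).ncard := by
  have hsub : PA inc R m ⊆ PB inc R m ∪ (fun l => (l, l)) '' WS inc R m := by
    intro p hp
    by_cases h : p.1 = p.2
    · right
      exact ⟨p.1, hp.1, Prod.ext rfl h⟩
    · left
      exact ⟨hp, h⟩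
  refine (Set.ncard_le_ncard hsub ((finite_PB inc R m).union ((finite_WS inc R m).image _))).trans ?_
  exact (Set.ncard_union_le _ _).trans
    (Nat.add_le_add_left (Set.ncard_image_le (finite_WS inc R m)) _)

/-- removing the first dart -/
theorem WS_tail {inc : E → Bool → V} {R : Set V} {m : ℕ} {d : E × Bool} {l : List (E × Bool)}
    (h : d :: l ∈ WS inc R (m + 1)) : l ∈ WS inc R m := by
  obtain ⟨h1, h2, ⟨u, w, h3⟩, h4⟩ := h
  refine ⟨by simpa using h1, ?_, ⟨_, w, h3.2⟩, fun d' hd' => h4 d' (List.mem_cons_of_mem _ hd')⟩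
  exact Red.of_append_right (l := [d]) (by simpa using h2)

theorem WS_init {inc : E → Bool → V} {R : Set V} {m : ℕ} {d : E × Bool} {l : List (E × Bool)}
    (h : l ++ [d] ∈ WS inc R (m + 1)) : l ∈ WS inc R m := by
  obtain ⟨h1, h2, ⟨u, w, h3⟩, h4⟩ := h
  exact ⟨by simpa using h1, h2.of_append_left, ⟨u, _, (walk_snoc.1 h3).1⟩,
    fun d' hd' => h4 d' (List.mem_append_left _ hd')⟩

theorem PB_le [Fintype V] [Fintype E] (inc : E → Bool → V) (hdeg : ∀ v, deg inc v ≤ 3)
    (R : Set V) (m : ℕ) :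
    (PB inc R (m + 2)).ncard ≤ (PC inc R (m + 2)).ncard + 2 * (PB inc R (m + 1)).ncard := by
  set Y : Set (List (E × Bool) × List (E × Bool)) :=
    {p | p ∈ PB inc R (m + 2) ∧ p.1.head? = p.2.head?} with hY
  have h1 : PB inc R (m + 2) ⊆ PC inc R (m + 2) ∪ Y := by
    intro p hp
    by_cases h : p.1.head? = p.2.head?
    · exact Or.inr ⟨hp, h⟩
    · exact Or.inl ⟨hp.1, h⟩
  have hYf : Y.Finite := (finite_PB inc R (m + 2)).subset fun _ h => h.1
  refine (Set.ncard_le_ncard h1 ((finite_PC inc R _).union hYf)).trans ?_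
  refine (Set.ncard_union_le _ _).trans (Nat.add_le_add_left ?_ _)
  refine ncard_le_fibre hYf (finite_PB inc R (m + 1)) (fun p => (p.1.tail, p.2.tail)) 2 ?_ ?_
  · rintro ⟨l, l'⟩ ⟨⟨⟨h2, h3, u, w, h4, h5⟩, h6⟩, h7⟩
    simp only at h2 h3 h4 h5 h6 h7
    cases l with
    | nil => simp [WS] at h2
    | cons d l =>
      cases l' with
      | nil => simp [WS] at h3
      | cons d' l' =>
        simp only [List.head?_cons, Option.some.injEq] at h7
        subst h7
        refine ⟨⟨WS_tail h2, WS_tail h3, _, w, h4.2, h5.2⟩, ?_⟩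
        simpa using h6
  · rintro ⟨l, l'⟩ ⟨⟨h2, h3, u, w, h4, h5⟩, h6⟩
    simp only at h2 h3 h4 h5 h6
    obtain ⟨c, t, rfl⟩ : ∃ c t, l = c :: t := by
      cases l with
      | nil => simp [WS] at h2
      | cons c t => exact ⟨c, t, rfl⟩
    have hsub : {a | a ∈ Y ∧ (a.1.tail, a.2.tail) = (c :: t, l')} ⊆
        (fun d => (rv d :: c :: t, rv d :: l')) '' {d | tl inc d = tl inc c ∧ d ≠ c} := by
      rintro ⟨a, a'⟩ ⟨⟨⟨⟨h7, h8, u', w', h9, h10⟩, h11⟩, h12⟩, h13⟩
      simp only at h7 h8 h9 h10 h11 h12 h13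
      cases a with
      | nil => simp [WS] at h7
      | cons d a =>
        cases a' with
        | nil => simp [WS] at h8
        | cons d' a' =>
          simp only [List.head?_cons, Option.some.injEq] at h12
          subst h12
          simp only [List.tail_cons, Prod.mk.injEq] at h13
          obtain ⟨rfl, rfl⟩ := h13
          refine ⟨rv d, ⟨?_, ?_⟩, by simp⟩
          · rw [tl_rv]
            exact h9.2.1.symm
          · intro hd
            have hred := h7.2.1
            rw [red_cons_cons] at hred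
            exact hred.1 hd.symm
    refine (Set.ncard_le_ncard hsub (Set.toFinite _)).trans ?_
    exact (Set.ncard_image_le (Set.toFinite _)).trans (ext_le hdeg c)

theorem PB_one [Finite E] (inc : E → Bool → V) (R : Set V) :
    (PB inc R 1).ncard ≤ (PC inc R 1).ncard := by
  refine Set.ncard_le_ncard ?_ (finite_PC inc R 1)
  rintro ⟨l, l'⟩ ⟨h, h'⟩
  refine ⟨h, ?_⟩
  obtain ⟨d, rfl⟩ := List.length_eq_one_iff.1 h.1.1
  obtain ⟨d', rfl⟩ := List.length_eq_one_iff.1 h.2.1.1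
  simpa using h'

/-- a pair with different first darts and different last darts gives a closed walk -/
theorem pair_mem_cnb {inc : E → Bool → V} {R : Set V} {m : ℕ} {l l' : List (E × Bool)}
    (h : (l, l') ∈ PC inc R (m + 1)) (h' : l.getLast? ≠ l'.getLast?) :
    l ++ rl l' ∈ cnb inc R (2 * (m + 1)) := by
  obtain ⟨⟨h1, h2, u, w, h3, h4⟩, h5⟩ := h
  simp only at h1 h2 h3 h4 h5
  have hl : l ≠ [] := by rintro rfl; simp [WS] at h1
  have hl' : l' ≠ [] := by rintro rfl; simp [WS] at h2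
  have hrl : rl l' ≠ [] := by simpa using hl'
  have e1 : (rl l').getLast? = l'.head?.map rv := by
    cases l' with
    | nil => exact absurd rfl hl'
    | cons d l' => simp
  have e2 : (rl l').head? = l'.getLast?.map rv := by
    obtain ⟨t, d, rfl⟩ := snoc_ext hl'
    simp [rl]
  refine ⟨by simp [h1.1, h2.1]; ring, ?_, ⟨u, walk_append.2 ⟨w, h3, h4.rev⟩⟩, ?_⟩
  · rw [cred_iff, red_append]
    refine ⟨⟨h1.2.1, red_rl.2 h2.2.1, ?_⟩, ?_⟩
    · intro x hx y hy hxy
      rw [e2] at hy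
      rw [Option.mem_def, Option.map_eq_some_iff] at hy
      obtain ⟨z, hz, rfl⟩ := hy
      have := rv_injective hxy
      subst this
      exact h' (hx.trans hz.symm)
    · intro x hx y hy hxy
      rw [List.getLast?_append_of_ne_nil _ hrl, e1, Option.mem_def, Option.map_eq_some_iff] at hx
      obtain ⟨z, hz, rfl⟩ := hx
      rw [List.head?_append_of_ne_nil _ hl] at hy
      rw [rv_rv] at hxy
      subst hxy
      exact h5 (hy.trans hz.symm)
  · intro d hd
    rcases List.mem_append.1 hd with h | h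
    · exact (h1.2.2.2 d h).1
    · rw [mem_rl] at h
      have := (h2.2.2.2 _ h).2
      simpa using this

theorem pairs_inj {m : ℕ} {p q : List (E × Bool) × List (E × Bool)} (hp : p.1.length = m)
    (hq : q.1.length = m) (h : p.1 ++ rl p.2 = q.1 ++ rl q.2) : p = q := by
  obtain ⟨h1, h2⟩ := List.append_inj h (hp.trans hq.symm)
  exact Prod.ext h1 (rl_injective h2)

theorem PC_le [Fintype V] [Fintype E] (inc : E → Bool → V) (hdeg : ∀ v, deg inc v ≤ 3)
    (R : Set V) (m : ℕ) :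
    (PC inc R (m + 2)).ncard ≤ (cnb inc R (2 * (m + 2))).ncard + 2 * (PC inc R (m + 1)).ncard := by
  set Y : Set (List (E × Bool) × List (E × Bool)) :=
    {p | p ∈ PC inc R (m + 2) ∧ p.1.getLast? = p.2.getLast?} with hY
  set Z : Set (List (E × Bool) × List (E × Bool)) :=
    {p | p ∈ PC inc R (m + 2) ∧ p.1.getLast? ≠ p.2.getLast?} with hZ
  have h1 : PC inc R (m + 2) ⊆ Z ∪ Y := by
    intro p hp
    by_cases h : p.1.getLast? = p.2.getLast?
    · exact Or.inr ⟨hp, h⟩
    · exact Or.inl ⟨hp, h⟩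
  have hYf : Y.Finite := (finite_PC inc R (m + 2)).subset fun _ h => h.1
  have hZf : Z.Finite := (finite_PC inc R (m + 2)).subset fun _ h => h.1
  refine (Set.ncard_le_ncard h1 (hZf.union hYf)).trans ?_
  refine (Set.ncard_union_le _ _).trans (Nat.add_le_add ?_ ?_)
  · refine Set.ncard_le_ncard_of_injOn (fun p => p.1 ++ rl p.2) ?_ ?_ (finite_cnb inc R _)
    · rintro ⟨l, l'⟩ ⟨h2, h3⟩
      exact pair_mem_cnb h2 h3
    · intro p hp q hq hpq
      exact pairs_inj hp.1.1.1.1 hq.1.1.1.1 hpq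
  · refine ncard_le_fibre hYf (finite_PC inc R (m + 1)) (fun p => (p.1.dropLast, p.2.dropLast)) 2
      ?_ ?_
    · rintro ⟨l, l'⟩ ⟨⟨⟨h2, h3, u, w, h4, h5⟩, h6⟩, h7⟩
      simp only at h2 h3 h4 h5 h6 h7
      obtain ⟨t, d, rfl⟩ := snoc_ext (l := l) (by rintro rfl; simp [WS] at h2)
      obtain ⟨t', d', rfl⟩ := snoc_ext (l := l') (by rintro rfl; simp [WS] at h3)
      simp only [List.getLast?_append, List.getLast?_singleton, Option.some_or,
        Option.some.injEq] at h7
      subst h7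
      have ht : t ≠ [] := by rintro rfl; simp [WS] at h2
      have ht' : t' ≠ [] := by rintro rfl; simp [WS] at h3
      rw [List.head?_append_of_ne_nil _ ht, List.head?_append_of_ne_nil _ ht'] at h6
      simp only [List.dropLast_concat]
      exact ⟨⟨WS_init h2, WS_init h3, u, _, (walk_snoc.1 h4).1, (walk_snoc.1 h5).1⟩, h6⟩
    · rintro ⟨l, l'⟩ ⟨⟨h2, h3, u, w, h4, h5⟩, h6⟩
      simp only at h2 h3 h4 h5 h6
      obtain ⟨t, c, rfl⟩ := snoc_ext (l := l) (by rintro rfl; simp [WS] at h2)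
      have hsub : {a | a ∈ Y ∧ (a.1.dropLast, a.2.dropLast) = (t ++ [c], l')} ⊆
          (fun d => (t ++ [c] ++ [d], l' ++ [d])) '' {d | tl inc d = tl inc (rv c) ∧ d ≠ rv c} := by
        rintro ⟨a, a'⟩ ⟨⟨⟨⟨h7, h8, u', w', h9, h10⟩, h11⟩, h12⟩, h13⟩
        simp only at h7 h8 h9 h10 h11 h12 h13
        obtain ⟨s, d, rfl⟩ := snoc_ext (l := a) (by rintro rfl; simp [WS] at h7)
        obtain ⟨s', d', rfl⟩ := snoc_ext (l := a') (by rintro rfl; simp [WS] at h8)
        simp only [List.getLast?_append, List.getLast?_singleton, Option.some_or,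
          Option.some.injEq] at h12
        subst h12
        simp only [List.dropLast_concat, Prod.mk.injEq] at h13
        obtain ⟨rfl, rfl⟩ := h13
        refine ⟨d, ⟨?_, (red_snoc2.1 h7.2.1).2⟩, rfl⟩
        rw [tl_rv, (walk_snoc.1 (walk_snoc.1 h9).1).2]
      refine (Set.ncard_le_ncard hsub (Set.toFinite _)).trans ?_
      exact (Set.ncard_image_le (Set.toFinite _)).trans (ext_le hdeg _)

theorem PC_one [Finite E] (inc : E → Bool → V) (R : Set V) :
    (PC inc R 1).ncard ≤ (cnb inc R (2 * 1)).ncard := by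
  refine Set.ncard_le_ncard_of_injOn (fun p => p.1 ++ rl p.2) ?_ ?_ (finite_cnb inc R _)
  · rintro ⟨l, l'⟩ h
    refine pair_mem_cnb h ?_
    have h' := h.2
    obtain ⟨d, rfl⟩ := List.length_eq_one_iff.1 h.1.1.1
    obtain ⟨d', rfl⟩ := List.length_eq_one_iff.1 h.1.2.1.1
    simpa using h'
  · intro p hp q hq hpq
    exact pairs_inj hp.1.1.1 hq.1.1.1 hpq


/-! ### The numeric part -/

theorem abstract_sum (x y : ℕ → ℝ) (hx : ∀ m, 0 ≤ x m) (h1 : x 1 ≤ y 1)
    (h : ∀ k, x (k + 2) ≤ y (k + 2) + x (k + 1) / 2) (M : ℕ) :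
    ∑ m ∈ Finset.Icc 1 M, x m / (m : ℝ) ≤ 2 * ∑ m ∈ Finset.Icc 1 M, y m / (m : ℝ) := by
  have key : ∀ M : ℕ, ∑ m ∈ Finset.Icc 1 (M + 1), x m / (m : ℝ) ≤
      ∑ m ∈ Finset.Icc 1 (M + 1), y m / (m : ℝ) +
        (∑ m ∈ Finset.Icc 1 M, x m / (m : ℝ)) / 2 := by
    intro M
    induction M with
    | zero => simpa using h1
    | succ M ih =>
      rw [Finset.sum_Icc_succ_top (b := M + 1) (by omega),
        Finset.sum_Icc_succ_top (b := M + 1) (by omega) (fun m => y m / (m : ℝ)),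
        Finset.sum_Icc_succ_top (b := M) (by omega) (fun m => x m / (m : ℝ))]
      have h2 := h M
      have h3 : (0 : ℝ) < ((M + 1 + 1 : ℕ) : ℝ) := by positivity
      have h4 : x (M + 1 + 1) / ((M + 1 + 1 : ℕ) : ℝ) ≤
          y (M + 1 + 1) / ((M + 1 + 1 : ℕ) : ℝ) + x (M + 1) / 2 / ((M + 1 + 1 : ℕ) : ℝ) := by
        rw [← add_div]
        exact div_le_div_of_nonneg_right h2 h3.le
      have h5 : x (M + 1) / 2 / ((M + 1 + 1 : ℕ) : ℝ) ≤ x (M + 1) / 2 / ((M + 1 : ℕ) : ℝ) := by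
        refine div_le_div_of_nonneg_left (by have := hx (M + 1); positivity) (by positivity) ?_
        push_cast
        linarith
      have h6 : x (M + 1) / 2 / ((M + 1 : ℕ) : ℝ) = x (M + 1) / ((M + 1 : ℕ) : ℝ) / 2 := by ring
      have h7 := Finset.sum_Icc_succ_top (a := 1) (b := M) (by omega) (fun m => x m / (m : ℝ))
      rw [h7] at ih
      linarith
  cases M with
  | zero => simp
  | succ M =>
    have h2 := key M
    have h3 : ∑ m ∈ Finset.Icc 1 M, x m / (m : ℝ) ≤ ∑ m ∈ Finset.Icc 1 (M + 1), x m / (m : ℝ) := by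
      rw [Finset.sum_Icc_succ_top (by omega)]
      have := hx (M + 1)
      have : 0 ≤ x (M + 1) / ((M + 1 : ℕ) : ℝ) := by positivity
      linarith
    linarith

theorem harmonic_block (m0 : ℕ) (hm0 : 1 ≤ m0) (j : ℕ) :
    (j : ℝ) / 2 ≤ ∑ m ∈ Finset.Ioc m0 (m0 * 2 ^ j), 1 / (m : ℝ) := by
  induction j with
  | zero => simp
  | succ j ih =>
    have hle : m0 ≤ m0 * 2 ^ j := Nat.le_mul_of_pos_right _ (by positivity)
    have hle2 : m0 * 2 ^ j ≤ m0 * 2 ^ (j + 1) := by
      rw [pow_succ]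
      nlinarith [Nat.zero_le (m0 * 2 ^ j)]
    have hsplit : ∑ m ∈ Finset.Ioc m0 (m0 * 2 ^ (j + 1)), 1 / (m : ℝ) =
        ∑ m ∈ Finset.Ioc m0 (m0 * 2 ^ j), 1 / (m : ℝ) +
          ∑ m ∈ Finset.Ioc (m0 * 2 ^ j) (m0 * 2 ^ (j + 1)), 1 / (m : ℝ) :=
      (Finset.sum_Ioc_consecutive _ hle hle2).symm
    have hb : (1 : ℝ) / 2 ≤
        ∑ m ∈ Finset.Ioc (m0 * 2 ^ j) (m0 * 2 ^ (j + 1)), 1 / (m : ℝ) := by
      have h1 : ∀ m ∈ Finset.Ioc (m0 * 2 ^ j) (m0 * 2 ^ (j + 1)),
          1 / ((m0 * 2 ^ (j + 1) : ℕ) : ℝ) ≤ 1 / (m : ℝ) := by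
        intro m hm
        rw [Finset.mem_Ioc] at hm
        have h2 : (0 : ℝ) < (m : ℝ) := by
          have : 0 < m := by omega
          exact_mod_cast this
        exact one_div_le_one_div_of_le h2 (by exact_mod_cast hm.2)
      have h2 := Finset.card_nsmul_le_sum _ _ _ h1
      refine le_trans (le_of_eq ?_) h2
      rw [Nat.card_Ioc, nsmul_eq_mul]
      have h3 : m0 * 2 ^ (j + 1) - m0 * 2 ^ j = m0 * 2 ^ j := by
        have h5 : m0 * 2 ^ (j + 1) = m0 * 2 ^ j + m0 * 2 ^ j := by ring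
        omega
      rw [h3]
      have h4 : (0 : ℝ) < (m0 : ℝ) := by exact_mod_cast hm0
      push_cast
      field_simp
      ring
    rw [hsplit]
    push_cast
    linarith

theorem harmonic_nine (m0 : ℕ) (hm0 : 1 ≤ m0) :
    (9 : ℝ) ≤ ∑ m ∈ Finset.Icc m0 (m0 * 2 ^ 18), 1 / (m : ℝ) := by
  have h := harmonic_block m0 hm0 18
  have h2 : ∑ m ∈ Finset.Ioc m0 (m0 * 2 ^ 18), 1 / (m : ℝ) ≤
      ∑ m ∈ Finset.Icc m0 (m0 * 2 ^ 18), 1 / (m : ℝ) := by
    refine Finset.sum_le_sum_of_subset_of_nonneg Finset.Ioc_subset_Icc_self ?_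
    intro m _ _
    positivity
  refine le_trans ?_ (h.trans h2)
  norm_num

/-- the normalised number of pairs of different walks is at least two -/
theorem two_le [Fintype V] [Fintype E] (inc : E → Bool → V) (hdeg : ∀ v, deg inc v ≤ 3)
    (R : Set V) (hR : ∀ v ∈ R, deg inc v = 3) (hN : 0 < Nat.card V) (m0 : ℕ)
    (h16 : 16 * Nat.card V ≤ 2 ^ m0) (M : ℕ)
    (hsmall : 64 * ((Rᶜ).ncard * (M + 1)) ≤ Nat.card V) (k : ℕ) (hk : m0 ≤ k + 1)
    (hkM : k + 1 ≤ M) : (2 : ℝ) ≤ ((PB inc R (k + 1)).ncard : ℝ) / 4 ^ (k + 1) := by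
  have h1 := le_ncard_WS inc hdeg R hR k
  have h2 := sq_le_PA inc R k
  have h3 := PA_eq inc R (k + 1)
  have h4 := ncard_WS_le inc hdeg R k
  set N : ℝ := (Nat.card V : ℝ) with hNr
  set W : ℝ := ((WS inc R (k + 1)).ncard : ℝ) with hW
  set A : ℝ := ((PA inc R (k + 1)).ncard : ℝ) with hA
  set B : ℝ := ((PB inc R (k + 1)).ncard : ℝ) with hB
  set c : ℝ := ((Rᶜ).ncard : ℝ) with hc
  have hN' : 0 < N := by rw [hNr]; exact_mod_cast hN
  have h1' : 3 * 2 ^ k * N ≤ W + 3 * 2 ^ k * (((k : ℝ) + 2) * c) := by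
    have := (Nat.cast_le (α := ℝ)).2 h1
    push_cast at this
    simpa [hNr, hW, hc] using this
  have h2' : W ^ 2 ≤ N ^ 2 * A := by
    have := (Nat.cast_le (α := ℝ)).2 h2
    push_cast at this
    simpa [hNr, hW, hA] using this
  have h3' : A ≤ B + W := by
    have := (Nat.cast_le (α := ℝ)).2 h3
    push_cast at this
    simpa [hB, hW, hA] using this
  have h4' : W ≤ 3 * 2 ^ k * N := by
    have := (Nat.cast_le (α := ℝ)).2 h4
    push_cast at this
    simpa [hNr, hW] using this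
  have h5' : 64 * (c * ((M : ℝ) + 1)) ≤ N := by
    have := (Nat.cast_le (α := ℝ)).2 hsmall
    push_cast at this
    simpa [hNr, hc] using this
  have h6' : 16 * N ≤ 2 * 2 ^ k := by
    have h7 : 2 ^ m0 ≤ 2 ^ (k + 1) := Nat.pow_le_pow_right (by norm_num) hk
    have := (Nat.cast_le (α := ℝ)).2 (h16.trans h7)
    push_cast at this
    rw [pow_succ] at this
    simp only [hNr]
    linarith
  have hc0 : 0 ≤ c := by rw [hc]; positivity
  have hkM' : (k : ℝ) + 1 ≤ (M : ℝ) := by exact_mod_cast hkM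
  set P : ℝ := (2 : ℝ) ^ k with hP
  have hP0 : 0 < P := by rw [hP]; positivity
  have h7 : ((k : ℝ) + 2) * c ≤ N / 64 := by nlinarith
  have h8 : 3 * P * (((k : ℝ) + 2) * c) ≤ 3 * P * (N / 64) :=
    mul_le_mul_of_nonneg_left h7 (by positivity)
  have h9 : 3 * P * N * (63 / 64) ≤ W := by linarith
  have h10 : (3 * P * N * (63 / 64)) ^ 2 ≤ W ^ 2 :=
    pow_le_pow_left₀ (by positivity) h9 2
  have h11 : (3 * P * (63 / 64)) ^ 2 ≤ A := by
    have h12 : N ^ 2 * (3 * P * (63 / 64)) ^ 2 ≤ N ^ 2 * A := by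
      refine le_trans (le_of_eq ?_) (h10.trans h2')
      ring
    exact le_of_mul_le_mul_left h12 (by positivity)
  have h13 : W ≤ 3 / 8 * P ^ 2 := by nlinarith
  have h14 : (4 : ℝ) ^ (k + 1) = 4 * P ^ 2 := by
    rw [hP, pow_succ, ← pow_mul, mul_comm k 2, pow_mul]
    norm_num
    ring
  rw [h14, le_div_iff₀ (by positivity)]
  nlinarith [sq_nonneg P]

end EOne

theorem eone [Fintype V] [Fintype E] (inc : E → Bool → V) (hdeg : ∀ v, deg inc v ≤ 3)
    (R : Set V) (hR : ∀ v ∈ R, deg inc v = 3) (hN : 0 < Nat.card V) (m0 : ℕ) (hm0 : 1 ≤ m0)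
    (h16 : 16 * Nat.card V ≤ 2 ^ m0)
    (hsmall : 64 * ((Rᶜ).ncard * (m0 * 2 ^ 18 + 1)) ≤ Nat.card V) :
    9 / 8 ≤ ∑ ℓ ∈ Finset.Icc 1 (2 * (m0 * 2 ^ 18)), T inc R ℓ / (2 * (ℓ : ℝ)) := by
  open EOne in
  set M : ℕ := m0 * 2 ^ 18 with hM
  have hT0 : ∀ ℓ, 0 ≤ T inc R ℓ := fun ℓ => by unfold T; positivity
  have hT4 : ∀ m, T inc R (2 * m) = ((cnb inc R (2 * m)).ncard : ℝ) / 4 ^ m := by
    intro m
    unfold T
    rw [pow_mul]
    norm_num
  -- the two comparisons
  have hA : ∑ m ∈ Finset.Icc 1 M, (((PB inc R m).ncard : ℝ) / 4 ^ m) / (m : ℝ) ≤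
      2 * ∑ m ∈ Finset.Icc 1 M, (((PC inc R m).ncard : ℝ) / 4 ^ m) / (m : ℝ) := by
    refine abstract_sum (fun m => ((PB inc R m).ncard : ℝ) / 4 ^ m)
      (fun m => ((PC inc R m).ncard : ℝ) / 4 ^ m) (fun m => by positivity) ?_ ?_ M
    · have h := (Nat.cast_le (α := ℝ)).2 (PB_one inc R)
      show ((PB inc R 1).ncard : ℝ) / 4 ^ 1 ≤ ((PC inc R 1).ncard : ℝ) / 4 ^ 1
      exact div_le_div_of_nonneg_right h (by positivity)
    · intro k
      have h := (Nat.cast_le (α := ℝ)).2 (PB_le inc hdeg R k)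
      push_cast at h
      show ((PB inc R (k + 2)).ncard : ℝ) / 4 ^ (k + 2) ≤
        ((PC inc R (k + 2)).ncard : ℝ) / 4 ^ (k + 2) + ((PB inc R (k + 1)).ncard : ℝ) / 4 ^ (k + 1) / 2
      have h' : ((PB inc R (k + 1)).ncard : ℝ) / 4 ^ (k + 1) / 2 =
          2 * ((PB inc R (k + 1)).ncard : ℝ) / 4 ^ (k + 2) := by
        rw [pow_succ (4 : ℝ) (k + 1)]
        field_simp
        ring
      rw [h', ← add_div]
      exact div_le_div_of_nonneg_right h (by positivity)
  have hB : ∑ m ∈ Finset.Icc 1 M, (((PC inc R m).ncard : ℝ) / 4 ^ m) / (m : ℝ) ≤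
      2 * ∑ m ∈ Finset.Icc 1 M, T inc R (2 * m) / (m : ℝ) := by
    refine abstract_sum (fun m => ((PC inc R m).ncard : ℝ) / 4 ^ m)
      (fun m => T inc R (2 * m)) (fun m => by positivity) ?_ ?_ M
    · have h := (Nat.cast_le (α := ℝ)).2 (PC_one inc R)
      show ((PC inc R 1).ncard : ℝ) / 4 ^ 1 ≤ T inc R (2 * 1)
      rw [hT4]
      exact div_le_div_of_nonneg_right h (by positivity)
    · intro k
      have h := (Nat.cast_le (α := ℝ)).2 (PC_le inc hdeg R k)
      push_cast at h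
      show ((PC inc R (k + 2)).ncard : ℝ) / 4 ^ (k + 2) ≤
        T inc R (2 * (k + 2)) + ((PC inc R (k + 1)).ncard : ℝ) / 4 ^ (k + 1) / 2
      have h' : ((PC inc R (k + 1)).ncard : ℝ) / 4 ^ (k + 1) / 2 =
          2 * ((PC inc R (k + 1)).ncard : ℝ) / 4 ^ (k + 2) := by
        rw [pow_succ (4 : ℝ) (k + 1)]
        field_simp
        ring
      rw [h', hT4, ← add_div]
      exact div_le_div_of_nonneg_right h (by positivity)
  -- the lower bound
  have hC : (18 : ℝ) ≤ ∑ m ∈ Finset.Icc 1 M, (((PB inc R m).ncard : ℝ) / 4 ^ m) / (m : ℝ) := by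
    have h1 : ∑ m ∈ Finset.Icc m0 M, (((PB inc R m).ncard : ℝ) / 4 ^ m) / (m : ℝ) ≤
        ∑ m ∈ Finset.Icc 1 M, (((PB inc R m).ncard : ℝ) / 4 ^ m) / (m : ℝ) := by
      refine Finset.sum_le_sum_of_subset_of_nonneg (Finset.Icc_subset_Icc_left hm0) ?_
      intro m _ _
      positivity
    have h2 : ∑ m ∈ Finset.Icc m0 M, 2 * (1 / (m : ℝ)) ≤
        ∑ m ∈ Finset.Icc m0 M, (((PB inc R m).ncard : ℝ) / 4 ^ m) / (m : ℝ) := by
      refine Finset.sum_le_sum fun m hm => ?_
      rw [Finset.mem_Icc] at hm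
      obtain ⟨k, rfl⟩ : ∃ k, m = k + 1 := ⟨m - 1, by omega⟩
      have h3 := two_le inc hdeg R hR hN m0 h16 M hsmall k hm.1 hm.2
      rw [mul_one_div]
      exact div_le_div_of_nonneg_right h3 (by positivity)
    rw [← Finset.mul_sum] at h2
    have h3 := harmonic_nine m0 hm0
    rw [← hM] at h3
    linarith
  -- even lengths
  have hD : ∑ m ∈ Finset.Icc 1 M, T inc R (2 * m) / (4 * (m : ℝ)) ≤
      ∑ ℓ ∈ Finset.Icc 1 (2 * M), T inc R ℓ / (2 * (ℓ : ℝ)) := by
    have hinj : Set.InjOn (fun m : ℕ => 2 * m) (Finset.Icc 1 M : Finset ℕ) := by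
      intro a _ b _ h
      simpa using h
    have h1 : ∑ ℓ ∈ (Finset.Icc 1 M).image (fun m : ℕ => 2 * m), T inc R ℓ / (2 * (ℓ : ℝ)) =
        ∑ m ∈ Finset.Icc 1 M, T inc R (2 * m) / (4 * (m : ℝ)) := by
      rw [Finset.sum_image hinj]
      refine Finset.sum_congr rfl fun m _ => ?_
      push_cast
      ring
    rw [← h1]
    refine Finset.sum_le_sum_of_subset_of_nonneg ?_ ?_
    · intro ℓ hℓ
      rw [Finset.mem_image] at hℓ
      obtain ⟨m, hm, rfl⟩ := hℓ
      rw [Finset.mem_Icc] at hm ⊢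
      omega
    · intro ℓ _ _
      have := hT0 ℓ
      positivity
  have hE : ∑ m ∈ Finset.Icc 1 M, T inc R (2 * m) / (4 * (m : ℝ)) =
      (∑ m ∈ Finset.Icc 1 M, T inc R (2 * m) / (m : ℝ)) / 4 := by
    rw [Finset.sum_div]
    refine Finset.sum_congr rfl fun m _ => ?_
    rw [div_div, mul_comm (4 : ℝ)]
  rw [hE] at hD
  linarith

end Pool.Agent.Bondy
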