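import Pool.Agent.Bondy.Walks

/-! # Closed non-backtracking walks that are not nice are rare -/

set_option autoImplicit false

namespace Pool.Agent.Bondy

open Set

variable {V E : Type}

namespace ETwoAux

theorem exists_backtrack {l : List (E × Bool)} (h : ¬ Red l) :
    ∃ l1 d l2, l = l1 ++ d :: rv d :: l2 := by
  induction l with
  | nil => exact absurd red_nil h
  | cons d l ih =>
    cases l with
    | nil => exact absurd (red_singleton d) h
    | cons d' l =>
      rw [red_cons_cons, not_and_or, not_not] at h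
      rcases h with h | h
      · exact ⟨[], d, l, by rw [h]; rfl⟩
      · obtain ⟨l1, e, l2, h1⟩ := ih h
        exact ⟨d :: l1, e, l2, by rw [h1]; rfl⟩

theorem cnb_swap {inc : E → Bool → V} {R : Set V} {ℓ : ℕ} {l1 l2 : List (E × Bool)}
    (h : l1 ++ l2 ∈ cnb inc R ℓ) : l2 ++ l1 ∈ cnb inc R ℓ := by
  obtain ⟨h1, h2, ⟨u, hu⟩, h3⟩ := h
  obtain ⟨v, hv1, hv2⟩ := walk_append.1 hu
  refine ⟨by simpa [add_comm] using h1, cred_rotate h2, ⟨v, walk_append.2 ⟨u, hv2, hv1⟩⟩,
    fun d hd => h3 d ?_⟩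
  simp only [List.mem_append] at hd ⊢
  exact hd.symm

theorem cnb_rotate {inc : E → Bool → V} {R : Set V} {ℓ : ℕ} {l : List (E × Bool)}
    (h : l ∈ cnb inc R ℓ) (i : ℕ) : l.rotate i ∈ cnb inc R ℓ := by
  rw [List.rotate_eq_drop_append_take_mod]
  apply cnb_swap
  rw [List.take_append_drop]
  exact h

/-- a short cut `Q` of the closed walk `A1 ++ A2` -/
structure Cfg (inc : E → Bool → V) (g : ℕ) (A1 A2 Q : List (E × Bool)) : Prop where
  h1 : g < A1.length
  h2 : g < A2.length
  h3 : Q.length ≤ g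
  w : ∃ x y, Walk inc x A1 y ∧ Walk inc y A2 x ∧ Walk inc y Q x

theorem exists_cfg {inc : E → Bool → V} {R' : Set V} {g ℓ : ℕ} {l : List (E × Bool)}
    (hl : l ∈ cnb inc R' ℓ) (hn : ¬ Nice inc g l) :
    ∃ (i : ℕ) (A1 A2 Q : List (E × Bool)), l.rotate i = A1 ++ A2 ∧ Cfg inc g A1 A2 Q := by
  obtain ⟨-, -, ⟨u, hu⟩, -⟩ := hl
  unfold Nice at hn
  push Not at hn
  obtain ⟨i, j, d, d', hij, hd, hd', hgij, hgl, q, hq, hqg⟩ := hn
  have hj : j < l.length := (List.getElem?_eq_some_iff.1 hd').1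
  obtain ⟨v, hv1, hv2⟩ := walk_split hu i
  obtain ⟨v', hv3, hv4⟩ := walk_split hv2 (j - i)
  have hv : tl inc d = v := hv2.head (by rw [List.head?_drop]; exact hd)
  have hv' : tl inc d' = v' := hv4.head (by
    rw [List.drop_drop, List.head?_drop, Nat.add_sub_cancel' hij.le]; exact hd')
  subst hv
  subst hv'
  refine ⟨i, (l.drop i).take (j - i), (l.drop i).drop (j - i) ++ l.take i, rl q, ?_, ?_, ?_, ?_, ?_⟩
  · rw [← List.append_assoc, List.take_append_drop, List.rotate_eq_drop_append_take (by omega)]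
  · rw [List.length_take, List.length_drop]
    omega
  · rw [List.length_append, List.length_drop, List.length_drop, List.length_take]
    omega
  · rw [rl_length]
    exact hqg
  · exact ⟨_, _, hv3, walk_append.2 ⟨u, hv4, hv1⟩, hq.rev⟩

theorem exists_good [Fintype V] [Fintype E] {inc : E → Bool → V} {R R' : Set V} {g a ℓ : ℕ}
    (hT : TreeLike inc a R) (hg : 4 * g + 8 ≤ a) (hnear : near inc R' g ⊆ R) :
    ∀ (n : ℕ) (A1 A2 Q : List (E × Bool)), A1 ++ A2 ∈ cnb inc R' ℓ → Cfg inc g A1 A2 Q →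
      A1.length + Q.length = n →
      ∃ (j : ℕ) (B1 B2 P : List (E × Bool)), (A1 ++ A2).rotate j = B1 ++ B2 ∧
        Cfg inc g B1 B2 P ∧ CRed (B1 ++ P) := by
  intro n
  induction n using Nat.strong_induction_on with
  | _ n ih =>
    intro A1 A2 Q hA hC hn
    by_cases hc : CRed (A1 ++ Q)
    · exact ⟨0, A1, A2, Q, by simp, hC, hc⟩
    -- a general way to use a smaller configuration
    have key : ∀ (j : ℕ) (B1 B2 P : List (E × Bool)), (A1 ++ A2).rotate j = B1 ++ B2 →
        Cfg inc g B1 B2 P → B1.length + P.length < n →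
        ∃ (j : ℕ) (B1 B2 P : List (E × Bool)), (A1 ++ A2).rotate j = B1 ++ B2 ∧
          Cfg inc g B1 B2 P ∧ CRed (B1 ++ P) := by
      intro j B1 B2 P hj hB hlt
      have hB' : B1 ++ B2 ∈ cnb inc R' ℓ := by
        rw [← hj]
        exact cnb_rotate hA j
      obtain ⟨k, C1, C2, S, hk, hC1, hC2⟩ := ih _ hlt B1 B2 P hB' hB rfl
      refine ⟨j + k, C1, C2, S, ?_, hC1, hC2⟩
      rw [← List.rotate_rotate, hj, hk]
    obtain ⟨hg1, hg2, hQg, x, y, hw1, hw2, hwQ⟩ := hC
    by_cases hQ : Red Q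
    · have hredA : Red (A1 ++ A2) := cred_red hA.2.1
      have hred1 : Red A1 := hredA.of_append_left
      have hA1 : A1 ≠ [] := by
        rintro rfl
        simp at hg1
      -- the start lies in `R'`
      have hxR : x ∈ R' := by
        obtain ⟨d, A1', rfl⟩ := List.exists_cons_of_ne_nil hA1
        have h1 : tl inc d ∈ R' := hA.2.2.2 d (by simp)
        rwa [hw1.1] at h1
      have hlong : a < 2 * (A1.length + Q.length) := by
        by_contra hlt
        have h1 : A1 = rl Q := nb_unique hT (hnear (subset_near inc R' g hxR)) hw1 hred1 hwQ.rev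
          (red_rl.2 hQ) (by rw [rl_length]; omega)
        have h2 := congrArg List.length h1
        rw [rl_length] at h2
        omega
      -- write `A1 = A1' ++ [z]` and look at the junctions
      rw [cred_iff, red_append, not_and_or, not_and_or, not_and_or] at hc
      rcases hc with (hc | hc | hc) | hc
      · exact absurd hred1 hc
      · exact absurd hQ hc
      · push Not at hc
        obtain ⟨z, hz, z', hz', rfl⟩ := hc
        obtain ⟨A1', rfl⟩ : ∃ A1', A1 = A1' ++ [z] := by
          rcases List.eq_nil_or_concat A1 with rfl | ⟨A1', z', rfl⟩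
          · simp at hA1
          · simp only [List.concat_eq_append, List.getLast?_append, List.getLast?_singleton,
              Option.some_or, Option.mem_def, Option.some.injEq] at hz
            exact ⟨A1', by rw [← hz, List.concat_eq_append]⟩
        obtain ⟨Q', rfl⟩ : ∃ Q', Q = rv z :: Q' := by
          cases Q with
          | nil => simp at hz'
          | cons d Q' =>
            simp only [List.head?_cons, Option.mem_def, Option.some.injEq] at hz'
            exact ⟨Q', by rw [hz']⟩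
        simp only [List.length_append, List.length_cons, List.length_nil] at hn hg1 hQg hlong
        refine key 0 A1' (z :: A2) Q' (by simp) ⟨?_, ?_, ?_, ?_⟩ ?_
        · omega
        · rw [List.length_cons]
          omega
        · omega
        · refine ⟨x, tl inc z, (walk_snoc.1 hw1).1, ⟨rfl, ?_⟩, ?_⟩
          · rw [(walk_snoc.1 hw1).2]
            exact hw2
          · have := hwQ.2
            rwa [hd_rv] at this
        · omega
      · push Not at hc
        obtain ⟨z, hz, z', hz', rfl⟩ := hc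
        rw [List.head?_append_of_ne_nil _ hA1] at hz'
        obtain ⟨A1', rfl⟩ : ∃ A1', A1 = rv z :: A1' := by
          cases A1 with
          | nil => simp at hA1
          | cons d A1' =>
            simp only [List.head?_cons, Option.mem_def, Option.some.injEq] at hz'
            exact ⟨A1', by rw [hz']⟩
        rcases List.eq_nil_or_concat Q with rfl | ⟨Q', w, rfl⟩
        · -- `Q` is empty
          rw [List.append_nil] at hz
          rcases List.eq_nil_or_concat A1' with rfl | ⟨A1'', w, rfl⟩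
          · simp at hlong
            omega
          · simp only [List.concat_eq_append] at *
            have hzw : w = z := by
              rw [← List.cons_append, List.getLast?_append] at hz
              simpa using hz
            subst hzw
            simp only [List.length_append, List.length_cons, List.length_nil] at hn hg1 hQg hlong
            obtain ⟨h4, h5⟩ := hw1
            obtain ⟨h6, h7⟩ := walk_snoc.1 h5
            have hyx : y = x := hwQ
            subst hyx
            refine key 1 A1'' (w :: (A2 ++ [rv w])) [] (by simp) ⟨?_, ?_, ?_, ?_⟩ ?_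
            · omega
            · simp only [List.length_append, List.length_cons, List.length_nil]
              omega
            · simp
            · refine ⟨hd inc (rv w), tl inc w, h6, ⟨rfl, ?_⟩, by simp⟩
              rw [h7, walk_snoc]
              refine ⟨?_, by simp⟩
              rw [h4]
              exact hw2
            · simp only [List.length_nil]
              omega
        · simp only [List.concat_eq_append] at *
          have hzw : w = z := by
            rw [← List.append_assoc, List.getLast?_append] at hz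
            simpa using hz
          subst hzw
          simp only [List.length_append, List.length_cons, List.length_nil] at hn hg1 hQg hlong
          obtain ⟨h4, h5⟩ := hw1
          obtain ⟨h6, h7⟩ := walk_snoc.1 hwQ
          refine key 1 A1' (A2 ++ [rv w]) Q' (by simp) ⟨?_, ?_, ?_, ?_⟩ ?_
          · omega
          · simp only [List.length_append, List.length_cons, List.length_nil]
            omega
          · omega
          · refine ⟨hd inc (rv w), y, h5, ?_, by simpa using h6⟩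
            rw [walk_snoc]
            refine ⟨?_, by simp⟩
            rw [h4]
            exact hw2
          · omega
    · obtain ⟨Q1, d, Q2, rfl⟩ := exists_backtrack hQ
      simp only [List.length_append, List.length_cons] at hn hQg
      refine key 0 A1 A2 (Q1 ++ Q2) (by simp) ⟨hg1, hg2, ?_, ?_⟩ ?_
      · rw [List.length_append]
        omega
      · refine ⟨x, y, hw1, hw2, ?_⟩
        obtain ⟨v, h5, h6, h7, h8⟩ := walk_append.1 hwQ
        rw [hd_rv] at h8
        rw [walk_append]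
        exact ⟨v, h5, by rw [← h6]; exact h8⟩
      · rw [List.length_append]
        omega

/-- the bad closed walks with given rotation and given length of the short cut -/
def BB (inc : E → Bool → V) (R : Set V) (ρ ℓ i q k : ℕ) : Set (List (E × Bool)) :=
  {l | ∃ A1 A2 Q : List (E × Bool), l.rotate i = A1 ++ A2 ∧ l.length = ℓ ∧ Q.length = q ∧
    A1.length + q = k ∧ A1 ≠ [] ∧ ρ < A2.length ∧ A1 ++ Q ∈ cnb inc R k ∧ Red A2 ∧
    ∃ x y, x ∈ R ∧ Walk inc x A1 y ∧ Walk inc y A2 x}

/-- every bad closed walk is in one of these sets -/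
theorem mem_BB [Fintype V] [Fintype E] {inc : E → Bool → V} {R R' : Set V} {g a ρ ℓ : ℕ}
    (hT : TreeLike inc a R) (hρ : 4 * ρ ≤ a) (hg : 4 * g + 8 ≤ a) (hnear : near inc R' g ⊆ R)
    {l : List (E × Bool)} (hl : l ∈ cnb inc R' ℓ) (hn : ¬ Nice inc g l) :
    ∃ i q k, i < ℓ ∧ q ≤ g ∧ 1 ≤ k ∧ k ≤ ℓ ∧ l ∈ BB inc R ρ ℓ i q k := by
  obtain ⟨i0, A1, A2, Q, hi0, hC⟩ := exists_cfg hl hn
  have hA : A1 ++ A2 ∈ cnb inc R' ℓ := by
    rw [← hi0]
    exact cnb_rotate hl i0
  obtain ⟨j, B1, B2, P, hj, hB, hred⟩ := exists_good hT hg hnear _ A1 A2 Q hA hC rfl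
  have hB' : B1 ++ B2 ∈ cnb inc R' ℓ := by
    rw [← hj]
    exact cnb_rotate hA j
  have hrot : l.rotate (i0 + j) = B1 ++ B2 := by
    rw [← List.rotate_rotate, hi0, hj]
  obtain ⟨h1, h2, h3, x, y, hw1, hw2, hw3⟩ := hB
  obtain ⟨hlen, hcr, -, hR'⟩ := hB'
  rw [List.length_append] at hlen
  have hll : l.length = ℓ := hl.1
  have hB1 : B1 ≠ [] := by
    rintro rfl
    simp at h1
  have hB2 : B2 ≠ [] := by
    rintro rfl
    simp at h2
  have hxR : x ∈ R' := by
    obtain ⟨d, B1', rfl⟩ := List.exists_cons_of_ne_nil hB1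
    have h4 : tl inc d ∈ R' := hR' d (by simp)
    rwa [hw1.1] at h4
  have hyR : y ∈ R' := by
    obtain ⟨d, B2', rfl⟩ := List.exists_cons_of_ne_nil hB2
    have h4 : tl inc d ∈ R' := hR' d (by simp)
    rwa [hw2.1] at h4
  have hR'R : R' ⊆ R := (subset_near inc R' g).trans hnear
  have hredB : Red (B1 ++ B2) := cred_red hcr
  have hredP : Red P := (cred_red hred).of_append_right
  have hlong : a < 2 * (B2.length + P.length) := by
    by_contra hlt
    have h5 : B2 = P := nb_unique hT (hR'R hyR) hw2 hredB.of_append_right hw3 hredP (by omega)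
    have h6 := congrArg List.length h5
    omega
  refine ⟨(i0 + j) % ℓ, P.length, B1.length + P.length, Nat.mod_lt _ (by omega), h3, by omega,
    by omega, B1, B2, P, ?_, hll, rfl, rfl, hB1, by omega, ?_, hredB.of_append_right,
    x, y, hR'R hxR, hw1, hw2⟩
  · rw [← hll, List.rotate_mod, hrot]
  · refine ⟨by simp, hred, ⟨x, walk_append.2 ⟨y, hw1, hw3⟩⟩, fun d hd => ?_⟩
    rcases List.mem_append.1 hd with hd | hd
    · exact hR'R (hR' d (List.mem_append_left _ hd))
    · exact hnear (hw3.tl_mem_near hyR (by omega) hd)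

theorem ncard_BB [Fintype V] [Fintype E] {inc : E → Bool → V} (hdeg : ∀ v, deg inc v ≤ 3)
    {R : Set V} {a ρ : ℕ} (hT : TreeLike inc a R) (hρ : 4 * ρ ≤ a) (ℓ i q k : ℕ)
    (hne : (BB inc R ρ ℓ i q k).Nonempty) :
    ρ + 1 + k ≤ ℓ + q ∧
    (BB inc R ρ ℓ i q k).ncard ≤ 3 * 2 ^ (ℓ + q - k - ρ - 1) * (cnb inc R k).ncard := by
  classical
  have hm : ρ + 1 + k ≤ ℓ + q := by
    obtain ⟨l, A1, A2, Q, h1, h2, h3, h4, h5, h6, -⟩ := hne
    have h7 := congrArg List.length h1
    rw [List.length_rotate, List.length_append] at h7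
    omega
  refine ⟨hm, ?_⟩
  obtain ⟨l0, hl0⟩ := hne
  have hqk : q ≤ k := by
    obtain ⟨A1, A2, Q, h1, h2, h3, h4, h5, h6, -⟩ := hl0
    omega
  -- the pairs
  let PP : Set (List (E × Bool) × List (E × Bool)) :=
    {p | p.1 ∈ cnb inc R k ∧ p.2.length = ℓ + q - k ∧ Red p.2 ∧ p.1.take (k - q) ≠ [] ∧
      ∃ x y, x ∈ R ∧ Walk inc x (p.1.take (k - q)) y ∧ Walk inc y p.2 x}
  have hfin : PP.Finite := by
    refine ((finite_cnb inc R k).prod (finite_lists (ℓ + q - k) (fun _ => True))).subset ?_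
    rintro ⟨c, A2⟩ ⟨h1, h2, -⟩
    exact ⟨h1, h2, trivial⟩
  have hle : (BB inc R ρ ℓ i q k).ncard ≤ PP.ncard := by
    have hsub : (fun l : List (E × Bool) => l.rotate i) '' BB inc R ρ ℓ i q k ⊆
        (fun p : List (E × Bool) × List (E × Bool) => p.1.take (k - q) ++ p.2) '' PP := by
      rintro _ ⟨l, ⟨A1, A2, Q, h1, h2, h3, h4, h5, h6, h7, h8, x, y, h9, h10, h11⟩, rfl⟩
      have hA1 : A1.length = k - q := by omega
      have htake : (A1 ++ Q).take (k - q) = A1 := by
        rw [← hA1, List.take_left']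
        rfl
      have h12 := congrArg List.length h1
      rw [List.length_rotate, List.length_append] at h12
      refine ⟨(A1 ++ Q, A2), ⟨h7, ?_, h8, ?_, x, y, h9, ?_, h11⟩, ?_⟩
      · show A2.length = _
        omega
      · show (A1 ++ Q).take (k - q) ≠ []
        rw [htake]
        exact h5
      · show Walk inc x ((A1 ++ Q).take (k - q)) y
        rw [htake]
        exact h10
      · show (A1 ++ Q).take (k - q) ++ A2 = l.rotate i
        rw [htake, h1]
    calc (BB inc R ρ ℓ i q k).ncard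
        = ((fun l : List (E × Bool) => l.rotate i) '' BB inc R ρ ℓ i q k).ncard :=
          (Set.ncard_image_of_injective _ (List.rotate_injective i)).symm
      _ ≤ ((fun p : List (E × Bool) × List (E × Bool) => p.1.take (k - q) ++ p.2) '' PP).ncard :=
          Set.ncard_le_ncard hsub (hfin.image _)
      _ ≤ PP.ncard := Set.ncard_image_le hfin
  refine hle.trans ?_
  rw [Set.ncard_eq_toFinset_card PP hfin, Set.ncard_eq_toFinset_card _ (finite_cnb inc R k)]
  refine Finset.card_le_mul_card_image_of_maps_to (f := Prod.fst) ?_ _ ?_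
  · rintro ⟨c, A2⟩ hp
    rw [Set.Finite.mem_toFinset] at hp ⊢
    exact hp.1
  · intro c hc
    by_cases hex : ∃ x y, x ∈ R ∧ Walk inc x (c.take (k - q)) y ∧ c.take (k - q) ≠ []
    · obtain ⟨x, y, hx, hw, hne⟩ := hex
      have h1 := count_vw hdeg hT y x hx hρ (m := ℓ + q - k) (by omega)
      refine le_trans ?_ h1
      have hf2 : {l : List (E × Bool) | l.length = ℓ + q - k ∧ Red l ∧ Walk inc y l x}.Finite :=
        finite_lists _ _
      rw [Set.ncard_eq_toFinset_card _ hf2]
      refine Finset.card_le_card_of_injOn Prod.snd ?_ ?_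
      · rintro ⟨c', A2⟩ hp
        simp only [Finset.coe_filter, Set.mem_ofPred_eq, Set.Finite.mem_toFinset] at hp
        obtain ⟨⟨h2, h3, h4, h5, x', y', h6, h7, h8⟩, h9⟩ := hp
        have h9' : c' = c := h9
        subst h9'
        obtain ⟨rfl, rfl⟩ := hw.unique h7 h5
        simp only [Set.Finite.coe_toFinset, Set.mem_ofPred_eq]
        exact ⟨h3, h4, h8⟩
      · rintro ⟨c1, A2⟩ hp1 ⟨c2, A2'⟩ hp2 h12
        simp only [Finset.coe_filter, Set.mem_ofPred_eq] at hp1 hp2
        have e1 : c1 = c := hp1.2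
        have e2 : c2 = c := hp2.2
        have e3 : A2 = A2' := h12
        rw [e1, e2, e3]
    · rw [Finset.card_eq_zero.2]
      · exact Nat.zero_le _
      · rw [Finset.filter_eq_empty_iff]
        rintro ⟨c', A2⟩ hp h9
        have h9' : c' = c := h9
        subst h9'
        rw [Set.Finite.mem_toFinset] at hp
        obtain ⟨h2, h3, h4, h5, x', y', h6, h7, h8⟩ := hp
        exact hex ⟨x', y', h6, h7, h5⟩

theorem ncard_BB_real [Fintype V] [Fintype E] {inc : E → Bool → V} (hdeg : ∀ v, deg inc v ≤ 3)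
    {R : Set V} {a ρ g : ℕ} (hT : TreeLike inc a R) (hρ : 4 * ρ ≤ a) (ℓ i q k : ℕ) (hq : q ≤ g) :
    ((BB inc R ρ ℓ i q k).ncard : ℝ) / 2 ^ ℓ ≤ 2 * 2 ^ g / 2 ^ ρ * T inc R k := by
  have hTk : 0 ≤ T inc R k := by
    unfold T
    positivity
  rcases (BB inc R ρ ℓ i q k).eq_empty_or_nonempty with he | hne
  · rw [he, Set.ncard_empty]
    have : 0 ≤ 2 * 2 ^ g / 2 ^ ρ * T inc R k := by positivity
    simpa using this
  · obtain ⟨h1, h2⟩ := ncard_BB hdeg hT hρ ℓ i q k hne
    have h3 : ((BB inc R ρ ℓ i q k).ncard : ℝ) ≤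
        3 * 2 ^ (ℓ + q - k - ρ - 1) * ((cnb inc R k).ncard : ℝ) := by exact_mod_cast h2
    have h4 : (2 : ℝ) ^ (ℓ + q - k - ρ - 1) * (2 ^ k * 2 ^ ρ * 2) = 2 ^ ℓ * 2 ^ q := by
      rw [← pow_add, ← pow_succ, ← pow_add, ← pow_add]
      congr 1
      omega
    have h5 : (2 : ℝ) ^ q ≤ 2 ^ g := pow_le_pow_right₀ (by norm_num) hq
    have hc : (0 : ℝ) ≤ ((cnb inc R k).ncard : ℝ) := Nat.cast_nonneg _
    have hk : (0 : ℝ) < 2 ^ k := by positivity
    have hr : (0 : ℝ) < 2 ^ ρ := by positivity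
    have hl : (0 : ℝ) < 2 ^ ℓ := by positivity
    unfold T
    rw [div_mul_div_comm, div_le_div_iff₀ hl (by positivity)]
    calc ((BB inc R ρ ℓ i q k).ncard : ℝ) * (2 ^ ρ * 2 ^ k)
        ≤ (3 * 2 ^ (ℓ + q - k - ρ - 1) * ((cnb inc R k).ncard : ℝ)) * (2 ^ ρ * 2 ^ k) := by
          gcongr
      _ = 3 / 2 * ((cnb inc R k).ncard : ℝ) * (2 ^ ℓ * 2 ^ q) := by
          rw [← h4]
          ring
      _ ≤ 2 * ((cnb inc R k).ncard : ℝ) * (2 ^ ℓ * 2 ^ g) := by
          gcongr
          norm_num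
      _ = 2 * 2 ^ g * ((cnb inc R k).ncard : ℝ) * 2 ^ ℓ := by ring

end ETwoAux

open ETwoAux in
theorem etwo [Fintype V] [Fintype E] (inc : E → Bool → V) (hdeg : ∀ v, deg inc v ≤ 3)
    (R R' : Set V) (g a ρ : ℕ) (hT : TreeLike inc a R) (hρ : 4 * ρ ≤ a) (hg : 4 * g + 8 ≤ a)
    (hnear : near inc R' g ⊆ R) (ℓ : ℕ) :
    ({l | l ∈ cnb inc R' ℓ ∧ ¬ Nice inc g l}.ncard : ℝ) / 2 ^ ℓ ≤
      2 * ℓ * (g + 1) * 2 ^ g / 2 ^ ρ * ∑ m ∈ Finset.Icc 1 ℓ, T inc R m := by
  classical
  let I : Finset (ℕ × ℕ × ℕ) := Finset.range ℓ ×ˢ Finset.range (g + 1) ×ˢ Finset.Icc 1 ℓ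
  have hfin : ∀ t : ℕ × ℕ × ℕ, (BB inc R ρ ℓ t.1 t.2.1 t.2.2).Finite := by
    intro t
    refine (finite_lists ℓ (fun _ => True)).subset ?_
    rintro l ⟨A1, A2, Q, h1, h2, -⟩
    exact ⟨h2, trivial⟩
  have hsub : {l | l ∈ cnb inc R' ℓ ∧ ¬ Nice inc g l} ⊆ ⋃ t ∈ I, BB inc R ρ ℓ t.1 t.2.1 t.2.2 := by
    rintro l ⟨hl, hn⟩
    obtain ⟨i, q, k, h1, h2, h3, h4, h5⟩ := mem_BB hT hρ hg hnear hl hn
    simp only [Set.mem_iUnion]
    refine ⟨(i, q, k), ?_, h5⟩
    simp only [I, Finset.mem_product, Finset.mem_range, Finset.mem_Icc]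
    omega
  have h1 : {l | l ∈ cnb inc R' ℓ ∧ ¬ Nice inc g l}.ncard ≤
      ∑ t ∈ I, (BB inc R ρ ℓ t.1 t.2.1 t.2.2).ncard :=
    (Set.ncard_le_ncard hsub (I.finite_toSet.biUnion fun t _ => hfin t)).trans
      (Finset.set_ncard_biUnion_le I _)
  have h2 : ({l | l ∈ cnb inc R' ℓ ∧ ¬ Nice inc g l}.ncard : ℝ) ≤
      ∑ t ∈ I, ((BB inc R ρ ℓ t.1 t.2.1 t.2.2).ncard : ℝ) := by exact_mod_cast h1
  calc ({l | l ∈ cnb inc R' ℓ ∧ ¬ Nice inc g l}.ncard : ℝ) / 2 ^ ℓ
      ≤ (∑ t ∈ I, ((BB inc R ρ ℓ t.1 t.2.1 t.2.2).ncard : ℝ)) / 2 ^ ℓ := by gcongr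
    _ = ∑ t ∈ I, ((BB inc R ρ ℓ t.1 t.2.1 t.2.2).ncard : ℝ) / 2 ^ ℓ := Finset.sum_div _ _ _
    _ ≤ ∑ t ∈ I, 2 * 2 ^ g / 2 ^ ρ * T inc R t.2.2 := by
        refine Finset.sum_le_sum fun t ht => ?_
        simp only [I, Finset.mem_product, Finset.mem_range, Finset.mem_Icc] at ht
        exact ncard_BB_real hdeg hT hρ ℓ t.1 t.2.1 t.2.2 (by omega)
    _ = 2 * ℓ * (g + 1) * 2 ^ g / 2 ^ ρ * ∑ m ∈ Finset.Icc 1 ℓ, T inc R m := by
        simp only [I, Finset.sum_product, Finset.sum_const, Finset.card_range, nsmul_eq_mul,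
          ← Finset.mul_sum]
        push_cast
        ring

end Pool.Agent.Bondy
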