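import Pool.Agent.Bondy.Walks

/-! # Nice circuits: separation, distinct vertices and edges, exclusion, fibres -/

set_option autoImplicit false

namespace Pool.Agent.Bondy

open Set

variable {V E : Type}

/-! ### Separation -/

theorem cutE_compl (inc : E → Bool → V) (X : Set V) : cutE inc Xᶜ = cutE inc X := by
  ext e
  simp only [cutE, Set.mem_ofPred_eq, Set.mem_compl_iff, not_not]
  constructor
  · rintro ⟨b, h1, h2⟩
    exact ⟨!b, h2, by simpa using h1⟩
  · rintro ⟨b, h1, h2⟩
    exact ⟨!b, h2, by simpa using h1⟩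

theorem halfedges_le [Fintype V] [Fintype E] (inc : E → Bool → V) (hdeg : ∀ v, deg inc v ≤ 3)
    (X : Set V) : {h : E × Bool | inc h.1 h.2 ∈ X}.ncard ≤ 3 * X.ncard := by
  classical
  have h1 : {h : E × Bool | inc h.1 h.2 ∈ X} =
      ⋃ v ∈ X.toFinset, {h : E × Bool | inc h.1 h.2 = v} := by
    ext h
    simp
  rw [h1]
  calc (⋃ v ∈ X.toFinset, {h : E × Bool | inc h.1 h.2 = v}).ncard
      ≤ ∑ v ∈ X.toFinset, {h : E × Bool | inc h.1 h.2 = v}.ncard :=
        Finset.set_ncard_biUnion_le _ _
    _ ≤ ∑ v ∈ X.toFinset, 3 := Finset.sum_le_sum fun v _ => hdeg v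
    _ = 3 * X.ncard := by
        rw [Finset.sum_const, smul_eq_mul, Set.ncard_eq_toFinset_card', mul_comm]

theorem ports_add [Fintype V] [Fintype E] (inc : E → Bool → V) (hdeg : ∀ v, deg inc v ≤ 3)
    (X : Set V) : ports inc X + ports inc Xᶜ = ports inc Set.univ := by
  have h1 := halfedges_le inc hdeg X
  have h2 := halfedges_le inc hdeg Xᶜ
  have h3 : {h : E × Bool | inc h.1 h.2 ∈ X}.ncard + {h : E × Bool | inc h.1 h.2 ∈ Xᶜ}.ncard =
      {h : E × Bool | inc h.1 h.2 ∈ (Set.univ : Set V)}.ncard := by
    rw [← Set.ncard_union_eq]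
    · congr 1
      ext h
      simp [Classical.em]
    · rw [Set.disjoint_left]
      intro h hh hh'
      exact hh' hh
  have h4 : X.ncard + Xᶜ.ncard = (Set.univ : Set V).ncard := by
    rw [Set.ncard_add_ncard_compl, Set.ncard_univ]
  unfold ports
  omega

theorem sep [Fintype V] [Fintype E] (inc : E → Bool → V) (hA : Atomic inc) (X : Set V)
    (hX : 2 * X.ncard ≤ Nat.card V) : X.ncard ≤ 12 * (cutE inc X).ncard ^ 2 := by
  obtain ⟨hdeg, hp, hcut⟩ := hA
  rcases X.eq_empty_or_nonempty with rfl | hne
  · simp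
  have hpos : 0 < X.ncard := (Set.ncard_pos).2 hne
  have h4 : X.ncard + Xᶜ.ncard = Nat.card V := Set.ncard_add_ncard_compl X
  have hne' : X ≠ Set.univ := by
    intro h
    rw [h, Set.ncard_univ] at hX
    rw [h, Set.ncard_univ] at hpos
    omega
  have hcne : Xᶜ.Nonempty := by
    rw [Set.nonempty_compl]; exact hne'
  have hcne' : Xᶜ ≠ Set.univ := by
    intro h
    rw [Set.compl_univ_iff] at h
    rw [h] at hne
    simp at hne
  have c1 := hcut X hne hne'
  have c2 := hcut Xᶜ hcne hcne'
  rw [cutE_compl] at c2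
  have hadd := ports_add inc hdeg X
  generalize (cutE inc X).ncard = q at c1 c2 ⊢
  generalize ports inc X = p1 at c1 hadd
  generalize ports inc Xᶜ = p2 at c2 hadd
  generalize ports inc Set.univ = b at hp hadd
  generalize X.ncard = n1 at c1 h4 hX hpos ⊢
  generalize Xᶜ.ncard = n2 at c2 h4
  generalize Nat.card V = N at hp h4 hX
  by_contra hcon
  push Not at hcon
  have hn : n1 ≤ n2 := by omega
  have s0 := Real.sqrt_nonneg (n1 : ℝ)
  have t0 := Real.sqrt_nonneg (n2 : ℝ)
  have s1 : Real.sqrt n1 ^ 2 = n1 := Real.sq_sqrt (by positivity)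
  have t1 : Real.sqrt n2 ^ 2 = n2 := Real.sq_sqrt (by positivity)
  have hst : Real.sqrt n1 ≤ Real.sqrt n2 := Real.sqrt_le_sqrt (by exact_mod_cast hn)
  have k1 : Real.sqrt n1 < q + p1 := by
    apply Real.sqrt_lt_sqrt (by positivity) _ |>.trans_eq (Real.sqrt_sq (by positivity))
    exact_mod_cast c1
  have k2 : Real.sqrt n2 < q + p2 := by
    apply Real.sqrt_lt_sqrt (by positivity) _ |>.trans_eq (Real.sqrt_sq (by positivity))
    exact_mod_cast c2
  set s := Real.sqrt n1
  set t := Real.sqrt n2
  have hb : (b : ℝ) ≤ t + 0.4143 * s := by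
    apply le_of_sq_le_sq _ (by positivity)
    have h5 : (b : ℝ) ^ 2 ≤ n1 + n2 := by exact_mod_cast (by rw [h4]; exact hp)
    have h6 : s * s ≤ s * t := mul_le_mul_of_nonneg_left hst s0
    nlinarith
  have hb2 : (p1 : ℝ) + p2 = b := by exact_mod_cast hadd
  have k3 : 0.5857 * s < 2 * q := by linarith
  have k4 : (12 : ℝ) * q ^ 2 < n1 := by exact_mod_cast hcon
  have k5 : (0.5857 * s) ^ 2 < (2 * q) ^ 2 := by
    apply pow_lt_pow_left₀ k3 (by positivity) (by norm_num)
  have hn1 : (0 : ℝ) < n1 := by exact_mod_cast hpos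
  nlinarith

/-- common hypotheses for the circuits that are used -/
structure Ctx [Fintype V] [Fintype E] (inc : E → Bool → V) (R R' : Set V) (a g D L : ℕ) : Prop where
  deg_le : ∀ v, deg inc v ≤ 3
  sep : ∀ X : Set V, 2 * X.ncard ≤ Nat.card V → X.ncard ≤ 12 * (cutE inc X).ncard ^ 2
  tree : TreeLike inc a R
  deg_eq : ∀ v ∈ R, deg inc v = 3
  near_sub : near inc R' g ⊆ R
  hg : 8 * g + 8 ≤ a
  hD : 8 * D ≤ g
  hDL : 48 * L ^ 2 < 2 ^ (D - 1)
  hL : 400 * L ^ 2 ≤ Nat.card V
  hD1 : 1 ≤ D
  ha : a ≤ L

/-- the family of nice closed non-backtracking walks -/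
def NiceIn (inc : E → Bool → V) (R' : Set V) (g L : ℕ) (l : List (E × Bool)) : Prop :=
  l ≠ [] ∧ l.length ≤ L ∧ l ∈ cnb inc R' l.length ∧ Nice inc g l

/-! ### Closed walks -/

theorem walk_tails {inc : E → Bool → V} {u w : V} {l : List (E × Bool)} (h : Walk inc u l w)
    {A : Set V} (hu : u ∈ A) (hA : ∀ d ∈ l, tl inc d ∈ A → hd inc d ∈ A) :
    (∀ d ∈ l, tl inc d ∈ A) ∧ w ∈ A := by
  induction l generalizing u with
  | nil => exact ⟨by simp, h ▸ hu⟩
  | cons d l ih =>
    have h1 : tl inc d ∈ A := by rw [h.1]; exact hu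
    have h2 := ih h.2 (hA d (by simp) h1) (fun d' hd' => hA d' (List.mem_cons_of_mem _ hd'))
    refine ⟨fun d' hd' => ?_, h2.2⟩
    rcases List.mem_cons.1 hd' with rfl | h3
    · exact h1
    · exact h2.1 d' h3

theorem closed_tails {inc : E → Bool → V} {u : V} {l : List (E × Bool)} (h : Walk inc u l u)
    {A : Set V} (he : ∃ d ∈ l, tl inc d ∈ A) (hA : ∀ d ∈ l, tl inc d ∈ A → hd inc d ∈ A) :
    ∀ d ∈ l, tl inc d ∈ A := by
  obtain ⟨d, hd, hdA⟩ := he
  obtain ⟨s, t, rfl⟩ := List.append_of_mem hd
  obtain ⟨v, h1, h2⟩ := walk_append.1 h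
  have h3 := walk_tails (A := A) h2 (by rw [← h2.1]; exact hdA) (fun d' hd' => hA d' (by
    rw [List.mem_append]; exact Or.inr hd'))
  exact (walk_tails h h3.2 hA).1

theorem map_tl_hd {inc : E → Bool → V} {u w : V} {l : List (E × Bool)} (h : Walk inc u l w) :
    l.map (tl inc) ++ [w] = u :: l.map (hd inc) := by
  induction l generalizing u with
  | nil => simp [walk_nil.1 h]
  | cons d l ih =>
    rw [List.map_cons, List.map_cons, List.cons_append, ih h.2, h.1]

theorem heads_nodup {inc : E → Bool → V} {u : V} {l : List (E × Bool)} (h : Walk inc u l u)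
    (hn : (l.map (tl inc)).Nodup) : (l.map (hd inc)).Nodup := by
  have h1 := map_tl_hd h
  have h2 : (l.map (tl inc) ++ [u]).Perm (u :: l.map (tl inc)) := List.perm_append_singleton _ _
  rw [h1] at h2
  have h3 := (List.perm_cons u).1 h2
  exact h3.nodup_iff.2 hn

theorem closed_pred {inc : E → Bool → V} {u : V} {l : List (E × Bool)} (h : Walk inc u l u)
    (hc : CRed l) {d : E × Bool} (hd : d ∈ l) :
    ∃ p ∈ l, Bondy.hd inc p = tl inc d ∧ d ≠ rv p := by
  obtain ⟨s, t, rfl⟩ := List.append_of_mem hd
  rcases List.eq_nil_or_concat s with rfl | ⟨s', p, rfl⟩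
  · rw [List.nil_append] at h hc ⊢
    obtain ⟨p, hp⟩ : ∃ p, p ∈ (d :: t).getLast? := by
      rw [List.getLast?_cons]
      exact ⟨_, rfl⟩
    refine ⟨p, List.mem_of_mem_getLast? hp, ?_, ?_⟩
    · rw [h.last hp, h.1]
    · exact (cred_iff.1 hc).2 p hp d (by simp)
  · refine ⟨p, by simp, ?_, ?_⟩
    · rw [List.concat_eq_append, List.append_assoc] at h
      obtain ⟨v, h1, h2⟩ := walk_append.1 h
      exact h2.2.1.symm
    · have h3 := cred_red hc
      rw [List.concat_eq_append, List.append_assoc] at h3
      exact (red_cons_cons.1 (Red.of_append_right h3)).1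

theorem closed_succ {inc : E → Bool → V} {u : V} {l : List (E × Bool)} (h : Walk inc u l u)
    (hc : CRed l) {d : E × Bool} (hd : d ∈ l) :
    ∃ p ∈ l, tl inc p = Bondy.hd inc d ∧ p ≠ rv d := by
  obtain ⟨p, hp, h1, h2⟩ := closed_pred h.rev (cred_rl.2 hc) (d := rv d) (by simpa using hd)
  refine ⟨rv p, mem_rl.1 hp, ?_, ?_⟩
  · rw [tl_rv, h1, tl_rv]
  · intro h3
    apply h2
    rw [h3]

/-- the two halves of a closed walk at two positions with equal tails -/
theorem nice_tails [Fintype V] [Fintype E] {inc : E → Bool → V} {R R' : Set V} {a g D L : ℕ}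
    (h : Ctx inc R R' a g D L) {l : List (E × Bool)} (hl : NiceIn inc R' g L l)
    {i j : ℕ} (hij : i < j) (hj : j < l.length) : tl inc (l[i]'(hij.trans hj)) ≠ tl inc l[j] := by
  obtain ⟨hne, hlen, ⟨-, hc, ⟨u, hw⟩, hR'⟩, hnice⟩ := hl
  intro heq
  have hi : i < l.length := hij.trans hj
  have hR : ∀ d ∈ l, tl inc d ∈ R := fun d hd =>
    h.near_sub (subset_near inc R' g (hR' d hd))
  by_cases h1 : g < j - i
  · by_cases h2 : g < l.length - (j - i)
    · have := hnice i j l[i] l[j] hij (List.getElem?_eq_getElem hi) (List.getElem?_eq_getElem hj)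
        h1 h2 [] heq
      simp at this
    · -- the complementary arc is short
      push Not at h2
      have e : l = l.take i ++ ((l.take j).drop i ++ l.drop j) := by
        rw [← List.append_assoc]
        conv_lhs => rw [← List.take_append_drop j l]
        congr 1
        conv_lhs => rw [← List.take_append_drop i (l.take j)]
        congr 1
        rw [List.take_take, min_eq_left hij.le]
      obtain ⟨v, w1, w2⟩ := walk_split hw i
      obtain ⟨v', w1', w2'⟩ := walk_split hw j
      have hv : v = tl inc l[i] := by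
        rw [List.drop_eq_getElem_cons hi] at w2
        exact w2.1.symm
      have hv' : v' = tl inc l[j] := by
        rw [List.drop_eq_getElem_cons hj] at w2'
        exact w2'.1.symm
      have hw3 : Walk inc (tl inc l[j]) (l.drop j ++ l.take i) (tl inc l[j]) := by
        rw [walk_append]
        refine ⟨u, ?_, ?_⟩
        · rw [← hv']; exact w2'
        · rw [← heq, ← hv]; exact w1
      have hred : Red (l.drop j ++ l.take i) := by
        apply Red.of_infix (cred_rotate (l := l.take j) (l' := l.drop j)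
          (by rw [List.take_append_drop]; exact hc) |> cred_red)
        refine List.IsPrefix.isInfix ?_
        rw [List.prefix_append_right_inj]
        exact List.take_prefix_take_left hij.le
      have := nb_unique h.tree (u := tl inc l[j]) (w := tl inc l[j]) (l := l.drop j ++ l.take i)
        (l' := []) (hR _ (List.getElem_mem hj)) hw3 hred rfl red_nil (by
          have := h.hg
          simp only [List.length_append, List.length_drop, List.length_take, List.length_nil]
          omega)
      have hlen2 := congrArg List.length this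
      simp only [List.length_append, List.length_drop, List.length_take, List.length_nil] at hlen2
      omega
  · -- the arc between the positions is short
    push Not at h1
    obtain ⟨v, w1, w2⟩ := walk_split hw i
    have hv : v = tl inc l[i] := by
      rw [List.drop_eq_getElem_cons hi] at w2
      exact w2.1.symm
    obtain ⟨v', w3, w4⟩ := walk_split w2 (j - i)
    have hd : (l.drop i).drop (j - i) = l.drop j := by
      rw [List.drop_drop]; congr 1; omega
    rw [hd] at w4
    have hv' : v' = tl inc l[j] := by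
      rw [List.drop_eq_getElem_cons hj] at w4
      exact w4.1.symm
    rw [hv', ← heq, hv] at w3
    have hred : Red ((l.drop i).take (j - i)) := by
      apply (cred_red hc).of_infix
      exact (List.take_prefix _ _).isInfix.trans (List.drop_suffix _ _).isInfix
    have := nb_unique h.tree (u := tl inc l[i]) (w := tl inc l[i])
      (l := (l.drop i).take (j - i)) (l' := []) (hR _ (List.getElem_mem hi)) w3 hred rfl red_nil (by
        have := h.hg
        simp only [List.length_drop, List.length_take, List.length_nil]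
        omega)
    have hlen2 := congrArg List.length this
    simp only [List.length_drop, List.length_take, List.length_nil] at hlen2
    omega

theorem nice_tails_nodup [Fintype V] [Fintype E] {inc : E → Bool → V} {R R' : Set V}
    {a g D L : ℕ} (h : Ctx inc R R' a g D L) {l : List (E × Bool)} (hl : NiceIn inc R' g L l) :
    (l.map (tl inc)).Nodup := by
  rw [List.Nodup, List.pairwise_iff_getElem]
  intro i j hi hj hij
  rw [List.length_map] at hi hj
  rw [List.getElem_map, List.getElem_map]
  exact nice_tails h hl hij hj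

theorem nice_edges_nodup [Fintype V] [Fintype E] {inc : E → Bool → V} {R R' : Set V}
    {a g D L : ℕ} (h : Ctx inc R R' a g D L) {l : List (E × Bool)} (hl : NiceIn inc R' g L l) :
    (l.map Prod.fst).Nodup := by
  rw [List.Nodup, List.pairwise_iff_getElem]
  intro i j hi hj hij
  rw [List.length_map] at hi hj
  rw [List.getElem_map, List.getElem_map]
  intro heq
  have hr := cred_red hl.2.2.1.2.1
  obtain ⟨u, hw⟩ := hl.2.2.1.2.2.1
  rcases eq_or_eq_rv heq with h1 | h1
  · exact nice_tails h hl hij hj (by rw [h1])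
  · -- the next dart
    obtain ⟨v, w1, w2⟩ := walk_split hw i
    have hi1 : i + 1 < l.length := by omega
    rw [List.drop_eq_getElem_cons hi, List.drop_eq_getElem_cons hi1] at w2
    have h2 : tl inc l[i + 1] = hd inc l[i] := w2.2.1
    have h3 : tl inc l[j] = tl inc l[i + 1] := by rw [h1, tl_rv, h2]
    rcases eq_or_lt_of_le (Nat.succ_le_of_lt hij) with h4 | h4
    · have h5 : Red (l.drop i) := hr.of_infix (List.drop_suffix _ _).isInfix
      rw [List.drop_eq_getElem_cons hi, List.drop_eq_getElem_cons hi1] at h5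
      apply (red_cons_cons.1 h5).1
      rw [← h1]
      congr 1
    · exact nice_tails h hl h4 hj h3.symm

theorem esupp_ncard {l : List (E × Bool)} (h : (l.map Prod.fst).Nodup) :
    (esupp l).ncard = l.length := by
  classical
  have h1 : esupp l = ((l.map Prod.fst).toFinset : Set E) := by
    ext e
    simp [esupp]
  rw [h1, Set.ncard_coe_finset, List.toFinset_card_of_nodup h, List.length_map]

theorem nice_basic [Fintype V] [Fintype E] {inc : E → Bool → V} {R R' : Set V} {a g D L : ℕ}
    (h : Ctx inc R R' a g D L) {l : List (E × Bool)} (hl : NiceIn inc R' g L l) :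
    (esupp l).ncard = l.length ∧ (l.map Prod.fst).Nodup ∧ (l.map (tl inc)).Nodup ∧
      (fun e => (cntE l e : ZMod 2)) ∈ cyc inc := by
  obtain ⟨u, hw⟩ := hl.2.2.1.2.2.1
  exact ⟨esupp_ncard (nice_edges_nodup h hl), nice_edges_nodup h hl, nice_tails_nodup h hl,
    cyc_of_closed hw⟩

/-! ### Exclusion -/

/-- at a cubic vertex of a closed walk contained in an even set, all half-edges of the set
belong to the walk -/
theorem local_two [Fintype E] {inc : E → Bool → V} {u v : V} {l : List (E × Bool)}
    (hw : Walk inc u l u) (hc : CRed l) (hv : v ∈ vsupp inc l) (hdeg : deg inc v = 3)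
    {y : E → ZMod 2} (hy : bd inc y v = 0) (hly : ∀ e ∈ esupp l, y e = 1)
    {x : E × Bool} (hx : tl inc x = v) (hyx : y x.1 = 1) : x.1 ∈ esupp l := by
  classical
  by_contra hcon
  obtain ⟨d, hd, hdv⟩ := hv
  obtain ⟨p, hp, hpv, hne⟩ := closed_pred hw hc hd
  have h1 : x ≠ d := by
    rintro rfl
    exact hcon ⟨x, hd, rfl⟩
  have h2 : x ≠ rv p := by
    rintro rfl
    exact hcon ⟨p, hp, rfl⟩
  have hset : {z : E × Bool | inc z.1 z.2 = v}.toFinset = {x, d, rv p} := by
    symm
    apply Finset.eq_of_subset_of_card_le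
    · intro z hz
      simp only [Finset.mem_insert, Finset.mem_singleton] at hz
      rw [Set.mem_toFinset]
      rcases hz with rfl | rfl | rfl
      · exact hx
      · exact hdv
      · change tl inc (rv p) = v
        rw [tl_rv, hpv, hdv]
    · unfold deg at hdeg
      rw [Set.ncard_eq_toFinset_card'] at hdeg
      rw [hdeg, Finset.card_insert_of_notMem, Finset.card_insert_of_notMem, Finset.card_singleton]
      · simp only [Finset.mem_singleton]
        exact hne
      · simp only [Finset.mem_insert, Finset.mem_singleton, not_or]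
        exact ⟨h1, h2⟩
  have hsum : bd inc y v = ∑ z ∈ {z : E × Bool | inc z.1 z.2 = v}.toFinset, y z.1 := by
    rw [bd_apply, ← Finset.sum_filter]
    apply Finset.sum_congr _ (fun _ _ => rfl)
    ext z
    simp
  rw [hset, Finset.sum_insert, Finset.sum_insert, Finset.sum_singleton, hyx,
    hly d.1 ⟨d, hd, rfl⟩, rv_fst, hly p.1 ⟨p, hp, rfl⟩] at hsum
  · rw [hsum] at hy
    exact absurd hy (by decide)
  · simp only [Finset.mem_singleton]
    exact hne
  · simp only [Finset.mem_insert, Finset.mem_singleton, not_or]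
    exact ⟨h1, h2⟩

theorem excl_subset [Fintype V] [Fintype E] {inc : E → Bool → V} {R R' : Set V} {a g D L : ℕ}
    (h : Ctx inc R R' a g D L) {l l' : List (E × Bool)} (hl : NiceIn inc R' g L l)
    (hl' : NiceIn inc R' g L l') (y : E → ZMod 2) (hy : ∀ v, deg inc v = 3 → bd inc y v = 0)
    (hly : ∀ e ∈ esupp l, y e = 1) (hly' : ∀ e ∈ esupp l', y e = 1)
    (hv : ¬ Disjoint (vsupp inc l) (vsupp inc l')) : esupp l ⊆ esupp l' := by
  obtain ⟨-, -, ⟨-, hc, ⟨u, hw⟩, hR⟩, -⟩ := hl
  obtain ⟨-, -, ⟨-, hc', ⟨u', hw'⟩, hR'⟩, -⟩ := hl'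
  rw [Set.not_disjoint_iff] at hv
  obtain ⟨v, ⟨d, hd, hdv⟩, hv'⟩ := hv
  have step : ∀ d ∈ l, tl inc d ∈ vsupp inc l' → d.1 ∈ esupp l' := by
    intro d hd hdv
    have hdeg : deg inc (tl inc d) = 3 :=
      h.deg_eq _ (h.near_sub (subset_near inc R' g (hR d hd)))
    exact local_two hw' hc' hdv hdeg (hy _ hdeg) hly' rfl (hly _ ⟨d, hd, rfl⟩)
  have all : ∀ d ∈ l, tl inc d ∈ vsupp inc l' := by
    apply closed_tails hw ⟨d, hd, by rw [hdv]; exact hv'⟩
    intro d hd hdv
    obtain ⟨d', hd', he⟩ := step d hd hdv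
    rcases eq_or_eq_rv he with rfl | rfl
    · obtain ⟨p, hp, hp1, -⟩ := closed_succ hw' hc' hd'
      exact ⟨p, hp, hp1⟩
    · exact ⟨d', hd', by rw [hd_rv]⟩
  rintro e ⟨d, hd, rfl⟩
  exact step d hd (all d hd)

/-- two nice circuits contained in one even-at-cubic-vertices edge set are equal or disjoint -/
theorem nice_excl [Fintype V] [Fintype E] {inc : E → Bool → V} {R R' : Set V} {a g D L : ℕ}
    (h : Ctx inc R R' a g D L) {l l' : List (E × Bool)} (hl : NiceIn inc R' g L l)
    (hl' : NiceIn inc R' g L l') (y : E → ZMod 2) (hy : ∀ v, deg inc v = 3 → bd inc y v = 0)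
    (hly : ∀ e ∈ esupp l, y e = 1) (hly' : ∀ e ∈ esupp l', y e = 1) :
    esupp l = esupp l' ∨ Disjoint (vsupp inc l) (vsupp inc l') := by
  by_cases hv : Disjoint (vsupp inc l) (vsupp inc l')
  · exact Or.inr hv
  · left
    apply Set.Subset.antisymm
    · exact excl_subset h hl hl' y hy hly hly' hv
    · exact excl_subset h hl' hl y hy hly' hly (fun hd => hv hd.symm)

/-! ### Fibres -/

theorem uniq_next [Fintype V] [Fintype E] {inc : E → Bool → V} {R R' : Set V} {a g D L : ℕ}
    (h : Ctx inc R R' a g D L) {l : List (E × Bool)} (hl : NiceIn inc R' g L l)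
    {d x : E × Bool} (hd : d ∈ l) (hx : tl inc x = Bondy.hd inc d) (hxe : x.1 ∈ esupp l)
    (hne : x ≠ rv d) : x ∈ l := by
  obtain ⟨u, hw⟩ := hl.2.2.1.2.2.1
  have hn := heads_nodup hw (nice_tails_nodup h hl)
  obtain ⟨d', hd', he⟩ := hxe
  rcases eq_or_eq_rv he with rfl | rfl
  · exact hd'
  · exfalso
    rw [tl_rv] at hx
    have := List.inj_on_of_nodup_map hn hd' hd hx
    subst this
    exact hne rfl

theorem fibre_inj [Fintype V] [Fintype E] {inc : E → Bool → V} {R R' : Set V} {a g D L : ℕ}
    (h : Ctx inc R R' a g D L) {l l' : List (E × Bool)} (hl : NiceIn inc R' g L l)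
    (hl' : NiceIn inc R' g L l') (hs : esupp l = esupp l') (hh : l.head? = l'.head?) :
    l = l' := by
  have hlen : l.length = l'.length := by
    rw [← (nice_basic h hl).1, ← (nice_basic h hl').1, hs]
  have key : ∀ k (hk : k < l.length) (hk' : k < l'.length), l[k] = l'[k] := by
    intro k
    induction k with
    | zero =>
      intro hk hk'
      rw [List.head?_eq_getElem?, List.head?_eq_getElem?, List.getElem?_eq_getElem hk,
        List.getElem?_eq_getElem hk'] at hh
      exact Option.some.inj hh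
    | succ k ih =>
      intro hk hk'
      have hk0 : k < l.length := by omega
      have hk0' : k < l'.length := by omega
      have e := ih hk0 hk0'
      obtain ⟨u, hw⟩ := hl.2.2.1.2.2.1
      obtain ⟨u', hw'⟩ := hl'.2.2.1.2.2.1
      obtain ⟨v, w1, w2⟩ := walk_split hw k
      obtain ⟨v', w1', w2'⟩ := walk_split hw' k
      rw [List.drop_eq_getElem_cons hk0, List.drop_eq_getElem_cons hk] at w2
      rw [List.drop_eq_getElem_cons hk0', List.drop_eq_getElem_cons hk'] at w2'
      have t1 : tl inc l[k + 1] = hd inc l[k] := w2.2.1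
      have t2 : tl inc l'[k + 1] = hd inc l'[k] := w2'.2.1
      have hr' : Red (l'.drop k) :=
        (cred_red hl'.2.2.1.2.1).of_infix (List.drop_suffix _ _).isInfix
      rw [List.drop_eq_getElem_cons hk0', List.drop_eq_getElem_cons hk'] at hr'
      have hne := (red_cons_cons.1 hr').1
      have hm : l'[k + 1] ∈ l := by
        apply uniq_next h hl (List.getElem_mem hk0) (by rw [t2, e])
        · rw [hs]
          exact ⟨_, List.getElem_mem hk', rfl⟩
        · rw [e]; exact hne
      exact List.inj_on_of_nodup_map (nice_tails_nodup h hl) (List.getElem_mem hk) hm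
        (by rw [t1, t2, e])
  exact List.ext_getElem hlen key

theorem nice_fibre [Fintype V] [Fintype E] {inc : E → Bool → V} {R R' : Set V} {a g D L : ℕ}
    (h : Ctx inc R R' a g D L) {l : List (E × Bool)} (hl : NiceIn inc R' g L l) :
    {l' | NiceIn inc R' g L l' ∧ esupp l' = esupp l}.ncard ≤ 2 * l.length := by
  classical
  have hb := (nice_basic h hl).1
  have h1 : {l' | NiceIn inc R' g L l' ∧ esupp l' = esupp l}.ncard ≤
      (((esupp l).toFinset ×ˢ (Finset.univ : Finset Bool)).image
        (some : E × Bool → Option (E × Bool)) : Set (Option (E × Bool))).ncard := by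
    apply Set.ncard_le_ncard_of_injOn (fun l' => l'.head?)
    · rintro l' ⟨h2, h3⟩
      simp only [Finset.coe_image, Set.mem_image, Finset.mem_coe, Finset.mem_product,
        Finset.mem_univ, and_true, Set.mem_toFinset]
      cases l' with
      | nil => exact absurd rfl h2.1
      | cons d l' =>
        refine ⟨d, ?_, rfl⟩
        rw [← h3]
        exact ⟨d, by simp, rfl⟩
    · rintro l1 ⟨h2, h3⟩ l2 ⟨h4, h5⟩ h6
      exact fibre_inj h h2 h4 (h3.trans h5.symm) h6
  refine h1.trans ?_
  rw [Set.ncard_coe_finset]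
  refine Finset.card_image_le.trans ?_
  rw [Finset.card_product, Finset.card_univ, Fintype.card_bool, ← Set.ncard_eq_toFinset_card',
    hb, mul_comm]

end Pool.Agent.Bondy
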