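import Pool.Agent.Bondy.Dual
import Pool.Agent.Bondy.Walks
import Pool.Agent.Bondy.EOne
import Pool.Agent.Bondy.ETwo
import Pool.Agent.Bondy.Nice
import Pool.Agent.Bondy.Cuts

/-! # Second moment for nice circuits -/

set_option autoImplicit false

namespace Pool.Agent.Bondy

open Set

variable {V E : Type}

theorem nice_finite [Finite E] (inc : E → Bool → V) (R' : Set V) (g L : ℕ) :
    {l | NiceIn inc R' g L l}.Finite :=
  (finite_lists_le L (fun l => NiceIn inc R' g L l)).subset fun _ h => ⟨h.2.1, h⟩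

theorem near_le_sub {inc : E → Bool → V} {R' R : Set V} {g D : ℕ} (h : near inc R' g ⊆ R)
    (hD : D ≤ g) {v : V} (hv : v ∈ near inc R' D) : v ∈ R :=
  h (near_mono inc (Subset.refl _) hD hv)

section

variable [Fintype V] [Fintype E] {inc : E → Bool → V} {R R' : Set V} {a g D L : ℕ}

theorem Ctx.sub (h : Ctx inc R R' a g D L) : R' ⊆ R :=
  (subset_near inc R' g).trans h.near_sub

theorem NiceIn.vsupp_sub {l : List (E × Bool)} (hl : NiceIn inc R' g L l) : vsupp inc l ⊆ R' := by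
  rintro v ⟨d, hd, rfl⟩
  exact hl.2.2.1.2.2.2 d hd

/-- a nice closed walk, started at any of its vertices -/
theorem NiceIn.root {l : List (E × Bool)} (hl : NiceIn inc R' g L l) {v : V}
    (hv : v ∈ vsupp inc l) :
    ∃ k < l.length, Walk inc v (l.rotate k) v ∧ CRed (l.rotate k) := by
  obtain ⟨d, hd, rfl⟩ := hv
  obtain ⟨s, t, hst⟩ := List.append_of_mem hd
  obtain ⟨-, -, ⟨-, hc, ⟨u, hu⟩, -⟩, -⟩ := hl
  refine ⟨s.length, by simp [hst], ?_⟩
  have hrot : l.rotate s.length = d :: t ++ s := by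
    rw [hst, List.rotate_eq_drop_append_take (by simp)]
    simp
  rw [hrot]
  rw [hst] at hu hc
  obtain ⟨w, h1, h2⟩ := walk_append.1 hu
  refine ⟨?_, cred_rotate hc⟩
  rw [walk_append]
  have : tl inc d = w := h2.1
  subst this
  exact ⟨u, h2, h1⟩

theorem nice_long (h : Ctx inc R R' a g D L) {l : List (E × Bool)}
    (hl : NiceIn inc R' g L l) : a < 2 * l.length := by
  by_contra hlt
  push Not at hlt
  have hne := hl.1
  obtain ⟨d, hd⟩ := List.exists_mem_of_ne_nil l hne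
  have hv : tl inc d ∈ vsupp inc l := ⟨d, hd, rfl⟩
  obtain ⟨k, hk, hw, hc⟩ := hl.root hv
  have hR : tl inc d ∈ R := h.sub (hl.vsupp_sub hv)
  have := nb_unique h.tree hR hw (cred_red hc) (walk_nil.2 rfl) red_nil (by simpa using hlt)
  have h2 : (l.rotate k).length = 0 := by rw [this]; rfl
  rw [List.length_rotate] at h2
  exact hne (List.length_eq_zero_iff.1 h2)

theorem vsupp_ncard_le (l : List (E × Bool)) : (vsupp inc l).ncard ≤ l.length := by
  classical
  have : vsupp inc l = ((l.map (tl inc)).toFinset : Set V) := by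
    ext v
    simp [vsupp]
  rw [this, Set.ncard_coe_finset]
  exact (List.toFinset_card_le _).trans (by simp)

/-- the number of nice circuits of a given length coming close to a given one -/
theorem near_count (h : Ctx inc R R' a g D L) {ρ : ℕ} (hρ : 4 * ρ ≤ a) {l : List (E × Bool)}
    (hl : NiceIn inc R' g L l) (ℓ' : ℕ) :
    {l' | NiceIn inc R' g L l' ∧ l'.length = ℓ' ∧
      ∃ v ∈ vsupp inc l', v ∈ near inc (vsupp inc l) D}.ncard ≤
      (4 ^ D * L) * (ℓ' * (3 * 2 ^ (ℓ' - ρ - 1))) := by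
  classical
  rcases le_or_gt ℓ' ρ with hle | hgt
  · have : {l' | NiceIn inc R' g L l' ∧ l'.length = ℓ' ∧
      ∃ v ∈ vsupp inc l', v ∈ near inc (vsupp inc l) D} = ∅ := by
      ext l'
      simp only [mem_ofPred_eq, mem_empty_iff_false, iff_false]
      rintro ⟨h1, h2, -⟩
      have := nice_long h h1
      omega
    rw [this, Set.ncard_empty]
    exact Nat.zero_le _
  have hNfin : (near inc (vsupp inc l) D ∩ R).Finite := Set.toFinite _
  let Nr : Finset V := hNfin.toFinset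
  have hSfin : ∀ v : V, {x : List (E × Bool) | x.length = ℓ' ∧ Red x ∧ Walk inc v x v}.Finite :=
    fun v => finite_lists ℓ' _
  let B : Finset (List (E × Bool)) := Nr.biUnion fun v =>
    (Finset.range ℓ').biUnion fun k => (hSfin v).toFinset.image fun x => x.rotate (ℓ' - k)
  have hsub : {l' | NiceIn inc R' g L l' ∧ l'.length = ℓ' ∧
      ∃ v ∈ vsupp inc l', v ∈ near inc (vsupp inc l) D} ⊆ (B : Set (List (E × Bool))) := by
    rintro l' ⟨h1, h2, v, hv, hv'⟩
    obtain ⟨k, hk, hw, hc⟩ := h1.root hv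
    simp only [B, Finset.coe_biUnion, Set.mem_iUnion, Finset.mem_coe, Finset.mem_image,
      Set.Finite.mem_toFinset, Nr, Finset.mem_range]
    refine ⟨v, ⟨hv', h.sub (h1.vsupp_sub hv)⟩, k, by omega, l'.rotate k, ⟨by simp [h2], cred_red hc,
      hw⟩, ?_⟩
    rw [List.rotate_rotate]
    have : k + (ℓ' - k) = l'.length := by omega
    rw [this, List.rotate_length]
  have hB : B.card ≤ Nr.card * (ℓ' * (3 * 2 ^ (ℓ' - ρ - 1))) := by
    refine Finset.card_biUnion_le_card_mul _ _ _ fun v hv => ?_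
    refine (Finset.card_biUnion_le_card_mul _ _ (3 * 2 ^ (ℓ' - ρ - 1)) fun k hk => ?_).trans ?_
    · refine Finset.card_image_le.trans ?_
      rw [← Set.ncard_eq_toFinset_card _ (hSfin v)]
      refine count_vw h.deg_le h.tree v v ?_ hρ hgt
      exact ((Set.Finite.mem_toFinset _).1 hv).2
    · rw [Finset.card_range]
  have hNr : Nr.card ≤ 4 ^ D * L := by
    rw [← Set.ncard_eq_toFinset_card _ hNfin]
    refine (Set.ncard_le_ncard inter_subset_left (Set.toFinite _)).trans ?_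
    refine (ncard_near inc h.deg_le _ D).trans ?_
    exact Nat.mul_le_mul_left _ ((vsupp_ncard_le l).trans hl.2.1)
  calc _ ≤ (B : Set (List (E × Bool))).ncard := Set.ncard_le_ncard hsub (Finset.finite_toSet _)
    _ = B.card := Set.ncard_coe_finset _
    _ ≤ Nr.card * (ℓ' * (3 * 2 ^ (ℓ' - ρ - 1))) := hB
    _ ≤ _ := Nat.mul_le_mul_right _ hNr

/-- real form of `near_count` -/
theorem near_count' (h : Ctx inc R R' a g D L) {ρ : ℕ} (hρ : 4 * ρ ≤ a) {l : List (E × Bool)}
    (hl : NiceIn inc R' g L l) (ℓ' : ℕ) :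
    ({l' | NiceIn inc R' g L l' ∧ l'.length = ℓ' ∧
      ∃ v ∈ vsupp inc l', v ∈ near inc (vsupp inc l) D}.ncard : ℝ) ≤
      4 ^ D * L * (ℓ' * (3 * 2 ^ ℓ' / 2 ^ (ρ + 1))) := by
  rcases le_or_gt ℓ' ρ with hle | hgt
  · have : {l' | NiceIn inc R' g L l' ∧ l'.length = ℓ' ∧
      ∃ v ∈ vsupp inc l', v ∈ near inc (vsupp inc l) D} = ∅ := by
      ext l'
      simp only [mem_ofPred_eq, mem_empty_iff_false, iff_false]
      rintro ⟨h1, h2, -⟩
      have := nice_long h h1
      omega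
    rw [this, Set.ncard_empty]
    push_cast
    positivity
  · have h1 := near_count h hρ hl ℓ'
    have h2 : (2 : ℝ) ^ (ℓ' - ρ - 1) = 2 ^ ℓ' / 2 ^ (ρ + 1) := by
      rw [eq_div_iff (by positivity), ← pow_add]
      congr 1
      omega
    calc _ ≤ (((4 ^ D * L) * (ℓ' * (3 * 2 ^ (ℓ' - ρ - 1))) : ℕ) : ℝ) := by exact_mod_cast h1
      _ = _ := by
        push_cast
        rw [h2]
        ring

/-- the finite set of nice circuits -/
noncomputable def NL (inc : E → Bool → V) (R' : Set V) (g L : ℕ) : Finset (List (E × Bool)) :=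
  (nice_finite inc R' g L).toFinset

theorem mem_NL {l : List (E × Bool)} : l ∈ NL inc R' g L ↔ NiceIn inc R' g L l := by
  simp [NL]

open Classical in
theorem near_sum (h : Ctx inc R R' a g D L) {ρ : ℕ} (hρ : 4 * ρ ≤ a) {l : List (E × Bool)}
    (hl : NiceIn inc R' g L l) :
    ∑ l' ∈ (NL inc R' g L).filter (fun l' => ∃ v ∈ vsupp inc l', v ∈ near inc (vsupp inc l) D),
      1 / (2 * (l'.length : ℝ)) * (1 / 2 ^ l'.length) ≤ L ^ 2 * 4 ^ D / 2 ^ ρ := by
  set S := (NL inc R' g L).filter (fun l' => ∃ v ∈ vsupp inc l', v ∈ near inc (vsupp inc l) D)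
    with hS
  have hmaps : ∀ l' ∈ S, l'.length ∈ Finset.Icc 1 L := by
    intro l' hl'
    have h1 := mem_NL.1 (Finset.mem_filter.1 hl').1
    rw [Finset.mem_Icc]
    exact ⟨List.length_pos_iff.2 h1.1, h1.2.1⟩
  rw [← Finset.sum_fiberwise_of_maps_to hmaps]
  have hterm : ∀ ℓ' ∈ Finset.Icc 1 L,
      ∑ l' ∈ S with l'.length = ℓ', 1 / (2 * (l'.length : ℝ)) * (1 / 2 ^ l'.length) ≤
        L * 4 ^ D / 2 ^ ρ := by
    intro ℓ' hℓ'
    have hpos : 1 ≤ ℓ' := (Finset.mem_Icc.1 hℓ').1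
    have hposR : (0 : ℝ) < ℓ' := by exact_mod_cast hpos
    have h1 : ∑ l' ∈ S with l'.length = ℓ', 1 / (2 * (l'.length : ℝ)) * (1 / 2 ^ l'.length) =
        ((S.filter fun l' => l'.length = ℓ').card : ℝ) * (1 / (2 * (ℓ' : ℝ)) * (1 / 2 ^ ℓ')) := by
      rw [← nsmul_eq_mul, ← Finset.sum_const]
      refine Finset.sum_congr rfl fun l' hl' => ?_
      rw [(Finset.mem_filter.1 hl').2]
    have h2 : ((S.filter fun l' => l'.length = ℓ').card : ℝ) ≤
        4 ^ D * L * (ℓ' * (3 * 2 ^ ℓ' / 2 ^ (ρ + 1))) := by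
      refine le_trans ?_ (near_count' h hρ hl ℓ')
      rw [← Set.ncard_coe_finset]
      have hsub : ((S.filter fun l' => l'.length = ℓ' : Finset (List (E × Bool))) :
          Set (List (E × Bool))) ⊆ {l' | NiceIn inc R' g L l' ∧ l'.length = ℓ' ∧
            ∃ v ∈ vsupp inc l', v ∈ near inc (vsupp inc l) D} := by
        intro l' hl'
        have h3 := Finset.mem_filter.1 (Finset.mem_coe.1 hl')
        have h4 := Finset.mem_filter.1 h3.1
        exact ⟨mem_NL.1 h4.1, h3.2, h4.2⟩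
      exact_mod_cast Set.ncard_le_ncard hsub ((nice_finite inc R' g L).subset fun _ h => h.1)
    rw [h1]
    calc _ ≤ 4 ^ D * L * (ℓ' * (3 * 2 ^ ℓ' / 2 ^ (ρ + 1))) *
          (1 / (2 * (ℓ' : ℝ)) * (1 / 2 ^ ℓ')) := by gcongr
      _ = 3 / 4 * (L * 4 ^ D / 2 ^ ρ) := by
        rw [pow_succ (2 : ℝ) ρ]
        field_simp
        ring
      _ ≤ 1 * (L * 4 ^ D / 2 ^ ρ) := by
        gcongr
        norm_num
      _ = _ := one_mul _
  calc _ ≤ ∑ ℓ' ∈ Finset.Icc 1 L, (L * 4 ^ D / 2 ^ ρ : ℝ) := Finset.sum_le_sum hterm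
    _ = L * (L * 4 ^ D / 2 ^ ρ) := by
      rw [Finset.sum_const, Nat.card_Icc, nsmul_eq_mul]
      simp
    _ = _ := by ring

/-- edge supports of vertex-disjoint closed walks are disjoint -/
theorem esupp_disjoint {l l' : List (E × Bool)} (hl : NiceIn inc R' g L l)
    (hdisj : Disjoint (vsupp inc l) (vsupp inc l')) : Disjoint (esupp l) (esupp l') := by
  rw [Set.disjoint_left]
  rintro e ⟨d, hd, rfl⟩ ⟨d', hd', he⟩
  have hhd : Bondy.hd inc d ∈ vsupp inc l := by
    obtain ⟨s, t, hst⟩ := List.append_of_mem hd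
    obtain ⟨-, -, ⟨-, -, ⟨u, hu⟩, -⟩, -⟩ := hl
    rw [hst] at hu
    obtain ⟨w, h1, h2⟩ := walk_append.1 hu
    cases t with
    | nil =>
      have h3 : Bondy.hd inc d = u := h2.2
      cases s with
      | nil =>
        have h4 : u = w := h1
        have h5 : tl inc d = w := h2.1
        exact ⟨d, hd, by rw [h5, ← h4, h3]⟩
      | cons c s =>
        refine ⟨c, ?_, ?_⟩
        · rw [hst]; simp
        · rw [h1.1, h3]
    | cons c t =>
      refine ⟨c, ?_, h2.2.1⟩
      rw [hst]; simp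
  rcases eq_or_eq_rv he.symm with h1 | h1
  · exact Set.disjoint_left.1 hdisj ⟨d, hd, rfl⟩ ⟨d', hd', by rw [h1]⟩
  · exact Set.disjoint_left.1 hdisj hhd ⟨d', hd', by rw [h1]; simp⟩

end

end Pool.Agent.Bondy
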