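import Pool.Agent.Bondy.EFinalA

/-! # Second moment for nice circuits, conclusion -/

set_option autoImplicit false

namespace Pool.Agent.Bondy

open Set

variable {V E : Type}

section

variable [Fintype V] [Fintype E] {inc : E → Bool → V} {R R' : Set V} {a g D L : ℕ}

/-- the event that the circuit `l` is contained in `y0 + w` -/
def Ev (y0 : E → ZMod 2) (l : List (E × Bool)) : Set (E → ZMod 2) :=
  {w | ∀ e ∈ esupp l, (y0 + w) e = 1}

theorem mem_ev_iff {y0 w : E → ZMod 2} {l : List (E × Bool)} :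
    w ∈ Ev y0 l ↔ ∀ e ∈ esupp l, w e = (y0 + 1) e := by
  unfold Ev
  simp only [mem_ofPred_eq]
  refine forall₂_congr fun e _ => ?_
  simp only [Pi.add_apply, Pi.one_apply]
  generalize y0 e = p
  generalize w e = q
  revert p q
  decide

theorem ev_single (h : Ctx inc R R' a g D L) (y0 : E → ZMod 2) {l : List (E × Bool)}
    (hl : NiceIn inc R' g L l) :
    ({w | w ∈ cyc inc ∧ w ∈ Ev y0 l}.ncard : ℝ) =
      ((cyc inc : Set (E → ZMod 2)).ncard : ℝ) / 2 ^ l.length := by
  have h1 := dual_eq inc (esupp l) (y0 + 1) (cuts_single h hl)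
  rw [(nice_basic h hl).1] at h1
  simp only [mem_ev_iff]
  rw [eq_div_iff (by positivity)]
  exact_mod_cast h1

theorem ev_pair_eq {y0 : E → ZMod 2} {l l' : List (E × Bool)} :
    {w | w ∈ cyc inc ∧ w ∈ Ev y0 l ∧ w ∈ Ev y0 l'} =
      {w | w ∈ cyc inc ∧ ∀ e ∈ esupp l ∪ esupp l', w e = (y0 + 1) e} := by
  ext w
  simp only [mem_ofPred_eq, mem_ev_iff, mem_union]
  constructor
  · rintro ⟨h1, h2, h3⟩
    exact ⟨h1, fun e he => he.elim (h2 e) (h3 e)⟩
  · rintro ⟨h1, h2⟩
    exact ⟨h1, fun e he => h2 e (Or.inl he), fun e he => h2 e (Or.inr he)⟩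

open Classical in
theorem ev_pair (h : Ctx inc R R' a g D L) {y0 : E → ZMod 2}
    (hy : ∀ v, deg inc v = 3 → bd inc y0 v = 0) {l l' : List (E × Bool)}
    (hl : NiceIn inc R' g L l) (hl' : NiceIn inc R' g L l') :
    ({w | w ∈ cyc inc ∧ w ∈ Ev y0 l ∧ w ∈ Ev y0 l'}.ncard : ℝ) ≤
      ((cyc inc : Set (E → ZMod 2)).ncard : ℝ) *
        ((if esupp l' = esupp l then 1 / 2 ^ l.length else 0) + 1 / 2 ^ (l.length + l'.length) +
          (if ∃ v ∈ vsupp inc l', v ∈ near inc (vsupp inc l) D then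
            2 ^ (L / (g - 2 * D) + 1) / 2 ^ (l.length + l'.length) else 0)) := by
  set Q : ℝ := ((cyc inc : Set (E → ZMod 2)).ncard : ℝ) with hQ
  have hQ0 : 0 ≤ Q := by positivity
  by_cases h1 : esupp l' = esupp l
  · rw [if_pos h1]
    have h2 : ({w | w ∈ cyc inc ∧ w ∈ Ev y0 l ∧ w ∈ Ev y0 l'}.ncard : ℝ) ≤ Q / 2 ^ l.length := by
      rw [hQ, ← ev_single h y0 hl]
      have h3 : {w | w ∈ cyc inc ∧ w ∈ Ev y0 l ∧ w ∈ Ev y0 l'} ⊆
          {w | w ∈ cyc inc ∧ w ∈ Ev y0 l} := fun w hw => ⟨hw.1, hw.2.1⟩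
      exact_mod_cast Set.ncard_le_ncard h3 (Set.toFinite _)
    refine h2.trans ?_
    rw [div_eq_mul_one_div]
    refine mul_le_mul_of_nonneg_left ?_ hQ0
    have : (0 : ℝ) ≤ (if ∃ v ∈ vsupp inc l', v ∈ near inc (vsupp inc l) D then
            2 ^ (L / (g - 2 * D) + 1) / 2 ^ (l.length + l'.length) else 0) := by
      split_ifs <;> positivity
    have : (0 : ℝ) ≤ 1 / 2 ^ (l.length + l'.length) := by positivity
    linarith
  rw [if_neg h1, zero_add]
  by_cases h2 : Disjoint (vsupp inc l) (vsupp inc l')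
  · have hcard : (esupp l ∪ esupp l').ncard = l.length + l'.length := by
      rw [Set.ncard_union_eq (esupp_disjoint hl h2) (Set.toFinite _) (Set.toFinite _),
        (nice_basic h hl).1, (nice_basic h hl').1]
    by_cases h3 : ∃ v ∈ vsupp inc l', v ∈ near inc (vsupp inc l) D
    · rw [if_pos h3, ev_pair_eq]
      have h4 := dual_le inc (esupp l ∪ esupp l') (y0 + 1)
      rw [hcard] at h4
      have h5 := cuts_near h hl hl' h2
      have h6 : ({w | w ∈ cyc inc ∧ ∀ e ∈ esupp l ∪ esupp l', w e = (y0 + 1) e}.ncard : ℝ) *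
          2 ^ (l.length + l'.length) ≤ 2 ^ (L / (g - 2 * D) + 1) * Q := by
        calc _ ≤ ((cutsIn inc (esupp l ∪ esupp l')).ncard : ℝ) * Q := by
              rw [hQ]
              exact_mod_cast h4
          _ ≤ _ := by
            gcongr
            exact_mod_cast h5
      have h7 : ({w | w ∈ cyc inc ∧ ∀ e ∈ esupp l ∪ esupp l', w e = (y0 + 1) e}.ncard : ℝ) ≤
          Q * (2 ^ (L / (g - 2 * D) + 1) / 2 ^ (l.length + l'.length)) := by
        rw [← mul_div_assoc, le_div_iff₀ (by positivity)]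
        linarith
      refine h7.trans (mul_le_mul_of_nonneg_left ?_ hQ0)
      have : (0 : ℝ) ≤ 1 / 2 ^ (l.length + l'.length) := by positivity
      linarith
    · rw [if_neg h3, add_zero, ev_pair_eq]
      have h4 := dual_eq inc (esupp l ∪ esupp l') (y0 + 1) (cuts_far h hl hl' h2 (by
        intro u hu v hv q hq
        by_contra hlt
        push Not at hlt
        exact h3 ⟨v, hv, u, hu, q, hq, hlt⟩))
      rw [hcard] at h4
      rw [mul_one_div, le_div_iff₀ (by positivity)]
      apply le_of_eq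
      rw [hQ]
      exact_mod_cast h4
  · have h3 : {w | w ∈ cyc inc ∧ w ∈ Ev y0 l ∧ w ∈ Ev y0 l'} = ∅ := by
      ext w
      simp only [mem_ofPred_eq, mem_empty_iff_false, iff_false]
      rintro ⟨hw, hw1, hw2⟩
      have hy' : ∀ v, deg inc v = 3 → bd inc (y0 + w) v = 0 := by
        intro v hv
        rw [map_add, Pi.add_apply, hy v hv, mem_cyc.1 hw v, add_zero]
      rcases nice_excl h hl hl' (y0 + w) hy' hw1 hw2 with h4 | h4
      · exact h1 h4.symm
      · exact h2 h4
    rw [h3, Set.ncard_empty, Nat.cast_zero]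
    refine mul_nonneg hQ0 (add_nonneg (by positivity) ?_)
    split_ifs <;> positivity

open Classical in
theorem fibre_sum (h : Ctx inc R R' a g D L) {l : List (E × Bool)}
    (hl : NiceIn inc R' g L l) :
    ∑ l' ∈ NL inc R' g L, (if esupp l' = esupp l then 1 / (2 * (l'.length : ℝ)) else 0) ≤ 1 := by
  rw [← Finset.sum_filter]
  have hlen : ∀ l' ∈ (NL inc R' g L).filter (fun l' => esupp l' = esupp l),
      l'.length = l.length := by
    intro l' hl'
    obtain ⟨h1, h2⟩ := Finset.mem_filter.1 hl'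
    rw [← (nice_basic h (mem_NL.1 h1)).1, ← (nice_basic h hl).1, h2]
  have h1 : ∑ l' ∈ (NL inc R' g L).filter (fun l' => esupp l' = esupp l),
      1 / (2 * (l'.length : ℝ)) =
      (((NL inc R' g L).filter (fun l' => esupp l' = esupp l)).card : ℝ) *
        (1 / (2 * (l.length : ℝ))) := by
    rw [← nsmul_eq_mul, ← Finset.sum_const]
    exact Finset.sum_congr rfl fun l' hl' => by rw [hlen l' hl']
  rw [h1]
  have hpos : 0 < l.length := List.length_pos_iff.2 hl.1
  have hposR : (0 : ℝ) < l.length := by exact_mod_cast hpos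
  have h2 : (((NL inc R' g L).filter (fun l' => esupp l' = esupp l)).card : ℝ) ≤
      2 * l.length := by
    have h3 := nice_fibre h hl
    rw [← Set.ncard_coe_finset]
    have h4 : (((NL inc R' g L).filter (fun l' => esupp l' = esupp l) :
        Finset (List (E × Bool))) : Set (List (E × Bool))) ⊆
        {l' | NiceIn inc R' g L l' ∧ esupp l' = esupp l} := by
      intro l' hl'
      obtain ⟨h1, h2⟩ := Finset.mem_filter.1 (Finset.mem_coe.1 hl')
      exact ⟨mem_NL.1 h1, h2⟩
    have h5 := Set.ncard_le_ncard h4 ((nice_finite inc R' g L).subset fun _ h => h.1)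
    exact_mod_cast h5.trans h3
  calc _ ≤ 2 * (l.length : ℝ) * (1 / (2 * (l.length : ℝ))) := by gcongr
    _ = 1 := by field_simp

theorem second_main (h : Ctx inc R R' a g D L) {ρ : ℕ} (hρ : 4 * ρ ≤ a) {y0 : E → ZMod 2}
    (hy : ∀ v, deg inc v = 3 → bd inc y0 v = 0)
    (hμ : 1 ≤ ∑ l ∈ NL inc R' g L, 1 / (2 * (l.length : ℝ)) * (1 / 2 ^ l.length)) :
    ({w | w ∈ cyc inc ∧ ¬ ∃ z ∈ cyc inc, z ≠ 0 ∧ SubV z (y0 + w)}.ncard : ℝ) ≤
      (1 / 2 + 2 ^ (L / (g - 2 * D) + 1) * (L ^ 2 * 4 ^ D / 2 ^ ρ) / 4) *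
        ((cyc inc : Set (E → ZMod 2)).ncard : ℝ) := by
  classical
  set Q : ℝ := ((cyc inc : Set (E → ZMod 2)).ncard : ℝ) with hQ
  set μ : ℝ := ∑ l ∈ NL inc R' g L, 1 / (2 * (l.length : ℝ)) * (1 / 2 ^ l.length) with hμdef
  set K : ℝ := 2 ^ (L / (g - 2 * D) + 1) with hK
  set η : ℝ := K * (L ^ 2 * 4 ^ D / 2 ^ ρ) with hη
  have hη0 : 0 ≤ η := by positivity
  have hQpos : 0 < Q := by
    rw [hQ]
    have : 0 < (cyc inc : Set (E → ZMod 2)).ncard :=
      (Set.ncard_pos (Set.toFinite _)).2 ⟨0, Submodule.zero_mem _⟩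
    exact_mod_cast this
  have hfin : (cyc inc : Set (E → ZMod 2)).Finite := Set.toFinite _
  have hmain := second_moment hfin.toFinset (NL inc R' g L) (fun l => Ev y0 l)
    (fun l => 1 / (2 * (l.length : ℝ))) (fun l _ => by positivity)
  simp only [Set.Finite.mem_toFinset, SetLike.mem_coe] at hmain
  set G : ℝ := ({x | x ∈ cyc inc ∧ ∃ i ∈ NL inc R' g L, x ∈ Ev y0 i}.ncard : ℝ) with hG
  have hleft : ∑ l ∈ NL inc R' g L, 1 / (2 * (l.length : ℝ)) *
      ({x | x ∈ cyc inc ∧ x ∈ Ev y0 l}.ncard : ℝ) = μ * Q := by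
    rw [hμdef, Finset.sum_mul]
    refine Finset.sum_congr rfl fun l hl => ?_
    rw [ev_single h y0 (mem_NL.1 hl)]
    ring
  have hright : ∑ l ∈ NL inc R' g L, ∑ l' ∈ NL inc R' g L,
      1 / (2 * (l.length : ℝ)) * (1 / (2 * (l'.length : ℝ))) *
      ({x | x ∈ cyc inc ∧ x ∈ Ev y0 l ∧ x ∈ Ev y0 l'}.ncard : ℝ) ≤
      Q * (μ + μ ^ 2 + η * μ) := by
    have hrow : ∀ l ∈ NL inc R' g L, ∑ l' ∈ NL inc R' g L,
        1 / (2 * (l.length : ℝ)) * (1 / (2 * (l'.length : ℝ))) *
        ({x | x ∈ cyc inc ∧ x ∈ Ev y0 l ∧ x ∈ Ev y0 l'}.ncard : ℝ) ≤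
        1 / (2 * (l.length : ℝ)) * (1 / 2 ^ l.length) * (Q * (1 + μ + η)) := by
      intro l hl
      have hl1 := mem_NL.1 hl
      calc _ ≤ ∑ l' ∈ NL inc R' g L, 1 / (2 * (l.length : ℝ)) * (1 / (2 * (l'.length : ℝ))) *
            (Q * ((if esupp l' = esupp l then 1 / 2 ^ l.length else 0) +
              1 / 2 ^ (l.length + l'.length) +
              (if ∃ v ∈ vsupp inc l', v ∈ near inc (vsupp inc l) D then
                K / 2 ^ (l.length + l'.length) else 0))) := by
            refine Finset.sum_le_sum fun l' hl' => ?_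
            exact mul_le_mul_of_nonneg_left (ev_pair h hy hl1 (mem_NL.1 hl')) (by positivity)
        _ = 1 / (2 * (l.length : ℝ)) * (1 / 2 ^ l.length) * (Q *
            ((∑ l' ∈ NL inc R' g L, (if esupp l' = esupp l then 1 / (2 * (l'.length : ℝ)) else 0)) +
              μ + K * ∑ l' ∈ (NL inc R' g L).filter
                (fun l' => ∃ v ∈ vsupp inc l', v ∈ near inc (vsupp inc l) D),
                1 / (2 * (l'.length : ℝ)) * (1 / 2 ^ l'.length))) := by
            rw [Finset.sum_filter, hμdef, Finset.mul_sum, ← Finset.sum_add_distrib,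
              ← Finset.sum_add_distrib, Finset.mul_sum, Finset.mul_sum]
            refine Finset.sum_congr rfl fun l' _ => ?_
            rw [pow_add]
            split_ifs <;> field_simp <;> ring
        _ ≤ _ := by
            refine mul_le_mul_of_nonneg_left (mul_le_mul_of_nonneg_left ?_ hQpos.le)
              (by positivity)
            have h1 := fibre_sum h hl1
            have h2 := near_sum h hρ hl1
            have h3 : K * ∑ l' ∈ (NL inc R' g L).filter
                (fun l' => ∃ v ∈ vsupp inc l', v ∈ near inc (vsupp inc l) D),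
                1 / (2 * (l'.length : ℝ)) * (1 / 2 ^ l'.length) ≤ η :=
              mul_le_mul_of_nonneg_left h2 (by positivity)
            linarith
    refine (Finset.sum_le_sum hrow).trans (le_of_eq ?_)
    rw [← Finset.sum_mul, ← hμdef]
    ring
  have hG0 : 0 ≤ G := by positivity
  have hkey : μ * Q ≤ G * (1 + μ + η) := by
    have h1 : (μ * Q) ^ 2 ≤ G * (Q * (μ + μ ^ 2 + η * μ)) := by
      rw [← hleft]
      exact hmain.trans (mul_le_mul_of_nonneg_left hright hG0)
    have h2 : (μ * Q) * (μ * Q) ≤ (μ * Q) * (G * (1 + μ + η)) := by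
      calc _ = (μ * Q) ^ 2 := by ring
        _ ≤ _ := h1
        _ = _ := by ring
    exact le_of_mul_le_mul_left h2 (by positivity)
  -- the set in question is disjoint from the union of the events
  have hdisj : ({w | w ∈ cyc inc ∧ ¬ ∃ z ∈ cyc inc, z ≠ 0 ∧ SubV z (y0 + w)}.ncard : ℝ) + G ≤
      Q := by
    have h1 : Disjoint {w | w ∈ cyc inc ∧ ¬ ∃ z ∈ cyc inc, z ≠ 0 ∧ SubV z (y0 + w)}
        {x | x ∈ cyc inc ∧ ∃ i ∈ NL inc R' g L, x ∈ Ev y0 i} := by
      rw [Set.disjoint_left]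
      rintro w ⟨-, hw⟩ ⟨-, l, hl, hwl⟩
      apply hw
      have hl1 := mem_NL.1 hl
      obtain ⟨h2, h3, h4, h5⟩ := nice_basic h hl1
      refine ⟨_, h5, ?_, ?_⟩
      · intro h6
        obtain ⟨d, hd⟩ := List.exists_mem_of_ne_nil l hl1.1
        have h7 : cntE l d.1 = 1 := by
          have h8 : cntE l d.1 = (l.map Prod.fst).count d.1 := by
            unfold cntE
            rw [List.count, List.countP_map]
            refine List.countP_congr fun x _ => ?_
            simp
          rw [h8]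
          exact List.count_eq_one_of_mem h3 (List.mem_map.2 ⟨d, hd, rfl⟩)
        have h8 := congrFun h6 d.1
        simp [h7] at h8
      · intro e he
        have h6 : e ∈ esupp l := by
          rw [← cntE_pos]
          rcases Nat.eq_zero_or_pos (cntE l e) with h7 | h7
          · simp [h7] at he
          · exact h7
        rw [hwl e h6]
        decide
    have h2 := Set.ncard_union_eq h1 (Set.toFinite _) (Set.toFinite _)
    have h3 : ({w | w ∈ cyc inc ∧ ¬ ∃ z ∈ cyc inc, z ≠ 0 ∧ SubV z (y0 + w)} ∪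
        {x | x ∈ cyc inc ∧ ∃ i ∈ NL inc R' g L, x ∈ Ev y0 i}).ncard ≤
        (cyc inc : Set (E → ZMod 2)).ncard := by
      refine Set.ncard_le_ncard ?_ hfin
      rintro w (hw | hw)
      · exact hw.1
      · exact hw.1
    rw [h2] at h3
    rw [hG, hQ]
    exact_mod_cast h3
  have h4 : Q ≤ G * (2 + η) := by
    have h5 : μ * Q ≤ μ * (G * (2 + η)) := by
      calc μ * Q ≤ G * (1 + μ + η) := hkey
        _ ≤ G * (μ * (2 + η)) := by
          refine mul_le_mul_of_nonneg_left ?_ hG0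
          nlinarith
        _ = _ := by ring
    exact le_of_mul_le_mul_left h5 (by linarith)
  have h5 : Q / (2 + η) ≤ G := by
    rw [div_le_iff₀ (by positivity)]
    exact h4
  have h6 : Q - Q / (2 + η) ≤ (1 / 2 + η / 4) * Q := by
    rw [sub_le_iff_le_add, ← sub_le_iff_le_add', le_div_iff₀ (by positivity)]
    nlinarith [mul_nonneg hQpos.le (mul_nonneg hη0 hη0)]
  linarith

end

end Pool.Agent.Bondy
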