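import Pool.Agent.Bondy.EFinalB

/-! # The expander lemma -/

set_option autoImplicit false

namespace Pool.Agent.Bondy

open Set

variable {V E : Type}

/-- total weight of the closed non-backtracking walks in `R` of length at most `L` -/
noncomputable def Theta (inc : E → Bool → V) (R : Set V) (L : ℕ) : ℝ :=
  ∑ ℓ ∈ Finset.Icc 1 L, T inc R ℓ / (2 * (ℓ : ℝ))

theorem T_nonneg (inc : E → Bool → V) (R : Set V) (ℓ : ℕ) : 0 ≤ T inc R ℓ := by
  unfold T
  positivity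

theorem Theta_nonneg (inc : E → Bool → V) (R : Set V) (L : ℕ) : 0 ≤ Theta inc R L :=
  Finset.sum_nonneg fun ℓ _ => div_nonneg (T_nonneg inc R ℓ) (by positivity)

theorem T_mono [Fintype E] (inc : E → Bool → V) {R R' : Set V} (h : R' ⊆ R) (ℓ : ℕ) :
    T inc R' ℓ ≤ T inc R ℓ := by
  unfold T
  have h1 : cnb inc R' ℓ ⊆ cnb inc R ℓ := fun l hl =>
    ⟨hl.1, hl.2.1, hl.2.2.1, fun d hd => h (hl.2.2.2 d hd)⟩
  have h2 : (cnb inc R' ℓ).ncard ≤ (cnb inc R ℓ).ncard :=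
    Set.ncard_le_ncard h1 (finite_cnb inc R ℓ)
  gcongr

theorem Theta_mono [Fintype E] (inc : E → Bool → V) {R R' : Set V} (h : R' ⊆ R) (L : ℕ) :
    Theta inc R' L ≤ Theta inc R L := by
  unfold Theta
  refine Finset.sum_le_sum fun ℓ _ => ?_
  have := T_mono inc h ℓ
  gcongr

theorem T_le [Fintype V] [Fintype E] (inc : E → Bool → V) (hdeg : ∀ v, deg inc v ≤ 3)
    (R : Set V) {ℓ : ℕ} (hℓ : 1 ≤ ℓ) : T inc R ℓ ≤ 3 / 2 * Nat.card V := by
  classical
  have hfin : ∀ v : V, {l : List (E × Bool) | l.length = (ℓ - 1) + 1 ∧ Red l ∧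
      ∃ w, Walk inc v l w}.Finite := fun v => finite_lists _ _
  let B : Finset (List (E × Bool)) := (Finset.univ : Finset V).biUnion fun v => (hfin v).toFinset
  have hsub : cnb inc R ℓ ⊆ (B : Set (List (E × Bool))) := by
    rintro l ⟨h1, h2, ⟨u, h3⟩, -⟩
    simp only [B, Finset.coe_biUnion, Set.mem_iUnion, Finset.mem_coe, Set.Finite.mem_toFinset]
    exact ⟨u, Finset.mem_univ _, by omega, cred_red h2, u, h3⟩
  have hB : B.card ≤ (Finset.univ : Finset V).card * (3 * 2 ^ (ℓ - 1)) := by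
    refine Finset.card_biUnion_le_card_mul _ _ _ fun v _ => ?_
    rw [← Set.ncard_eq_toFinset_card _ (hfin v)]
    exact count_from inc hdeg v (ℓ - 1)
  have h1 : (cnb inc R ℓ).ncard ≤ Nat.card V * (3 * 2 ^ (ℓ - 1)) := by
    calc (cnb inc R ℓ).ncard ≤ (B : Set (List (E × Bool))).ncard :=
          Set.ncard_le_ncard hsub (Finset.finite_toSet _)
      _ = B.card := Set.ncard_coe_finset _
      _ ≤ _ := hB
      _ = _ := by rw [Finset.card_univ, Nat.card_eq_fintype_card]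
  unfold T
  rw [div_le_iff₀ (by positivity)]
  have h2 : (2 : ℝ) ^ ℓ = 2 * 2 ^ (ℓ - 1) := by
    rw [← pow_succ']
    congr 1
    omega
  rw [h2]
  calc ((cnb inc R ℓ).ncard : ℝ) ≤ ((Nat.card V * (3 * 2 ^ (ℓ - 1)) : ℕ) : ℝ) := by
        exact_mod_cast h1
    _ = _ := by
      push_cast
      ring

theorem Theta_le [Fintype V] [Fintype E] (inc : E → Bool → V) (hdeg : ∀ v, deg inc v ≤ 3)
    (R : Set V) (L : ℕ) : Theta inc R L ≤ Nat.card V * L := by
  unfold Theta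
  calc _ ≤ ∑ ℓ ∈ Finset.Icc 1 L, (Nat.card V : ℝ) := by
        refine Finset.sum_le_sum fun ℓ hℓ => ?_
        have h1 : 1 ≤ ℓ := (Finset.mem_Icc.1 hℓ).1
        have h1R : (1 : ℝ) ≤ ℓ := by exact_mod_cast h1
        rw [div_le_iff₀ (by positivity)]
        have h2 := T_le inc hdeg R h1
        have h3 : (0 : ℝ) ≤ Nat.card V := by positivity
        nlinarith
    _ = _ := by
      rw [Finset.sum_const, Nat.card_Icc, nsmul_eq_mul]
      simp [mul_comm]

theorem pigeon {θ : ℕ → ℝ} {lam : ℝ} (hlam : 0 ≤ lam) (J : ℕ) (h0 : θ 0 ≤ lam ^ J * θ J) (hJ : 0 < J) :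
    ∃ j < J, θ j ≤ lam * θ (j + 1) := by
  by_contra hcon
  push Not at hcon
  have h1 : ∀ j, j ≤ J → lam ^ j * θ j ≤ θ 0 := by
    intro j
    induction j with
    | zero => intro _; simp
    | succ j ih =>
      intro hj
      have h2 := (hcon j (by omega)).le
      calc lam ^ (j + 1) * θ (j + 1) = lam ^ j * (lam * θ (j + 1)) := by ring
        _ ≤ lam ^ j * θ j := by
          refine mul_le_mul_of_nonneg_left h2 (by positivity)
        _ ≤ θ 0 := ih (by omega)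
  -- strict inequality at the first step
  have h2 : lam ^ J * θ J < θ 0 := by
    obtain ⟨k, rfl⟩ : ∃ k, J = k + 1 := ⟨J - 1, by omega⟩
    have h3 := hcon 0 (by omega)
    have h4 : ∀ j, j ≤ k → lam ^ j * θ (j + 1) ≤ θ 1 := by
      intro j
      induction j with
      | zero => intro _; simp
      | succ j ih =>
        intro hj
        have h5 := (hcon (j + 1) (by omega)).le
        calc lam ^ (j + 1) * θ (j + 1 + 1) = lam ^ j * (lam * θ (j + 1 + 1)) := by ring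
          _ ≤ lam ^ j * θ (j + 1) := by
            refine mul_le_mul_of_nonneg_left h5 (by positivity)
          _ ≤ θ 1 := ih (by omega)
    calc lam ^ (k + 1) * θ (k + 1) = lam * (lam ^ k * θ (k + 1)) := by ring
      _ ≤ lam * θ 1 := mul_le_mul_of_nonneg_left (h4 k le_rfl) hlam
      _ < θ 0 := h3
  linarith

open Classical in
theorem sum_NL [Fintype V] [Fintype E] (inc : E → Bool → V) (R' : Set V) (g L : ℕ) :
    ∑ l ∈ NL inc R' g L, 1 / (2 * (l.length : ℝ)) * (1 / 2 ^ l.length) =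
      ∑ ℓ ∈ Finset.Icc 1 L, ({l | l ∈ cnb inc R' ℓ ∧ Nice inc g l}.ncard : ℝ) / 2 ^ ℓ /
        (2 * (ℓ : ℝ)) := by
  have hmaps : ∀ l ∈ NL inc R' g L, l.length ∈ Finset.Icc 1 L := by
    intro l hl
    have h1 := mem_NL.1 hl
    rw [Finset.mem_Icc]
    exact ⟨List.length_pos_iff.2 h1.1, h1.2.1⟩
  rw [← Finset.sum_fiberwise_of_maps_to hmaps]
  refine Finset.sum_congr rfl fun ℓ hℓ => ?_
  obtain ⟨h1, h2⟩ := Finset.mem_Icc.1 hℓ
  have h3 : ∑ l ∈ NL inc R' g L with l.length = ℓ, 1 / (2 * (l.length : ℝ)) * (1 / 2 ^ l.length) =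
      (((NL inc R' g L).filter fun l => l.length = ℓ).card : ℝ) *
        (1 / (2 * (ℓ : ℝ)) * (1 / 2 ^ ℓ)) := by
    rw [← nsmul_eq_mul, ← Finset.sum_const]
    refine Finset.sum_congr rfl fun l hl => ?_
    rw [(Finset.mem_filter.1 hl).2]
  have h4 : (((NL inc R' g L).filter fun l => l.length = ℓ).card : ℝ) =
      ({l | l ∈ cnb inc R' ℓ ∧ Nice inc g l}.ncard : ℝ) := by
    rw [← Set.ncard_coe_finset]
    congr 2
    ext l
    simp only [Finset.coe_filter, mem_ofPred_eq, mem_NL, NiceIn]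
    constructor
    · rintro ⟨⟨-, -, h5, h6⟩, rfl⟩
      exact ⟨h5, h6⟩
    · rintro ⟨h5, h6⟩
      have h7 : l.length = ℓ := h5.1
      refine ⟨⟨?_, by omega, by rw [h7]; exact h5, h6⟩, h7⟩
      rintro rfl
      simp at h7
      omega
  rw [h3, h4]
  ring

theorem mu_lower [Fintype V] [Fintype E] (inc : E → Bool → V) (hdeg : ∀ v, deg inc v ≤ 3)
    (R R' : Set V) (g a ρ L : ℕ) (hT : TreeLike inc a R) (hρ : 4 * ρ ≤ a) (hg : 4 * g + 8 ≤ a)
    (hnear : near inc R' g ⊆ R) :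
    Theta inc R' L - 2 * L ^ 2 * (g + 1) * 2 ^ g / 2 ^ ρ * Theta inc R L ≤
      ∑ l ∈ NL inc R' g L, 1 / (2 * (l.length : ℝ)) * (1 / 2 ^ l.length) := by
  classical
  rw [sum_NL]
  have hsumT : ∀ ℓ ∈ Finset.Icc 1 L, ∑ m ∈ Finset.Icc 1 ℓ, T inc R m ≤
      2 * L * Theta inc R L := by
    intro ℓ hℓ
    unfold Theta
    rw [Finset.mul_sum]
    calc _ ≤ ∑ m ∈ Finset.Icc 1 L, T inc R m := by
          refine Finset.sum_le_sum_of_subset_of_nonneg ?_ fun m _ _ => T_nonneg inc R m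
          exact Finset.Icc_subset_Icc_right (Finset.mem_Icc.1 hℓ).2
      _ ≤ _ := by
          refine Finset.sum_le_sum fun m hm => ?_
          obtain ⟨h1, h2⟩ := Finset.mem_Icc.1 hm
          have h1R : (1 : ℝ) ≤ m := by exact_mod_cast h1
          have h2R : (m : ℝ) ≤ L := by exact_mod_cast h2
          rw [mul_div_assoc', le_div_iff₀ (by positivity)]
          have := T_nonneg inc R m
          nlinarith
  have hterm : ∀ ℓ ∈ Finset.Icc 1 L,
      T inc R' ℓ / (2 * (ℓ : ℝ)) -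
        ({l | l ∈ cnb inc R' ℓ ∧ Nice inc g l}.ncard : ℝ) / 2 ^ ℓ / (2 * (ℓ : ℝ)) ≤
      (g + 1) * 2 ^ g / 2 ^ ρ * (2 * L * Theta inc R L) := by
    intro ℓ hℓ
    have h1 : 1 ≤ ℓ := (Finset.mem_Icc.1 hℓ).1
    have h1R : (0 : ℝ) < ℓ := by exact_mod_cast h1
    have h2 := etwo inc hdeg R R' g a ρ hT hρ hg hnear ℓ
    have h3 : T inc R' ℓ = ({l | l ∈ cnb inc R' ℓ ∧ Nice inc g l}.ncard : ℝ) / 2 ^ ℓ +
        ({l | l ∈ cnb inc R' ℓ ∧ ¬ Nice inc g l}.ncard : ℝ) / 2 ^ ℓ := by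
      unfold T
      rw [← add_div]
      congr 1
      have h4 : Disjoint {l | l ∈ cnb inc R' ℓ ∧ Nice inc g l}
          {l | l ∈ cnb inc R' ℓ ∧ ¬ Nice inc g l} := by
        rw [Set.disjoint_left]
        rintro l ⟨-, h5⟩ ⟨-, h6⟩
        exact h6 h5
      have h5 := Set.ncard_union_eq h4 ((finite_cnb inc R' ℓ).subset fun _ h => h.1)
        ((finite_cnb inc R' ℓ).subset fun _ h => h.1)
      have h6 : {l | l ∈ cnb inc R' ℓ ∧ Nice inc g l} ∪ {l | l ∈ cnb inc R' ℓ ∧ ¬ Nice inc g l} =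
          cnb inc R' ℓ := by
        ext l
        simp only [mem_union, mem_ofPred_eq]
        tauto
      rw [h6] at h5
      exact_mod_cast h5
    rw [h3, ← sub_div, add_sub_cancel_left, div_le_iff₀ (by positivity)]
    refine h2.trans ?_
    have h7 := hsumT ℓ hℓ
    calc _ ≤ 2 * ℓ * (g + 1) * 2 ^ g / 2 ^ ρ * (2 * L * Theta inc R L) :=
          mul_le_mul_of_nonneg_left h7 (by positivity)
      _ = _ := by ring
  have hsum := Finset.sum_le_sum hterm
  rw [Finset.sum_sub_distrib, Finset.sum_const, Nat.card_Icc, nsmul_eq_mul] at hsum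
  have h8 : Theta inc R' L = ∑ ℓ ∈ Finset.Icc 1 L, T inc R' ℓ / (2 * (ℓ : ℝ)) := rfl
  rw [← h8] at hsum
  have h9 : ((L + 1 - 1 : ℕ) : ℝ) * ((g + 1) * 2 ^ g / 2 ^ ρ * (2 * L * Theta inc R L)) =
      2 * L ^ 2 * (g + 1) * 2 ^ g / 2 ^ ρ * Theta inc R L := by
    simp only [Nat.add_sub_cancel]
    ring
  rw [h9] at hsum
  linarith

end Pool.Agent.Bondy
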