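import Pool.Agent.Bondy.Basic

/-! # From pancyclic graphs to numerical inequalities (module GRAPH) -/

set_option autoImplicit false

namespace Pool.Agent.Bondy

open Set

variable {V E : Type}

/-! ### Half-edges, supports -/

/-- half-edges of `x` at `v` -/
def hal (inc : E → Bool → V) (x : E → ZMod 2) (v : V) : Set (E × Bool) :=
  {h | x h.1 ≠ 0 ∧ inc h.1 h.2 = v}

/-- support -/
def sp (x : E → ZMod 2) : Set E := {e | x e ≠ 0}

/-- end vertices of the edges of `H` -/
def vs (inc : E → Bool → V) (H : Set E) : Set V := {v | ∃ e ∈ H, ∃ b, inc e b = v}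

/-- circuits -/
structure Circ [Fintype E] (inc : E → Bool → V) (x : E → ZMod 2) : Prop where
  mem : x ∈ cyc inc
  ne : x ≠ 0
  min : ∀ z ∈ cyc inc, z ≠ 0 → SubV z x → z = x
  deg : ∀ v, (hal inc x v).ncard ≤ 2

theorem bd_eq_hal [Fintype E] (inc : E → Bool → V) (x : E → ZMod 2) (v : V) :
    bd inc x v = ((hal inc x v).ncard : ZMod 2) := by
  classical
  rw [bd_apply, Set.ncard_eq_toFinset_card', Finset.card_eq_sum_ones, Nat.cast_sum]
  rw [← Finset.sum_subset (s₁ := (hal inc x v).toFinset) (Finset.subset_univ _)]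
  · refine Finset.sum_congr rfl fun h hh => ?_
    rw [Set.mem_toFinset] at hh
    rw [if_pos hh.2]
    simpa using zmod2_ne_zero.1 hh.1
  · intro h _ h2
    rw [Set.mem_toFinset] at h2
    by_cases h1 : inc h.1 h.2 = v
    · rw [if_pos h1]
      by_contra h3
      exact h2 ⟨h3, h1⟩
    · rw [if_neg h1]

theorem even_hal [Fintype E] {inc : E → Bool → V} {x : E → ZMod 2} (hx : x ∈ cyc inc) (v : V) :
    Even (hal inc x v).ncard := by
  have h := mem_cyc.1 hx v
  rw [bd_eq_hal] at h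
  exact (ZMod.natCast_eq_zero_iff_even).1 h

theorem mem_cyc_of_even [Fintype E] {inc : E → Bool → V} {x : E → ZMod 2}
    (h : ∀ v, Even (hal inc x v).ncard) : x ∈ cyc inc := by
  rw [mem_cyc]
  intro v
  rw [bd_eq_hal]
  exact (ZMod.natCast_eq_zero_iff_even).2 (h v)

/-- double counting of half-edges -/
theorem two_mul_ncard_eq [Fintype V] [Fintype E] (inc : E → Bool → V) (S : Set E) (W : Finset V)
    (hW : ∀ e ∈ S, ∀ b, inc e b ∈ W) :
    2 * S.ncard = ∑ v ∈ W, {h : E × Bool | h.1 ∈ S ∧ inc h.1 h.2 = v}.ncard := by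
  classical
  have h1 : {h : E × Bool | h.1 ∈ S}.ncard = 2 * S.ncard := by
    have : {h : E × Bool | h.1 ∈ S} = S ×ˢ (Set.univ : Set Bool) := by
      ext h
      simp
    rw [this, Set.ncard_prod, Set.ncard_univ, Nat.card_eq_fintype_card, Fintype.card_bool, mul_comm]
  rw [← h1, Set.ncard_eq_toFinset_card',
    Finset.card_eq_sum_card_fiberwise (f := fun h : E × Bool => inc h.1 h.2) (t := W)]
  · refine Finset.sum_congr rfl fun v _ => ?_
    rw [Set.ncard_eq_toFinset_card']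
    congr 1
    ext h
    simp
  · intro h hh
    have : h.1 ∈ S := by simpa using hh
    exact hW _ this _

theorem Circ.inter_le [Fintype V] [Fintype E] {inc : E → Bool → V} {x : E → ZMod 2}
    (hc : Circ inc x) {S : Set E} (hS : S ⊆ sp x) {W : Set V} (hW : ∀ e ∈ S, ∀ b, inc e b ∈ W) :
    S.ncard ≤ W.ncard := by
  classical
  have h1 := two_mul_ncard_eq inc S W.toFinset (fun e he b => by simpa using hW e he b)
  have h2 : ∑ v ∈ W.toFinset, {h : E × Bool | h.1 ∈ S ∧ inc h.1 h.2 = v}.ncard ≤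
      ∑ v ∈ W.toFinset, 2 := by
    refine Finset.sum_le_sum fun v _ => ?_
    refine le_trans (Set.ncard_le_ncard ?_ (Set.toFinite _)) (hc.deg v)
    rintro h ⟨h1, h2⟩
    exact ⟨hS h1, h2⟩
  rw [← h1, Finset.sum_const, smul_eq_mul] at h2
  rw [Set.ncard_eq_toFinset_card' W]
  omega

theorem Circ.verts [Fintype V] [Fintype E] {inc : E → Bool → V} {x : E → ZMod 2}
    (hc : Circ inc x) : (vs inc (sp x)).ncard = (sp x).ncard := by
  classical
  refine le_antisymm ?_ (hc.inter_le subset_rfl fun e he b => ⟨e, he, b, rfl⟩)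
  have h1 := two_mul_ncard_eq inc (sp x) (vs inc (sp x)).toFinset
    (fun e he b => by
      rw [Set.mem_toFinset]
      exact ⟨e, he, b, rfl⟩)
  have h2 : ∑ v ∈ (vs inc (sp x)).toFinset, 2 ≤
      ∑ v ∈ (vs inc (sp x)).toFinset, {h : E × Bool | h.1 ∈ sp x ∧ inc h.1 h.2 = v}.ncard := by
    refine Finset.sum_le_sum fun v hv => ?_
    rw [Set.mem_toFinset] at hv
    obtain ⟨e, he, b, hb⟩ := hv
    have h3 : Even (hal inc x v).ncard := even_hal hc.mem v
    have h4 : 0 < (hal inc x v).ncard := (Set.ncard_pos (Set.toFinite _)).2 ⟨(e, b), he, hb⟩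
    have h5 : {h : E × Bool | h.1 ∈ sp x ∧ inc h.1 h.2 = v} = hal inc x v := rfl
    rw [h5]
    obtain ⟨m, hm⟩ := h3
    omega
  rw [← h1, Finset.sum_const, smul_eq_mul] at h2
  rw [Set.ncard_eq_toFinset_card' (vs inc (sp x))]
  omega

/-! ### Classes modulo a subgraph -/

open Classical in
/-- projection away from `H` -/
noncomputable def pj (H : Set E) (x : E → ZMod 2) : E → ZMod 2 := fun e => if e ∈ H then 0 else x e

theorem pj_of_mem {H : Set E} {x : E → ZMod 2} {e : E} (h : e ∈ H) : pj H x e = 0 := by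
  simp [pj, h]

theorem pj_of_notMem {H : Set E} {x : E → ZMod 2} {e : E} (h : e ∉ H) : pj H x e = x e := by
  simp [pj, h]

theorem bad_pj [Fintype E] {inc : E → Bool → V} {H : Set E} {W : Set V}
    (hH : ∀ e ∈ H, ∀ b, inc e b ∈ W) {x y : E → ZMod 2} (hxy : pj H x = pj H y)
    (h : Bad inc H W x) : Bad inc H W y := by
  have key : ∀ e, e ∉ H → x e = y e := by
    intro e he
    have := congrFun hxy e
    rwa [pj_of_notMem he, pj_of_notMem he] at this
  rcases h with ⟨v, hv, h⟩ | ⟨z, hz, hz0, hzx, hin⟩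
  · left
    refine ⟨v, hv, ?_⟩
    have : {h : E × Bool | x h.1 ≠ 0 ∧ h.1 ∉ H ∧ inc h.1 h.2 = v} =
        {h : E × Bool | y h.1 ≠ 0 ∧ h.1 ∉ H ∧ inc h.1 h.2 = v} := by
      ext h
      simp only [Set.mem_ofPred_eq]
      constructor
      · rintro ⟨h1, h2, h3⟩
        exact ⟨by rwa [← key _ h2], h2, h3⟩
      · rintro ⟨h1, h2, h3⟩
        exact ⟨by rwa [key _ h2], h2, h3⟩
    rwa [this] at h
  · right
    refine ⟨z, hz, hz0, fun e he => ?_, hin⟩
    have h1 : e ∉ H := fun h2 => hin e he false (hH e h2 false)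
    rw [← key e h1]
    exact hzx e he

theorem fibre_ncard [Fintype E] (inc : E → Bool → V) (H : Set E) {x0 : E → ZMod 2}
    (h0 : x0 ∈ cyc inc) :
    {x | x ∈ cyc inc ∧ pj H x = pj H x0}.ncard = (cycOn inc H : Set (E → ZMod 2)).ncard := by
  refine Set.ncard_congr (fun x _ => x + x0) ?_ ?_ ?_
  · rintro x ⟨hx1, hx2⟩
    refine ⟨Submodule.add_mem _ hx1 h0, fun e he => ?_⟩
    have := congrFun hx2 e
    rw [pj_of_notMem he, pj_of_notMem he] at this
    rw [Pi.add_apply, this, zmod2_add_self]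
  · intro x y _ _ h
    exact add_right_cancel h
  · intro z hz
    refine ⟨z + x0, ⟨Submodule.add_mem _ hz.1 h0, ?_⟩, ?_⟩
    · funext e
      by_cases he : e ∈ H
      · rw [pj_of_mem he, pj_of_mem he]
      · rw [pj_of_notMem he, pj_of_notMem he, Pi.add_apply, hz.2 e he, zero_add]
    · funext e
      rw [Pi.add_apply, Pi.add_apply, add_assoc, zmod2_add_self, add_zero]

/-- lengths of circuits -/
def lens [Fintype E] (inc : E → Bool → V) : Set ℕ := {m | ∃ x, Circ inc x ∧ (sp x).ncard = m}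

/-- lengths of circuits in a class -/
def lensC [Fintype E] (inc : E → Bool → V) (H : Set E) (y : E → ZMod 2) : Set ℕ :=
  {m | ∃ x, Circ inc x ∧ pj H x = y ∧ (sp x).ncard = m}

theorem lensC_subset [Fintype V] [Fintype E] {inc : E → Bool → V} {H : Set E} {W : Set V}
    (hH : ∀ e ∈ H, ∀ b, inc e b ∈ W) (y : E → ZMod 2) :
    lensC inc H y ⊆ (fun i => (sp y).ncard + i) '' (Finset.range (W.ncard + 1) : Set ℕ) := by
  rintro m ⟨x, hx, hxy, rfl⟩
  refine ⟨(sp x ∩ H).ncard, ?_, ?_⟩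
  · rw [Finset.coe_range, Set.mem_Iio]
    have := hx.inter_le (S := sp x ∩ H) Set.inter_subset_left
      (W := W) (fun e he b => hH e he.2 b)
    omega
  · have h1 : sp y = sp x \ H := by
      ext e
      rw [← hxy]
      by_cases he : e ∈ H
      · simp [sp, pj_of_mem he, he]
      · simp [sp, pj_of_notMem he, he]
    have h2 := Set.ncard_inter_add_ncard_sdiff_eq_ncard (sp x) H (Set.toFinite _)
    simp only
    rw [h1]
    omega

theorem lensC_ncard_le [Fintype V] [Fintype E] {inc : E → Bool → V} {H : Set E} {W : Set V}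
    (hH : ∀ e ∈ H, ∀ b, inc e b ∈ W) (y : E → ZMod 2) : (lensC inc H y).ncard ≤ W.ncard + 1 := by
  refine le_trans (Set.ncard_le_ncard (lensC_subset hH y) (Set.toFinite _)) ?_
  refine le_trans (Set.ncard_image_le (Set.toFinite _)) ?_
  rw [Set.ncard_coe_finset, Finset.card_range]

theorem lensC_bad [Fintype V] [Fintype E] {inc : E → Bool → V} {H : Set E} {W : Set V}
    (hH : ∀ e ∈ H, ∀ b, inc e b ∈ W) {x0 : E → ZMod 2} (hbad : Bad inc H W x0) :
    (lensC inc H (pj H x0)).ncard ≤ 1 := by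
  rw [Set.ncard_le_one (Set.Finite.subset (Set.toFinite _) (lensC_subset hH _))]
  rintro m ⟨x, hx, hxy, rfl⟩ m' ⟨x', hx', hxy', rfl⟩
  have hb : CircIn inc Wᶜ x := by
    rcases bad_pj hH hxy.symm hbad with ⟨v, hv, h⟩ | h
    · exfalso
      have h1 : {h : E × Bool | x h.1 ≠ 0 ∧ h.1 ∉ H ∧ inc h.1 h.2 = v}.ncard ≤
          (hal inc x v).ncard := Set.ncard_le_ncard (fun h hh => ⟨hh.1, hh.2.2⟩) (Set.toFinite _)
      have := hx.deg v
      omega
    · exact h
  obtain ⟨z, hz, hz0, hzx, hin⟩ := hb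
  have key : ∀ x', Circ inc x' → pj H x' = pj H x → z = x' := by
    intro x' hx' hxy'
    refine hx'.min z hz hz0 fun e he => ?_
    have h1 : e ∉ H := fun h2 => hin e he false (hH e h2 false)
    have := congrFun hxy' e
    rw [pj_of_notMem h1, pj_of_notMem h1] at this
    rw [this]
    exact hzx e he
  rw [← key x hx rfl, ← key x' hx' (hxy'.trans hxy.symm)]

theorem card_saturated [Fintype E] (inc : E → Bool → V) (H : Set E) (P : (E → ZMod 2) → Prop)
    (hP : ∀ x y, pj H x = pj H y → P x → P y) :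
    {x | x ∈ cyc inc ∧ P x}.ncard =
      (pj H '' {x | x ∈ cyc inc ∧ P x}).ncard * (cycOn inc H : Set (E → ZMod 2)).ncard := by
  classical
  have h0 : {x | x ∈ cyc inc ∧ P x}.ncard = {x | x ∈ cyc inc ∧ P x}.toFinset.card :=
    Set.ncard_eq_toFinset_card' _
  have h0' : (pj H '' {x | x ∈ cyc inc ∧ P x}).ncard =
      ({x | x ∈ cyc inc ∧ P x}.toFinset.image (pj H)).card := by
    rw [← Set.ncard_coe_finset, Finset.coe_image, Set.coe_toFinset]
  rw [h0', h0, Finset.card_eq_sum_card_image (pj H)]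
  rw [Finset.sum_const_nat (m := (cycOn inc H : Set (E → ZMod 2)).ncard)]
  intro y hy
  obtain ⟨x0, hx0, rfl⟩ := Finset.mem_image.1 hy
  rw [Set.mem_toFinset] at hx0
  rw [← fibre_ncard inc H hx0.1, ← Set.ncard_coe_finset]
  congr 1
  ext x
  simp only [Finset.coe_filter, Set.mem_toFinset, Set.mem_ofPred_eq]
  constructor
  · rintro ⟨⟨h1, _⟩, h2⟩
    exact ⟨h1, h2⟩
  · rintro ⟨h1, h2⟩
    exact ⟨⟨h1, hP _ _ h2.symm hx0.2⟩, h2⟩

theorem ncard_pow [Fintype E] (S : Submodule (ZMod 2) (E → ZMod 2)) :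
    (S : Set (E → ZMod 2)).ncard = 2 ^ Module.finrank (ZMod 2) S := by
  classical
  have h := Module.card_eq_pow_finrank (K := ZMod 2) (V := S)
  rw [ZMod.card] at h
  rw [← h, ← Nat.card_eq_fintype_card]
  rfl

theorem lens_le [Fintype V] [Fintype E] (inc : E → Bool → V) (H : Set E) (W : Set V)
    (hH : ∀ e ∈ H, ∀ b, inc e b ∈ W) :
    (lens inc).ncard ≤
      (pj H '' {x | x ∈ cyc inc ∧ ¬ Bad inc H W x}).ncard * (W.ncard + 1) +
      (pj H '' {x | x ∈ cyc inc ∧ Bad inc H W x}).ncard := by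
  classical
  set Y1 := pj H '' {x | x ∈ cyc inc ∧ ¬ Bad inc H W x} with hY1
  set Y2 := pj H '' {x | x ∈ cyc inc ∧ Bad inc H W x} with hY2
  have hsub : lens inc ⊆ (⋃ y ∈ Y1.toFinset, lensC inc H y) ∪ ⋃ y ∈ Y2.toFinset,
      lensC inc H y := by
    rintro m ⟨x, hx, hm⟩
    by_cases hb : Bad inc H W x
    · right
      rw [Set.mem_iUnion₂]
      exact ⟨pj H x, by rw [Set.mem_toFinset]; exact ⟨x, ⟨hx.mem, hb⟩, rfl⟩, x, hx, rfl, hm⟩
    · left
      rw [Set.mem_iUnion₂]
      exact ⟨pj H x, by rw [Set.mem_toFinset]; exact ⟨x, ⟨hx.mem, hb⟩, rfl⟩, x, hx, rfl, hm⟩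
  have hfin : ∀ y, (lensC inc H y).Finite := fun y =>
    Set.Finite.subset (Set.toFinite _) (lensC_subset hH y)
  have hfin1 : (⋃ y ∈ Y1.toFinset, lensC inc H y).Finite :=
    Y1.toFinset.finite_toSet.biUnion fun y _ => hfin y
  have hfin2 : (⋃ y ∈ Y2.toFinset, lensC inc H y).Finite :=
    Y2.toFinset.finite_toSet.biUnion fun y _ => hfin y
  refine le_trans (Set.ncard_le_ncard hsub (hfin1.union hfin2)) ?_
  refine le_trans (Set.ncard_union_le _ _) ?_
  have hb : ∀ (Y : Finset (E → ZMod 2)) (c : ℕ), (∀ y ∈ Y, (lensC inc H y).ncard ≤ c) →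
      (⋃ y ∈ Y, lensC inc H y).ncard ≤ Y.card * c := by
    intro Y c hc
    induction Y using Finset.induction_on with
    | empty => simp
    | insert a s ha ih =>
      rw [Finset.set_biUnion_insert, Finset.card_insert_of_notMem ha]
      refine le_trans (Set.ncard_union_le _ _) ?_
      have h1 := hc a (Finset.mem_insert_self _ _)
      have h2 := ih fun y hy => hc y (Finset.mem_insert_of_mem hy)
      rw [add_mul, one_mul]
      omega
  have h1 := hb Y1.toFinset (W.ncard + 1) fun y _ => lensC_ncard_le hH y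
  have h2 := hb Y2.toFinset 1 (by
    intro y hy
    rw [Set.mem_toFinset] at hy
    obtain ⟨x0, hx0, rfl⟩ := hy
    exact lensC_bad hH hx0.2)
  rw [Set.ncard_eq_toFinset_card' Y1, Set.ncard_eq_toFinset_card' Y2]
  omega

theorem lens_count [Fintype V] [Fintype E] (inc : E → Bool → V) (H : Set E) (W : Set V)
    (hH : ∀ e ∈ H, ∀ b, inc e b ∈ W) :
    (lens inc).ncard * 2 ^ Module.finrank (ZMod 2) (cycOn inc H) ≤
      2 ^ Module.finrank (ZMod 2) (cyc inc) * (W.ncard + 1) := by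
  have h := lens_le inc H W hH
  have h1 := card_saturated inc H (fun x => ¬ Bad inc H W x)
    (fun x y hxy hb hb' => hb (bad_pj hH hxy.symm hb'))
  have h2 := card_saturated inc H (fun x => Bad inc H W x)
    (fun x y hxy hb => bad_pj hH hxy hb)
  have h3 : {x | x ∈ cyc inc ∧ Bad inc H W x}.ncard + {x | x ∈ cyc inc ∧ ¬ Bad inc H W x}.ncard =
      (cyc inc : Set (E → ZMod 2)).ncard := by
    rw [← Set.ncard_union_eq]
    · congr 1
      ext x
      simp only [Set.mem_union, Set.mem_ofPred_eq, SetLike.mem_coe]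
      tauto
    · rw [Set.disjoint_left]
      rintro x ⟨_, h1⟩ ⟨_, h2⟩
      exact h2 h1
  rw [← ncard_pow, ← ncard_pow, ← h3, h1, h2]
  set a := (cycOn inc H : Set (E → ZMod 2)).ncard
  set y1 := (pj H '' {x | x ∈ cyc inc ∧ ¬ Bad inc H W x}).ncard
  set y2 := (pj H '' {x | x ∈ cyc inc ∧ Bad inc H W x}).ncard
  calc (lens inc).ncard * a ≤ (y1 * (W.ncard + 1) + y2) * a := Nat.mul_le_mul_right _ h
    _ ≤ (y1 * (W.ncard + 1) + y2 * (W.ncard + 1)) * a := by
        refine Nat.mul_le_mul_right _ ?_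
        have : y2 * 1 ≤ y2 * (W.ncard + 1) := Nat.mul_le_mul_left _ (by omega)
        omega
    _ = (y2 * a + y1 * a) * (W.ncard + 1) := by ring

theorem lens_count_concl [Fintype V] [Fintype E] (inc : E → Bool → V) (H : Set E) (W : Set V)
    (hH : ∀ e ∈ H, ∀ b, inc e b ∈ W) (θ : ℝ) (hθ : Concl inc H W θ) :
    ((lens inc).ncard : ℝ) * 2 ^ Module.finrank (ZMod 2) (cycOn inc H) ≤
      2 ^ Module.finrank (ZMod 2) (cyc inc) * (θ * (W.ncard + 1) + 1) := by
  have h := lens_le inc H W hH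
  have h1 := card_saturated inc H (fun x => ¬ Bad inc H W x)
    (fun x y hxy hb hb' => hb (bad_pj hH hxy.symm hb'))
  have h2 := card_saturated inc H (fun x => Bad inc H W x)
    (fun x y hxy hb => bad_pj hH hxy hb)
  have h3 : {x | x ∈ cyc inc ∧ Bad inc H W x}.ncard ≤ (cyc inc : Set (E → ZMod 2)).ncard :=
    Set.ncard_le_ncard (fun x hx => hx.1) (Set.toFinite _)
  unfold Concl at hθ
  rw [h1] at hθ
  rw [h2] at h3
  have e1 : (2 : ℝ) ^ Module.finrank (ZMod 2) (cycOn inc H) =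
      ((cycOn inc H : Set (E → ZMod 2)).ncard : ℝ) := by
    rw [ncard_pow]; push_cast; rfl
  have e2 : (2 : ℝ) ^ Module.finrank (ZMod 2) (cyc inc) =
      ((cyc inc : Set (E → ZMod 2)).ncard : ℝ) := by
    rw [ncard_pow]; push_cast; rfl
  rw [e1, e2]
  generalize (cycOn inc H : Set (E → ZMod 2)).ncard = a at *
  generalize (cyc inc : Set (E → ZMod 2)).ncard = c at *
  generalize (pj H '' {x | x ∈ cyc inc ∧ ¬ Bad inc H W x}).ncard = y1 at *
  generalize (pj H '' {x | x ∈ cyc inc ∧ Bad inc H W x}).ncard = y2 at *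
  have h' : ((lens inc).ncard : ℝ) ≤ (y1 : ℝ) * (W.ncard + 1) + y2 := by exact_mod_cast h
  have h3' : (y2 : ℝ) * a ≤ c := by exact_mod_cast h3
  push_cast at hθ
  calc ((lens inc).ncard : ℝ) * a ≤ ((y1 : ℝ) * (W.ncard + 1) + y2) * a := by gcongr
    _ = (y1 * a) * (W.ncard + 1) + y2 * a := by ring
    _ ≤ (θ * c) * (W.ncard + 1) + c := by
        have := mul_le_mul_of_nonneg_right hθ (by positivity : (0 : ℝ) ≤ (W.ncard + 1))
        linarith
    _ = c * (θ * (W.ncard + 1) + 1) := by ring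

/-! ### Restriction to a set of edges -/

/-- restriction of a multigraph to a set of edges -/
def ri (inc : E → Bool → V) (S : Set E) : S → Bool → V := fun e b => inc e.1 b

/-- extension by zero -/
noncomputable def ex (S : Set E) : (S → ZMod 2) →ₗ[ZMod 2] (E → ZMod 2) :=
  Function.ExtendByZero.linearMap (ZMod 2) (Subtype.val : S → E)

theorem ex_mem {S : Set E} (z : S → ZMod 2) (e : S) : ex S z e.1 = z e := by
  simp [ex]

theorem ex_notMem {S : Set E} (z : S → ZMod 2) {e : E} (he : e ∉ S) : ex S z e = 0 := by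
  simp only [ex, Function.ExtendByZero.linearMap_apply]
  rw [Function.extend_apply']
  · rfl
  · rintro ⟨a, rfl⟩
    exact he a.2

theorem ex_injective (S : Set E) : Function.Injective (ex S) := by
  intro z z' h
  funext e
  rw [← ex_mem z e, h, ex_mem]

theorem ex_restrict {S : Set E} {x : E → ZMod 2} (hx : ∀ e, e ∉ S → x e = 0) :
    ex S (fun e => x e.1) = x := by
  funext e
  by_cases he : e ∈ S
  · exact ex_mem (fun e : S => x e.1) ⟨e, he⟩
  · rw [ex_notMem _ he, hx e he]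

theorem bd_ri [Fintype E] (inc : E → Bool → V) (S : Set E) [Fintype S] (z : S → ZMod 2) :
    bd (ri inc S) z = bd inc (ex S z) := by
  classical
  funext v
  change (∑ e : S, ∑ b : Bool, if inc e.1 b = v then z e else 0) =
    ∑ e, ∑ b : Bool, if inc e b = v then ex S z e else 0
  refine Fintype.sum_of_injective Subtype.val Subtype.val_injective _ _ ?_ ?_
  · intro e he
    have : e ∉ S := fun h => he ⟨⟨e, h⟩, rfl⟩
    simp [ex_notMem z this]
  · intro e
    simp [ex_mem]

theorem mem_cyc_ri [Fintype E] {inc : E → Bool → V} {S : Set E} [Fintype S] {z : S → ZMod 2} :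
    z ∈ cyc (ri inc S) ↔ ex S z ∈ cyc inc := by
  unfold cyc
  rw [LinearMap.mem_ker, LinearMap.mem_ker, bd_ri]

theorem finrank_ri [Fintype E] (inc : E → Bool → V) {S H : Set E} [Fintype S] (hHS : H ⊆ S) :
    Module.finrank (ZMod 2) (cycOn (ri inc S) {e | e.1 ∈ H}) =
      Module.finrank (ZMod 2) (cycOn inc H) := by
  have h : (cycOn (ri inc S) {e | e.1 ∈ H}).map (ex S) = cycOn inc H := by
    ext x
    rw [Submodule.mem_map]
    constructor
    · rintro ⟨z, hz, rfl⟩
      refine ⟨mem_cyc_ri.1 hz.1, fun e he => ?_⟩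
      by_cases heS : e ∈ S
      · have := hz.2 ⟨e, heS⟩ he
        rw [← this]
        exact ex_mem z ⟨e, heS⟩
      · exact ex_notMem z heS
    · rintro ⟨hx, hx0⟩
      have h1 := ex_restrict (S := S) (x := x) fun e he => hx0 e fun h => he (hHS h)
      refine ⟨fun e => x e.1, ⟨mem_cyc_ri.2 (by rw [h1]; exact hx), fun e he => hx0 e.1 he⟩, h1⟩
  rw [← h]
  exact (LinearEquiv.finrank_eq (Submodule.equivMapOfInjective (ex S) (ex_injective S) _))

theorem finrank_ri_cyc [Fintype E] (inc : E → Bool → V) (S : Set E) [Fintype S] :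
    Module.finrank (ZMod 2) (cyc (ri inc S)) = Module.finrank (ZMod 2) (cycOn inc S) := by
  rw [← finrank_ri inc (subset_refl S)]
  have : cyc (ri inc S) = cycOn (ri inc S) {e | e.1 ∈ S} := by
    ext x
    exact ⟨fun h => ⟨h, fun e he => absurd e.2 he⟩, fun h => h.1⟩
  rw [this]

theorem Circ.ri [Fintype E] {inc : E → Bool → V} {S : Set E} [Fintype S] {x : E → ZMod 2}
    (hc : Circ inc x) (hS : sp x ⊆ S) : Circ (ri inc S) (fun e => x e.1) := by
  have h0 : ∀ e, e ∉ S → x e = 0 := fun e he => by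
    by_contra h
    exact he (hS h)
  have h1 := ex_restrict (S := S) (x := x) h0
  refine ⟨mem_cyc_ri.2 (by rw [h1]; exact hc.mem), ?_, ?_, ?_⟩
  · intro h
    apply hc.ne
    rw [← h1, h, map_zero]
  · intro z hz hz0 hzx
    have h2 : ex S z = x := by
      refine hc.min _ (mem_cyc_ri.1 hz) ?_ ?_
      · intro h
        exact hz0 (ex_injective S (by rw [h, map_zero]))
      · intro e he
        by_cases heS : e ∈ S
        · exact hzx ⟨e, heS⟩ (by rwa [← ex_mem z ⟨e, heS⟩])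
        · exact absurd (ex_notMem z heS) he
    apply ex_injective S
    rw [h1, h2]
  · intro v
    refine le_trans ?_ (hc.deg v)
    refine Set.ncard_le_ncard_of_injOn (fun h : S × Bool => (h.1.1, h.2)) ?_ ?_ (Set.toFinite _)
    · rintro h ⟨h1, h2⟩
      exact ⟨h1, h2⟩
    · rintro ⟨h, b⟩ _ ⟨h', b'⟩ _ heq
      simp only [Prod.mk.injEq] at heq
      rw [Subtype.ext heq.1, heq.2]

theorem sp_ri [Fintype E] {S : Set E} {x : E → ZMod 2} (hS : sp x ⊆ S) :
    (sp fun e : S => x e.1).ncard = (sp x).ncard := by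
  have : sp x = Subtype.val '' (sp fun e : S => x e.1) := by
    ext e
    constructor
    · intro h
      exact ⟨⟨e, hS h⟩, h, rfl⟩
    · rintro ⟨e, h, rfl⟩
      exact h
  rw [this, Set.ncard_image_of_injective _ Subtype.val_injective]

/-! ### Simple graphs -/

section Simple

variable {n : ℕ} {G : SimpleGraph (Fin n)}

/-- incidence function of a simple graph -/
noncomputable def ginc (G : SimpleGraph (Fin n)) (e : G.edgeSet) (b : Bool) : Fin n :=
  if b then (Quot.out e.1).2 else (Quot.out e.1).1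

theorem ginc_eq (e : G.edgeSet) : s(ginc G e false, ginc G e true) = e.1 := by
  have h : Quot.mk _ (Quot.out e.1) = e.1 := Quot.out_eq e.1
  simp only [ginc]
  exact h

theorem ginc_eq' (e : G.edgeSet) (b : Bool) : s(ginc G e b, ginc G e (!b)) = e.1 := by
  cases b
  · exact ginc_eq e
  · rw [Sym2.eq_swap]
    exact ginc_eq e

theorem ginc_ne (e : G.edgeSet) (b : Bool) : ginc G e b ≠ ginc G e (!b) := by
  have h : e.1 ∈ G.edgeSet := e.2
  rw [← ginc_eq' e b, SimpleGraph.mem_edgeSet] at h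
  exact h.ne

theorem ginc_surj (e : G.edgeSet) {v : Fin n} (h : v ∈ e.1) : ∃ b, ginc G e b = v := by
  rw [← ginc_eq e, Sym2.mem_iff] at h
  rcases h with h | h
  · exact ⟨false, h.symm⟩
  · exact ⟨true, h.symm⟩

theorem ginc_mem (e : G.edgeSet) (b : Bool) : ginc G e b ∈ e.1 := by
  rw [← ginc_eq' e b]
  exact Sym2.mem_mk_left _ _

open Classical in
/-- edge vector of a walk -/
noncomputable def xp {u v : Fin n} (p : G.Walk u v) (e : G.edgeSet) : ZMod 2 :=
  if e.1 ∈ p.edges then 1 else 0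

theorem xp_ne {u v : Fin n} {p : G.Walk u v} {e : G.edgeSet} : xp p e ≠ 0 ↔ e.1 ∈ p.edges := by
  unfold xp
  split_ifs with h <;> simp [h]

theorem hal_xp {u : Fin n} {p : G.Walk u u} (hp : p.IsCycle) {v : Fin n} (hv : v ∈ p.support) :
    (hal (ginc G) (xp p) v).ncard = 2 := by
  rw [← hp.ncard_neighborSet_toSubgraph_eq_two hv]
  refine Set.ncard_congr (fun h _ => ginc G h.1 (!h.2)) ?_ ?_ ?_
  · rintro ⟨e, b⟩ ⟨h1, h2⟩
    simp only at h1 h2 ⊢
    rw [SimpleGraph.Subgraph.mem_neighborSet, SimpleGraph.Walk.adj_toSubgraph_iff_mem_edges,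
      ← h2, ginc_eq']
    exact xp_ne.1 h1
  · rintro ⟨e, b⟩ ⟨e', b'⟩ ⟨h1, h2⟩ ⟨h3, h4⟩ h5
    simp only at h1 h2 h3 h4 h5
    have h6 : e = e' := by
      apply Subtype.ext
      rw [← ginc_eq' e b, ← ginc_eq' e' b', h2, h4, h5]
    subst h6
    have h7 : b = b' := by
      by_contra hne
      have : b' = !b := by cases b <;> cases b' <;> simp_all
      rw [this] at h4
      exact ginc_ne e b (h2.trans h4.symm)
    rw [h7]
  · intro w hw
    rw [SimpleGraph.Subgraph.mem_neighborSet,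
      SimpleGraph.Walk.adj_toSubgraph_iff_mem_edges] at hw
    have hE : s(v, w) ∈ G.edgeSet := p.edges_subset_edgeSet hw
    obtain ⟨b, hb⟩ := ginc_surj ⟨s(v, w), hE⟩ (Sym2.mem_mk_left v w)
    refine ⟨(⟨s(v, w), hE⟩, b), ⟨xp_ne.2 hw, hb⟩, ?_⟩
    have h := ginc_eq' (⟨s(v, w), hE⟩ : G.edgeSet) b
    rw [hb] at h
    simp only at h ⊢
    exact (Sym2.congr_right).1 h

theorem hal_xp_empty {u : Fin n} {p : G.Walk u u} {v : Fin n} (hv : v ∉ p.support) :
    hal (ginc G) (xp p) v = ∅ := by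
  rw [Set.eq_empty_iff_forall_notMem]
  rintro ⟨e, b⟩ ⟨h1, h2⟩
  apply hv
  simp only at h1 h2
  have h3 := xp_ne.1 h1
  rw [← h2]
  have h4 : e.1 = s(ginc G e b, ginc G e (!b)) := (ginc_eq' e b).symm
  rw [h4] at h3
  exact p.fst_mem_support_of_mem_edges h3

theorem xp_mem [Fintype G.edgeSet] {u : Fin n} {p : G.Walk u u} (hp : p.IsCycle) :
    xp p ∈ cyc (ginc G) := by
  refine mem_cyc_of_even fun v => ?_
  by_cases hv : v ∈ p.support
  · rw [hal_xp hp hv]
    decide
  · rw [hal_xp_empty hv]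
    simp

/-- if a nonzero part of a circuit has an edge at `v`, it contains all edges at `v` -/
theorem full_of [Fintype G.edgeSet] {u : Fin n} {p : G.Walk u u} (hp : p.IsCycle)
    {z : G.edgeSet → ZMod 2} (hz : z ∈ cyc (ginc G)) (hzx : SubV z (xp p)) {v : Fin n}
    {e0 : G.edgeSet} (he0 : z e0 ≠ 0) (hv : v ∈ e0.1) {e : G.edgeSet} (he : e.1 ∈ p.edges)
    (hve : v ∈ e.1) : z e ≠ 0 := by
  have h0 : e0.1 ∈ p.edges := xp_ne.1 (hzx e0 he0)
  have hsup : v ∈ p.support := by
    by_contra h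
    obtain ⟨b, hb⟩ := ginc_surj e0 hv
    have : (e0, b) ∈ hal (ginc G) (xp p) v := ⟨hzx e0 he0, hb⟩
    rw [hal_xp_empty h] at this
    exact this
  have hsub : hal (ginc G) z v ⊆ hal (ginc G) (xp p) v := fun h hh => ⟨hzx _ hh.1, hh.2⟩
  have h2 : 2 ≤ (hal (ginc G) z v).ncard := by
    obtain ⟨b, hb⟩ := ginc_surj e0 hv
    have h3 : 0 < (hal (ginc G) z v).ncard :=
      (Set.ncard_pos (Set.toFinite _)).2 ⟨(e0, b), he0, hb⟩
    obtain ⟨m, hm⟩ := even_hal hz v
    omega
  have heq : hal (ginc G) z v = hal (ginc G) (xp p) v := by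
    refine Set.eq_of_subset_of_ncard_le hsub ?_ (Set.toFinite _)
    rw [hal_xp hp hsup]
    exact h2
  obtain ⟨b, hb⟩ := ginc_surj e hve
  have : (e, b) ∈ hal (ginc G) (xp p) v := ⟨xp_ne.2 he, hb⟩
  rw [← heq] at this
  exact this.1

theorem walk_full [Fintype G.edgeSet] {u : Fin n} {p : G.Walk u u} (hp : p.IsCycle)
    {z : G.edgeSet → ZMod 2} (hz : z ∈ cyc (ginc G)) (hzx : SubV z (xp p)) {a b : Fin n}
    (q : G.Walk a b) (hq : ∀ e ∈ q.edges, e ∈ p.edges)
    (ha : ∃ e0 : G.edgeSet, z e0 ≠ 0 ∧ a ∈ e0.1) (e : G.edgeSet) (he : e.1 ∈ q.edges) :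
    z e ≠ 0 := by
  induction q with
  | nil => simp at he
  | @cons a c b hac q ih =>
    obtain ⟨e0, he0, hae0⟩ := ha
    have h1 : ∀ hE : s(a, c) ∈ G.edgeSet, z ⟨s(a, c), hE⟩ ≠ 0 := fun hE =>
      full_of hp hz hzx he0 hae0 (hq _ (by simp)) (Sym2.mem_mk_left _ _)
    rw [SimpleGraph.Walk.edges_cons, List.mem_cons] at he
    rcases he with he | he
    · have h2 := h1 (he ▸ e.2)
      have h3 : e = ⟨s(a, c), he ▸ e.2⟩ := Subtype.ext he
      rw [h3]
      exact h2
    · refine ih (fun e he => hq e (by simp [he])) ?_ he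
      exact ⟨⟨s(a, c), hac⟩, h1 _, Sym2.mem_mk_right _ _⟩

theorem circ_xp [Fintype G.edgeSet] {u : Fin n} {p : G.Walk u u} (hp : p.IsCycle) :
    Circ (ginc G) (xp p) := by
  refine ⟨xp_mem hp, ?_, ?_, ?_⟩
  · intro h
    have hlen : 0 < p.edges.length := by
      rw [SimpleGraph.Walk.length_edges]
      have := hp.three_le_length
      omega
    obtain ⟨e, he⟩ := List.exists_mem_of_length_pos hlen
    have h1 : xp p ⟨e, p.edges_subset_edgeSet he⟩ ≠ 0 := xp_ne.2 he
    rw [h] at h1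
    exact h1 rfl
  · intro z hz hz0 hzx
    have h0 : ∃ e0, z e0 ≠ 0 := by
      by_contra h
      push Not at h
      exact hz0 (funext h)
    obtain ⟨e0, he0⟩ := h0
    have h1 : e0.1 ∈ p.edges := xp_ne.1 (hzx e0 he0)
    have h2 : ginc G e0 false ∈ p.support := by
      rw [← ginc_eq' e0 false] at h1
      exact p.fst_mem_support_of_mem_edges h1
    have h3 := p.rotate_edges _ h2
    have h4 : ∀ e, e ∈ (p.rotate _ h2).edges ↔ e ∈ p.edges := fun e => h3.mem_iff
    have h5 := walk_full hp hz hzx (p.rotate _ h2) (fun e he => (h4 e).1 he)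
      ⟨e0, he0, ginc_mem e0 false⟩
    funext e
    by_cases he : e.1 ∈ p.edges
    · have h6 := h5 e ((h4 e.1).2 he)
      rw [zmod2_ne_zero.1 h6, zmod2_ne_zero.1 (xp_ne.2 he)]
    · have h6 : xp p e = 0 := by
        by_contra h
        exact he (xp_ne.1 h)
      rw [h6]
      by_contra h
      exact he (xp_ne.1 (hzx e h))
  · intro v
    by_cases hv : v ∈ p.support
    · rw [hal_xp hp hv]
    · rw [hal_xp_empty hv]
      simp

theorem sp_xp {u : Fin n} {p : G.Walk u u} (hp : p.IsCycle) :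
    (sp (xp p)).ncard = p.length := by
  classical
  rw [← SimpleGraph.Walk.length_edges, ← List.toFinset_card_of_nodup hp.edges_nodup,
    ← Set.ncard_coe_finset, ← Set.ncard_image_of_injective _ Subtype.val_injective]
  congr 1
  ext e
  constructor
  · rintro ⟨e, he, rfl⟩
    simpa using xp_ne.1 he
  · intro he
    have h : e ∈ p.edges := by simpa using he
    exact ⟨⟨e, p.edges_subset_edgeSet h⟩, xp_ne.2 h, rfl⟩

theorem bd_single {V E : Type} [Fintype E] [DecidableEq E] [DecidableEq V] (inc : E → Bool → V)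
    (e : E) (v : V) : bd inc (Pi.single e 1) v =
      (if inc e false = v then 1 else 0) + (if inc e true = v then 1 else 0) := by
  have h1 : bd inc (Pi.single e 1) v =
      ∑ e' : E, ∑ b : Bool, if inc e' b = v then (Pi.single e 1 : E → ZMod 2) e' else 0 := by
    unfold bd
    simp only [LinearMap.coe_mk, AddHom.coe_mk]
    congr!
  rw [h1, Finset.sum_eq_single e]
  · rw [Fintype.sum_bool, Pi.single_eq_same, add_comm]
  · intro e' _ hne
    simp [hne]
  · simp

theorem edge_range [Fintype G.edgeSet] {a b : Fin n} (hab : G.Adj a b) :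
    (Pi.single a 1 + Pi.single b 1 : Fin n → ZMod 2) ∈ LinearMap.range (bd (ginc G)) := by
  classical
  have h2 := ginc_eq (⟨s(a, b), hab⟩ : G.edgeSet)
  refine ⟨Pi.single ⟨s(a, b), hab⟩ 1, ?_⟩
  funext v
  rw [bd_single]
  simp only [Pi.add_apply, Pi.single_apply, eq_comm (a := v)]
  rw [Sym2.eq_iff] at h2
  rcases h2 with ⟨h3, h4⟩ | ⟨h3, h4⟩
  · rw [h3, h4]
  · rw [h3, h4, add_comm]

theorem walk_range [Fintype G.edgeSet] {a b : Fin n} (q : G.Walk a b) :
    (Pi.single a 1 + Pi.single b 1 : Fin n → ZMod 2) ∈ LinearMap.range (bd (ginc G)) := by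
  induction q with
  | nil =>
    rw [← Pi.single_add, zmod2_add_self, Pi.single_zero]
    exact Submodule.zero_mem _
  | @cons a c b hac q ih =>
    have h3 := Submodule.add_mem _ (edge_range hac) ih
    have h4 : (Pi.single a 1 + Pi.single c 1 : Fin n → ZMod 2) +
        (Pi.single c 1 + Pi.single b 1) = Pi.single a 1 + Pi.single b 1 := by
      funext v
      simp only [Pi.add_apply]
      have := zmod2_add_self ((Pi.single c 1 : Fin n → ZMod 2) v)
      linear_combination this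
    rwa [h4] at h3

/-- upper bound for the dimension of the cycle space of a connected graph -/
theorem finrank_cyc_le [Fintype G.edgeSet] (hG : G.Connected) :
    Module.finrank (ZMod 2) (cyc (ginc G)) + n ≤ Nat.card G.edgeSet + 1 := by
  classical
  obtain ⟨u0⟩ := hG.nonempty
  have h1 := LinearMap.finrank_range_add_finrank_ker (bd (ginc G))
  rw [Module.finrank_fintype_fun_eq_card] at h1
  have h2 : (⊤ : Submodule (ZMod 2) (Fin n → ZMod 2)) ≤
      LinearMap.range (bd (ginc G)) ⊔ Submodule.span (ZMod 2) {Pi.single u0 1} := by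
    have hall : ∀ v : Fin n, (Pi.single v 1 : Fin n → ZMod 2) ∈
        LinearMap.range (bd (ginc G)) ⊔ Submodule.span (ZMod 2) {Pi.single u0 1} := by
      intro v
      obtain ⟨q⟩ := hG.preconnected v u0
      have h3 : (Pi.single v 1 : Fin n → ZMod 2) =
          (Pi.single v 1 + Pi.single u0 1) + Pi.single u0 1 := by
        funext w
        simp only [Pi.add_apply]
        have := zmod2_add_self ((Pi.single u0 1 : Fin n → ZMod 2) w)
        linear_combination -this
      rw [h3]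
      exact Submodule.add_mem _ (Submodule.mem_sup_left (walk_range q))
        (Submodule.mem_sup_right (Submodule.mem_span_singleton_self _))
    intro f _
    rw [← Finset.univ_sum_single f]
    refine Submodule.sum_mem _ fun v _ => ?_
    rcases zmod2_cases (f v) with h | h
    · rw [h, Pi.single_zero]
      exact Submodule.zero_mem _
    · rw [h]
      exact hall v
  have h3 := Submodule.finrank_mono h2
  rw [finrank_top, Module.finrank_fintype_fun_eq_card, Fintype.card_fin] at h3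
  have h4 := Submodule.finrank_add_le_finrank_add_finrank (LinearMap.range (bd (ginc G)))
    (Submodule.span (ZMod 2) {Pi.single u0 (1 : ZMod 2)})
  have h5 := finrank_span_le_card (R := ZMod 2) ({Pi.single u0 1} : Set (Fin n → ZMod 2))
  rw [Set.toFinset_singleton, Finset.card_singleton] at h5
  unfold cyc
  rw [Nat.card_eq_fintype_card]
  omega

end Simple

/-! ### The greedy chain -/

theorem exists_min_circ [Fintype E] (inc : E → Bool → V) (H : Set E) :
    ∃ D : E → ZMod 2, (∃ x, Circ inc x ∧ ¬ sp x ⊆ H) → Circ inc D ∧ ¬ sp D ⊆ H ∧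
      ∀ x, Circ inc x → ¬ sp x ⊆ H → (sp D).ncard ≤ (sp x).ncard := by
  classical
  by_cases h : ∃ x, Circ inc x ∧ ¬ sp x ⊆ H
  · have h' : ∃ m, ∃ x, Circ inc x ∧ ¬ sp x ⊆ H ∧ (sp x).ncard = m := by
      obtain ⟨x, h1, h2⟩ := h
      exact ⟨_, x, h1, h2, rfl⟩
    obtain ⟨D, h1, h2, h3⟩ := Nat.find_spec h'
    refine ⟨D, fun _ => ⟨h1, h2, fun x hx hxH => ?_⟩⟩
    rw [h3]
    exact Nat.find_min' h' ⟨x, hx, hxH, rfl⟩
  · exact ⟨0, fun h2 => absurd h2 h⟩

/-- the greedy chain of subgraphs -/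
noncomputable def Hs [Fintype E] (inc : E → Bool → V) : ℕ → Set E
  | 0 => ∅
  | k + 1 => Hs inc k ∪ sp (exists_min_circ inc (Hs inc k)).choose

theorem Hs_mono [Fintype E] (inc : E → Bool → V) {i k : ℕ} (h : i ≤ k) : Hs inc i ⊆ Hs inc k := by
  induction h with
  | refl => exact subset_rfl
  | step _ ih => exact ih.trans Set.subset_union_left

theorem cycOn_mono [Fintype E] (inc : E → Bool → V) {H H' : Set E} (h : H ⊆ H') :
    cycOn inc H ≤ cycOn inc H' :=
  fun _ hx => ⟨hx.1, fun e he => hx.2 e fun h' => he (h h')⟩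

theorem vs_mono (inc : E → Bool → V) {H H' : Set E} (h : H ⊆ H') : vs inc H ⊆ vs inc H' :=
  fun _ ⟨e, he, b, hb⟩ => ⟨e, h he, b, hb⟩

theorem lens_finite [Fintype E] (inc : E → Bool → V) : (lens inc).Finite := by
  refine (Set.finite_Iic (Nat.card E)).subset ?_
  rintro m ⟨x, _, rfl⟩
  rw [Set.mem_Iic, ← Set.ncard_univ]
  exact Set.ncard_le_ncard (Set.subset_univ _) (Set.toFinite _)

theorem chain_step [Fintype V] [Fintype E] (inc : E → Bool → V) (n : ℕ) (hn : Fintype.card V = n)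
    (hlen : ∀ m, 3 ≤ m → m ≤ n → ∃ x, Circ inc x ∧ (sp x).ncard = m) (k : ℕ)
    (hk : ∃ x, Circ inc x ∧ ¬ sp x ⊆ Hs inc k) [Fintype (Hs inc k)] :
    Module.finrank (ZMod 2) (cycOn inc (Hs inc k)) <
      Module.finrank (ZMod 2) (cycOn inc (Hs inc (k + 1))) ∧
    (vs inc (Hs inc (k + 1))).ncard ≤ 2 * (vs inc (Hs inc k)).ncard + 3 ∧
    (vs inc (Hs inc (k + 1))).ncard ≤
      (vs inc (Hs inc k)).ncard + (lens (ri inc (Hs inc k))).ncard + 3 := by
  obtain ⟨h1, h2, h3⟩ := (exists_min_circ inc (Hs inc k)).choose_spec hk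
  set D := (exists_min_circ inc (Hs inc k)).choose with hD
  have hH : Hs inc (k + 1) = Hs inc k ∪ sp D := rfl
  have hb : (sp D).ncard ≤ n := by
    rw [← h1.verts, ← hn, ← Nat.card_eq_fintype_card, ← Set.ncard_univ]
    exact Set.ncard_le_ncard (Set.subset_univ _) (Set.toFinite _)
  have hin : ∀ x, Circ inc x → (sp x).ncard < (sp D).ncard → sp x ⊆ Hs inc k := by
    intro x hx hlt
    by_contra h
    have := h3 x hx h
    omega
  have hv : (vs inc (Hs inc (k + 1))).ncard ≤ (vs inc (Hs inc k)).ncard + (sp D).ncard := by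
    rw [← h1.verts, hH]
    refine le_trans (Set.ncard_le_ncard ?_ (Set.toFinite _)) (Set.ncard_union_le _ _)
    rintro v ⟨e, he, b, hb⟩
    rcases he with he | he
    · exact Or.inl ⟨e, he, b, hb⟩
    · exact Or.inr ⟨e, he, b, hb⟩
  refine ⟨?_, ?_, ?_⟩
  · refine Submodule.finrank_lt_finrank_of_lt
      (lt_of_le_of_ne (cycOn_mono inc (Hs_mono inc (Nat.le_succ k))) ?_)
    intro heq
    have h4 : D ∈ cycOn inc (Hs inc (k + 1)) := by
      refine ⟨h1.mem, fun e he => ?_⟩
      by_contra h5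
      exact he (Or.inr h5)
    rw [← heq] at h4
    apply h2
    intro e he
    by_contra h5
    exact he (h4.2 e h5)
  · have : (sp D).ncard ≤ (vs inc (Hs inc k)).ncard + 3 := by
      by_cases h4 : (sp D).ncard ≤ 3
      · omega
      · obtain ⟨x, hx, hxl⟩ := hlen ((sp D).ncard - 1) (by omega) (by omega)
        have h5 := hin x hx (by omega)
        have h6 := Set.ncard_le_ncard (vs_mono inc h5) (Set.toFinite _)
        rw [hx.verts] at h6
        omega
    omega
  · have h4 : (Finset.Ico 3 (sp D).ncard : Set ℕ) ⊆ lens (ri inc (Hs inc k)) := by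
      intro m hm
      rw [Finset.coe_Ico, Set.mem_Ico] at hm
      obtain ⟨x, hx, hxl⟩ := hlen m hm.1 (by omega)
      have h5 := hin x hx (by omega)
      exact ⟨_, hx.ri h5, by rw [sp_ri h5, hxl]⟩
    have h5 := Set.ncard_le_ncard h4 (lens_finite _)
    rw [Set.ncard_coe_finset, Nat.card_Ico] at h5
    omega

theorem chain_le (w0 : ℕ) (hkey : ∀ (V E : Type) [Fintype V] [Fintype E] (inc : E → Bool → V)
    (H : Set E) (W : Set V), (∀ e ∈ H, ∀ b, inc e b ∈ W) → w0 ≤ W.ncard →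
    Module.finrank (ZMod 2) (cycOn inc H) + W.ncard ^ 3 ≤ Module.finrank (ZMod 2) (cyc inc) →
    Concl inc H W (1 / 2 + 1 / (Nat.log 2 (Nat.log 2 W.ncard) : ℝ)))
    [Fintype V] [Fintype E] (inc : E → Bool → V) (n : ℕ) (hn : Fintype.card V = n) (hn3 : 3 ≤ n)
    (hlen : ∀ m, 3 ≤ m → m ≤ n → ∃ x, Circ inc x ∧ (sp x).ncard = m) :
    ∃ (K : ℕ) (v ρ : ℕ → ℕ), v K = n ∧ v 0 ≤ 3 ∧ ρ K ≤ Module.finrank (ZMod 2) (cyc inc) ∧
    (∀ k < K, ρ k < ρ (k + 1)) ∧ (∀ k < K, v (k + 1) ≤ 2 * v k + 3) ∧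
    (∀ i k, i ≤ k → k < K → v (k + 1) ≤ v k + 2 ^ (ρ k - ρ i) * (v i + 1) + 3) ∧
    (∀ i k, i ≤ k → k < K → w0 ≤ v i → ρ i + v i ^ 3 ≤ ρ k →
      (v (k + 1) : ℝ) ≤ v k + 2 ^ (ρ k - ρ i) *
        ((1 / 2 + 1 / (Nat.log 2 (Nat.log 2 (v i)) : ℝ)) * (v i + 1) + 1) + 3) := by
  classical
  have : ∀ k, Fintype (Hs inc k) := fun k => Fintype.ofFinite _
  have hstep := chain_step inc n hn hlen
  -- the chain stops
  have hstop : ∃ k, ¬ ∃ x, Circ inc x ∧ ¬ sp x ⊆ Hs inc k := by
    by_contra hcon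
    push Not at hcon
    have hcon' : ∀ k, ∃ x, Circ inc x ∧ ¬ sp x ⊆ Hs inc k := hcon
    have h1 : ∀ k, k ≤ Module.finrank (ZMod 2) (cycOn inc (Hs inc k)) := by
      intro k
      induction k with
      | zero => exact Nat.zero_le _
      | succ k ih =>
        have := (hstep k (hcon' k)).1
        omega
    have h2 := h1 (Module.finrank (ZMod 2) (E → ZMod 2) + 1)
    have h3 := Submodule.finrank_le
      (cycOn inc (Hs inc (Module.finrank (ZMod 2) (E → ZMod 2) + 1)))
    omega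
  have hK := Nat.find_spec hstop
  have hKmin : ∀ k < Nat.find hstop, ∃ x, Circ inc x ∧ ¬ sp x ⊆ Hs inc k := fun k hk =>
    not_not.1 (Nat.find_min hstop hk)
  set K := Nat.find hstop with hKdef
  have hmono : ∀ i k, i ≤ k → Module.finrank (ZMod 2) (cycOn inc (Hs inc i)) ≤
      Module.finrank (ZMod 2) (cycOn inc (Hs inc k)) := fun i k h =>
    Submodule.finrank_mono (cycOn_mono inc (Hs_mono inc h))
  refine ⟨K, fun k => (vs inc (Hs inc k)).ncard,
    fun k => Module.finrank (ZMod 2) (cycOn inc (Hs inc k)), ?_, ?_, ?_, ?_, ?_, ?_, ?_⟩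
  · -- v K = n
    obtain ⟨x, hx, hxl⟩ := hlen n hn3 le_rfl
    have h1 : sp x ⊆ Hs inc K := by
      by_contra h
      exact hK ⟨x, hx, h⟩
    have h2 := Set.ncard_le_ncard (vs_mono inc h1) (Set.toFinite _)
    rw [hx.verts, hxl] at h2
    have h3 : (vs inc (Hs inc K)).ncard ≤ n := by
      rw [← hn, ← Nat.card_eq_fintype_card, ← Set.ncard_univ]
      exact Set.ncard_le_ncard (Set.subset_univ _) (Set.toFinite _)
    exact le_antisymm h3 h2
  · -- v 0 ≤ 3
    have : vs inc (Hs inc 0) = ∅ := by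
      rw [Set.eq_empty_iff_forall_notMem]
      rintro v ⟨e, he, _⟩
      exact he
    simp only [this, Set.ncard_empty]
    omega
  · exact Submodule.finrank_mono fun x hx => hx.1
  · intro k hk
    exact (hstep k (hKmin k hk)).1
  · intro k hk
    exact (hstep k (hKmin k hk)).2.1
  · intro i k hik hk
    have h1 := (hstep k (hKmin k hk)).2.2
    have h2 := lens_count (ri inc (Hs inc k)) {e | e.1 ∈ Hs inc i} (vs inc (Hs inc i))
      (fun e he b => ⟨e.1, he, b, rfl⟩)
    rw [finrank_ri inc (Hs_mono inc hik), finrank_ri_cyc] at h2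
    have h3 := hmono i k hik
    have h4 : (lens (ri inc (Hs inc k))).ncard ≤
        2 ^ (Module.finrank (ZMod 2) (cycOn inc (Hs inc k)) -
          Module.finrank (ZMod 2) (cycOn inc (Hs inc i))) * ((vs inc (Hs inc i)).ncard + 1) := by
      refine Nat.le_of_mul_le_mul_right (c := 2 ^ Module.finrank (ZMod 2) (cycOn inc (Hs inc i)))
        ?_ (by positivity)
      refine le_trans h2 (le_of_eq ?_)
      rw [mul_right_comm, ← pow_add, Nat.sub_add_cancel h3]
    simp only
    omega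
  · intro i k hik hk hw hρ
    have h1 := (hstep k (hKmin k hk)).2.2
    have h2 := lens_count_concl (ri inc (Hs inc k)) {e | e.1 ∈ Hs inc i} (vs inc (Hs inc i))
      (fun e he b => ⟨e.1, he, b, rfl⟩) _
      (hkey V (Hs inc k) (ri inc (Hs inc k)) {e | e.1 ∈ Hs inc i} (vs inc (Hs inc i))
        (fun e he b => ⟨e.1, he, b, rfl⟩) hw (by
          rw [finrank_ri inc (Hs_mono inc hik), finrank_ri_cyc]
          exact hρ))
    rw [finrank_ri inc (Hs_mono inc hik), finrank_ri_cyc] at h2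
    have h3 := hmono i k hik
    simp only at hρ ⊢
    have h4 : ((lens (ri inc (Hs inc k))).ncard : ℝ) ≤
        2 ^ (Module.finrank (ZMod 2) (cycOn inc (Hs inc k)) -
          Module.finrank (ZMod 2) (cycOn inc (Hs inc i))) *
          ((1 / 2 + 1 / (Nat.log 2 (Nat.log 2 (vs inc (Hs inc i)).ncard) : ℝ)) *
            (((vs inc (Hs inc i)).ncard : ℝ) + 1) + 1) := by
      refine le_of_mul_le_mul_right ?_
        (by positivity : (0 : ℝ) < 2 ^ Module.finrank (ZMod 2) (cycOn inc (Hs inc i)))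
      refine le_trans h2 (le_of_eq ?_)
      rw [mul_right_comm, ← pow_add, Nat.sub_add_cancel h3]
    have h1' : ((vs inc (Hs inc (k + 1))).ncard : ℝ) ≤
      (vs inc (Hs inc k)).ncard + (lens (ri inc (Hs inc k))).ncard + 3 := by exact_mod_cast h1
    linarith

theorem graph_part (w0 : ℕ) (hkey : ∀ (V E : Type) [Fintype V] [Fintype E] (inc : E → Bool → V)
    (H : Set E) (W : Set V), (∀ e ∈ H, ∀ b, inc e b ∈ W) → w0 ≤ W.ncard →
    Module.finrank (ZMod 2) (cycOn inc H) + W.ncard ^ 3 ≤ Module.finrank (ZMod 2) (cyc inc) →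
    Concl inc H W (1 / 2 + 1 / (Nat.log 2 (Nat.log 2 W.ncard) : ℝ)))
    (n : ℕ) (hn : 3 ≤ n) (G : SimpleGraph (Fin n))
    (hG : ∀ k : ℕ, 3 ≤ k → k ≤ n → ∃ v : Fin n, ∃ p : G.Walk v v, p.IsCycle ∧ p.length = k) :
    ∃ (K : ℕ) (v ρ : ℕ → ℕ), v K = n ∧ v 0 ≤ 3 ∧ (ρ K + n : ℕ) ≤ Nat.card G.edgeSet + 1 ∧
    (∀ k < K, ρ k < ρ (k + 1)) ∧ (∀ k < K, v (k + 1) ≤ 2 * v k + 3) ∧
    (∀ i k, i ≤ k → k < K → v (k + 1) ≤ v k + 2 ^ (ρ k - ρ i) * (v i + 1) + 3) ∧
    (∀ i k, i ≤ k → k < K → w0 ≤ v i → ρ i + v i ^ 3 ≤ ρ k →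
      (v (k + 1) : ℝ) ≤ v k + 2 ^ (ρ k - ρ i) *
        ((1 / 2 + 1 / (Nat.log 2 (Nat.log 2 (v i)) : ℝ)) * (v i + 1) + 1) + 3) := by
  classical
  have hconn : G.Connected := by
    obtain ⟨u, p, hp, hlen⟩ := hG n hn le_rfl
    have h1 : ∀ v, v ∈ p.support := by
      intro v
      have h2 : p.support.tail.Nodup := hp.support_nodup
      have h3 : p.support.tail.length = n := by
        rw [List.length_tail, SimpleGraph.Walk.length_support, hlen]
        rfl
      have h4 : p.support.tail.toFinset = Finset.univ := by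
        rw [← Finset.card_eq_iff_eq_univ, List.toFinset_card_of_nodup h2, h3, Fintype.card_fin]
      have h5 : v ∈ p.support.tail.toFinset := by rw [h4]; exact Finset.mem_univ v
      exact List.mem_of_mem_tail (List.mem_toFinset.1 h5)
    have : Nonempty (Fin n) := ⟨u⟩
    refine ⟨fun a b => ?_⟩
    exact (p.takeUntil _ (h1 a)).reachable.symm.trans (p.takeUntil _ (h1 b)).reachable
  obtain ⟨K, v, ρ, h1, h2, h3, h4⟩ := chain_le w0 hkey (ginc G) n (Fintype.card_fin n) hn
    (fun m hm hmn => by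
      obtain ⟨u, p, hp, hlen⟩ := hG m hm hmn
      exact ⟨xp p, circ_xp hp, by rw [sp_xp hp, hlen]⟩)
  refine ⟨K, v, ρ, h1, h2, ?_, h4⟩
  have h5 := finrank_cyc_le hconn
  omega

end Pool.Agent.Bondy
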