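import Pool.Agent.Bondy.Defs

/-! # Module MPL: many pairwise far pieces (MP_18526b_co)

A family of pairwise far connected pieces with small boundary, each of which contains a nonzero
even edge set: almost half of the cycle space contains a nonzero even set inside a piece.
-/

set_option autoImplicit false

namespace Pool.Agent.Bondy

open Set

namespace Mpl

variable {V E : Type}

/-! ### Cuts -/

theorem cut_dot [Fintype V] [Fintype E] (inc : E → Bool → V) (U : V → ZMod 2)
    (x : E → ZMod 2) : ∑ e, cutV inc U e * x e = ∑ v, U v * bd inc x v := by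
  classical
  have h1 : ∀ v, U v * bd inc x v = ∑ e, ∑ b : Bool, if inc e b = v then U v * x e else 0 := by
    intro v
    simp only [bd, LinearMap.coe_mk, AddHom.coe_mk, Finset.mul_sum]
    refine Finset.sum_congr rfl fun e _ => Finset.sum_congr rfl fun b _ => ?_
    split_ifs <;> simp
  simp only [h1]
  rw [Finset.sum_comm]
  refine Finset.sum_congr rfl fun e _ => ?_
  rw [Finset.sum_comm]
  simp only [Finset.sum_ite_eq, Finset.mem_univ, if_true, Fintype.univ_bool]
  rw [Finset.sum_pair (by decide)]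
  simp only [cutV]
  ring

theorem cut_dot_cyc [Fintype V] [Fintype E] (inc : E → Bool → V) (U : V → ZMod 2)
    {x : E → ZMod 2} (hx : x ∈ cyc inc) : ∑ e, cutV inc U e * x e = 0 := by
  rw [cut_dot]
  have : bd inc x = 0 := hx
  simp [this]

theorem cutV_add (inc : E → Bool → V) (U W : V → ZMod 2) (e : E) :
    cutV inc (fun v => U v + W v) e = cutV inc U e + cutV inc W e := by
  simp only [cutV]
  ring

/-- representation of functionals vanishing on a coordinate subspace of the cycle space -/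
theorem repr_functional [Fintype V] [Fintype E] (inc : E → Bool → V) (A : Set E)
    (f : (E → ZMod 2) →ₗ[ZMod 2] ZMod 2)
    (hf : ∀ x ∈ cyc inc, (∀ e ∈ A, x e = 0) → f x = 0) :
    ∃ (U : V → ZMod 2) (c : E → ZMod 2), (∀ e, e ∉ A → c e = 0) ∧
      ∀ x, f x = ∑ e, (cutV inc U e + c e) * x e := by
  classical
  let rest : (E → ZMod 2) →ₗ[ZMod 2] (E → ZMod 2) :=
    { toFun := fun x e => if e ∈ A then x e else 0
      map_add' := by
        intro x y; funext e
        by_cases h : e ∈ A <;> simp [h]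
      map_smul' := by
        intro c x; funext e
        by_cases h : e ∈ A <;> simp [h] }
  let L : (E → ZMod 2) →ₗ[ZMod 2] (V → ZMod 2) × (E → ZMod 2) := (bd inc).prod rest
  have hker : f ∈ (LinearMap.ker L).dualAnnihilator := by
    rw [Submodule.mem_dualAnnihilator]
    intro x hx
    have hx' : L x = 0 := hx
    have h1 : bd inc x = 0 := congrArg Prod.fst hx'
    have h2 : rest x = 0 := congrArg Prod.snd hx'
    refine hf x h1 fun e he => ?_
    have := congrFun h2 e
    simpa [rest, he] using this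
  rw [← LinearMap.range_dualMap_eq_dualAnnihilator_ker] at hker
  obtain ⟨g, hg⟩ := hker
  have hg' : ∀ x, f x = g (bd inc x, rest x) := by
    intro x
    rw [← hg]
    rfl
  let g1 : (V → ZMod 2) →ₗ[ZMod 2] ZMod 2 := g.comp (LinearMap.inl _ _ _)
  let g2 : (E → ZMod 2) →ₗ[ZMod 2] ZMod 2 := g.comp (LinearMap.inr _ _ _)
  refine ⟨fun v => g1 (fun j => if v = j then 1 else 0),
    fun e => if e ∈ A then g2 (fun j => if e = j then 1 else 0) else 0, ?_, ?_⟩
  · intro e he
    simp [he]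
  · intro x
    have h1 : f x = g1 (bd inc x) + g2 (rest x) := by
      rw [hg' x]
      have : ((bd inc x, rest x) : (V → ZMod 2) × (E → ZMod 2)) =
          LinearMap.inl (ZMod 2) _ _ (bd inc x) + LinearMap.inr (ZMod 2) _ _ (rest x) := by
        simp
      rw [this, map_add]
      rfl
    rw [h1, LinearMap.pi_apply_eq_sum_univ g1, LinearMap.pi_apply_eq_sum_univ g2]
    simp only [add_mul, Finset.sum_add_distrib]
    rw [cut_dot]
    congr 1
    · refine Finset.sum_congr rfl fun v _ => ?_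
      simp only [smul_eq_mul]
      ring
    · refine Finset.sum_congr rfl fun e _ => ?_
      simp only [smul_eq_mul, rest, LinearMap.coe_mk, AddHom.coe_mk]
      split_ifs
      · ring
      · simp

/-! ### Linked boundary vectors -/

/-- `S` is, outside the boundary of `Y`, a cut -/
def Lk (inc : E → Bool → V) (Y : Set V) (S : E → ZMod 2) : Prop :=
  ∃ U : V → ZMod 2, ∀ e, e ∉ cutE inc Y → cutV inc U e = S e

/-- `S` is a cut -/
def IsCut (inc : E → Bool → V) (S : E → ZMod 2) : Prop := ∃ U : V → ZMod 2, S = cutV inc U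

theorem mem_cutE_iff (inc : E → Bool → V) (X : Set V) (e : E) :
    e ∈ cutE inc X ↔ (inc e false ∈ X ∧ inc e true ∉ X) ∨ (inc e true ∈ X ∧ inc e false ∉ X) := by
  constructor
  · rintro ⟨b, h1, h2⟩
    cases b
    · exact Or.inl ⟨h1, h2⟩
    · exact Or.inr ⟨h1, h2⟩
  · rintro (⟨h1, h2⟩ | ⟨h1, h2⟩)
    · exact ⟨false, h1, h2⟩
    · exact ⟨true, h1, h2⟩

theorem far_cut {inc : E → Bool → V} {X Y : Set V} (h : Far inc X Y) {e : E}
    (he : e ∈ cutE inc X) : e ∉ cutE inc Y := by
  obtain ⟨b, h1, h2⟩ := he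
  rintro ⟨c, h3, h4⟩
  rcases Bool.eq_or_eq_not c b with rfl | rfl
  · exact Set.disjoint_left.mp h.1 h1 h3
  · exact h.2 e b h1 h3

theorem far_symm {inc : E → Bool → V} {X Y : Set V} (h : Far inc X Y) : Far inc Y X := by
  refine ⟨h.1.symm, fun e b h1 h2 => ?_⟩
  have := h.2 e (!b) h2
  simp at this
  exact this h1

theorem not_cut_of_inside {inc : E → Bool → V} {X Y : Set V} (h : Far inc X Y) {e : E}
    (h1 : inc e false ∈ X) (h2 : inc e true ∈ X) : e ∉ cutE inc Y := by
  rintro ⟨c, h3, _⟩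
  cases c
  · exact Set.disjoint_left.mp h.1 h1 h3
  · exact Set.disjoint_left.mp h.1 h2 h3

theorem not_cut_self {inc : E → Bool → V} {X : Set V} {e : E}
    (h1 : inc e false ∈ X) (h2 : inc e true ∈ X) : e ∉ cutE inc X := by
  rintro ⟨c, _, h4⟩
  cases c
  · exact h4 h2
  · exact h4 h1

/-- a vertex labelling with trivial coboundary inside a connected set is constant on it -/
theorem const_on {inc : E → Bool → V} {X : Set V} (hX : LConn inc X) (U : V → ZMod 2)
    (h : ∀ e, inc e false ∈ X → inc e true ∈ X → cutV inc U e = 0) :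
    ∃ c, ∀ v ∈ X, U v = c := by
  have h' := hX U (fun e h1 h2 => by
    have := h e h1 h2
    simp only [cutV] at this
    have h3 : ∀ a b : ZMod 2, a + b = 0 → a = b := by decide
    exact h3 _ _ this)
  by_cases hne : X.Nonempty
  · obtain ⟨u, hu⟩ := hne
    exact ⟨U u, fun v hv => h' v hv u hu⟩
  · exact ⟨0, fun v hv => absurd ⟨v, hv⟩ hne⟩

/-- normalised link -/
theorem normalise {inc : E → Bool → V} {X Y : Set V} (hXY : Far inc X Y) (hX : LConn inc X)
    (hY : LConn inc Y) {S : E → ZMod 2} (hS : ∀ e, e ∉ cutE inc X → S e = 0)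
    (h : Lk inc Y S) : ∃ U : V → ZMod 2, (∀ e, e ∉ cutE inc Y → cutV inc U e = S e) ∧
      (∀ v ∈ X, U v = 0) ∧ (∀ v ∈ Y, U v = 0) := by
  classical
  obtain ⟨U, hU⟩ := h
  obtain ⟨c, hc⟩ := const_on hX U (fun e h1 h2 => by
    rw [hU e (not_cut_of_inside hXY h1 h2), hS e (not_cut_self h1 h2)])
  obtain ⟨d, hd⟩ := const_on hY U (fun e h1 h2 => by
    rw [hU e (not_cut_self h1 h2), hS e (not_cut_of_inside (far_symm hXY) h1 h2)])
  refine ⟨fun v => U v + (c + if v ∈ Y then d + c else 0), ?_, ?_, ?_⟩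
  · intro e he
    have h0 : cutV inc (fun v => c + if v ∈ Y then d + c else 0) e = 0 := by
      have hiff : (inc e false ∈ Y ↔ inc e true ∈ Y) := by
        rw [mem_cutE_iff] at he
        tauto
      have h2 : ∀ a : ZMod 2, a + a = 0 := by decide
      simp only [cutV]
      by_cases h3 : inc e false ∈ Y
      · have h4 := hiff.mp h3
        simp only [h3, h4, if_true]
        exact h2 _
      · have h4 : inc e true ∉ Y := fun h => h3 (hiff.mpr h)
        simp only [h3, h4, if_false]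
        exact h2 _
    rw [cutV_add, h0, add_zero, hU e he]
  · intro v hv
    have hvY : v ∉ Y := fun h => Set.disjoint_left.mp hXY.1 hv h
    have h2 : ∀ a : ZMod 2, a + a = 0 := by decide
    simp only [hc v hv, hvY, if_false, add_zero, h2]
  · intro v hv
    have h2 : ∀ a b : ZMod 2, a + (b + (a + b)) = 0 := by decide
    simp only [hd v hv, hv, if_true, h2]

theorem isCut_of {inc : E → Bool → V} {X Y Z : Set V} (hXY : Far inc X Y) (hXZ : Far inc X Z)
    (hYZ : Far inc Y Z) {S : E → ZMod 2} (hS : ∀ e, e ∉ cutE inc X → S e = 0)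
    {U W : V → ZMod 2} (hU : ∀ e, e ∉ cutE inc Y → cutV inc U e = S e)
    (hW : ∀ e, e ∉ cutE inc Z → cutV inc W e = S e) (hUX : ∀ v ∈ X, U v = 0)
    (hWX : ∀ v ∈ X, W v = 0) {c : ZMod 2} (hUZ : ∀ v ∈ Z, U v = c) (hWY : ∀ v ∈ Y, W v = c) :
    IsCut inc S := by
  refine ⟨fun v => U v * W v + c * (U v + W v), ?_⟩
  funext e
  by_cases hX : e ∈ cutE inc X
  · have h1 := hU e (far_cut hXY hX)
    have h2 := hW e (far_cut hXZ hX)
    simp only [cutV] at h1 h2 ⊢
    rw [mem_cutE_iff] at hX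
    rcases hX with ⟨hX, _⟩ | ⟨hX, _⟩
    · rw [hUX _ hX] at h1 ⊢
      rw [hWX _ hX] at h2 ⊢
      generalize U (inc e true) = a at *
      generalize W (inc e true) = b at *
      generalize S e = s at *
      clear hUZ hWY
      revert a b s c
      decide
    · rw [hUX _ hX] at h1 ⊢
      rw [hWX _ hX] at h2 ⊢
      generalize U (inc e false) = a at *
      generalize W (inc e false) = b at *
      generalize S e = s at *
      clear hUZ hWY
      revert a b s c
      decide
  · have hS0 := hS e hX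
    by_cases hY : e ∈ cutE inc Y
    · have h2 := hW e (far_cut hYZ hY)
      rw [hS0] at h2 ⊢
      simp only [cutV] at h2 ⊢
      rw [mem_cutE_iff] at hY
      rcases hY with ⟨hY, _⟩ | ⟨hY, _⟩
      · rw [hWY _ hY] at h2 ⊢
        generalize U (inc e true) = a at *
        generalize U (inc e false) = a' at *
        generalize W (inc e true) = b at *
        clear hUZ hWY
        revert a a' b c
        decide
      · rw [hWY _ hY] at h2 ⊢
        generalize U (inc e true) = a at *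
        generalize U (inc e false) = a' at *
        generalize W (inc e false) = b at *
        clear hUZ hWY
        revert a a' b c
        decide
    · have h1 := hU e hY
      rw [hS0] at h1 ⊢
      by_cases hZ : e ∈ cutE inc Z
      · simp only [cutV] at h1 ⊢
        rw [mem_cutE_iff] at hZ
        rcases hZ with ⟨hZ, _⟩ | ⟨hZ, _⟩
        · rw [hUZ _ hZ] at h1 ⊢
          generalize W (inc e true) = a at *
          generalize W (inc e false) = a' at *
          generalize U (inc e true) = b at *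
          clear hUZ hWY
          revert a a' b c
          decide
        · rw [hUZ _ hZ] at h1 ⊢
          generalize W (inc e true) = a at *
          generalize W (inc e false) = a' at *
          generalize U (inc e false) = b at *
          clear hUZ hWY
          revert a a' b c
          decide
      · have h2 := hW e hZ
        rw [hS0] at h2
        simp only [cutV] at h1 h2 ⊢
        generalize U (inc e true) = a at *
        generalize U (inc e false) = a' at *
        generalize W (inc e true) = b at *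
        generalize W (inc e false) = b' at *
        clear hUZ hWY
        revert a a' b b' c
        decide

/-- TRIPLE LEMMA -/
theorem triple {inc : E → Bool → V} {X Y Z : Set V} (hXY : Far inc X Y) (hXZ : Far inc X Z)
    (hYZ : Far inc Y Z) (hX : LConn inc X) (hY : LConn inc Y) (hZ : LConn inc Z)
    {S T : E → ZMod 2} (hS : ∀ e, e ∉ cutE inc X → S e = 0)
    (hT : ∀ e, e ∉ cutE inc X → T e = 0) (hSY : Lk inc Y S) (hSZ : Lk inc Z S)
    (hTY : Lk inc Y T) (hTZ : Lk inc Z T) (h1 : ¬ IsCut inc S) (h2 : ¬ IsCut inc T)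
    (h3 : ¬ IsCut inc (fun e => S e + T e)) : False := by
  obtain ⟨U, hU, hUX, hUY⟩ := normalise hXY hX hY hS hSY
  obtain ⟨W, hW, hWX, hWZ⟩ := normalise hXZ hX hZ hS hSZ
  obtain ⟨U', hU', hUX', hUY'⟩ := normalise hXY hX hY hT hTY
  obtain ⟨W', hW', hWX', hWZ'⟩ := normalise hXZ hX hZ hT hTZ
  have cU := const_on hZ U (fun e h1 h2 => by
    rw [hU e (not_cut_of_inside (far_symm hYZ) h1 h2), hS e (not_cut_of_inside (far_symm hXZ) h1 h2)])
  have cW := const_on hY W (fun e h1 h2 => by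
    rw [hW e (not_cut_of_inside hYZ h1 h2), hS e (not_cut_of_inside (far_symm hXY) h1 h2)])
  have cU' := const_on hZ U' (fun e h1 h2 => by
    rw [hU' e (not_cut_of_inside (far_symm hYZ) h1 h2), hT e (not_cut_of_inside (far_symm hXZ) h1 h2)])
  have cW' := const_on hY W' (fun e h1 h2 => by
    rw [hW' e (not_cut_of_inside hYZ h1 h2), hT e (not_cut_of_inside (far_symm hXY) h1 h2)])
  obtain ⟨c, hc⟩ := cU
  obtain ⟨d, hd⟩ := cW
  obtain ⟨c', hc'⟩ := cU'
  obtain ⟨d', hd'⟩ := cW'
  have hcd : c ≠ d := by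
    rintro rfl
    exact h1 (isCut_of hXY hXZ hYZ hS hU hW hUX hWX hc hd)
  have hcd' : c' ≠ d' := by
    rintro rfl
    exact h2 (isCut_of hXY hXZ hYZ hT hU' hW' hUX' hWX' hc' hd')
  have hsum : c + c' = d + d' := by
    clear hc hd hc' hd'
    revert c c' d d'
    decide
  refine h3 (isCut_of (U := fun v => U v + U' v) (W := fun v => W v + W' v) (c := c + c')
    hXY hXZ hYZ ?_ ?_ ?_ ?_ ?_ ?_ ?_)
  · intro e he
    simp [hS e he, hT e he]
  · intro e he
    rw [cutV_add, hU e he, hU' e he]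
  · intro e he
    rw [cutV_add, hW e he, hW' e he]
  · intro v hv
    simp [hUX v hv, hUX' v hv]
  · intro v hv
    simp [hWX v hv, hWX' v hv]
  · intro v hv
    simp [hc v hv, hc' v hv]
  · intro v hv
    simp only [hd v hv, hd' v hv, hsum]

/-! ### Subspaces of the cycle space -/

/-- even edge vectors vanishing on `A` -/
def sub [Fintype E] (inc : E → Bool → V) (A : Set E) : Submodule (ZMod 2) (E → ZMod 2) where
  carrier := {x | x ∈ cyc inc ∧ ∀ e ∈ A, x e = 0}
  add_mem' := by
    rintro x y ⟨hx, hx'⟩ ⟨hy, hy'⟩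
    exact ⟨Submodule.add_mem _ hx hy, fun e he => by simp [hx' e he, hy' e he]⟩
  zero_mem' := ⟨Submodule.zero_mem _, fun _ _ => rfl⟩
  smul_mem' := by
    rintro c x ⟨hx, hx'⟩
    exact ⟨Submodule.smul_mem _ c hx, fun e he => by simp [hx' e he]⟩

theorem mem_sub [Fintype E] {inc : E → Bool → V} {A : Set E} {x : E → ZMod 2} :
    x ∈ sub inc A ↔ x ∈ cyc inc ∧ ∀ e ∈ A, x e = 0 := Iff.rfl

theorem sub_le [Fintype E] (inc : E → Bool → V) (A : Set E) : sub inc A ≤ cyc inc :=
  fun _ hx => hx.1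

theorem card_sub {M : Type} [AddCommGroup M] [Module (ZMod 2) M] [Module.Finite (ZMod 2) M]
    (A : Submodule (ZMod 2) M) : Nat.card A = 2 ^ Module.finrank (ZMod 2) A := by
  rw [Module.natCard_eq_pow_finrank (K := ZMod 2), Nat.card_zmod]

theorem finrank_le [Fintype E] (inc : E → Bool → V) (A : Set E) :
    Module.finrank (ZMod 2) (cyc inc) ≤ Module.finrank (ZMod 2) (sub inc A) + A.ncard := by
  classical
  let φ : (cyc inc) →ₗ[ZMod 2] (A → ZMod 2) :=
    { toFun := fun x e => x.1 e.1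
      map_add' := fun _ _ => rfl
      map_smul' := fun _ _ => rfl }
  have h1 := LinearMap.finrank_range_add_finrank_ker φ
  have h2 : Module.finrank (ZMod 2) (LinearMap.range φ) ≤ A.ncard := by
    refine (Submodule.finrank_le _).trans ?_
    rw [Module.finrank_pi, Set.ncard_eq_toFinset_card', Set.toFinset_card]
  have h3 : Module.finrank (ZMod 2) (LinearMap.ker φ) = Module.finrank (ZMod 2) (sub inc A) := by
    have : (LinearMap.ker φ).map (cyc inc).subtype = sub inc A := by
      ext x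
      constructor
      · rintro ⟨y, hy, rfl⟩
        refine ⟨y.2, fun e he => ?_⟩
        exact congrFun (show φ y = 0 from hy) ⟨e, he⟩
      · rintro ⟨hx, hx'⟩
        refine ⟨⟨x, hx⟩, ?_, rfl⟩
        change φ ⟨x, hx⟩ = 0
        funext e
        exact hx' e.1 e.2
    rw [← this, Submodule.finrank_map_subtype_eq]
  omega

theorem ncard_translate {M : Type} [AddCommGroup M] [Module (ZMod 2) M]
    (A : Submodule (ZMod 2) M) (z : M) : {x | x + z ∈ A}.ncard = Nat.card A := by
  rw [← Nat.card_coe_set_eq]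
  refine Nat.card_congr
    { toFun := fun x => ⟨x.1 + z, x.2⟩
      invFun := fun x => ⟨x.1 - z, ?_⟩
      left_inv := ?_
      right_inv := ?_ }
  · change x.1 - z + z ∈ A
    rw [sub_add_cancel]
    exact x.2
  · intro x
    simp
  · intro x
    simp

theorem exists_two {M : Type} [AddCommGroup M] [Module (ZMod 2) M] [Module.Finite (ZMod 2) M]
    (B C : Submodule (ZMod 2) M)
    (h : Module.finrank (ZMod 2) B + 2 ≤ Module.finrank (ZMod 2) C) :
    ∃ f g : M →ₗ[ZMod 2] ZMod 2, (∀ x ∈ B, f x = 0) ∧ (∀ x ∈ B, g x = 0) ∧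
      (∃ x ∈ C, f x ≠ 0) ∧ (∃ x ∈ C, g x ≠ 0) ∧ ∃ x ∈ C, f x + g x ≠ 0 := by
  have h1 : ∃ x ∈ C, x ∉ B := by
    by_contra hcon
    push Not at hcon
    have := Submodule.finrank_mono (show C ≤ B from hcon)
    omega
  obtain ⟨x, hxC, hxB⟩ := h1
  have h2 : ∃ y ∈ C, y ∉ B ⊔ Submodule.span (ZMod 2) {x} := by
    by_contra hcon
    push Not at hcon
    have h3 := Submodule.finrank_mono (show C ≤ B ⊔ Submodule.span (ZMod 2) {x} from hcon)
    have h4 := Submodule.finrank_add_le_finrank_add_finrank B (Submodule.span (ZMod 2) {x})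
    have h5 := finrank_span_le_card (R := ZMod 2) ({x} : Set M)
    simp at h5
    omega
  obtain ⟨y, hyC, hyB⟩ := h2
  obtain ⟨f, hf, hfB⟩ := Submodule.exists_le_ker_of_notMem hxB
  obtain ⟨g, hg, hgB⟩ := Submodule.exists_le_ker_of_notMem hyB
  have hgx : g x = 0 := hgB (Submodule.mem_sup_right (Submodule.mem_span_singleton_self x))
  refine ⟨f, g, fun b hb => hfB hb, fun b hb => hgB (Submodule.mem_sup_left hb),
    ⟨x, hxC, hf⟩, ⟨y, hyC, hg⟩, ⟨x, hxC, ?_⟩⟩
  rw [hgx, add_zero]
  exact hf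

/-- a piece with a marked even set and a marked edge -/
structure Piece [Fintype E] (inc : E → Bool → V) (X : Set V) (z : E → ZMod 2) (e0 : E) :
    Prop where
  hz : z ∈ cyc inc
  ins : Inside inc X z
  h1 : z e0 = 1

theorem Piece.vanish [Fintype E] {inc : E → Bool → V} {X : Set V} {z : E → ZMod 2} {e0 : E}
    (h : Piece inc X z e0) {e : E} (he : e ∈ cutE inc X) : z e = 0 := by
  by_contra hne
  obtain ⟨b, _, h2⟩ := he
  exact h2 (h.ins e hne _)

theorem Piece.vanish' [Fintype E] {inc : E → Bool → V} {X Y : Set V} {z z' : E → ZMod 2}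
    {e0 e1 : E} (h : Piece inc X z e0) (h' : Piece inc Y z' e1) (hXY : Far inc X Y) {e : E}
    (he : e ∈ insert e1 (cutE inc Y)) : z e = 0 := by
  by_contra hne
  have h3 := h.ins e hne
  rcases he with rfl | he
  · have h4 := h'.ins e (by rw [h'.h1]; decide)
    exact Set.disjoint_left.mp hXY.1 (h3 true) (h4 true)
  · exact not_cut_of_inside hXY (h3 false) (h3 true) he

theorem one_functional [Fintype V] [Fintype E] {inc : E → Bool → V} {X Y : Set V}
    {z z' : E → ZMod 2} {e0 e1 : E} (h : Piece inc X z e0) (h' : Piece inc Y z' e1)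
    (hXY : Far inc X Y) (f : (E → ZMod 2) →ₗ[ZMod 2] ZMod 2)
    (hf : ∀ x ∈ sub inc (insert e0 (cutE inc X)), f x = 0)
    (hf' : ∀ x ∈ sub inc (insert e1 (cutE inc Y)), f x = 0) :
    ∃ S : E → ZMod 2, (∀ e, e ∉ cutE inc X → S e = 0) ∧ Lk inc Y S ∧
      ∀ x ∈ cyc inc, f x = ∑ e, S e * x e := by
  classical
  obtain ⟨U, c, hc, hU⟩ := repr_functional inc (insert e0 (cutE inc X)) f
    (fun x hx hx' => hf x ⟨hx, hx'⟩)
  obtain ⟨U', c', hc', hU'⟩ := repr_functional inc (insert e1 (cutE inc Y)) f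
    (fun x hx hx' => hf' x ⟨hx, hx'⟩)
  have hfc : ∀ x ∈ cyc inc, f x = ∑ e, c e * x e := by
    intro x hx
    rw [hU x]
    simp only [add_mul, Finset.sum_add_distrib]
    rw [cut_dot_cyc inc U hx, zero_add]
  have hfc' : ∀ x ∈ cyc inc, f x = ∑ e, c' e * x e := by
    intro x hx
    rw [hU' x]
    simp only [add_mul, Finset.sum_add_distrib]
    rw [cut_dot_cyc inc U' hx, zero_add]
  have hce0 : c e0 = 0 := by
    have h1 : f z = 0 := hf' z ⟨h.hz, fun e he => h.vanish' h' hXY he⟩
    rw [hfc z h.hz, Finset.sum_eq_single e0] at h1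
    · rwa [h.h1, mul_one] at h1
    · intro e _ hne
      by_cases he : e ∈ cutE inc X
      · rw [h.vanish he, mul_zero]
      · rw [hc e (by
          intro hmem
          rcases hmem with h5 | h5
          · exact hne h5
          · exact he h5), zero_mul]
    · intro hno
      exact absurd (Finset.mem_univ _) hno
  have hce1 : c' e1 = 0 := by
    have h1 : f z' = 0 := hf z' ⟨h'.hz, fun e he => h'.vanish' h (far_symm hXY) he⟩
    rw [hfc' z' h'.hz, Finset.sum_eq_single e1] at h1
    · rwa [h'.h1, mul_one] at h1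
    · intro e _ hne
      by_cases he : e ∈ cutE inc Y
      · rw [h'.vanish he, mul_zero]
      · rw [hc' e (by
          intro hmem
          rcases hmem with h5 | h5
          · exact hne h5
          · exact he h5), zero_mul]
    · intro hno
      exact absurd (Finset.mem_univ _) hno
  have hc2 : ∀ e, e ∉ cutE inc X → c e = 0 := by
    intro e he
    by_cases h5 : e = e0
    · rw [h5]; exact hce0
    · exact hc e (fun hmem => by
        rcases hmem with h6 | h6
        · exact h5 h6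
        · exact he h6)
  have hc2' : ∀ e, e ∉ cutE inc Y → c' e = 0 := by
    intro e he
    by_cases h5 : e = e1
    · rw [h5]; exact hce1
    · exact hc' e (fun hmem => by
        rcases hmem with h6 | h6
        · exact h5 h6
        · exact he h6)
  refine ⟨c, hc2, ⟨fun v => U v + U' v, fun e he => ?_⟩, hfc⟩
  have key : cutV inc U e + c e = cutV inc U' e + c' e := by
    have h1 := hU (Pi.single e 1)
    have h2 := hU' (Pi.single e 1)
    rw [h1] at h2
    simp only [Pi.single_apply, mul_ite, mul_one, mul_zero, Finset.sum_ite_eq',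
      Finset.mem_univ, if_true] at h2
    exact h2
  rw [hc2' e he, add_zero] at key
  rw [cutV_add, ← key]
  generalize cutV inc U e = a
  generalize c e = b
  revert a b
  decide

theorem exists_pair [Fintype V] [Fintype E] {inc : E → Bool → V} {X Y : Set V}
    {z z' : E → ZMod 2} {e0 e1 : E} (h : Piece inc X z e0) (h' : Piece inc Y z' e1)
    (hXY : Far inc X Y)
    (hd : Module.finrank (ZMod 2) ↥(sub inc (insert e0 (cutE inc X)) ⊔
      sub inc (insert e1 (cutE inc Y))) + 2 ≤ Module.finrank (ZMod 2) (cyc inc)) :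
    ∃ S T : E → ZMod 2, (∀ e, e ∉ cutE inc X → S e = 0) ∧ (∀ e, e ∉ cutE inc X → T e = 0) ∧
      Lk inc Y S ∧ Lk inc Y T ∧ ¬ IsCut inc S ∧ ¬ IsCut inc T ∧
      ¬ IsCut inc (fun e => S e + T e) := by
  obtain ⟨f, g, hf, hg, ⟨x, hx, hfx⟩, ⟨y, hy, hgy⟩, w, hw, hfgw⟩ := exists_two _ _ hd
  obtain ⟨S, hS, hSL, hSf⟩ := one_functional h h' hXY f
    (fun x hx => hf x (Submodule.mem_sup_left hx)) (fun x hx => hf x (Submodule.mem_sup_right hx))
  obtain ⟨T, hT, hTL, hTg⟩ := one_functional h h' hXY g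
    (fun x hx => hg x (Submodule.mem_sup_left hx)) (fun x hx => hg x (Submodule.mem_sup_right hx))
  refine ⟨S, T, hS, hT, hSL, hTL, ?_, ?_, ?_⟩
  · rintro ⟨U, rfl⟩
    exact hfx (by rw [hSf x hx]; exact cut_dot_cyc inc U hx)
  · rintro ⟨U, rfl⟩
    exact hgy (by rw [hTg y hy]; exact cut_dot_cyc inc U hy)
  · rintro ⟨U, hU⟩
    refine hfgw ?_
    rw [hSf w hw, hTg w hw, ← Finset.sum_add_distrib]
    have : ∀ e, S e * w e + T e * w e = cutV inc U e * w e := by
      intro e
      rw [← congrFun hU e]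
      ring
    simp only [this]
    exact cut_dot_cyc inc U hw

/-! ### The second moment -/

/-- the numerical part of the second moment argument -/
theorem numeric (s : ℕ) {M N m Q u cc : ℝ} (hN : 0 < N) (hM : 0 < M)
    (hCS : m ^ 2 ≤ u * Q) (hQ : Q ≤ (1 + 4 ^ s) * m + 2 * m ^ 2 / N) (hu : 0 ≤ u)
    (hmlow : M * N ≤ 2 ^ (s + 1) * m) (hcompl : u + cc = N) :
    cc ≤ (1 / 2 + 2 ^ (3 * s + 2) / M) * N := by
  have hmpos : 0 < m := by
    have h1 : 0 < M * N := mul_pos hM hN
    have h2 : 0 < (2 : ℝ) ^ (s + 1) * m := lt_of_lt_of_le h1 hmlow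
    exact (pos_iff_pos_of_mul_pos h2).mp (pow_pos (by norm_num) _)
  have h4s : (1 : ℝ) ≤ 4 ^ s := one_le_pow₀ (by norm_num)
  obtain ⟨K, hK⟩ : ∃ K : ℝ, K = 2 ^ (3 * s + 2) := ⟨_, rfl⟩
  have h3 : K = 2 * 4 ^ s * 2 ^ (s + 1) := by
    rw [hK, show (4 : ℝ) = 2 ^ 2 by norm_num, ← pow_mul, ← pow_succ', ← pow_add]
    congr 1
    ring
  have hKpos : 0 < K := by rw [hK]; exact pow_pos (by norm_num) _
  rw [← hK]
  clear hK
  obtain ⟨q, hq⟩ : ∃ q : ℝ, q = 4 ^ s := ⟨_, rfl⟩
  obtain ⟨r, hr⟩ : ∃ r : ℝ, r = 2 ^ (s + 1) := ⟨_, rfl⟩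
  rw [← hq] at hQ h4s h3
  rw [← hr] at h3 hmlow
  have hrpos : 0 < r := by rw [hr]; exact pow_pos (by norm_num) _
  clear hq hr
  have hkey : N * m ≤ u * ((1 + q) * N + 2 * m) := by
    have h1 : m ^ 2 ≤ u * ((1 + q) * m + 2 * m ^ 2 / N) :=
      hCS.trans (mul_le_mul_of_nonneg_left hQ hu)
    have h2 : m * (N * m) ≤ m * (u * ((1 + q) * N + 2 * m)) := by
      have h3 := mul_le_mul_of_nonneg_left h1 hN.le
      have h4 : N * (u * ((1 + q) * m + 2 * m ^ 2 / N)) =
          m * (u * ((1 + q) * N + 2 * m)) := by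
        field_simp
      rw [h4] at h3
      linarith
    exact le_of_mul_le_mul_left h2 hmpos
  obtain ⟨D, hD⟩ : ∃ D : ℝ, D = (1 + q) * N + 2 * m := ⟨_, rfl⟩
  rw [← hD] at hkey
  have hqN : 0 < (1 + q) * N := mul_pos (by linarith) hN
  have hDpos : 0 < D := by rw [hD]; linarith
  have hKM : 0 < K / M := div_pos hKpos hM
  have hfin : (1 / 2 - K / M) * D ≤ m := by
    have h1 : (1 + q) * N ≤ 2 * (K / M) * D := by
      have h2 : 4 * q * N ≤ (K / M) * (2 * m) := by
        rw [div_mul_eq_mul_div, le_div_iff₀ hM, h3]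
        calc 4 * q * N * M = 4 * q * (M * N) := by ring
          _ ≤ 4 * q * (r * m) := mul_le_mul_of_nonneg_left hmlow (by linarith)
          _ = 2 * q * r * (2 * m) := by ring
      have h4 : (K / M) * (2 * m) ≤ (K / M) * D := by
        refine mul_le_mul_of_nonneg_left ?_ hKM.le
        rw [hD]
        linarith
      have h6 : N ≤ q * N := by nlinarith
      have h7 : 0 < q * N := by linarith
      have h8 : 0 < K / M * D := mul_pos hKM hDpos
      nlinarith
    have h2 : (1 / 2 - K / M) * D = (1 / 2) * ((1 + q) * N) + m - (K / M) * D := by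
      rw [hD]
      ring
    rw [h2]
    linarith
  have hUlow : (1 / 2 - K / M) * N ≤ u := by
    have h1 : (1 / 2 - K / M) * N * D ≤ u * D := by
      calc (1 / 2 - K / M) * N * D = N * ((1 / 2 - K / M) * D) := by ring
        _ ≤ N * m := mul_le_mul_of_nonneg_left hfin hN.le
        _ ≤ u * D := hkey
    exact le_of_mul_le_mul_right h1 hDpos
  have hexp : (1 / 2 + K / M) * N = N - (1 / 2 - K / M) * N := by ring
  rw [hexp]
  linarith

theorem first_moment {Ω ι : Type} [DecidableEq Ω] (C : Finset Ω) (I : Finset ι)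
    (Ev : ι → Finset Ω) (hEv : ∀ i ∈ I, Ev i ⊆ C) :
    ∑ x ∈ C.filter (fun x => ∃ i ∈ I, x ∈ Ev i), ((I.filter (fun i => x ∈ Ev i)).card : ℝ) =
      ∑ i ∈ I, ((Ev i).card : ℝ) := by
  have h1 : ∀ x, ((I.filter (fun i => x ∈ Ev i)).card : ℝ) =
      ∑ i ∈ I, if x ∈ Ev i then (1 : ℝ) else 0 := by
    intro x
    rw [Finset.sum_boole]
  simp only [h1]
  rw [Finset.sum_comm]
  refine Finset.sum_congr rfl fun i hi => ?_
  rw [Finset.sum_boole]
  congr 1
  congr 1
  ext x
  simp only [Finset.mem_filter]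
  exact ⟨fun h => h.2, fun h => ⟨⟨hEv i hi h, i, hi, h⟩, h⟩⟩

theorem snd_moment {Ω ι : Type} [DecidableEq Ω] (C : Finset Ω) (I : Finset ι)
    (Ev : ι → Finset Ω) (hEv : ∀ i ∈ I, Ev i ⊆ C) :
    ∑ x ∈ C.filter (fun x => ∃ i ∈ I, x ∈ Ev i),
        ((I.filter (fun i => x ∈ Ev i)).card : ℝ) ^ 2 =
      ∑ i ∈ I, ∑ j ∈ I, ((Ev i ∩ Ev j).card : ℝ) := by
  have h1 : ∀ x, ((I.filter (fun i => x ∈ Ev i)).card : ℝ) ^ 2 =
      ∑ i ∈ I, ∑ j ∈ I, if x ∈ Ev i ∩ Ev j then (1 : ℝ) else 0 := by
    intro x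
    have h2 : ((I.filter (fun i => x ∈ Ev i)).card : ℝ) =
      ∑ i ∈ I, if x ∈ Ev i then (1 : ℝ) else 0 := by rw [Finset.sum_boole]
    rw [h2, sq, Finset.sum_mul_sum]
    refine Finset.sum_congr rfl fun i _ => Finset.sum_congr rfl fun j _ => ?_
    by_cases h3 : x ∈ Ev i <;> by_cases h4 : x ∈ Ev j <;> simp [h3, h4]
  simp only [h1]
  rw [Finset.sum_comm]
  refine Finset.sum_congr rfl fun i hi => ?_
  rw [Finset.sum_comm]
  refine Finset.sum_congr rfl fun j hj => ?_
  rw [Finset.sum_boole]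
  congr 1
  congr 1
  ext x
  simp only [Finset.mem_filter, Finset.mem_inter]
  exact ⟨fun h => h.2, fun h => ⟨⟨hEv i hi h.1, i, hi, h.1⟩, h⟩⟩

theorem row_bound {Ω ι : Type} [DecidableEq Ω] [DecidableEq ι] (I : Finset ι)
    (Ev : ι → Finset Ω) (s : ℕ) {N : ℝ} (hN : 0 < N)
    (bad : ι → ι → Prop) [DecidableRel bad] {i : ι} (hi : i ∈ I)
    (hgood : ∀ j ∈ I, i ≠ j → ¬ bad i j →
      ((Ev i ∩ Ev j).card : ℝ) * N ≤ 2 * (((Ev i).card : ℝ) * ((Ev j).card : ℝ)))
    (hbad : (I.filter (fun j => i ≠ j ∧ bad i j)).card ≤ 4 ^ s) :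
    ∑ j ∈ I, ((Ev i ∩ Ev j).card : ℝ) ≤
      (1 + 4 ^ s) * ((Ev i).card : ℝ) + 2 * ((Ev i).card : ℝ) * (∑ j ∈ I, ((Ev j).card : ℝ)) / N := by
  have hterm : ∀ j ∈ I, ((Ev i ∩ Ev j).card : ℝ) ≤
      ((if i = j then ((Ev i).card : ℝ) else 0) +
        (if i ≠ j ∧ bad i j then ((Ev i).card : ℝ) else 0)) +
        2 * ((Ev i).card : ℝ) * ((Ev j).card : ℝ) / N := by
    intro j hj
    have hle : ((Ev i ∩ Ev j).card : ℝ) ≤ ((Ev i).card : ℝ) := by
      exact_mod_cast Finset.card_le_card Finset.inter_subset_left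
    have hnn : 0 ≤ 2 * ((Ev i).card : ℝ) * ((Ev j).card : ℝ) / N := by
      refine div_nonneg ?_ hN.le
      positivity
    by_cases hij : i = j
    · subst hij
      simp only [if_true, ne_eq, not_true_eq_false, false_and, if_false, add_zero]
      linarith
    · by_cases hb : bad i j
      · rw [if_neg hij, if_pos ⟨hij, hb⟩]
        linarith
      · rw [if_neg hij, if_neg (fun h => hb h.2), zero_add, zero_add, le_div_iff₀ hN]
        have := hgood j hj hij hb
        linarith
  refine (Finset.sum_le_sum hterm).trans ?_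
  rw [Finset.sum_add_distrib, Finset.sum_add_distrib, Finset.sum_ite_eq I i, if_pos hi,
    ← Finset.sum_filter, Finset.sum_const, nsmul_eq_mul]
  have h6 : (((I.filter (fun j => i ≠ j ∧ bad i j)).card : ℕ) : ℝ) ≤ 4 ^ s := by
    exact_mod_cast hbad
  have h7 : ∑ j ∈ I, 2 * ((Ev i).card : ℝ) * ((Ev j).card : ℝ) / N =
      2 * ((Ev i).card : ℝ) * (∑ j ∈ I, ((Ev j).card : ℝ)) / N := by
    rw [Finset.mul_sum, Finset.sum_div]
  rw [h7]
  have h8 : (((I.filter (fun j => i ≠ j ∧ bad i j)).card : ℕ) : ℝ) * ((Ev i).card : ℝ) ≤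
      4 ^ s * ((Ev i).card : ℝ) := mul_le_mul_of_nonneg_right h6 (Nat.cast_nonneg _)
  linarith

theorem abstract_count {Ω ι : Type} [DecidableEq Ω] [DecidableEq ι] (C : Finset Ω)
    (I : Finset ι) (hI : I.Nonempty) (Ev : ι → Finset Ω) (hEv : ∀ i ∈ I, Ev i ⊆ C) (s : ℕ)
    (hC : 0 < C.card) (hlow : ∀ i ∈ I, C.card ≤ 2 ^ (s + 1) * (Ev i).card)
    (bad : ι → ι → Prop) [DecidableRel bad]
    (hgood : ∀ i ∈ I, ∀ j ∈ I, i ≠ j → ¬ bad i j →
      (Ev i ∩ Ev j).card * C.card ≤ 2 * ((Ev i).card * (Ev j).card))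
    (hbad : ∀ i ∈ I, (I.filter (fun j => i ≠ j ∧ bad i j)).card ≤ 4 ^ s) :
    ((C.filter (fun x => ∀ i ∈ I, x ∉ Ev i)).card : ℝ) ≤
      (1 / 2 + 2 ^ (3 * s + 2) / (I.card : ℝ)) * (C.card : ℝ) := by
  have hNpos : 0 < (C.card : ℝ) := by exact_mod_cast hC
  have hMpos : 0 < (I.card : ℝ) := by exact_mod_cast hI.card_pos
  have hCS : (∑ i ∈ I, ((Ev i).card : ℝ)) ^ 2 ≤
      ((C.filter (fun x => ∃ i ∈ I, x ∈ Ev i)).card : ℝ) *
        ∑ i ∈ I, ∑ j ∈ I, ((Ev i ∩ Ev j).card : ℝ) := by
    rw [← first_moment C I Ev hEv, ← snd_moment C I Ev hEv]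
    exact sq_sum_le_card_mul_sum_sq
  have hQ : ∑ i ∈ I, ∑ j ∈ I, ((Ev i ∩ Ev j).card : ℝ) ≤
      (1 + 4 ^ s) * (∑ i ∈ I, ((Ev i).card : ℝ)) +
        2 * (∑ i ∈ I, ((Ev i).card : ℝ)) ^ 2 / (C.card : ℝ) := by
    refine (Finset.sum_le_sum fun i hi => row_bound I Ev s hNpos bad hi
      (fun j hj hij hb => ?_) (hbad i hi)).trans (le_of_eq ?_)
    · exact_mod_cast hgood i hi j hj hij hb
    · rw [Finset.sum_add_distrib, ← Finset.mul_sum]
      congr 1
      rw [← Finset.sum_div, ← Finset.sum_mul, ← Finset.mul_sum]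
      ring
  have hmlow : (I.card : ℝ) * (C.card : ℝ) ≤ 2 ^ (s + 1) * (∑ i ∈ I, ((Ev i).card : ℝ)) := by
    rw [Finset.mul_sum, ← nsmul_eq_mul, ← Finset.sum_const]
    refine Finset.sum_le_sum fun i hi => ?_
    exact_mod_cast hlow i hi
  refine numeric s hNpos hMpos hCS hQ (Nat.cast_nonneg _) hmlow ?_
  have : C.filter (fun x => ∀ i ∈ I, x ∉ Ev i) = C.filter (fun x => ¬ ∃ i ∈ I, x ∈ Ev i) := by
    refine Finset.filter_congr fun x _ => ?_
    push Not
    rfl
  rw [this]
  exact_mod_cast Finset.card_filter_add_card_filter_not (s := C) (fun x => ∃ i ∈ I, x ∈ Ev i)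

/-- the event attached to a piece -/
theorem circIn_of [Fintype V] [Fintype E] {inc : E → Bool → V} {X : Set V}
    {x : E → ZMod 2} (hx : x ∈ cyc inc) (hcut : ∀ e ∈ cutE inc X, x e = 0) {e0 : E}
    (h0 : ∀ b, inc e0 b ∈ X) (h1 : x e0 = 1) : CircIn inc X x := by
  classical
  refine ⟨fun e => if inc e false ∈ X ∧ inc e true ∈ X then x e else 0, ?_, ?_, ?_, ?_⟩
  · change bd inc _ = 0
    funext v
    have hbx : bd inc x v = 0 := congrFun (show bd inc x = 0 from hx) v
    by_cases hv : v ∈ X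
    · refine Eq.trans ?_ hbx
      simp only [bd, LinearMap.coe_mk, AddHom.coe_mk]
      clear hbx
      refine Finset.sum_congr rfl fun e _ => Finset.sum_congr rfl fun b _ => ?_
      by_cases hb : inc e b = v
      · simp only [hb, if_true]
        by_cases h2 : inc e false ∈ X ∧ inc e true ∈ X
        · rw [if_pos h2]
        · rw [if_neg h2]
          refine (hcut e ⟨b, by rw [hb]; exact hv, fun h3 => h2 ?_⟩).symm
          rw [← hb] at hv
          cases b
          · exact ⟨hv, h3⟩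
          · exact ⟨h3, hv⟩
      · simp only [hb, if_false]
    · simp only [bd, LinearMap.coe_mk, AddHom.coe_mk, Pi.zero_apply]
      refine Finset.sum_eq_zero fun e _ => Finset.sum_eq_zero fun b _ => ?_
      by_cases hb : inc e b = v
      · simp only [hb, if_true]
        rw [if_neg]
        rintro ⟨h2, h3⟩
        rw [← hb] at hv
        cases b
        · exact hv h2
        · exact hv h3
      · simp only [hb, if_false]
  · intro h
    have := congrFun h e0
    simp [h0 false, h0 true, h1] at this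
  · intro e he
    by_cases h2 : inc e false ∈ X ∧ inc e true ∈ X
    · simpa [h2] using he
    · simp [h2] at he
  · intro e he b
    by_cases h2 : inc e false ∈ X ∧ inc e true ∈ X
    · cases b
      · exact h2.1
      · exact h2.2
    · simp [h2] at he

theorem card_vectors [Fintype E] (A : Set E) :
    Nat.card (A → ZMod 2) = 2 ^ A.ncard := by
  classical
  rw [Nat.card_fun, Nat.card_zmod, Nat.card_coe_set_eq]

end Mpl

variable {V E : Type}

open Mpl in
theorem mpl [Fintype V] [Fintype E] (inc : E → Bool → V) (s : ℕ) (F : Set (Set V))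
    (hF : F.Nonempty) (hfar : ∀ X ∈ F, ∀ Y ∈ F, X ≠ Y → Far inc X Y)
    (hconn : ∀ X ∈ F, LConn inc X) (hcut : ∀ X ∈ F, (cutE inc X).ncard ≤ s)
    (hcyc : ∀ X ∈ F, ∃ z ∈ cyc inc, z ≠ 0 ∧ Inside inc X z) :
    ({x | x ∈ cyc inc ∧ ∀ X ∈ F, ¬ CircIn inc X x}.ncard : ℝ) ≤
      (1 / 2 + 2 ^ (3 * s + 2) / (F.ncard : ℝ)) * ((cyc inc : Set (E → ZMod 2)).ncard : ℝ) := by
  classical
  -- choose the marked sets
  have hpiece : ∀ X ∈ F, ∃ z e0, Piece inc X z e0 := by
    intro X hX
    obtain ⟨z, hz, hz0, hzi⟩ := hcyc X hX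
    obtain ⟨e, he⟩ : ∃ e, z e ≠ 0 := by
      by_contra hcon
      push Not at hcon
      exact hz0 (funext hcon)
    refine ⟨z, e, hz, hzi, ?_⟩
    have h2 : ∀ a : ZMod 2, a ≠ 0 → a = 1 := by decide
    exact h2 _ he
  have hE : Nonempty E := by
    obtain ⟨X, hX⟩ := hF
    obtain ⟨_, e, _⟩ := hpiece X hX
    exact ⟨e⟩
  choose! z e0 hP using hpiece
  have hFfin : F.Finite := Set.toFinite F
  let I : Finset (Set V) := hFfin.toFinset
  have hmemI : ∀ X, X ∈ I ↔ X ∈ F := fun X => hFfin.mem_toFinset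
  let C : Finset (E → ZMod 2) := Finset.univ.filter (fun x => x ∈ cyc inc)
  have hmemC : ∀ x, x ∈ C ↔ x ∈ cyc inc := fun x => by simp [C]
  let A : Set V → Submodule (ZMod 2) (E → ZMod 2) := fun X =>
    sub inc (insert (e0 X) (cutE inc X))
  let Ev : Set V → Finset (E → ZMod 2) := fun X =>
    Finset.univ.filter (fun x => x + z X ∈ A X)
  have hmemEv : ∀ X x, x ∈ Ev X ↔ x + z X ∈ A X := fun X x => by simp [Ev]
  have hCcard : C.card = Nat.card (cyc inc) := by
    rw [← Set.ncard_coe_finset, ← Nat.card_coe_set_eq]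
    congr 1
    simp [C]
  have hEvcard : ∀ X, (Ev X).card = Nat.card (A X) := by
    intro X
    rw [← ncard_translate (A X) (z X), ← Set.ncard_coe_finset]
    congr 1
    ext x
    simp [Ev]
  let bad : Set V → Set V → Prop := fun X Y =>
    Module.finrank (ZMod 2) ↥(A X ⊔ A Y) + 2 ≤ Module.finrank (ZMod 2) (cyc inc)
  have hEvC : ∀ X ∈ I, Ev X ⊆ C := by
    intro X hX x hx
    rw [hmemC]
    have h1 := (hmemEv X x).mp hx
    have h2 : x = (x + z X) + z X := by
      funext e
      have : ∀ a b : ZMod 2, a = (a + b) + b := by decide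
      exact this _ _
    rw [h2]
    exact Submodule.add_mem _ h1.1 (hP X ((hmemI X).mp hX)).hz
  have hCpos : 0 < C.card := Finset.card_pos.mpr ⟨0, (hmemC 0).mpr (Submodule.zero_mem _)⟩
  have hlow : ∀ X ∈ I, C.card ≤ 2 ^ (s + 1) * (Ev X).card := by
    intro X hX
    rw [hCcard, hEvcard, card_sub, card_sub, ← pow_add]
    refine Nat.pow_le_pow_right (by norm_num) ?_
    have h1 := finrank_le inc (insert (e0 X) (cutE inc X))
    have h2 := Set.ncard_insert_le (e0 X) (cutE inc X)
    have h3 := hcut X ((hmemI X).mp hX)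
    change _ ≤ s + 1 + Module.finrank (ZMod 2) (sub inc (insert (e0 X) (cutE inc X)))
    omega
  have hgood : ∀ X ∈ I, ∀ Y ∈ I, X ≠ Y → ¬ bad X Y →
      (Ev X ∩ Ev Y).card * C.card ≤ 2 * ((Ev X).card * (Ev Y).card) := by
    intro X hX Y hY hXY hb
    have hXF := (hmemI X).mp hX
    have hYF := (hmemI Y).mp hY
    have hXYf := hfar X hXF Y hYF hXY
    have h1 : (Ev X ∩ Ev Y).card = Nat.card ↥(A X ⊓ A Y) := by
      rw [← ncard_translate (A X ⊓ A Y) (z X + z Y), ← Set.ncard_coe_finset]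
      congr 1
      ext x
      have hzY : z Y ∈ A X := ⟨(hP Y hYF).hz,
        fun e he => (hP Y hYF).vanish' (hP X hXF) (far_symm hXYf) he⟩
      have hzX : z X ∈ A Y := ⟨(hP X hXF).hz,
        fun e he => (hP X hXF).vanish' (hP Y hYF) hXYf he⟩
      simp only [Finset.coe_inter, Set.mem_inter_iff, Finset.mem_coe, hmemEv, Set.mem_ofPred_eq,
        Submodule.mem_inf]
      have e1 : x + (z X + z Y) = (x + z X) + z Y := by ring
      have e2 : x + (z X + z Y) = (x + z Y) + z X := by ring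
      rw [← Submodule.add_mem_iff_left (A X) hzY, ← e1,
        ← Submodule.add_mem_iff_left (A Y) hzX, ← e2]
    rw [h1, hCcard, hEvcard, hEvcard, card_sub, card_sub, card_sub, card_sub, ← pow_add,
      ← pow_add, ← pow_succ']
    refine Nat.pow_le_pow_right (by norm_num) ?_
    have h2 := Submodule.finrank_sup_add_finrank_inf_eq (A X) (A Y)
    have h3 : ¬ (Module.finrank (ZMod 2) ↥(A X ⊔ A Y) + 2 ≤
      Module.finrank (ZMod 2) (cyc inc)) := hb
    omega
  have hbad : ∀ X ∈ I, (I.filter (fun Y => X ≠ Y ∧ bad X Y)).card ≤ 4 ^ s := by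
    intro X hX
    have hXF := (hmemI X).mp hX
    have hpair : ∀ Y ∈ I.filter (fun Y => X ≠ Y ∧ bad X Y), ∃ S T : E → ZMod 2,
        (∀ e, e ∉ cutE inc X → S e = 0) ∧ (∀ e, e ∉ cutE inc X → T e = 0) ∧
        Lk inc Y S ∧ Lk inc Y T ∧ ¬ IsCut inc S ∧ ¬ IsCut inc T ∧
        ¬ IsCut inc (fun e => S e + T e) := by
      intro Y hY
      rw [Finset.mem_filter] at hY
      have hYF := (hmemI Y).mp hY.1
      exact exists_pair (hP X hXF) (hP Y hYF) (hfar X hXF Y hYF hY.2.1) hY.2.2
    choose! S T hS hT hSL hTL hS0 hT0 hST using hpair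
    have hinj : Set.InjOn (fun Y => ((fun e : cutE inc X => S Y e.1,
        fun e : cutE inc X => T Y e.1) : (cutE inc X → ZMod 2) × (cutE inc X → ZMod 2)))
        (I.filter (fun Y => X ≠ Y ∧ bad X Y) : Set (Set V)) := by
      intro Y hY Z hZ hYZ
      by_contra hne
      simp only [Prod.mk.injEq] at hYZ
      have hSe : S Y = S Z := by
        funext e
        by_cases he : e ∈ cutE inc X
        · exact congrFun hYZ.1 ⟨e, he⟩
        · rw [hS Y hY e he, hS Z hZ e he]
      have hTe : T Y = T Z := by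
        funext e
        by_cases he : e ∈ cutE inc X
        · exact congrFun hYZ.2 ⟨e, he⟩
        · rw [hT Y hY e he, hT Z hZ e he]
      have hY' := Finset.mem_filter.mp hY
      have hZ' := Finset.mem_filter.mp hZ
      have hYF := (hmemI Y).mp hY'.1
      have hZF := (hmemI Z).mp hZ'.1
      exact triple (hfar X hXF Y hYF hY'.2.1) (hfar X hXF Z hZF hZ'.2.1)
        (hfar Y hYF Z hZF hne) (hconn X hXF) (hconn Y hYF) (hconn Z hZF)
        (hS Y hY) (hT Y hY) (hSL Y hY) (hSe ▸ hSL Z hZ) (hTL Y hY) (hTe ▸ hTL Z hZ)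
        (hS0 Y hY) (hT0 Y hY) (hST Y hY)
    have h1 := Finset.card_le_card_of_injOn _ (fun Y _ => Finset.mem_univ _) hinj
    refine h1.trans ?_
    rw [Finset.card_univ, ← Nat.card_eq_fintype_card, Nat.card_prod, card_vectors, ← pow_add,
      show (4 : ℕ) = 2 ^ 2 by norm_num, ← pow_mul]
    refine Nat.pow_le_pow_right (by norm_num) ?_
    have := hcut X hXF
    omega
  have hIne : I.Nonempty := by
    obtain ⟨X, hX⟩ := hF
    exact ⟨X, (hmemI X).mpr hX⟩
  have hmain := abstract_count C I hIne Ev hEvC s hCpos hlow bad hgood hbad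
  have hIc : (I.card : ℝ) = (F.ncard : ℝ) := by
    rw [Set.ncard_eq_toFinset_card F hFfin]
  have hCc : (C.card : ℝ) = ((cyc inc : Set (E → ZMod 2)).ncard : ℝ) := by
    rw [hCcard, ← Nat.card_coe_set_eq]
    rfl
  rw [hIc, hCc] at hmain
  refine le_trans ?_ hmain
  have hsub : {x | x ∈ cyc inc ∧ ∀ X ∈ F, ¬ CircIn inc X x} ⊆
      ((C.filter (fun x => ∀ i ∈ I, x ∉ Ev i) : Finset (E → ZMod 2)) : Set (E → ZMod 2)) := by
    rintro x ⟨hx, hx'⟩
    simp only [Finset.coe_filter, Set.mem_ofPred_eq, hmemC]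
    refine ⟨hx, fun X hX hEvX => ?_⟩
    have hXF := (hmemI X).mp hX
    have h1 := (hmemEv X x).mp hEvX
    have hp := hP X hXF
    have h2 : ∀ a : ZMod 2, a + 0 = 0 → a = 0 := by decide
    refine hx' X hXF (circIn_of (e0 := e0 X) hx (fun e he => ?_) (fun b => ?_) ?_)
    · have h3 := h1.2 e (Set.mem_insert_of_mem _ he)
      rw [Pi.add_apply, hp.vanish he] at h3
      exact h2 _ h3
    · exact hp.ins _ (by rw [hp.h1]; decide) b
    · have h3 := h1.2 (e0 X) (Set.mem_insert _ _)
      rw [Pi.add_apply, hp.h1] at h3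
      have h4 : ∀ a : ZMod 2, a + 1 = 0 → a = 1 := by decide
      exact h4 _ h3
  have h9 := Set.ncard_le_ncard hsub (Set.toFinite _)
  rw [Set.ncard_coe_finset] at h9
  refine Nat.cast_le.mpr (h9.trans (le_of_eq ?_))
  congr

end Pool.Agent.Bondy
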