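import Pool.Agent.Bondy.Defs

set_option autoImplicit false

namespace Pool.Agent.Bondy

open Set

variable {V E V' E' : Type}

open Classical in
lemma bd_darts [Fintype E] (inc : E → Bool → V) (x : E → ZMod 2) (v : V) :
    bd inc x v = ∑ h : E × Bool, if inc h.1 h.2 = v then x h.1 else 0 := by
  rw [Fintype.sum_prod_type]; rfl

lemma mem_cyc_iff [Fintype E] (inc : E → Bool → V) (x : E → ZMod 2) :
    x ∈ cyc inc ↔ ∀ v, bd inc x v = 0 := by
  unfold cyc
  rw [LinearMap.mem_ker]
  exact funext_iff

/-- a surgery which preserves the cycle space -/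
structure Step [Fintype E] [Fintype E'] (inc : E → Bool → V) (H : Set E) (W : Set V)
    (inc' : E' → Bool → V') (H' : Set E') (W' : Set V') where
  φ : (E → ZMod 2) →ₗ[ZMod 2] (E' → ZMod 2)
  ψ : (E' → ZMod 2) →ₗ[ZMod 2] (E → ZMod 2)
  h1 : ∀ x ∈ cyc inc, φ x ∈ cyc inc'
  h2 : ∀ y ∈ cyc inc', ψ y ∈ cyc inc
  h3 : ∀ x ∈ cyc inc, ψ (φ x) = x
  h4 : ∀ y ∈ cyc inc', φ (ψ y) = y
  h5 : ∀ y ∈ cyc inc', (∀ e, e ∉ H' → y e = 0) → ∀ e, e ∉ H → ψ y e = 0
  hbad : ∀ x ∈ cyc inc, Bad inc' H' W' (φ x) → Bad inc H W x

lemma Step.concl [Fintype E] [Fintype E'] {inc : E → Bool → V} {H : Set E} {W : Set V}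
    {inc' : E' → Bool → V'} {H' : Set E'} {W' : Set V'} (S : Step inc H W inc' H' W') {θ : ℝ}
    (hθ : 0 ≤ θ) (h : Concl inc' H' W' θ) : Concl inc H W θ := by
  unfold Concl at h ⊢
  have a1 : {x | x ∈ cyc inc ∧ ¬ Bad inc H W x}.ncard ≤
      {x | x ∈ cyc inc' ∧ ¬ Bad inc' H' W' x}.ncard := by
    apply Set.ncard_le_ncard_of_injOn S.φ
    · intro x hx
      exact ⟨S.h1 x hx.1, fun hb => hx.2 (S.hbad x hx.1 hb)⟩
    · intro x hx y hy hxy
      rw [← S.h3 x hx.1, ← S.h3 y hy.1, hxy]
  have a2 : (cyc inc' : Set (E' → ZMod 2)).ncard ≤ (cyc inc : Set (E → ZMod 2)).ncard := by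
    apply Set.ncard_le_ncard_of_injOn S.ψ
    · intro x hx
      exact S.h2 x hx
    · intro x hx y hy hxy
      rw [← S.h4 x hx, ← S.h4 y hy, hxy]
  have b1 : ({x | x ∈ cyc inc ∧ ¬ Bad inc H W x}.ncard : ℝ) ≤
      ({x | x ∈ cyc inc' ∧ ¬ Bad inc' H' W' x}.ncard : ℝ) := by exact_mod_cast a1
  have b2 : ((cyc inc' : Set (E' → ZMod 2)).ncard : ℝ) ≤ ((cyc inc : Set (E → ZMod 2)).ncard : ℝ) :=
    by exact_mod_cast a2
  exact b1.trans (h.trans (mul_le_mul_of_nonneg_left b2 hθ))

lemma finrank_le_of_map [Fintype E] [Fintype E'] (S : Submodule (ZMod 2) (E → ZMod 2))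
    (T : Submodule (ZMod 2) (E' → ZMod 2)) (f : (E → ZMod 2) →ₗ[ZMod 2] (E' → ZMod 2))
    (hf : ∀ x ∈ S, f x ∈ T) (hi : ∀ x ∈ S, f x = 0 → x = 0) :
    Module.finrank (ZMod 2) S ≤ Module.finrank (ZMod 2) T := by
  apply LinearMap.finrank_le_finrank_of_injective (f := f.restrict hf)
  rw [injective_iff_map_eq_zero]
  intro a ha
  apply Subtype.ext
  apply hi a.1 a.2
  have := congrArg Subtype.val ha
  simpa using this

lemma Step.rank [Fintype E] [Fintype E'] {inc : E → Bool → V} {H : Set E} {W : Set V}
    {inc' : E' → Bool → V'} {H' : Set E'} {W' : Set V'} (S : Step inc H W inc' H' W') {k : ℕ}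
    (h : Module.finrank (ZMod 2) (cycOn inc H) + k ≤ Module.finrank (ZMod 2) (cyc inc)) :
    Module.finrank (ZMod 2) (cycOn inc' H') + k ≤ Module.finrank (ZMod 2) (cyc inc') := by
  have a1 : Module.finrank (ZMod 2) (cycOn inc' H') ≤ Module.finrank (ZMod 2) (cycOn inc H) := by
    apply finrank_le_of_map _ _ S.ψ
    · intro y hy
      exact ⟨S.h2 y hy.1, S.h5 y hy.1 hy.2⟩
    · intro y hy h0
      rw [← S.h4 y hy.1, h0, map_zero]
  have a2 : Module.finrank (ZMod 2) (cyc inc) ≤ Module.finrank (ZMod 2) (cyc inc') := by
    apply finrank_le_of_map _ _ S.φ S.h1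
    intro x hx h0
    rw [← S.h3 x hx, h0, map_zero]
  omega

/-- restriction to a subtype -/
def resL (p : E → Prop) : (E → ZMod 2) →ₗ[ZMod 2] ({e // p e} → ZMod 2) :=
  LinearMap.funLeft (ZMod 2) (ZMod 2) Subtype.val

open Classical in
/-- extension to the missing edge `e` by the value at `f`, or by zero -/
noncomputable def extL (e : E) (f : Option {g // g ≠ e}) :
    ({g // g ≠ e} → ZMod 2) →ₗ[ZMod 2] (E → ZMod 2) :=
  LinearMap.pi fun g => if h : g ≠ e then LinearMap.proj ⟨g, h⟩ else
    match f with
    | none => 0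
    | some f => LinearMap.proj f

lemma extL_ne (e : E) (f : Option {g // g ≠ e}) (y : {g // g ≠ e} → ZMod 2) (g : {g // g ≠ e}) :
    extL e f y g.1 = y g := by
  simp [extL, g.2]

lemma extL_none (e : E) (y : {g // g ≠ e} → ZMod 2) : extL e none y e = 0 := by
  simp [extL]

lemma extL_some (e : E) (f : {g // g ≠ e}) (y : {g // g ≠ e} → ZMod 2) :
    extL e (some f) y e = y f := by
  simp [extL]

lemma sum_darts_split [Fintype E] (e : E) [Fintype {g // g ≠ e}] (F : E × Bool → ZMod 2) :
    ∑ h : E × Bool, F h = (F (e, true) + F (e, false)) +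
      ∑ h : {g // g ≠ e} × Bool, F (h.1.1, h.2) := by
  classical
  rw [Fintype.sum_prod_type, Fintype.sum_prod_type, Fintype.sum_eq_add_sum_subtype_ne _ e]
  congr 1
  · simp
  · refine Finset.sum_congr ?_ fun _ _ => rfl
    ext; simp

/-- degrees are finite cardinalities; an injection of darts bounds them -/
lemma deg_le_of_map [Fintype E] [Fintype E'] {inc : E → Bool → V} {inc' : E' → Bool → V'}
    {v : V} {v' : V'} (m : E' × Bool → E × Bool)
    (hm : ∀ h, inc' h.1 h.2 = v' → inc (m h).1 (m h).2 = v)
    (hi : ∀ h h', inc' h.1 h.2 = v' → inc' h'.1 h'.2 = v' → m h = m h' → h = h') :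
    deg inc' v' ≤ deg inc v := by
  unfold deg
  apply Set.ncard_le_ncard_of_injOn m
  · intro h hh; exact hm h hh
  · intro h hh h' hh' e; exact hi h h' hh hh' e

lemma bad_of_map [Fintype E] [Fintype E'] {inc : E → Bool → V} {H : Set E} {W : Set V}
    {inc' : E' → Bool → V'} {H' : Set E'} {W' : Set V'} {x : E → ZMod 2} {x' : E' → ZMod 2}
    (m : E' × Bool → E × Bool) (ι : V' → V) (hW : ∀ v ∈ W', ι v ∈ W)
    (hm : ∀ h, inc' h.1 h.2 ∈ W' → x' h.1 ≠ 0 → h.1 ∉ H' →
      inc (m h).1 (m h).2 = ι (inc' h.1 h.2) ∧ x (m h).1 ≠ 0 ∧ (m h).1 ∉ H)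
    (hi : ∀ h h', inc' h.1 h.2 ∈ W' → inc' h'.1 h'.2 ∈ W' → m h = m h' → h = h')
    (hc : CircIn inc' W'ᶜ x' → CircIn inc Wᶜ x) (hb : Bad inc' H' W' x') : Bad inc H W x := by
  rcases hb with ⟨v, hv, h3⟩ | hb
  · left
    refine ⟨ι v, hW v hv, h3.trans ?_⟩
    apply Set.ncard_le_ncard_of_injOn m
    · rintro h ⟨ha, hb, hc⟩
      obtain ⟨b1, b2, b3⟩ := hm h (by rw [hc]; exact hv) ha hb
      exact ⟨b2, b3, by rw [b1, hc]⟩
    · rintro h ⟨_, _, ha⟩ h' ⟨_, _, ha'⟩ e
      exact hi h h' (by rw [ha]; exact hv) (by rw [ha']; exact hv) e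
  · exact Or.inr (hc hb)

open Classical in
/-- the measure of the induction -/
noncomputable def meas [Fintype V] (inc : E → Bool → V) (W : Set V) : ℕ :=
  Nat.card E + 2 * ∑ v : V, if v ∈ W then 0 else (deg inc v - 3)

lemma meas_lt_of_deg [Fintype V] [Fintype E] [Fintype E'] {inc : E → Bool → V}
    {inc' : E' → Bool → V} (W : Set V) (hE : Nat.card E' < Nat.card E)
    (hd : ∀ v, deg inc' v ≤ deg inc v) : meas inc' W < meas inc W := by
  classical
  unfold meas
  have : (∑ v : V, if v ∈ W then 0 else (deg inc' v - 3)) ≤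
      ∑ v : V, if v ∈ W then 0 else (deg inc v - 3) := by
    apply Finset.sum_le_sum
    intro v _
    have := hd v
    split_ifs <;> omega
  omega

/-! ### Surgery 1: a dead edge -/

section dead

variable [Fintype E] (inc : E → Bool → V) (H : Set E) (W : Set V) (e0 : E)
  [Fintype {g // g ≠ e0}]

lemma bd_dead (y : {g // g ≠ e0} → ZMod 2) :
    bd inc (extL e0 none y) = bd (fun g : {g // g ≠ e0} => inc g.1) y := by
  classical
  funext v
  rw [bd_darts, bd_darts, sum_darts_split e0]
  simp only [extL_none, extL_ne, ite_self, add_zero, zero_add]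

omit [Fintype E] [Fintype {g // g ≠ e0}] in
lemma res_ext_dead (x : E → ZMod 2) (hx : x e0 = 0) : extL e0 none (resL (· ≠ e0) x) = x := by
  funext g
  by_cases h : g = e0
  · subst h; rw [extL_none, hx]
  · exact extL_ne e0 none _ ⟨g, h⟩

omit [Fintype E] [Fintype {g // g ≠ e0}] in
lemma ext_res (f : Option {g // g ≠ e0}) (y : {g // g ≠ e0} → ZMod 2) :
    resL (· ≠ e0) (extL e0 f y) = y := by
  funext g
  exact extL_ne e0 f y g

lemma cyc_ext_dead (y : {g // g ≠ e0} → ZMod 2) :
    extL e0 none y ∈ cyc inc ↔ y ∈ cyc (fun g : {g // g ≠ e0} => inc g.1) := by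
  rw [mem_cyc_iff, mem_cyc_iff, bd_dead]

/-- the surgery -/
noncomputable def stepDead (hdead : ∀ x ∈ cyc inc, x e0 = 0) :
    Step inc H W (fun g : {g // g ≠ e0} => inc g.1) {g | g.1 ∈ H} W where
  φ := resL (· ≠ e0)
  ψ := extL e0 none
  h1 := by
    intro x hx
    rw [← cyc_ext_dead, res_ext_dead e0 x (hdead x hx)]
    exact hx
  h2 := by
    intro y hy
    rw [cyc_ext_dead]; exact hy
  h3 := fun x hx => res_ext_dead e0 x (hdead x hx)
  h4 := fun y _ => ext_res e0 none y
  h5 := by
    intro y _ hy g hg
    by_cases h : g = e0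
    · subst h; exact extL_none _ _
    · rw [show g = (⟨g, h⟩ : {g // g ≠ e0}).1 from rfl, extL_ne]
      exact hy _ hg
  hbad := by
    intro x hx
    apply bad_of_map (fun h => (h.1.1, h.2)) id (fun v hv => hv)
    · intro h hv hx' hH
      exact ⟨rfl, hx', hH⟩
    · rintro ⟨⟨g, hg⟩, b⟩ ⟨⟨g', hg'⟩, b'⟩ _ _ h
      simp only [Prod.mk.injEq, Subtype.mk.injEq] at h ⊢
      exact h
    · rintro ⟨z, hz, hz0, hsub, hins⟩
      refine ⟨extL e0 none z, (cyc_ext_dead inc e0 z).mpr hz, ?_, ?_, ?_⟩
      · intro h0
        apply hz0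
        rw [← ext_res e0 none z, h0, map_zero]
      · intro g hg
        by_cases h : g = e0
        · subst h; exact absurd (extL_none _ _) hg
        · rw [show g = (⟨g, h⟩ : {g // g ≠ e0}).1 from rfl, extL_ne] at hg
          exact hsub _ hg
      · intro g hg b
        by_cases h : g = e0
        · subst h; exact absurd (extL_none _ _) hg
        · rw [show g = (⟨g, h⟩ : {g // g ≠ e0}).1 from rfl, extL_ne] at hg
          exact hins _ hg b

lemma meas_dead [Fintype V] : meas (fun g : {g // g ≠ e0} => inc g.1) W < meas inc W := by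
  apply meas_lt_of_deg
  · exact Finite.card_subtype_lt (x := e0) (by simp)
  · intro v
    apply deg_le_of_map (fun h => (h.1.1, h.2))
    · intro h hh; exact hh
    · rintro ⟨⟨g, hg⟩, b⟩ ⟨⟨g', hg'⟩, b'⟩ _ _ h
      simp only [Prod.mk.injEq, Subtype.mk.injEq] at h ⊢
      exact h

end dead

/-! ### Surgery 2: a vertex of degree two outside `W` -/

section contr

variable [Fintype E] (inc : E → Bool → V) (H : Set E) (W : Set V) (e : E) (b : Bool)
  (f : {g // g ≠ e}) (c : Bool) [Fintype {g // g ≠ e}]

open Classical in
/-- the contracted graph -/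
noncomputable def incC : {g // g ≠ e} → Bool → V :=
  fun g β => if (g, β) = (f, c) then inc e (!b) else inc g.1 β

open Classical in
/-- the map of darts -/
noncomputable def mapC : {g // g ≠ e} × Bool → E × Bool :=
  fun h => if h = (f, c) then (e, !b) else (h.1.1, h.2)

omit [Fintype E] [Fintype {g // g ≠ e}] in
lemma mapC_inc (h : {g // g ≠ e} × Bool) :
    inc (mapC e b f c h).1 (mapC e b f c h).2 = incC inc e b f c h.1 h.2 := by
  classical
  unfold mapC incC
  split_ifs <;> rfl

omit [Fintype E] [Fintype {g // g ≠ e}] in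
lemma mapC_inj : Function.Injective (mapC e b f c) := by
  classical
  rintro ⟨⟨g, hg⟩, β⟩ ⟨⟨g', hg'⟩, β'⟩ h
  unfold mapC at h
  split_ifs at h with h1 h2 h2
  · rw [h1, h2]
  · simp only [Prod.mk.injEq] at h
    exact absurd h.1.symm hg'
  · simp only [Prod.mk.injEq] at h
    exact absurd h.1 hg
  · simp only [Prod.mk.injEq, Subtype.mk.injEq] at h ⊢
    exact h

lemma bd_contr (he : inc e b = inc f.1 c) (y : {g // g ≠ e} → ZMod 2) :
    bd inc (extL e (some f) y) = bd (incC inc e b f c) y := by
  classical
  funext v
  rw [bd_darts, bd_darts, sum_darts_split e]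
  simp only [extL_some, extL_ne]
  have key : ∀ h : {g // g ≠ e} × Bool, (if inc h.1.1 h.2 = v then y h.1 else 0) =
      (if incC inc e b f c h.1 h.2 = v then y h.1 else 0) +
      (if h = (f, c) then ((if inc e b = v then y f else 0) +
        (if inc e (!b) = v then y f else 0)) else 0) := by
    intro h
    by_cases hh : h = (f, c)
    · subst hh
      simp only [incC, if_true, he]
      rw [add_comm (if inc f.1 c = v then y f else 0), ← add_assoc, CharTwo.add_self_eq_zero,
        zero_add]
    · rw [if_neg hh, add_zero]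
      unfold incC
      rw [if_neg hh]
  rw [Finset.sum_congr rfl fun h _ => key h, Finset.sum_add_distrib, Finset.sum_ite_eq']
  simp only [Finset.mem_univ, if_true]
  have e1 : (if inc e b = v then y f else 0) + (if inc e (!b) = v then y f else 0) =
      (if inc e true = v then y f else 0) + (if inc e false = v then y f else 0) := by
    cases b
    · rw [add_comm]; rfl
    · rfl
  rw [e1, add_comm, add_assoc, CharTwo.add_self_eq_zero, add_zero]

omit [Fintype {g // g ≠ e}] in
lemma cyc_eq_contr (he : inc e b = inc f.1 c)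
    (hv : ∀ h : E × Bool, inc h.1 h.2 = inc e b → h = (e, b) ∨ h = (f.1, c))
    (x : E → ZMod 2) (hx : x ∈ cyc inc) : x e = x f.1 := by
  classical
  have h0 := (mem_cyc_iff inc x).mp hx (inc e b)
  rw [bd_darts] at h0
  have hne : (e, b) ≠ (f.1, c) := fun h => f.2 (congrArg Prod.fst h).symm
  have key : ∀ h : E × Bool, (if inc h.1 h.2 = inc e b then x h.1 else 0) =
      (if h = (e, b) then x e else 0) + (if h = (f.1, c) then x f.1 else 0) := by
    intro h
    by_cases hh : h = (e, b)
    · subst hh
      rw [if_pos rfl, if_pos rfl, if_neg hne, add_zero]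
    · by_cases hh' : h = (f.1, c)
      · subst hh'
        rw [if_pos he.symm, if_neg hh, if_pos rfl, zero_add]
      · rw [if_neg hh, if_neg hh', add_zero, if_neg]
        intro h1
        rcases hv h h1 with h2 | h2
        · exact hh h2
        · exact hh' h2
  rw [Finset.sum_congr rfl fun h _ => key h, Finset.sum_add_distrib, Finset.sum_ite_eq',
    Finset.sum_ite_eq'] at h0
  simp only [Finset.mem_univ, if_true] at h0
  exact CharTwo.add_eq_zero.mp h0

omit [Fintype {g // g ≠ e}] in
lemma res_ext_contr (he : inc e b = inc f.1 c)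
    (hv : ∀ h : E × Bool, inc h.1 h.2 = inc e b → h = (e, b) ∨ h = (f.1, c))
    (x : E → ZMod 2) (hx : x ∈ cyc inc) : extL e (some f) (resL (· ≠ e) x) = x := by
  funext g
  by_cases h : g = e
  · subst h
    rw [extL_some]
    exact (cyc_eq_contr inc g b f c he hv x hx).symm
  · exact extL_ne e (some f) _ ⟨g, h⟩

lemma cyc_ext_contr (he : inc e b = inc f.1 c) (y : {g // g ≠ e} → ZMod 2) :
    extL e (some f) y ∈ cyc inc ↔ y ∈ cyc (incC inc e b f c) := by
  rw [mem_cyc_iff, mem_cyc_iff, bd_contr inc e b f c he]

/-- the surgery -/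
noncomputable def stepContr (hH : ∀ e ∈ H, ∀ b, inc e b ∈ W) (hW : inc e b ∉ W)
    (he : inc e b = inc f.1 c)
    (hv : ∀ h : E × Bool, inc h.1 h.2 = inc e b → h = (e, b) ∨ h = (f.1, c)) :
    Step inc H W (incC inc e b f c) {g | g.1 ∈ H} W where
  φ := resL (· ≠ e)
  ψ := extL e (some f)
  h1 := by
    intro x hx
    rw [← cyc_ext_contr inc e b f c he, res_ext_contr inc e b f c he hv x hx]
    exact hx
  h2 := by
    intro y hy
    rw [cyc_ext_contr inc e b f c he]; exact hy
  h3 := fun x hx => res_ext_contr inc e b f c he hv x hx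
  h4 := fun y _ => ext_res e (some f) y
  h5 := by
    intro y _ hy g hg
    by_cases h : g = e
    · subst h
      rw [extL_some]
      apply hy
      intro hf
      exact hW (he ▸ hH _ hf c)
    · rw [show g = (⟨g, h⟩ : {g // g ≠ e}).1 from rfl, extL_ne]
      exact hy _ hg
  hbad := by
    classical
    intro x hx
    have hxe := cyc_eq_contr inc e b f c he hv x hx
    apply bad_of_map (mapC e b f c) id (fun v hv => hv)
    · intro h _ hx' hH'
      refine ⟨mapC_inc inc e b f c h, ?_, ?_⟩
      · unfold mapC
        split_ifs with hh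
        · subst hh
          show x e ≠ 0
          rw [hxe]; exact hx'
        · exact hx'
      · unfold mapC
        split_ifs with hh
        · exact fun hf => hW (hH _ hf b)
        · exact hH'
    · intro h h' _ _ hh
      exact mapC_inj e b f c hh
    · rintro ⟨z, hz, hz0, hsub, hins⟩
      refine ⟨extL e (some f) z, (cyc_ext_contr inc e b f c he z).mpr hz, ?_, ?_, ?_⟩
      · intro h0
        apply hz0
        rw [← ext_res e (some f) z, h0, map_zero]
      · intro g hg
        by_cases h : g = e
        · subst h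
          rw [extL_some] at hg
          rw [hxe]
          exact hsub _ hg
        · rw [show g = (⟨g, h⟩ : {g // g ≠ e}).1 from rfl, extL_ne] at hg
          exact hsub _ hg
      · intro g hg β
        by_cases h : g = e
        · subst h
          rw [extL_some] at hg
          have h2 := hins f hg c
          unfold incC at h2
          rw [if_pos rfl] at h2
          by_cases hβ : β = b
          · rw [hβ]; exact hW
          · rw [show β = !b by cases β <;> cases b <;> simp_all]; exact h2
        · rw [show g = (⟨g, h⟩ : {g // g ≠ e}).1 from rfl, extL_ne] at hg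
          have h2 := hins ⟨g, h⟩ hg β
          unfold incC at h2
          split_ifs at h2 with hh
          · simp only [Prod.mk.injEq] at hh
            show inc g β ∈ Wᶜ
            rw [show g = f.1 from congrArg Subtype.val hh.1, hh.2, ← he]
            exact hW
          · exact h2

lemma meas_contr [Fintype V] : meas (incC inc e b f c) W < meas inc W := by
  apply meas_lt_of_deg
  · exact Finite.card_subtype_lt (x := e) (by simp)
  · intro v
    apply deg_le_of_map (mapC e b f c)
    · intro h hh
      exact (mapC_inc inc e b f c h).trans hh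
    · intro h h' _ _ hh
      exact mapC_inj e b f c hh

end contr

/-! ### A loop outside `W` -/

lemma concl_of_loop [Fintype E] (inc : E → Bool → V) (H : Set E) (W : Set V) (e : E)
    (hl : inc e true = inc e false) (hW : inc e true ∉ W) {θ : ℝ} (hθ : 1 / 2 ≤ θ) :
    Concl inc H W θ := by
  classical
  set z : E → ZMod 2 := Pi.single e 1 with hz
  have hze : z e = 1 := by rw [hz, Pi.single_eq_same]
  have hzne : ∀ g, z g ≠ 0 → g = e := by
    intro g hg
    by_contra h
    exact hg (by rw [hz, Pi.single_eq_of_ne h])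
  have h10 : (1 : ZMod 2) ≠ 0 := by decide
  have hzc : z ∈ cyc inc := by
    rw [mem_cyc_iff]
    intro v
    have : bd inc z v = ∑ g, ∑ b : Bool, if inc g b = v then z g else 0 := rfl
    rw [this, Finset.sum_eq_single e]
    · rw [Fintype.sum_bool, hl, CharTwo.add_self_eq_zero]
    · intro g _ hg
      have : z g = 0 := by rw [hz, Pi.single_eq_of_ne hg]
      simp [this]
    · intro h; exact absurd (Finset.mem_univ _) h
  have hbad : ∀ x, x e ≠ 0 → Bad inc H W x := by
    intro x hx
    right
    refine ⟨z, hzc, ?_, ?_, ?_⟩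
    · intro h0
      rw [h0] at hze
      exact h10 hze.symm
    · intro g hg
      rw [hzne g hg]; exact hx
    · intro g hg b
      rw [hzne g hg]
      cases b
      · rw [← hl]; exact hW
      · exact hW
  set A := {x | x ∈ cyc inc ∧ ¬ Bad inc H W x} with hA
  have hA0 : ∀ x ∈ A, x e = 0 := by
    intro x hx
    by_contra h
    exact hx.2 (hbad x h)
  have hB : ((fun x => x + z) '' A).ncard = A.ncard := Set.ncard_image_of_injective _
    (add_left_injective z)
  have hdisj : Disjoint A ((fun x => x + z) '' A) := by
    rw [Set.disjoint_left]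
    rintro x hx ⟨y, hy, rfl⟩
    have h1 := hA0 _ hx
    simp only [Pi.add_apply, hA0 y hy, hze, zero_add] at h1
    exact h10 h1
  have hsub : A ∪ ((fun x => x + z) '' A) ⊆ (cyc inc : Set (E → ZMod 2)) := by
    rintro x (hx | ⟨y, hy, rfl⟩)
    · exact hx.1
    · exact Submodule.add_mem _ hy.1 hzc
  have h1 := Set.ncard_le_ncard hsub (Set.toFinite _)
  rw [Set.ncard_union_eq hdisj (Set.toFinite _) (Set.toFinite _), hB] at h1
  unfold Concl
  have h2 : (A.ncard : ℝ) + A.ncard ≤ ((cyc inc : Set (E → ZMod 2)).ncard : ℝ) := by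
    exact_mod_cast h1
  have h3 : (0 : ℝ) ≤ ((cyc inc : Set (E → ZMod 2)).ncard : ℝ) := by positivity
  nlinarith

/-! ### Surgery 3: splitting a vertex of degree at least four outside `W` -/

section split

variable (inc : E → Bool → V) (H : Set E) (W : Set V) (h1 h2 : E × Bool)

open Classical in
/-- the graph in which the half-edges `h1`, `h2` are moved to a new vertex, joined to the old one -/
noncomputable def incS : Option E → Bool → Option V
  | none, false => some (inc h1.1 h1.2)
  | none, true => none
  | some g, β => if (g, β) = h1 ∨ (g, β) = h2 then none else some (inc g β)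

/-- the isomorphism of the cycle spaces -/
def phiS : (E → ZMod 2) →ₗ[ZMod 2] (Option E → ZMod 2) where
  toFun x o := match o with
    | none => x h1.1 + x h2.1
    | some g => x g
  map_add' x y := by
    funext o
    cases o with
    | none => simp only [Pi.add_apply]; ring
    | some g => rfl
  map_smul' c x := by
    funext o
    cases o with
    | none => simp only [Pi.smul_apply, smul_eq_mul, RingHom.id_apply]; ring
    | some g => rfl

/-- its inverse -/
def psiS : (Option E → ZMod 2) →ₗ[ZMod 2] (E → ZMod 2) :=
  LinearMap.funLeft (ZMod 2) (ZMod 2) some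

lemma phiS_none (x : E → ZMod 2) : phiS h1 h2 x none = x h1.1 + x h2.1 := rfl

lemma phiS_some (x : E → ZMod 2) (g : E) : phiS h1 h2 x (some g) = x g := rfl

lemma psiS_phiS (x : E → ZMod 2) : psiS (phiS h1 h2 x) = x := rfl

lemma sum_darts_option [Fintype E] (F : Option E × Bool → ZMod 2) :
    ∑ h : Option E × Bool, F h = (F (none, true) + F (none, false)) +
      ∑ h : E × Bool, F (some h.1, h.2) := by
  rw [Fintype.sum_prod_type, Fintype.sum_option, Fintype.sum_prod_type, Fintype.sum_bool]

lemma bd_split_some [Fintype E] (hne : h1 ≠ h2) (hv : inc h2.1 h2.2 = inc h1.1 h1.2)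
    (x : E → ZMod 2) (v : V) :
    bd (incS inc h1 h2) (phiS h1 h2 x) (some v) = bd inc x v := by
  classical
  rw [bd_darts, bd_darts, sum_darts_option]
  simp only [phiS_some, phiS_none]
  have key : ∀ h : E × Bool, (if inc h.1 h.2 = v then x h.1 else 0) =
      (if incS inc h1 h2 (some h.1) h.2 = some v then x h.1 else 0) +
      ((if h = h1 then (if inc h1.1 h1.2 = v then x h1.1 else 0) else 0) +
      (if h = h2 then (if inc h1.1 h1.2 = v then x h2.1 else 0) else 0)) := by
    intro h
    by_cases hh : h = h1
    · subst hh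
      simp [incS, hne]
    · by_cases hh' : h = h2
      · subst hh'
        simp [incS, hh, hv]
      · simp [incS, hh, hh']
  rw [Finset.sum_congr rfl fun h _ => key h, Finset.sum_add_distrib, Finset.sum_add_distrib,
    Finset.sum_ite_eq', Finset.sum_ite_eq']
  simp only [Finset.mem_univ, if_true]
  have e1 : (if incS inc h1 h2 none true = some v then x h1.1 + x h2.1 else 0) = 0 := by
    simp [incS]
  have e2 : (if incS inc h1 h2 none false = some v then x h1.1 + x h2.1 else 0) =
      (if inc h1.1 h1.2 = v then x h1.1 else 0) + (if inc h1.1 h1.2 = v then x h2.1 else 0) := by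
    simp only [incS, Option.some.injEq]
    split_ifs <;> simp
  rw [e1, e2, zero_add, add_comm]

lemma bd_split_none [Fintype E] (hne : h1 ≠ h2) (y : Option E → ZMod 2) :
    bd (incS inc h1 h2) y none = y none + (y (some h1.1) + y (some h2.1)) := by
  classical
  rw [bd_darts, sum_darts_option]
  have key : ∀ h : E × Bool, (if incS inc h1 h2 (some h.1) h.2 = none then y (some h.1) else 0) =
      (if h = h1 then y (some h1.1) else 0) + (if h = h2 then y (some h2.1) else 0) := by
    intro h
    by_cases hh : h = h1
    · subst hh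
      simp [incS, hne]
    · by_cases hh' : h = h2
      · subst hh'
        simp [incS, hh]
      · simp [incS, hh, hh']
  simp only []
  rw [Finset.sum_congr rfl fun h _ => key h, Finset.sum_add_distrib,
    Finset.sum_ite_eq', Finset.sum_ite_eq']
  simp [incS]

lemma phiS_psiS [Fintype E] (hne : h1 ≠ h2) (y : Option E → ZMod 2)
    (hy : y ∈ cyc (incS inc h1 h2)) : phiS h1 h2 (psiS y) = y := by
  have h0 := (mem_cyc_iff _ y).mp hy none
  rw [bd_split_none inc h1 h2 hne] at h0
  funext o
  cases o with
  | none => exact (CharTwo.add_eq_zero.mp h0).symm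
  | some g => rfl

lemma phiS_mem [Fintype E] (hne : h1 ≠ h2) (hv : inc h2.1 h2.2 = inc h1.1 h1.2)
    (x : E → ZMod 2) : phiS h1 h2 x ∈ cyc (incS inc h1 h2) ↔ x ∈ cyc inc := by
  rw [mem_cyc_iff, mem_cyc_iff]
  constructor
  · intro h v
    rw [← bd_split_some inc h1 h2 hne hv]; exact h _
  · intro h o
    cases o with
    | none =>
      rw [bd_split_none inc h1 h2 hne, phiS_none, phiS_some, phiS_some,
        CharTwo.add_self_eq_zero]
    | some v => rw [bd_split_some inc h1 h2 hne hv]; exact h _

/-- the map of darts -/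
def mapS : Option E × Bool → E × Bool
  | (none, _) => h1
  | (some g, β) => (g, β)

lemma incS_none_false (v : V) (β : Bool) (h : incS inc h1 h2 none β = some v) : β = false := by
  cases β with
  | false => rfl
  | true => exact absurd h (Option.some_ne_none v).symm

/-- the surgery -/
noncomputable def stepSplit [Fintype E] (hne : h1 ≠ h2) (hv : inc h2.1 h2.2 = inc h1.1 h1.2)
    (hW : inc h1.1 h1.2 ∉ W) :
    Step inc H W (incS inc h1 h2) (some '' H) (some '' W) where
  φ := phiS h1 h2
  ψ := psiS
  h1 := fun x hx => (phiS_mem inc h1 h2 hne hv x).mpr hx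
  h2 := by
    intro y hy
    rw [← phiS_mem inc h1 h2 hne hv, phiS_psiS inc h1 h2 hne y hy]
    exact hy
  h3 := fun x _ => psiS_phiS h1 h2 x
  h4 := fun y hy => phiS_psiS inc h1 h2 hne y hy
  h5 := by
    intro y _ hy g hg
    apply hy
    rintro ⟨g', hg', h⟩
    rw [Option.some.inj h] at hg'
    exact hg hg'
  hbad := by
    classical
    intro x hx
    have hnone : ∀ β, incS inc h1 h2 none β ∉ some '' W := by
      intro β
      cases β
      · rintro ⟨v, hv1, hv2⟩
        simp only [incS, Option.some.injEq] at hv2
        rw [hv2] at hv1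
        exact hW hv1
      · rintro ⟨v, hv1, hv2⟩
        simp [incS] at hv2
    apply bad_of_map (mapS h1) (fun o => o.getD (inc h1.1 h1.2))
    · rintro _ ⟨v, hv1, rfl⟩
      exact hv1
    · rintro ⟨o, β⟩ hin hx' hH'
      cases o with
      | none => exact absurd hin (hnone β)
      | some g =>
        refine ⟨?_, hx', fun h => hH' ⟨g, h, rfl⟩⟩
        simp only [incS] at hin ⊢
        split_ifs at hin ⊢ with h
        · obtain ⟨v, _, hv2⟩ := hin
          exact absurd hv2 (by simp)
        · rfl
    · rintro ⟨o, β⟩ ⟨o', β'⟩ hin hin' h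
      cases o with
      | none => exact absurd hin (hnone β)
      | some g =>
        cases o' with
        | none => exact absurd hin' (hnone β')
        | some g' =>
          simp only [mapS, Prod.mk.injEq] at h
          rw [h.1, h.2]
    · rintro ⟨z, hz, hz0, hsub, hins⟩
      refine ⟨psiS z, ?_, ?_, ?_, ?_⟩
      · rw [← phiS_mem inc h1 h2 hne hv, phiS_psiS inc h1 h2 hne z hz]
        exact hz
      · intro h0
        apply hz0
        rw [← phiS_psiS inc h1 h2 hne z hz, h0, map_zero]
      · intro g hg
        exact hsub (some g) hg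
      · intro g hg β hin
        have h3 := hins (some g) hg β
        simp only [incS] at h3
        split_ifs at h3 with h
        · rcases h with h | h
          · apply hW; rw [← h]; exact hin
          · apply hW; rw [← hv, ← h]; exact hin
        · exact h3 ⟨inc g β, hin, rfl⟩

lemma deg_split_some [Fintype E] (v : V) :
    deg (incS inc h1 h2) (some v) ≤ deg inc v := by
  classical
  apply deg_le_of_map (mapS h1)
  · rintro ⟨o, β⟩ h
    cases o with
    | none =>
      have hβ := incS_none_false inc h1 h2 v β h
      subst hβ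
      exact Option.some.inj h
    | some g =>
      simp only [incS] at h
      split_ifs at h
      exact Option.some.inj h
  · rintro ⟨o, β⟩ ⟨o', β'⟩ h h' hm
    cases o with
    | none =>
      cases o' with
      | none => rw [incS_none_false inc h1 h2 _ β h, incS_none_false inc h1 h2 _ β' h']
      | some g' =>
        simp only [mapS] at hm
        simp only [incS] at h'
        rw [if_pos (Or.inl hm.symm)] at h'
        exact absurd h' (by simp)
    | some g =>
      cases o' with
      | none =>
        simp only [mapS] at hm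
        simp only [incS] at h
        rw [if_pos (Or.inl hm)] at h
        exact absurd h (by simp)
      | some g' =>
        simp only [mapS, Prod.mk.injEq] at hm
        rw [hm.1, hm.2]

lemma deg_split_v [Fintype E] (hne : h1 ≠ h2) (hv : inc h2.1 h2.2 = inc h1.1 h1.2) :
    deg (incS inc h1 h2) (some (inc h1.1 h1.2)) + 1 ≤ deg inc (inc h1.1 h1.2) := by
  classical
  have hmem : h2 ∈ {h : E × Bool | inc h.1 h.2 = inc h1.1 h1.2} := hv
  unfold deg
  rw [← Set.ncard_sdiff_singleton_add_one hmem (Set.toFinite _)]
  apply Nat.add_le_add_right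
  apply Set.ncard_le_ncard_of_injOn (mapS h1)
  · rintro ⟨o, β⟩ h
    cases o with
    | none => exact ⟨rfl, hne⟩
    | some g =>
      simp only [Set.mem_ofPred_eq, incS] at h
      split_ifs at h with hh
      refine ⟨Option.some.inj h, fun h3 => hh (Or.inr h3)⟩
  · rintro ⟨o, β⟩ h ⟨o', β'⟩ h' hm
    cases o with
    | none =>
      cases o' with
      | none => rw [incS_none_false inc h1 h2 _ β h, incS_none_false inc h1 h2 _ β' h']
      | some g' =>
        simp only [mapS] at hm
        simp only [Set.mem_ofPred_eq, incS] at h'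
        rw [if_pos (Or.inl hm.symm)] at h'
        exact absurd h' (by simp)
    | some g =>
      cases o' with
      | none =>
        simp only [mapS] at hm
        simp only [Set.mem_ofPred_eq, incS] at h
        rw [if_pos (Or.inl hm)] at h
        exact absurd h (by simp)
      | some g' =>
        simp only [mapS, Prod.mk.injEq] at hm
        rw [hm.1, hm.2]

lemma deg_split_none [Fintype E] : deg (incS inc h1 h2) none ≤ 3 := by
  classical
  unfold deg
  have hsub : {h : Option E × Bool | incS inc h1 h2 h.1 h.2 = none} ⊆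
      (({(some h1.1, h1.2), (some h2.1, h2.2), (none, true)} : Finset (Option E × Bool)) :
        Set (Option E × Bool)) := by
    rintro ⟨o, β⟩ h
    simp only [Finset.coe_insert, Finset.coe_singleton, Set.mem_insert_iff,
      Set.mem_singleton_iff]
    cases o with
    | none =>
      cases β with
      | false => exact absurd h (Option.some_ne_none _)
      | true => right; right; rfl
    | some g =>
      simp only [Set.mem_ofPred_eq, incS] at h
      split_ifs at h with hh
      rcases hh with hh | hh
      · left; rw [← hh]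
      · right; left; rw [← hh]
  refine (Set.ncard_le_ncard hsub (Finset.finite_toSet _)).trans ?_
  rw [Set.ncard_coe_finset]
  exact Finset.card_le_three

lemma meas_split [Fintype V] [Fintype E] (hne : h1 ≠ h2) (hv : inc h2.1 h2.2 = inc h1.1 h1.2)
    (hW : inc h1.1 h1.2 ∉ W) (h4 : 4 ≤ deg inc (inc h1.1 h1.2)) :
    meas (incS inc h1 h2) (some '' W) < meas inc W := by
  classical
  unfold meas
  rw [Fintype.sum_option, Finite.card_option]
  have e1 : (if (none : Option V) ∈ some '' W then 0 else deg (incS inc h1 h2) none - 3) = 0 := by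
    have := deg_split_none inc h1 h2
    split_ifs <;> omega
  rw [e1, zero_add]
  have e2 : (∑ v : V, if (some v) ∈ some '' W then 0 else deg (incS inc h1 h2) (some v) - 3) <
      ∑ v : V, if v ∈ W then 0 else (deg inc v - 3) := by
    apply Finset.sum_lt_sum
    · intro v _
      have h5 := deg_split_some inc h1 h2 v
      have h6 : (some v ∈ some '' W) ↔ v ∈ W := by simp
      simp only [h6]
      split_ifs <;> omega
    · refine ⟨inc h1.1 h1.2, Finset.mem_univ _, ?_⟩
      have h5 := deg_split_v inc h1 h2 hne hv
      have h6 : (some (inc h1.1 h1.2) ∈ some '' W) ↔ inc h1.1 h1.2 ∈ W := by simp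
      simp only [h6]
      rw [if_neg hW, if_neg hW]
      omega
  omega

end split

/-! ### The reduction -/

theorem reduction (θ : ℝ) (hθ : 1 / 2 ≤ θ) (w k : ℕ)
    (hred : ∀ (V E : Type) [Fintype V] [Fintype E] (inc : E → Bool → V) (H : Set E) (W : Set V),
      (∀ e ∈ H, ∀ b, inc e b ∈ W) → W.ncard = w →
      Module.finrank (ZMod 2) (cycOn inc H) + k ≤ Module.finrank (ZMod 2) (cyc inc) →
      Reduced inc W → Concl inc H W θ)
    (V E : Type) [Fintype V] [Fintype E] (inc : E → Bool → V) (H : Set E) (W : Set V)
    (hH : ∀ e ∈ H, ∀ b, inc e b ∈ W) (hW : W.ncard = w)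
    (hk : Module.finrank (ZMod 2) (cycOn inc H) + k ≤ Module.finrank (ZMod 2) (cyc inc)) :
    Concl inc H W θ := by
  classical
  have hθ0 : 0 ≤ θ := by linarith
  have main : ∀ (n : ℕ) (V E : Type) [Fintype V] [Fintype E] (inc : E → Bool → V) (H : Set E)
      (W : Set V), meas inc W = n → (∀ e ∈ H, ∀ b, inc e b ∈ W) → W.ncard = w →
      Module.finrank (ZMod 2) (cycOn inc H) + k ≤ Module.finrank (ZMod 2) (cyc inc) →
      Concl inc H W θ := by
    intro n
    induction n using Nat.strong_induction_on with
    | _ n ih =>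
    intro V E _ _ inc H W hn hH hW hk
    by_cases hdead : ∃ e0, ∀ x ∈ cyc inc, x e0 = 0
    · obtain ⟨e0, he0⟩ := hdead
      have S := stepDead inc H W e0 he0
      refine S.concl hθ0 (ih _ ?_ _ _ _ _ _ rfl ?_ hW (S.rank hk))
      · rw [← hn]; exact meas_dead inc W e0
      · intro g hg b
        exact hH _ hg b
    · push Not at hdead
      by_cases hr : ∀ v, v ∉ W → deg inc v = 0 ∨ deg inc v = 3
      · exact hred V E inc H W hH hW hk ⟨hdead, hr⟩
      · push Not at hr
        obtain ⟨v, hv, hv0, hv3⟩ := hr
        have hfin : {h : E × Bool | inc h.1 h.2 = v}.Finite := Set.toFinite _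
        -- degree one is impossible
        have hv1 : deg inc v ≠ 1 := by
          intro h
          unfold deg at h
          rw [Set.ncard_eq_one] at h
          obtain ⟨h1, hh1⟩ := h
          obtain ⟨x, hx, hxe⟩ := hdead h1.1
          apply hxe
          have h0 := (mem_cyc_iff inc x).mp hx v
          rw [bd_darts, Finset.sum_eq_single h1] at h0
          · rw [if_pos] at h0
            · exact h0
            · have : h1 ∈ {h : E × Bool | inc h.1 h.2 = v} := by rw [hh1]; rfl
              exact this
          · intro h _ hne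
            rw [if_neg]
            intro h3
            have : h ∈ {h : E × Bool | inc h.1 h.2 = v} := h3
            rw [hh1] at this
            exact hne this
          · intro h; exact absurd (Finset.mem_univ _) h
        by_cases hv2 : deg inc v = 2
        · unfold deg at hv2
          rw [Set.ncard_eq_two] at hv2
          obtain ⟨h1, h2, hne, hh⟩ := hv2
          have m1 : inc h1.1 h1.2 = v := by
            have : h1 ∈ {h : E × Bool | inc h.1 h.2 = v} := by rw [hh]; simp
            exact this
          have m2 : inc h2.1 h2.2 = v := by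
            have : h2 ∈ {h : E × Bool | inc h.1 h.2 = v} := by rw [hh]; simp
            exact this
          by_cases he : h2.1 = h1.1
          · -- loop
            obtain ⟨e, b⟩ := h1
            obtain ⟨e', b'⟩ := h2
            simp only at he m1 m2
            subst he
            have hbb : b ≠ b' := fun h => hne (by rw [h])
            have hbb2 : (b = true ∧ b' = false) ∨ (b = false ∧ b' = true) := by
              revert hbb
              clear m1 m2 hh hne
              revert b b'
              decide
            rcases hbb2 with ⟨rfl, rfl⟩ | ⟨rfl, rfl⟩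
            · exact concl_of_loop inc H W e' (m1.trans m2.symm) (by rw [m1]; exact hv) hθ
            · exact concl_of_loop inc H W e' (m2.trans m1.symm) (by rw [m2]; exact hv) hθ
          · have hv' : ∀ h : E × Bool, inc h.1 h.2 = inc h1.1 h1.2 →
                h = (h1.1, h1.2) ∨ h = ((⟨h2.1, he⟩ : {g // g ≠ h1.1}).1, h2.2) := by
              intro h h3
              rw [m1] at h3
              have : h ∈ {h : E × Bool | inc h.1 h.2 = v} := h3
              rw [hh] at this
              exact this
            have S := stepContr inc H W h1.1 h1.2 ⟨h2.1, he⟩ h2.2 hH (by rw [m1]; exact hv)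
              (by rw [m1]; exact m2.symm) hv'
            refine S.concl hθ0 (ih _ ?_ _ _ _ _ _ rfl ?_ hW (S.rank hk))
            · rw [← hn]; exact meas_contr inc W _ _ _ _
            · intro g hg b
              unfold incC
              split_ifs with h3
              · exfalso
                simp only [Prod.mk.injEq] at h3
                have h4 := hH _ hg b
                rw [congrArg Subtype.val h3.1, h3.2] at h4
                exact hv (m2 ▸ h4)
              · exact hH _ hg b
        · have hv4 : 4 ≤ deg inc v := by omega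
          have : 1 < {h : E × Bool | inc h.1 h.2 = v}.ncard := by
            unfold deg at hv4; omega
          rw [Set.one_lt_ncard hfin] at this
          obtain ⟨h1, m1, h2, m2, hne⟩ := this
          simp only [Set.mem_ofPred_eq] at m1 m2
          have S := stepSplit inc H W h1 h2 hne (m2.trans m1.symm) (by rw [m1]; exact hv)
          refine S.concl hθ0 (ih _ ?_ _ _ _ _ _ rfl ?_ ?_ (S.rank hk))
          · rw [← hn]
            exact meas_split inc W h1 h2 hne (m2.trans m1.symm) (by rw [m1]; exact hv)
              (by rw [m1]; exact hv4)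
          · rintro _ ⟨g, hg, rfl⟩ b
            simp only [incS]
            split_ifs with h3
            · exfalso
              have h4 := hH _ hg b
              rcases h3 with h3 | h3
              · rw [← h3] at m1; exact hv (m1 ▸ h4)
              · rw [← h3] at m2; exact hv (m2 ▸ h4)
            · exact ⟨_, hH _ hg b, rfl⟩
          · rw [Set.ncard_image_of_injective _ (Option.some_injective _)]
            exact hW
  exact main _ V E inc H W rfl hH hW hk

end Pool.Agent.Bondy
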