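import Pool.Agent.Bondy.KeyCore
import Pool.Agent.Bondy.Reduce
import Pool.Agent.Bondy.BigDeg
import Pool.Agent.Bondy.Mpl
import Pool.Agent.Bondy.EFinal

/-! # The key lemma (helper8) -/

set_option autoImplicit false

namespace Pool.Agent.Bondy

open Set

theorem key_lemma : ∃ w0 : ℕ, ∀ (V E : Type) [Fintype V] [Fintype E] (inc : E → Bool → V)
    (H : Set E) (W : Set V), (∀ e ∈ H, ∀ b, inc e b ∈ W) → w0 ≤ W.ncard →
    Module.finrank (ZMod 2) (cycOn inc H) + W.ncard ^ 3 ≤ Module.finrank (ZMod 2) (cyc inc) →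
    Concl inc H W (1 / 2 + 1 / (Nat.log 2 (Nat.log 2 W.ncard) : ℝ)) :=
  key_core mpl reduction big_degree expander_lemma

end Pool.Agent.Bondy
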