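import Pool.Agent.Bondy.Defs

/-! # Auxiliary lemmas for the key lemma (helper8) -/

set_option autoImplicit false

namespace Pool.Agent.Bondy

open Set

variable {V E : Type}

namespace KeyAux

/-! ### counting half-edges -/

/-- half-edges at the vertex set `X` -/
def half (inc : E → Bool → V) (X : Set V) : Set (E × Bool) := {h | inc h.1 h.2 ∈ X}

/-- edges with both ends in `X` -/
def insE (inc : E → Bool → V) (X : Set V) : Set E := {e | ∀ b, inc e b ∈ X}

theorem mem_half {inc : E → Bool → V} {X : Set V} {h : E × Bool} :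
    h ∈ half inc X ↔ inc h.1 h.2 ∈ X := Iff.rfl

theorem mem_insE {inc : E → Bool → V} {X : Set V} {e : E} :
    e ∈ insE inc X ↔ ∀ b, inc e b ∈ X := Iff.rfl

theorem mem_cutE {inc : E → Bool → V} {X : Set V} {e : E} :
    e ∈ cutE inc X ↔ ∃ b, inc e b ∈ X ∧ inc e (!b) ∉ X := Iff.rfl

theorem half_ncard [Fintype V] [Fintype E] (inc : E → Bool → V) (X : Set V)
    (h3 : ∀ v ∈ X, deg inc v = 3) : (half inc X).ncard = 3 * X.ncard := by
  classical
  rw [Set.ncard_eq_toFinset_card' (half inc X), Set.ncard_eq_toFinset_card' X]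
  rw [Finset.card_eq_sum_card_fiberwise (f := fun h : E × Bool => inc h.1 h.2)
    (t := X.toFinset)]
  · rw [Finset.sum_congr rfl (g := fun _ => 3)]
    · simp [mul_comm]
    · intro v hv
      have hv' : v ∈ X := by simpa using hv
      rw [← h3 v hv']
      unfold deg
      rw [Set.ncard_eq_toFinset_card']
      congr 1
      ext h
      simp only [Finset.mem_filter, Set.mem_toFinset, mem_half]
      constructor
      · rintro ⟨_, h2⟩; exact h2
      · intro h2; exact ⟨by rw [h2]; exact hv', h2⟩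
  · intro h hh
    simpa [mem_half] using hh

theorem half_le [Fintype V] [Fintype E] (inc : E → Bool → V) (X : Set V)
    (h3 : ∀ v ∈ X, deg inc v ≤ 3) : (half inc X).ncard ≤ 3 * X.ncard := by
  classical
  rw [Set.ncard_eq_toFinset_card' (half inc X), Set.ncard_eq_toFinset_card' X]
  refine Finset.card_le_mul_card_image_of_maps_to (f := fun h : E × Bool => inc h.1 h.2) ?_ 3 ?_
  · intro h hh
    simpa [mem_half] using hh
  · intro v hv
    have hv' : v ∈ X := by simpa using hv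
    refine le_trans (le_of_eq ?_) (h3 v hv')
    unfold deg
    rw [Set.ncard_eq_toFinset_card']
    congr 1
    ext h
    simp only [Finset.mem_filter, Set.mem_toFinset, mem_half]
    constructor
    · rintro ⟨_, h2⟩; exact h2
    · intro h2; exact ⟨by rw [h2]; exact hv', h2⟩

theorem half_eq [Fintype E] (inc : E → Bool → V) (X : Set V) :
    (half inc X).ncard = 2 * (insE inc X).ncard + (cutE inc X).ncard := by
  classical
  have h1 : (half inc X).ncard = ∑ e : E, ∑ b : Bool, if inc e b ∈ X then 1 else 0 := by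
    rw [Set.ncard_eq_toFinset_card']
    rw [← Fintype.sum_prod_type' (f := fun (e : E) (b : Bool) => if inc e b ∈ X then 1 else 0)]
    rw [← Finset.card_filter]
    congr 1
    ext h
    simp [mem_half]
  have h2 : (insE inc X).ncard = ∑ e : E, if (∀ b, inc e b ∈ X) then 1 else 0 := by
    rw [Set.ncard_eq_toFinset_card', ← Finset.card_filter]
    congr 1
    ext h
    simp [mem_insE]
  have h4 : (cutE inc X).ncard = ∑ e : E, if (∃ b, inc e b ∈ X ∧ inc e (!b) ∉ X) then 1 else 0 := by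
    rw [Set.ncard_eq_toFinset_card', ← Finset.card_filter]
    congr 1
    ext h
    simp [mem_cutE]
  rw [h1, h2, h4, Finset.mul_sum, ← Finset.sum_add_distrib]
  refine Finset.sum_congr rfl fun e _ => ?_
  rw [Fintype.sum_bool]
  by_cases ha : inc e false ∈ X <;> by_cases hb : inc e true ∈ X <;> simp [ha, hb]

/-! ### atoms -/

/-- An atom inside `K`. -/
structure IsAtom (inc : E → Bool → V) (K X : Set V) : Prop where
  ne : X.Nonempty
  sub : X ⊆ K
  cut : (cutE inc X).ncard ^ 2 ≤ X.ncard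
  min : ∀ Y : Set V, Y.Nonempty → Y ⊂ X → Y.ncard < (cutE inc Y).ncard ^ 2

theorem exists_atom [Fintype V] (inc : E → Bool → V) (K : Set V) (hne : K.Nonempty)
    (hK : (cutE inc K).ncard ^ 2 ≤ K.ncard) : ∃ X, IsAtom inc K X := by
  classical
  let S : Set (Set V) := {X | X.Nonempty ∧ X ⊆ K ∧ (cutE inc X).ncard ^ 2 ≤ X.ncard}
  have hS : S.Nonempty := ⟨K, hne, subset_rfl, hK⟩
  obtain ⟨X, hXS, hX⟩ := (Set.toFinite S).exists_minimalFor (fun X => X.ncard) S hS
  refine ⟨X, hXS.1, hXS.2.1, hXS.2.2, fun Y hY hYX => ?_⟩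
  by_contra hcon
  push Not at hcon
  have hYS : Y ∈ S := ⟨hY, hYX.subset.trans hXS.2.1, hcon⟩
  have h1 := Set.ncard_lt_ncard hYX (Set.toFinite X)
  have h2 := hX hYS h1.le
  exact absurd h2 (not_le.mpr h1)

theorem atom_mono {inc : E → Bool → V} {K K' X : Set V} (h : IsAtom inc K X) (hK : K ⊆ K') :
    IsAtom inc K' X := ⟨h.ne, h.sub.trans hK, h.cut, h.min⟩

theorem atom_lconn [Fintype V] [Fintype E] {inc : E → Bool → V} {K X : Set V} (h : IsAtom inc K X) :
    LConn inc X := by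
  classical
  intro U hU u hu v hv
  by_contra hne
  let X1 : Set V := {x | x ∈ X ∧ U x = U u}
  let X2 : Set V := {x | x ∈ X ∧ U x ≠ U u}
  have h1 : X1.Nonempty := ⟨u, hu, rfl⟩
  have h2 : X2.Nonempty := ⟨v, hv, fun h => hne h.symm⟩
  have s1 : X1 ⊂ X := ⟨fun x hx => hx.1, fun hh => (fun h => hne h.symm) (hh hv).2⟩
  have s2 : X2 ⊂ X := ⟨fun x hx => hx.1, fun hh => (hh hu).2 rfl⟩
  have c1 := h.min X1 h1 s1
  have c2 := h.min X2 h2 s2
  have hsum : X.ncard = X1.ncard + X2.ncard := by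
    rw [← Set.ncard_union_eq]
    · congr 1
      ext x
      constructor
      · intro hx
        by_cases hxu : U x = U u
        · exact Or.inl ⟨hx, hxu⟩
        · exact Or.inr ⟨hx, hxu⟩
      · rintro (hx | hx) <;> exact hx.1
    · rw [Set.disjoint_left]
      rintro x ⟨_, hx⟩ ⟨_, hx'⟩
      exact hx' hx
  -- inner edges do not join the two parts
  have key : ∀ e b, inc e b ∈ X → inc e (!b) ∈ X → U (inc e b) = U (inc e (!b)) := by
    intro e b
    cases b
    · intro ha hb; exact hU e ha hb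
    · intro ha hb; exact (hU e hb ha).symm
  have hcut : (cutE inc X1).ncard + (cutE inc X2).ncard ≤ (cutE inc X).ncard := by
    rw [← Set.ncard_union_eq]
    · refine Set.ncard_le_ncard ?_ (Set.toFinite _)
      rintro e (⟨b, hb1, hb2⟩ | ⟨b, hb1, hb2⟩)
      · refine ⟨b, hb1.1, fun hX => hb2 ⟨hX, ?_⟩⟩
        rw [← key e b hb1.1 hX]; exact hb1.2
      · refine ⟨b, hb1.1, fun hX => hb2 ⟨hX, ?_⟩⟩
        rw [← key e b hb1.1 hX]; exact hb1.2
    · rw [Set.disjoint_left]
      rintro e ⟨b, hb1, hb2⟩ ⟨b', hb1', hb2'⟩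
      by_cases hbb : b = b'
      · subst hbb
        exact hb1'.2 hb1.2
      · have : b' = !b := by
          revert hbb; clear * -; revert b b'; decide
        subst this
        have := key e b hb1.1 hb1'.1
        exact hb1'.2 (this ▸ hb1.2)
  have hc := h.cut
  have : (cutE inc X1).ncard ^ 2 + (cutE inc X2).ncard ^ 2 ≤ (cutE inc X).ncard ^ 2 := by
    calc _ ≤ ((cutE inc X1).ncard + (cutE inc X2).ncard) ^ 2 := by nlinarith
      _ ≤ _ := Nat.pow_le_pow_left hcut 2
  omega

/-! ### a nonzero even set inside a vertex set with many inner edges -/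

theorem bd_apply [Fintype E] (inc : E → Bool → V) (x : E → ZMod 2) (v : V) [DecidableEq V] :
    bd inc x v = ∑ e, ∑ b : Bool, if inc e b = v then x e else 0 := by
  have h0 : bd inc x v = ∑ e, ∑ b : Bool,
      @ite _ (inc e b = v) (Classical.propDecidable _) (x e) 0 := rfl
  rw [h0]
  refine Finset.sum_congr rfl fun e _ => Finset.sum_congr rfl fun b _ => ?_
  congr

theorem sum_bd [Fintype V] [Fintype E] (inc : E → Bool → V) (x : E → ZMod 2) :
    ∑ v, bd inc x v = 0 := by
  classical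
  simp_rw [bd_apply]
  rw [Finset.sum_comm]
  refine Finset.sum_eq_zero fun e _ => ?_
  rw [Finset.sum_comm]
  simp only [Finset.sum_ite_eq, Finset.mem_univ, if_true, Finset.sum_const, Finset.card_univ,
    Fintype.card_bool]
  rw [two_nsmul]
  exact CharTwo.add_self_eq_zero _

/-- extension by zero -/
noncomputable def ext0 (S : Set E) (y : S → ZMod 2) : E → ZMod 2 := by
  classical
  exact fun e => if h : e ∈ S then y ⟨e, h⟩ else 0

theorem ext0_of_mem {S : Set E} (y : S → ZMod 2) {e : E} (h : e ∈ S) : ext0 S y e = y ⟨e, h⟩ := by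
  classical
  unfold ext0
  rw [dif_pos h]

theorem ext0_of_notMem {S : Set E} (y : S → ZMod 2) {e : E} (h : e ∉ S) : ext0 S y e = 0 := by
  classical
  unfold ext0
  rw [dif_neg h]

theorem ext0_add (S : Set E) (y y' : S → ZMod 2) : ext0 S (y + y') = ext0 S y + ext0 S y' := by
  funext e
  by_cases h : e ∈ S
  · simp [ext0_of_mem _ h]
  · simp [ext0_of_notMem _ h]

theorem ext0_inj {S : Set E} {y y' : S → ZMod 2} (h : ext0 S y = ext0 S y') : y = y' := by
  funext e
  have := congrFun h e.1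
  rwa [ext0_of_mem _ e.2, ext0_of_mem _ e.2] at this

theorem ext0_zero (S : Set E) : ext0 S (0 : S → ZMod 2) = 0 := by
  funext e
  by_cases h : e ∈ S
  · simp [ext0_of_mem _ h]
  · simp [ext0_of_notMem _ h]

theorem exists_even_inside [Fintype V] [Fintype E] (inc : E → Bool → V) (X : Set V)
    (hX : X.Nonempty) (h : X.ncard ≤ (insE inc X).ncard) :
    ∃ z ∈ cyc inc, z ≠ 0 ∧ Inside inc X z := by
  classical
  by_contra hcon
  push Not at hcon
  obtain ⟨x0, hx0⟩ := hX
  -- bd of an inner vector vanishes off X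
  have hoff : ∀ y : insE inc X → ZMod 2, ∀ v, v ∉ X → bd inc (ext0 _ y) v = 0 := by
    intro y v hv
    rw [bd_apply]
    refine Finset.sum_eq_zero fun e _ => Finset.sum_eq_zero fun b _ => ?_
    split_ifs with h1
    · by_cases he : e ∈ insE inc X
      · exact absurd (h1 ▸ he b) hv
      · exact ext0_of_notMem _ he
    · rfl
  let Φ : (insE inc X → ZMod 2) × ZMod 2 → (X → ZMod 2) := fun p v =>
    bd inc (ext0 _ p.1) v.1 + if v.1 = x0 then p.2 else 0
  have hΦ : Function.Injective Φ := by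
    rintro ⟨y, c⟩ ⟨y', c'⟩ hyy
    -- consider the sums
    have hfun : ∀ v : V, bd inc (ext0 _ y) v + (if v = x0 then c else 0) =
        bd inc (ext0 _ y') v + (if v = x0 then c' else 0) := by
      intro v
      by_cases hv : v ∈ X
      · exact congrFun hyy ⟨v, hv⟩
      · rw [hoff y v hv, hoff y' v hv]
        have : v ≠ x0 := fun h => hv (h ▸ hx0)
        simp [this]
    have hs := congrArg (fun f : V → ZMod 2 => ∑ v, f v) (funext hfun)
    simp only [Finset.sum_add_distrib, sum_bd, Finset.sum_ite_eq', Finset.mem_univ, if_true,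
      zero_add] at hs
    subst hs
    have hz : ext0 _ y = ext0 _ y' := by
      by_contra hne
      have hz1 : ext0 _ (y - y') ∈ cyc inc := by
        show bd inc _ = 0
        have he : ext0 (insE inc X) (y - y') = ext0 _ y - ext0 _ y' := by
          rw [eq_sub_iff_add_eq, ← ext0_add, sub_add_cancel]
        rw [he, map_sub, sub_eq_zero]
        funext v
        have := hfun v
        exact add_right_cancel this
      refine hcon _ hz1 ?_ ?_
      · intro h0
        apply hne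
        rw [← ext0_zero (insE inc X)] at h0
        have := ext0_inj h0
        rw [sub_eq_zero] at this
        rw [this]
      · intro e he b
        by_contra hb
        have : e ∉ insE inc X := fun h => hb (h b)
        exact he (ext0_of_notMem _ this)
    rw [ext0_inj hz]
  have hcard := Fintype.card_le_of_injective Φ hΦ
  simp only [Fintype.card_prod, Fintype.card_fun, ZMod.card] at hcard
  rw [← pow_succ] at hcard
  have h2 := (Nat.pow_le_pow_iff_right (by norm_num : 1 < 2)).mp hcard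
  rw [Set.ncard_eq_toFinset_card', Set.ncard_eq_toFinset_card', Set.toFinset_card,
    Set.toFinset_card] at h
  omega

theorem atom_even [Fintype V] [Fintype E] {inc : E → Bool → V} {K X : Set V} (h : IsAtom inc K X)
    (h3 : ∀ v ∈ K, deg inc v = 3) : ∃ z ∈ cyc inc, z ≠ 0 ∧ Inside inc X z := by
  refine exists_even_inside inc X h.ne ?_
  have h1 := half_ncard inc X (fun v hv => h3 v (h.sub hv))
  have h2 := half_eq inc X
  have h4 := h.cut
  have h5 : (cutE inc X).ncard ≤ X.ncard := le_trans (Nat.le_self_pow (by norm_num) _) h4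
  omega

/-! ### restriction to a vertex set -/

/-- the part of the multigraph inside `B` -/
def incB (inc : E → Bool → V) (B : Set V) : insE inc B → Bool → B :=
  fun e b => ⟨inc e.1 b, e.2 b⟩

theorem sum_sub [Fintype E] {S : Set E} [Fintype S] (g : E → ZMod 2) (h : ∀ e, e ∉ S → g e = 0) :
    ∑ e, g e = ∑ e : S, g e.1 := by
  classical
  rw [← Finset.sum_subset (Finset.subset_univ S.toFinset) (fun e _ he => h e (by simpa using he))]
  exact Finset.sum_subtype _ (fun x => by simp) _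

theorem bd_sub [Fintype E] (inc : E → Bool → V) (B : Set V) [Fintype (insE inc B)]
    (x : E → ZMod 2) (v : V) (hv : v ∈ B)
    (hx : ∀ e b, inc e b = v → e ∉ insE inc B → x e = 0) :
    bd inc x v = bd (incB inc B) (fun e => x e.1) ⟨v, hv⟩ := by
  classical
  rw [bd_apply, bd_apply, sum_sub (S := insE inc B)]
  · refine Finset.sum_congr rfl fun e _ => Finset.sum_congr rfl fun b _ => ?_
    have : (incB inc B e b = ⟨v, hv⟩) ↔ inc e.1 b = v := by
      unfold incB
      rw [Subtype.mk.injEq]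
    by_cases h : inc e.1 b = v
    · rw [if_pos h, if_pos (this.mpr h)]
    · rw [if_neg h, if_neg (fun h' => h (this.mp h'))]
  · intro e he
    refine Finset.sum_eq_zero fun b _ => ?_
    split_ifs with h
    · exact hx e b h he
    · rfl

theorem bd_ext0 [Fintype E] (inc : E → Bool → V) (B : Set V) [Fintype (insE inc B)]
    (y : insE inc B → ZMod 2) (v : V) (hv : v ∈ B) :
    bd inc (ext0 _ y) v = bd (incB inc B) y ⟨v, hv⟩ := by
  rw [bd_sub inc B _ v hv (fun e b _ he => ext0_of_notMem y he)]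
  have h : (fun e : insE inc B => ext0 (insE inc B) y e.1) = y := by
    funext e
    rw [ext0_of_mem _ e.2]
  rw [h]

theorem bd_ext0_off [Fintype E] (inc : E → Bool → V) (B : Set V)
    (y : insE inc B → ZMod 2) (v : V) (hv : v ∉ B) : bd inc (ext0 _ y) v = 0 := by
  classical
  rw [bd_apply]
  refine Finset.sum_eq_zero fun e _ => Finset.sum_eq_zero fun b _ => ?_
  split_ifs with h1
  · by_cases he : e ∈ insE inc B
    · exact absurd (h1 ▸ he b) hv
    · exact ext0_of_notMem _ he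
  · rfl

theorem ext0_cyc [Fintype E] (inc : E → Bool → V) (B : Set V) [Fintype (insE inc B)]
    {y : insE inc B → ZMod 2} (hy : y ∈ cyc (incB inc B)) : ext0 _ y ∈ cyc inc := by
  show bd inc _ = 0
  funext v
  by_cases hv : v ∈ B
  · rw [bd_ext0 inc B y v hv]
    have : bd (incB inc B) y = 0 := hy
    rw [this]
    rfl
  · exact bd_ext0_off inc B y v hv

theorem deg_incB_le [Fintype E] (inc : E → Bool → V) (B : Set V) (v : B) :
    deg (incB inc B) v ≤ deg inc v.1 := by
  classical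
  unfold deg
  refine Set.ncard_le_ncard_of_injOn (fun h : insE inc B × Bool => (h.1.1, h.2)) ?_ ?_
    (Set.toFinite _)
  · intro h hh
    exact congrArg Subtype.val (hh : incB inc B h.1 h.2 = v)
  · rintro ⟨e, b⟩ _ ⟨e', b'⟩ _ h
    simp only [Prod.mk.injEq] at h
    rw [Prod.mk.injEq]
    exact ⟨Subtype.ext h.1, h.2⟩

theorem deg_incB_eq [Fintype E] (inc : E → Bool → V) (B : Set V) (v : B)
    (h : deg inc v.1 ≤ deg (incB inc B) v) (e : E) (b : Bool) (he : inc e b = v.1) :
    e ∈ insE inc B := by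
  classical
  unfold deg at h
  have himg : (fun h : insE inc B × Bool => ((h.1.1, h.2) : E × Bool)) ''
      {h | incB inc B h.1 h.2 = v} = {h : E × Bool | inc h.1 h.2 = v.1} := by
    refine Set.eq_of_subset_of_ncard_le ?_ ?_ (Set.toFinite _)
    · rintro _ ⟨h, hh, rfl⟩
      exact congrArg Subtype.val (hh : incB inc B h.1 h.2 = v)
    · rw [Set.ncard_image_of_injective]
      · exact h
      · rintro ⟨e, b⟩ ⟨e', b'⟩ h
        simp only [Prod.mk.injEq] at h
        rw [Prod.mk.injEq]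
        exact ⟨Subtype.ext h.1, h.2⟩
  have hmem : ((e, b) : E × Bool) ∈ {h : E × Bool | inc h.1 h.2 = v.1} := he
  rw [← himg] at hmem
  obtain ⟨h', _, hh'⟩ := hmem
  simp only [Prod.mk.injEq] at hh'
  rw [← hh'.1]
  exact h'.1.2

theorem bd_restrict [Fintype E] (inc : E → Bool → V) (B : Set V) [Fintype (insE inc B)]
    {x : E → ZMod 2} (hx : x ∈ cyc inc) (v : B) (h : deg inc v.1 ≤ deg (incB inc B) v) :
    bd (incB inc B) (fun e => x e.1) v = 0 := by
  have h1 := bd_sub inc B x v.1 v.2 (fun e b he hne => absurd (deg_incB_eq inc B v h e b he) hne)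
  have h2 : bd inc x = 0 := hx
  rw [h2] at h1
  exact h1.symm

/-! #### cuts, connectivity, atomicity of the restriction -/

theorem insE_incB (inc : E → Bool → V) (B : Set V) (X : Set B) :
    (insE (incB inc B) X).ncard = (insE inc (Subtype.val '' X)).ncard := by
  classical
  rw [← Set.ncard_image_of_injective (insE (incB inc B) X) Subtype.val_injective]
  congr 1
  ext e
  constructor
  · rintro ⟨e', he', rfl⟩ b
    exact ⟨_, he' b, rfl⟩
  · intro he
    have hB : e ∈ insE inc B := by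
      intro b
      obtain ⟨v, _, hv⟩ := he b
      rw [← hv]
      exact v.2
    refine ⟨⟨e, hB⟩, fun b => ?_, rfl⟩
    obtain ⟨v, hvX, hv⟩ := he b
    have : incB inc B ⟨e, hB⟩ b = v := Subtype.ext hv.symm
    rw [this]
    exact hvX

theorem cut_ports [Fintype V] [Fintype E] (inc : E → Bool → V) (B : Set V) (X : Set B)
    (h3 : ∀ v ∈ B, deg inc v = 3) :
    (cutE (incB inc B) X).ncard + ports (incB inc B) X = (cutE inc (Subtype.val '' X)).ncard := by
  classical
  have e1 := half_ncard inc (Subtype.val '' X) (by rintro _ ⟨v, _, rfl⟩; exact h3 v.1 v.2)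
  have e2 := half_eq inc (Subtype.val '' X)
  have e3 := half_eq (incB inc B) X
  have e4 := insE_incB inc B X
  have e5 : (Subtype.val '' X).ncard = X.ncard := Set.ncard_image_of_injective X Subtype.val_injective
  have e6 := half_le (incB inc B) X (fun v _ => (deg_incB_le inc B v).trans (h3 v.1 v.2).le)
  have e7 : ports (incB inc B) X = 3 * X.ncard - (half (incB inc B) X).ncard := rfl
  omega

theorem ports_univ [Fintype V] [Fintype E] (inc : E → Bool → V) (B : Set V)
    (h3 : ∀ v ∈ B, deg inc v = 3) :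
    ports (incB inc B) Set.univ = (cutE inc B).ncard := by
  classical
  have h := cut_ports inc B Set.univ h3
  have h1 : cutE (incB inc B) Set.univ = ∅ := by
    ext e
    constructor
    · rintro ⟨b, _, hb⟩
      exact absurd (Set.mem_univ _) hb
    · intro h; exact absurd h (Set.notMem_empty _)
  rw [h1, Set.ncard_empty, zero_add] at h
  rw [h]
  congr 2
  ext v
  constructor
  · rintro ⟨w, _, rfl⟩; exact w.2
  · intro hv; exact ⟨⟨v, hv⟩, Set.mem_univ _, rfl⟩

theorem atomic_incB [Fintype V] [Fintype E] {inc : E → Bool → V} {K B : Set V}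
    (h : IsAtom inc K B) (h3 : ∀ v ∈ K, deg inc v = 3) : Atomic (incB inc B) := by
  classical
  have h3B : ∀ v ∈ B, deg inc v = 3 := fun v hv => h3 v (h.sub hv)
  have hcardB : Nat.card B = B.ncard := Nat.card_coe_set_eq B
  refine ⟨fun v => (deg_incB_le inc B v).trans (h3B v.1 v.2).le, ?_, ?_⟩
  · rw [ports_univ inc B h3B, hcardB]
    exact h.cut
  · intro X hX hXu
    rw [cut_ports inc B X h3B]
    have := h.min (Subtype.val '' X) (hX.image _) ?_
    · rwa [Set.ncard_image_of_injective X Subtype.val_injective] at this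
    · refine ⟨?_, fun hsub => hXu ?_⟩
      · rintro _ ⟨v, _, rfl⟩; exact v.2
      · ext v
        constructor
        · intro _; exact Set.mem_univ _
        · intro _
          obtain ⟨w, hw, hwv⟩ := hsub v.2
          rwa [← Subtype.ext hwv]

theorem lconn_image (inc : E → Bool → V) (B : Set V) (Q : Set B) (h : LConn (incB inc B) Q) :
    LConn inc (Subtype.val '' Q) := by
  intro U hU
  rintro _ ⟨u, hu, rfl⟩ _ ⟨v, hv, rfl⟩
  exact h (fun w => U w.1) (fun e h1 h2 => hU e.1 ⟨_, h1, rfl⟩ ⟨_, h2, rfl⟩) u hu v hv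

theorem far_image (inc : E → Bool → V) (B : Set V) (X Y : Set B) (h : Far (incB inc B) X Y) :
    Far inc (Subtype.val '' X) (Subtype.val '' Y) := by
  refine ⟨(Set.disjoint_image_iff Subtype.val_injective).mpr h.1, ?_⟩
  rintro e b ⟨u, hu, huv⟩ ⟨w, hw, hwv⟩
  have he : e ∈ insE inc B := by
    intro c
    by_cases hc : c = b
    · subst hc; rw [← huv]; exact u.2
    · have : c = !b := by revert hc; clear * -; revert b c; decide
      subst this; rw [← hwv]; exact w.2
  have h1 : incB inc B ⟨e, he⟩ b = u := Subtype.ext huv.symm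
  have h2 : incB inc B ⟨e, he⟩ (!b) = w := Subtype.ext hwv.symm
  have := h.2 ⟨e, he⟩ b (h1 ▸ hu)
  rw [h2] at this
  exact this hw

theorem even_image [Fintype E] (inc : E → Bool → V) (B : Set V) [Fintype (insE inc B)]
    (Q : Set B) (h : ∃ z ∈ cyc (incB inc B), z ≠ 0 ∧ Inside (incB inc B) Q z) :
    ∃ z ∈ cyc inc, z ≠ 0 ∧ Inside inc (Subtype.val '' Q) z := by
  obtain ⟨z, hz, hz0, hin⟩ := h
  refine ⟨ext0 _ z, ext0_cyc inc B hz, ?_, ?_⟩
  · intro h0
    rw [← ext0_zero (insE inc B)] at h0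
    exact hz0 (ext0_inj h0)
  · intro e he b
    by_cases hB : e ∈ insE inc B
    · rw [ext0_of_mem _ hB] at he
      exact ⟨_, hin ⟨e, hB⟩ he b, rfl⟩
    · exact absurd (ext0_of_notMem _ hB) he

/-! ### averaging over cosets -/

theorem avg {Ω Γ : Type} (C : Finset Ω) (D : Finset Γ) (φ : Γ → Ω → Ω)
    (hφ : ∀ w ∈ D, ∀ x ∈ C, φ w x ∈ C) (hinv : ∀ w ∈ D, ∀ x, φ w (φ w x) = x)
    (P : Ω → Prop) [DecidablePred P] (θ : ℝ)
    (h : ∀ x ∈ C, ((D.filter fun w => P (φ w x)).card : ℝ) ≤ θ * (D.card : ℝ))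
    (hD : D.Nonempty) : ((C.filter fun x => P x).card : ℝ) ≤ θ * (C.card : ℝ) := by
  classical
  have h1 : ∀ w ∈ D, (C.filter fun x => P (φ w x)).card = (C.filter fun x => P x).card := by
    intro w hw
    refine Finset.card_nbij' (φ w) (φ w) ?_ ?_ ?_ ?_
    · intro x hx
      simp only [Finset.coe_filter, Set.mem_ofPred_eq] at hx ⊢
      exact ⟨hφ w hw x hx.1, hx.2⟩
    · intro x hx
      simp only [Finset.coe_filter, Set.mem_ofPred_eq] at hx ⊢
      exact ⟨hφ w hw x hx.1, by rw [hinv w hw]; exact hx.2⟩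
    · intro x _; exact hinv w hw x
    · intro x _; exact hinv w hw x
  have h2 : ∑ x ∈ C, (D.filter fun w => P (φ w x)).card =
      ∑ w ∈ D, (C.filter fun x => P (φ w x)).card := by
    simp_rw [Finset.card_filter]
    exact Finset.sum_comm
  have h3 : ∑ w ∈ D, (C.filter fun x => P (φ w x)).card = D.card * (C.filter fun x => P x).card := by
    rw [Finset.sum_congr rfl h1, Finset.sum_const, smul_eq_mul]
  have h4 : (D.card : ℝ) * ((C.filter fun x => P x).card : ℝ) ≤ (D.card : ℝ) * (θ * C.card) := by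
    calc (D.card : ℝ) * ((C.filter fun x => P x).card : ℝ)
        = ∑ x ∈ C, ((D.filter fun w => P (φ w x)).card : ℝ) := by
          rw [← Nat.cast_mul, ← h3, ← h2, Nat.cast_sum]
      _ ≤ ∑ _x ∈ C, θ * (D.card : ℝ) := Finset.sum_le_sum h
      _ = (D.card : ℝ) * (θ * C.card) := by
          rw [Finset.sum_const, nsmul_eq_mul]; ring
  have hD0 : (0 : ℝ) < D.card := by exact_mod_cast hD.card_pos
  exact le_of_mul_le_mul_left h4 hD0

theorem zmod2_add_self (x : E → ZMod 2) : x + x = 0 := by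
  funext e
  exact CharTwo.add_self_eq_zero _

/-- conclusion from an estimate in every coset of the cycle space of a part -/
theorem concl_of_part [Fintype V] [Fintype E] (inc : E → Bool → V) (H : Set E) (W B : Set V)
    (hB : B ⊆ Wᶜ) (h3 : ∀ v ∈ B, deg inc v = 3) [Fintype (insE inc B)] (θ : ℝ)
    (h : ∀ y0 : insE inc B → ZMod 2, (∀ v, deg (incB inc B) v = 3 → bd (incB inc B) y0 v = 0) →
      ({w | w ∈ cyc (incB inc B) ∧ ¬ ∃ z ∈ cyc (incB inc B), z ≠ 0 ∧ SubV z (y0 + w)}.ncard : ℝ) ≤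
        θ * ((cyc (incB inc B) : Set (insE inc B → ZMod 2)).ncard : ℝ)) :
    Concl inc H W θ := by
  classical
  unfold Concl
  have e1 : {x | x ∈ cyc inc ∧ ¬ Bad inc H W x}.ncard =
      ((cyc inc : Set (E → ZMod 2)).toFinset.filter fun x => ¬ Bad inc H W x).card := by
    rw [Set.ncard_eq_toFinset_card']
    congr 1
    ext x
    simp
  rw [e1, Set.ncard_eq_toFinset_card' (cyc inc : Set (E → ZMod 2))]
  refine avg _ (cyc (incB inc B) : Set (insE inc B → ZMod 2)).toFinset
    (fun w x => x + ext0 _ w) ?_ ?_ _ θ ?_ ?_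
  · intro w hw x hx
    simp only [Set.mem_toFinset, SetLike.mem_coe] at hw hx ⊢
    exact Submodule.add_mem _ hx (ext0_cyc inc B hw)
  · intro w _ x
    show x + ext0 _ w + ext0 _ w = x
    rw [add_assoc, zmod2_add_self, add_zero]
  · intro x hx
    simp only [Set.mem_toFinset, SetLike.mem_coe] at hx
    have hy := h (fun e => x e.1) (fun v hv => bd_restrict inc B hx v (by
      rw [hv, h3 v.1 v.2]))
    rw [Set.ncard_eq_toFinset_card' (cyc (incB inc B) : Set (insE inc B → ZMod 2))] at hy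
    refine le_trans ?_ hy
    rw [Set.ncard_eq_toFinset_card']
    refine Nat.cast_le.mpr (Finset.card_le_card ?_)
    intro w hw
    simp only [Finset.mem_filter, Set.mem_toFinset, SetLike.mem_coe] at hw
    simp only [Set.mem_toFinset]
    refine ⟨hw.1, ?_⟩
    rintro ⟨z, hz, hz0, hsub⟩
    apply hw.2
    right
    refine ⟨ext0 _ z, ext0_cyc inc B hz, ?_, ?_, ?_⟩
    · intro h0
      rw [← ext0_zero (insE inc B)] at h0
      exact hz0 (ext0_inj h0)
    · intro e he
      by_cases hin : e ∈ insE inc B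
      · rw [ext0_of_mem _ hin] at he
        have := hsub _ he
        rw [Pi.add_apply, ext0_of_mem _ hin]
        exact this
      · exact absurd (ext0_of_notMem _ hin) he
    · intro e he b
      by_cases hin : e ∈ insE inc B
      · exact hB (hin b)
      · exact absurd (ext0_of_notMem _ hin) he
  · exact ⟨0, by simp⟩

theorem circIn_mono [Fintype E] {inc : E → Bool → V} {X Y : Set V} (hXY : X ⊆ Y) {x : E → ZMod 2}
    (h : CircIn inc X x) : CircIn inc Y x := by
  obtain ⟨z, hz, hz0, hs, hi⟩ := h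
  exact ⟨z, hz, hz0, hs, fun e he b => hXY (hi e he b)⟩

/-- conclusion from a family of pieces avoiding `W` -/
theorem concl_of_family [Fintype V] [Fintype E] (inc : E → Bool → V) (H : Set E) (W : Set V)
    (F : Set (Set V)) (hF : ∀ X ∈ F, X ⊆ Wᶜ) (θ : ℝ)
    (h : ({x | x ∈ cyc inc ∧ ∀ X ∈ F, ¬ CircIn inc X x}.ncard : ℝ) ≤
      θ * ((cyc inc : Set (E → ZMod 2)).ncard : ℝ)) : Concl inc H W θ := by
  unfold Concl
  refine le_trans (Nat.cast_le.mpr (Set.ncard_le_ncard ?_ (Set.toFinite _))) h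
  rintro x ⟨hx, hb⟩
  refine ⟨hx, fun X hX hc => hb ?_⟩
  right
  exact circIn_mono (hF X hX) hc

theorem concl_mono [Fintype V] [Fintype E] {inc : E → Bool → V} {H : Set E} {W : Set V}
    {θ θ' : ℝ} (h : Concl inc H W θ) (hθ : θ ≤ θ') : Concl inc H W θ' := by
  unfold Concl at *
  refine h.trans ?_
  gcongr

/-! ### the cubic part -/

theorem edges_outside [Fintype V] [Fintype E] (inc : E → Bool → V) (H : Set E) (m : ℕ)
    (hk : Module.finrank (ZMod 2) (cycOn inc H) + m ≤ Module.finrank (ZMod 2) (cyc inc)) :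
    m ≤ (Hᶜ).ncard := by
  classical
  let r : cyc inc →ₗ[ZMod 2] ((Hᶜ : Set E) → ZMod 2) :=
    { toFun := fun x e => x.1 e.1
      map_add' := fun _ _ => rfl
      map_smul' := fun _ _ => rfl }
  have h1 := LinearMap.finrank_range_add_finrank_ker r
  have h2 : Module.finrank (ZMod 2) (LinearMap.range r) ≤ (Hᶜ).ncard := by
    refine le_trans (Submodule.finrank_le _) ?_
    rw [Module.finrank_fintype_fun_eq_card, Set.ncard_eq_toFinset_card', Set.toFinset_card]
  have h3 : Module.finrank (ZMod 2) (LinearMap.ker r) ≤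
      Module.finrank (ZMod 2) (cycOn inc H) := by
    let j : LinearMap.ker r →ₗ[ZMod 2] cycOn inc H :=
      { toFun := fun x => ⟨x.1.1, x.1.2, fun e he => congrFun (LinearMap.mem_ker.mp x.2) ⟨e, he⟩⟩
        map_add' := fun _ _ => rfl
        map_smul' := fun _ _ => rfl }
    refine LinearMap.finrank_le_finrank_of_injective (f := j) ?_
    intro x y hxy
    have : (j x).1 = (j y).1 := congrArg Subtype.val hxy
    exact Subtype.ext (Subtype.ext this)
  omega

/-- the cubic vertices outside `W` -/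
def cub (inc : E → Bool → V) (W : Set V) : Set V := {v | v ∉ W ∧ deg inc v = 3}

theorem deg_pos [Fintype E] {inc : E → Bool → V} {e : E} {b : Bool} : 0 < deg inc (inc e b) := by
  unfold deg
  rw [Set.ncard_pos (Set.toFinite _)]
  exact ⟨(e, b), rfl⟩

theorem mem_cub [Fintype E] {inc : E → Bool → V} {W : Set V}
    (hdeg : ∀ v, v ∉ W → deg inc v = 0 ∨ deg inc v = 3) {e : E} {b : Bool}
    (h : inc e b ∉ W) : inc e b ∈ cub inc W := by
  refine ⟨h, ?_⟩
  have := deg_pos (inc := inc) (e := e) (b := b)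
  rcases hdeg _ h with h1 | h1
  · omega
  · exact h1

theorem portsW [Fintype V] [Fintype E] (inc : E → Bool → V) (H : Set E) (W : Set V) (c : ℕ)
    (hsmall : ∀ v ∈ W, {h : E × Bool | h.1 ∉ H ∧ inc h.1 h.2 = v}.ncard ≤ c) :
    {h : E × Bool | h.1 ∉ H ∧ inc h.1 h.2 ∈ W}.ncard ≤ c * W.ncard := by
  classical
  rw [Set.ncard_eq_toFinset_card' {h : E × Bool | h.1 ∉ H ∧ inc h.1 h.2 ∈ W},
    Set.ncard_eq_toFinset_card' W]
  refine Finset.card_le_mul_card_image_of_maps_to (f := fun h : E × Bool => inc h.1 h.2) ?_ c ?_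
  · intro h hh
    have : h.1 ∉ H ∧ inc h.1 h.2 ∈ W := by simpa using hh
    simpa using this.2
  · intro v hv
    have hv' : v ∈ W := by simpa using hv
    refine le_trans (le_of_eq ?_) (hsmall v hv')
    rw [Set.ncard_eq_toFinset_card']
    congr 1
    ext h
    constructor
    · intro hh
      have h1 := Finset.mem_filter.mp hh
      have h2 : h.1 ∉ H ∧ inc h.1 h.2 ∈ W := by simpa using h1.1
      rw [Set.mem_toFinset]
      exact ⟨h2.1, h1.2⟩
    · intro hh
      rw [Set.mem_toFinset] at hh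
      obtain ⟨h1, h2⟩ := hh
      refine Finset.mem_filter.mpr ⟨?_, h2⟩
      rw [Set.mem_toFinset]
      exact ⟨h1, by rw [h2]; exact hv'⟩

theorem cub_size [Fintype V] [Fintype E] (inc : E → Bool → V) (H : Set E) (W : Set V) (c : ℕ)
    (hdeg : ∀ v, v ∉ W → deg inc v = 0 ∨ deg inc v = 3)
    (hsmall : ∀ v ∈ W, {h : E × Bool | h.1 ∉ H ∧ inc h.1 h.2 = v}.ncard ≤ c) :
    2 * (Hᶜ).ncard ≤ c * W.ncard + 3 * (cub inc W).ncard := by
  classical
  have h1 := portsW inc H W c hsmall
  have h2 := half_ncard inc (cub inc W) (fun v hv => hv.2)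
  have h3 : ((Hᶜ ×ˢ Set.univ : Set (E × Bool))).ncard = 2 * (Hᶜ).ncard := by
    rw [Set.ncard_prod, Set.ncard_univ]
    simp [mul_comm]
  rw [← h3]
  refine le_trans (Set.ncard_le_ncard (t := {h : E × Bool | h.1 ∉ H ∧ inc h.1 h.2 ∈ W} ∪
    half inc (cub inc W)) ?_ (Set.toFinite _)) ?_
  · rintro ⟨e, b⟩ ⟨he, _⟩
    by_cases hW : inc e b ∈ W
    · exact Or.inl ⟨he, hW⟩
    · exact Or.inr (mem_cub hdeg hW)
  · refine le_trans (Set.ncard_union_le _ _) ?_
    omega

theorem cub_cut [Fintype V] [Fintype E] (inc : E → Bool → V) (H : Set E) (W : Set V) (c : ℕ)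
    (hH : ∀ e ∈ H, ∀ b, inc e b ∈ W)
    (hdeg : ∀ v, v ∉ W → deg inc v = 0 ∨ deg inc v = 3)
    (hsmall : ∀ v ∈ W, {h : E × Bool | h.1 ∉ H ∧ inc h.1 h.2 = v}.ncard ≤ c) :
    (cutE inc (cub inc W)).ncard ≤ c * W.ncard := by
  classical
  refine le_trans ?_ (portsW inc H W c hsmall)
  refine le_trans (Set.ncard_le_ncard
    (t := Prod.fst '' {h : E × Bool | h.1 ∉ H ∧ inc h.1 h.2 ∈ W}) ?_ (Set.toFinite _))
    (Set.ncard_image_le (Set.toFinite _))
  rintro e ⟨b, hb1, hb2⟩
  refine ⟨(e, !b), ⟨fun he => hb1.1 (hH e he b), ?_⟩, rfl⟩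
  by_contra hW
  exact hb2 (mem_cub hdeg hW)

/-! ### maximal families of small atoms and a big atom -/

/-- pairwise far atoms of size at most `t` -/
def Fam (inc : E → Bool → V) (K : Set V) (t : ℕ) (F : Set (Set V)) : Prop :=
  (∀ X ∈ F, IsAtom inc K X ∧ X.ncard ≤ t) ∧ ∀ X ∈ F, ∀ Y ∈ F, X ≠ Y → Far inc X Y

theorem exists_fam [Fintype V] (inc : E → Bool → V) (K : Set V) (t : ℕ) :
    ∃ F, Fam inc K t F ∧ ∀ F', Fam inc K t F' → F ⊆ F' → F' ⊆ F := by
  classical
  have hne : ({F | Fam inc K t F} : Set (Set (Set V))).Nonempty :=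
    ⟨∅, fun X hX => absurd hX (Set.notMem_empty _), fun X hX => absurd hX (Set.notMem_empty _)⟩
  obtain ⟨F, hF, hmax⟩ := (Set.toFinite {F | Fam inc K t F}).exists_maximalFor id _ hne
  exact ⟨F, hF, fun F' hF' h => hmax hF' h⟩

theorem sUnion_ncard [Fintype V] (F : Set (Set V)) (t : ℕ) (h : ∀ X ∈ F, X.ncard ≤ t) :
    (⋃₀ F).ncard ≤ F.ncard * t := by
  classical
  have h1 : (⋃₀ F).toFinset = F.toFinset.biUnion (fun X => X.toFinset) := by
    ext v
    simp
  rw [Set.ncard_eq_toFinset_card', h1, Set.ncard_eq_toFinset_card' F]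
  refine Finset.card_biUnion_le_card_mul _ _ _ fun X hX => ?_
  rw [← Set.ncard_eq_toFinset_card']
  exact h X (by simpa using hX)

/-- a vertex set together with its neighbours -/
def clos (inc : E → Bool → V) (U : Set V) : Set V :=
  U ∪ (fun h : E × Bool => inc h.1 (!h.2)) '' half inc U

theorem clos_ncard [Fintype V] [Fintype E] (inc : E → Bool → V) (U : Set V)
    (h3 : ∀ v ∈ U, deg inc v = 3) : (clos inc U).ncard ≤ 4 * U.ncard := by
  classical
  have h1 := half_ncard inc U h3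
  have h2 : ((fun h : E × Bool => inc h.1 (!h.2)) '' half inc U).ncard ≤ (half inc U).ncard :=
    Set.ncard_image_le (Set.toFinite _)
  refine le_trans (Set.ncard_union_le _ _) ?_
  omega

theorem exists_big_atom [Fintype V] [Fintype E] (inc : E → Bool → V) (K : Set V) (t M : ℕ)
    (h3 : ∀ v ∈ K, deg inc v = 3) (F : Set (Set V)) (hF : Fam inc K t F)
    (hmax : ∀ F', Fam inc K t F' → F ⊆ F' → F' ⊆ F) (hM : F.ncard ≤ M)
    (hnum : ((cutE inc K).ncard + 12 * (M * t)) ^ 2 + 4 * (M * t) ≤ K.ncard)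
    (hpos : 4 * (M * t) < K.ncard) :
    ∃ B, IsAtom inc K B ∧ t < B.ncard := by
  classical
  set U : Set V := ⋃₀ F with hU
  have hUK : U ⊆ K := by
    rintro v ⟨X, hX, hv⟩
    exact (hF.1 X hX).1.sub hv
  have hUc : U.ncard ≤ M * t :=
    (sUnion_ncard F t (fun X hX => (hF.1 X hX).2)).trans (Nat.mul_le_mul_right t hM)
  set R : Set V := clos inc U with hR
  have hRc : R.ncard ≤ 4 * (M * t) := (clos_ncard inc U (fun v hv => h3 v (hUK hv))).trans (by omega)
  set K' : Set V := K \ R with hK'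
  have hK'c : K.ncard ≤ K'.ncard + R.ncard := by
    refine le_trans (Set.ncard_le_ncard (t := K' ∪ R) ?_ (Set.toFinite _)) (Set.ncard_union_le _ _)
    intro v hv
    by_cases hvR : v ∈ R
    · exact Or.inr hvR
    · exact Or.inl ⟨hv, hvR⟩
  have hcut : (cutE inc K').ncard ≤ (cutE inc K).ncard + 12 * (M * t) := by
    have hh := half_ncard inc (K ∩ R) (fun v hv => h3 v hv.1)
    have hKR : (K ∩ R).ncard ≤ R.ncard := Set.ncard_le_ncard Set.inter_subset_right (Set.toFinite _)
    have hi : (Prod.fst '' half inc (K ∩ R)).ncard ≤ (half inc (K ∩ R)).ncard :=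
      Set.ncard_image_le (Set.toFinite _)
    refine le_trans (Set.ncard_le_ncard (t := cutE inc K ∪ Prod.fst '' half inc (K ∩ R)) ?_
      (Set.toFinite _)) (le_trans (Set.ncard_union_le _ _) (by omega))
    rintro e ⟨b, hb1, hb2⟩
    by_cases hbK : inc e (!b) ∈ K
    · right
      refine ⟨(e, !b), ⟨hbK, ?_⟩, rfl⟩
      by_contra hbR
      exact hb2 ⟨hbK, hbR⟩
    · left
      exact ⟨b, hb1.1, hbK⟩
  have hne : K'.Nonempty := by
    rw [← Set.ncard_pos (Set.toFinite _)]
    omega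
  obtain ⟨B, hB⟩ := exists_atom inc K' hne (by
    have := Nat.pow_le_pow_left hcut 2
    omega)
  refine ⟨B, atom_mono hB Set.sdiff_subset, ?_⟩
  by_contra hBt
  push Not at hBt
  have hBR : ∀ v ∈ B, v ∉ R := fun v hv => (hB.sub hv).2
  have hfar1 : ∀ X ∈ F, Far inc B X := by
    intro X hX
    refine ⟨Set.disjoint_left.mpr fun v hv hvX => hBR v hv (Or.inl ⟨X, hX, hvX⟩), ?_⟩
    intro e b hb hb'
    refine hBR _ hb (Or.inr ⟨(e, !b), ⟨X, hX, hb'⟩, ?_⟩)
    simp
  have hfar2 : ∀ X ∈ F, Far inc X B := by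
    intro X hX
    refine ⟨(hfar1 X hX).1.symm, ?_⟩
    intro e b hb hb'
    exact hBR _ hb' (Or.inr ⟨(e, b), ⟨X, hX, hb⟩, rfl⟩)
  have hF' : Fam inc K t (insert B F) := by
    refine ⟨?_, ?_⟩
    · rintro X (rfl | hX)
      · exact ⟨atom_mono hB Set.sdiff_subset, hBt⟩
      · exact hF.1 X hX
    · rintro X (rfl | hX) Y (rfl | hY) hne
      · exact absurd rfl hne
      · exact hfar1 Y hY
      · exact hfar2 X hX
      · exact hF.2 X hX Y hY hne
  have hBF := hmax _ hF' (Set.subset_insert _ _) (Set.mem_insert _ _)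
  obtain ⟨v, hv⟩ := hB.ne
  exact hBR v hv (Or.inl ⟨B, hBF, hv⟩)

/-! ### numerics -/

theorem num_w {Y w : ℕ} (hw : 2 ^ 2 ^ Y ≤ w) : 2 ^ Y ≤ Nat.log 2 w := by
  have := Nat.log_mono_right (b := 2) hw
  rwa [Nat.log_pow (by norm_num)] at this

theorem num_y {Y L : ℕ} (hL : 2 ^ Y ≤ L) : Y ≤ Nat.log 2 L := by
  have := Nat.log_mono_right (b := 2) hL
  rwa [Nat.log_pow (by norm_num)] at this

theorem succ_le_two_pow (s : ℕ) : s + 1 ≤ 2 ^ s := Nat.lt_two_pow_self

theorem sq_le_two_pow {s : ℕ} (hs : 4 ≤ s) : s ^ 2 ≤ 2 ^ s := by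
  induction s, hs using Nat.le_induction with
  | base => norm_num
  | succ n hn ih =>
    rw [pow_succ 2 n]
    nlinarith

/-- `y ≤ 2^(s+2)` for `y = log₂ L`, `s = L / 20` -/
theorem num_ys {L : ℕ} (hL : 20 ≤ L) : Nat.log 2 L ≤ 2 ^ (L / 20 + 2) := by
  have h1 : 2 ^ Nat.log 2 L ≤ L := Nat.pow_log_le_self 2 (by omega)
  have h2 : L < 20 * (L / 20 + 1) := by omega
  have h3 := succ_le_two_pow (L / 20)
  have h4 : 1 ≤ L / 20 := by omega
  have h5 : 2 ^ Nat.log 2 L < 2 ^ (L / 20 + 5) := by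
    rw [pow_add]
    omega
  have h6 : Nat.log 2 L < L / 20 + 5 := (Nat.pow_lt_pow_iff_right (by norm_num)).mp h5
  rw [pow_add]
  omega

theorem num_K {w s c K : ℕ} (hs : 40 ≤ s) (hw : 2 ^ (20 * s) ≤ w) (hc : c ≤ 31 * w)
    (hK : 2 * w ^ 3 ≤ 31 * w + 3 * K) :
    (c + 12 * (2 ^ (4 * s + 4) * s ^ 2)) ^ 2 + 4 * (2 ^ (4 * s + 4) * s ^ 2) ≤ K ∧
      4 * (2 ^ (4 * s + 4) * s ^ 2) < K := by
  obtain ⟨z, hz⟩ : ∃ z, z = 2 ^ (5 * s) := ⟨_, rfl⟩
  have hz4 : z ^ 4 ≤ w := by
    rw [hz, ← pow_mul]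
    calc 2 ^ (5 * s * 4) = 2 ^ (20 * s) := by ring_nf
      _ ≤ w := hw
  have hzbig : 10 ^ 4 ≤ z := by
    rw [hz]
    calc 10 ^ 4 ≤ 2 ^ 14 := by norm_num
      _ ≤ 2 ^ (5 * s) := Nat.pow_le_pow_right (by norm_num) (by omega)
  have hMt : 2 ^ (4 * s + 4) * s ^ 2 ≤ 16 * z := by
    have h1 := sq_le_two_pow (s := s) (by omega)
    calc 2 ^ (4 * s + 4) * s ^ 2 ≤ 2 ^ (4 * s + 4) * 2 ^ s := Nat.mul_le_mul_left _ h1
      _ = 16 * z := by rw [hz, ← pow_add]; ring_nf
  obtain ⟨m, hm⟩ : ∃ m, m = 2 ^ (4 * s + 4) * s ^ 2 := ⟨_, rfl⟩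
  rw [← hm] at hMt ⊢
  have hzz : 200 * z ≤ w := by
    have : 200 * z ≤ z ^ 4 := by
      have : z ^ 4 = z ^ 3 * z := by ring
      rw [this]
      refine Nat.mul_le_mul_right z ?_
      calc 200 ≤ (10 ^ 4) ^ 3 := by norm_num
        _ ≤ z ^ 3 := Nat.pow_le_pow_left hzbig 3
    omega
  have h12 : 12 * m ≤ w := by omega
  have hwbig : 2000 ≤ w := by omega
  have h1 : (c + 12 * m) ^ 2 ≤ (32 * w) ^ 2 := Nat.pow_le_pow_left (by omega) 2
  have h2 : 3072 * w ^ 2 + 40 * w ≤ 2 * w ^ 3 := by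
    have e1 : w ^ 3 = w * w ^ 2 := by ring
    have e2 : w ^ 2 = w * w := by ring
    have e3 : 2000 * w ^ 2 ≤ w ^ 3 := by rw [e1]; exact Nat.mul_le_mul_right _ hwbig
    have e4 : w ≤ w ^ 2 := Nat.le_self_pow (by norm_num) w
    omega
  have h3 : (32 * w) ^ 2 = 1024 * w ^ 2 := by ring
  constructor <;> omega

theorem num_B {L b Y : ℕ} (hY : 700 ≤ Y) (hyY : Y ≤ Nat.log 2 L) (hL : 20 ≤ L)
    (hb : (L / 20) ^ 2 < b) :
    Nat.log 2 L ≤ Nat.log 2 b ∧ Nat.log 2 L ≤ 2 ^ (3 * (Nat.log 2 b / 200) + 2) ∧ Y ≤ b := by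
  have h1 : 2 ^ Nat.log 2 L ≤ L := Nat.pow_log_le_self 2 (by omega)
  obtain ⟨y, hy⟩ : ∃ y, y = Nat.log 2 L := ⟨_, rfl⟩
  rw [← hy] at h1 hyY ⊢
  obtain ⟨s, hs⟩ : ∃ s, s = L / 20 := ⟨_, rfl⟩
  have hLs : L ≤ 40 * s := by omega
  rw [← hs] at hb
  have h2 : 2 ^ (2 * y) < 2 ^ 11 * b := by
    calc 2 ^ (2 * y) = (2 ^ y) ^ 2 := by rw [← pow_mul, mul_comm]
      _ ≤ (40 * s) ^ 2 := Nat.pow_le_pow_left (h1.trans hLs) 2
      _ = 1600 * s ^ 2 := by ring
      _ < 2 ^ 11 * b := by omega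
  have h3 : 2 ^ (2 * y - 11) ≤ b := by
    have : 2 ^ (2 * y) = 2 ^ 11 * 2 ^ (2 * y - 11) := by
      rw [← pow_add]
      congr 1
      omega
    rw [this] at h2
    exact (Nat.lt_of_mul_lt_mul_left h2).le
  have h4 : 2 * y - 11 ≤ Nat.log 2 b := by
    have := Nat.log_mono_right (b := 2) h3
    rwa [Nat.log_pow (by norm_num)] at this
  have h5 : y ≤ Nat.log 2 b := by omega
  refine ⟨h5, ?_, ?_⟩
  · obtain ⟨a, ha⟩ : ∃ a, a = Nat.log 2 b / 200 := ⟨_, rfl⟩
    rw [← ha]
    have ha3 : 3 ≤ a := by omega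
    have h6 : Nat.log 2 b < 200 * (a + 1) := by omega
    have h7 : 200 * (a + 1) ≤ 2 ^ (3 * a + 2) := by
      clear * - ha3
      induction a, ha3 using Nat.le_induction with
      | base => norm_num
      | succ n hn ih =>
        have : 2 ^ (3 * (n + 1) + 2) = 8 * 2 ^ (3 * n + 2) := by
          rw [show 3 * (n + 1) + 2 = 3 + (3 * n + 2) by ring, pow_add]
          norm_num
        omega
    omega
  · have h6 : y < 2 ^ y := Nat.lt_two_pow_self
    have h7 : 2 ^ y ≤ 2 ^ (2 * y - 11) := Nat.pow_le_pow_right (by norm_num) (by omega)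
    omega

theorem num_frac {p q y : ℕ} {F : ℕ} (hF : 2 ^ (p + q) ≤ F) (hy : y ≤ 2 ^ q) (hy0 : 0 < y) :
    (2 : ℝ) ^ p / (F : ℝ) ≤ 1 / (y : ℝ) := by
  have hF' : (2 : ℝ) ^ (p + q) ≤ F := by exact_mod_cast hF
  have hy' : (y : ℝ) ≤ 2 ^ q := by exact_mod_cast hy
  have hy0' : (0 : ℝ) < y := by exact_mod_cast hy0
  have hp : (0 : ℝ) < 2 ^ p := by positivity
  have hFpos : (0 : ℝ) < F := lt_of_lt_of_le (by positivity) hF'
  rw [div_le_div_iff₀ hFpos hy0']
  calc (2 : ℝ) ^ p * y ≤ 2 ^ p * 2 ^ q := by gcongr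
    _ = 2 ^ (p + q) := by rw [pow_add]
    _ ≤ F := hF'
    _ = 1 * F := by ring

end KeyAux

end Pool.Agent.Bondy
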