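import Pool.Agent.Bondy.KeyAux

/-! # The key lemma, from the four black boxes (helper8) -/

set_option autoImplicit false

namespace Pool.Agent.Bondy

open Set KeyAux

theorem key_core
    (mpl : ∀ {V E : Type} [Fintype V] [Fintype E] (inc : E → Bool → V) (s : ℕ) (F : Set (Set V)),
      F.Nonempty → (∀ X ∈ F, ∀ Y ∈ F, X ≠ Y → Far inc X Y) →
      (∀ X ∈ F, LConn inc X) → (∀ X ∈ F, (cutE inc X).ncard ≤ s) →
      (∀ X ∈ F, ∃ z ∈ cyc inc, z ≠ 0 ∧ Inside inc X z) →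
      ({x | x ∈ cyc inc ∧ ∀ X ∈ F, ¬ CircIn inc X x}.ncard : ℝ) ≤
        (1 / 2 + 2 ^ (3 * s + 2) / (F.ncard : ℝ)) * ((cyc inc : Set (E → ZMod 2)).ncard : ℝ))
    (reduction : ∀ (θ : ℝ), 1 / 2 ≤ θ → ∀ (w k : ℕ),
      (∀ (V E : Type) [Fintype V] [Fintype E] (inc : E → Bool → V) (H : Set E) (W : Set V),
        (∀ e ∈ H, ∀ b, inc e b ∈ W) → W.ncard = w →
        Module.finrank (ZMod 2) (cycOn inc H) + k ≤ Module.finrank (ZMod 2) (cyc inc) →
        Reduced inc W → Concl inc H W θ) →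
      ∀ (V E : Type) [Fintype V] [Fintype E] (inc : E → Bool → V) (H : Set E) (W : Set V),
        (∀ e ∈ H, ∀ b, inc e b ∈ W) → W.ncard = w →
        Module.finrank (ZMod 2) (cycOn inc H) + k ≤ Module.finrank (ZMod 2) (cyc inc) →
        Concl inc H W θ)
    (big_degree : ∀ {V E : Type} [Fintype V] [Fintype E] (inc : E → Bool → V) (H : Set E)
      (W : Set V), (∀ e, ∃ x ∈ cyc inc, x e ≠ 0) → ∀ v, v ∈ W →
      32 ≤ {h : E × Bool | h.1 ∉ H ∧ inc h.1 h.2 = v}.ncard → Concl inc H W (1 / 2))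
    (expander_lemma : ∃ N0 : ℕ, ∀ (V E : Type) [Fintype V] [Fintype E] (inc : E → Bool → V),
      N0 ≤ Nat.card V → Atomic inc →
      (∀ F : Set (Set V), (∀ Q ∈ F, Short inc (Nat.log 2 (Nat.card V) / 200) Q) →
        (∀ X ∈ F, ∀ Y ∈ F, X ≠ Y → Far inc X Y) →
        F.ncard ≤ 2 ^ (12 * (Nat.log 2 (Nat.card V) / 200) + 4)) →
      ∀ y0 : E → ZMod 2, (∀ v, deg inc v = 3 → bd inc y0 v = 0) →
        ({w | w ∈ cyc inc ∧ ¬ ∃ z ∈ cyc inc, z ≠ 0 ∧ SubV z (y0 + w)}.ncard : ℝ) ≤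
          (1 / 2 + 1 / (Nat.log 2 (Nat.card V) : ℝ)) *
            ((cyc inc : Set (E → ZMod 2)).ncard : ℝ)) :
    ∃ w0 : ℕ, ∀ (V E : Type) [Fintype V] [Fintype E] (inc : E → Bool → V)
    (H : Set E) (W : Set V), (∀ e ∈ H, ∀ b, inc e b ∈ W) → w0 ≤ W.ncard →
    Module.finrank (ZMod 2) (cycOn inc H) + W.ncard ^ 3 ≤ Module.finrank (ZMod 2) (cyc inc) →
    Concl inc H W (1 / 2 + 1 / (Nat.log 2 (Nat.log 2 W.ncard) : ℝ)) := by
  classical
  obtain ⟨N0, hexp⟩ := expander_lemma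
  obtain ⟨Y, hY0, hY1⟩ : ∃ Y, N0 ≤ Y ∧ 700 ≤ Y := ⟨max N0 700, le_max_left _ _, le_max_right _ _⟩
  refine ⟨2 ^ 2 ^ Y, ?_⟩
  intro V E _ _ inc H W hH hw0 hk
  obtain ⟨w, hwdef⟩ : ∃ w, w = W.ncard := ⟨_, rfl⟩
  rw [← hwdef] at hw0 hk ⊢
  obtain ⟨L, hL⟩ : ∃ L, L = Nat.log 2 w := ⟨_, rfl⟩
  have hYL : 2 ^ Y ≤ L := hL ▸ num_w hw0
  have hYy : Y ≤ Nat.log 2 L := num_y hYL
  have hwL : 2 ^ L ≤ w := by
    rw [hL]
    refine Nat.pow_log_le_self 2 ?_
    have : 0 < 2 ^ 2 ^ Y := by positivity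
    omega
  have hL800 : 2 ^ 10 ≤ L := (Nat.pow_le_pow_right (by norm_num) (by omega)).trans hYL
  norm_num at hL800
  obtain ⟨y, hy⟩ : ∃ y, y = Nat.log 2 L := ⟨_, rfl⟩
  obtain ⟨s, hs⟩ : ∃ s, s = L / 20 := ⟨_, rfl⟩
  rw [← hL, ← hy]
  have hy0 : 0 < y := by omega
  have hθ : (0 : ℝ) ≤ 1 / (y : ℝ) := by positivity
  refine reduction _ (by linarith) w (w ^ 3) ?_ V E inc H W hH hwdef.symm hk
  clear hk hwdef hH W H inc
  intro V E _ _ inc H W hH hw hk hR
  by_cases hbig : ∃ v ∈ W, 32 ≤ {h : E × Bool | h.1 ∉ H ∧ inc h.1 h.2 = v}.ncard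
  · obtain ⟨v, hv, h⟩ := hbig
    exact concl_mono (big_degree inc H W hR.1 v hv h) (by linarith)
  push Not at hbig
  have hsmall : ∀ v ∈ W, {h : E × Bool | h.1 ∉ H ∧ inc h.1 h.2 = v}.ncard ≤ 31 := by
    intro v hv
    have := hbig v hv
    omega
  have hdeg := hR.2
  have h3 : ∀ v ∈ cub inc W, deg inc v = 3 := fun v hv => hv.2
  have hcW : cub inc W ⊆ Wᶜ := fun v hv => hv.1
  have hm := edges_outside inc H _ hk
  have hK := cub_size inc H W 31 hdeg hsmall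
  have hc := cub_cut inc H W 31 hH hdeg hsmall
  rw [hw] at hK hc
  have hw20 : 2 ^ (20 * s) ≤ w := (Nat.pow_le_pow_right (by norm_num) (by omega)).trans hwL
  obtain ⟨hnum1, hnum2⟩ := num_K (c := (cutE inc (cub inc W)).ncard) (K := (cub inc W).ncard)
    (show 40 ≤ s by omega) hw20 hc (by omega)
  obtain ⟨F, hF, hmax⟩ := exists_fam inc (cub inc W) (s ^ 2)
  by_cases hFM : 2 ^ (4 * s + 4) ≤ F.ncard
  · -- many small atoms
    have hne : F.Nonempty := by
      rw [← Set.ncard_pos (Set.toFinite _)]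
      have : 0 < 2 ^ (4 * s + 4) := by positivity
      omega
    have hmp := mpl inc s F hne hF.2 (fun X hX => atom_lconn (hF.1 X hX).1) (fun X hX => by
      have h1 := (hF.1 X hX).1.cut
      have h2 := (hF.1 X hX).2
      exact (Nat.pow_le_pow_iff_left (by norm_num)).mp (h1.trans h2))
      (fun X hX => atom_even (hF.1 X hX).1 h3)
    refine concl_mono (concl_of_family inc H W F (fun X hX => (hF.1 X hX).1.sub.trans hcW) _ hmp) ?_
    have := num_frac (p := 3 * s + 2) (q := s + 2) (y := y) (F := F.ncard) ?_ ?_ hy0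
    · linarith
    · have : 3 * s + 2 + (s + 2) = 4 * s + 4 := by ring
      rw [this]
      exact hFM
    · rw [hy, hs]
      exact num_ys (by omega)
  push Not at hFM
  obtain ⟨B, hB, hBt⟩ := exists_big_atom inc (cub inc W) (s ^ 2) (2 ^ (4 * s + 4)) h3 F hF hmax
    hFM.le hnum1 hnum2
  have hBW : B ⊆ Wᶜ := hB.sub.trans hcW
  have h3B : ∀ v ∈ B, deg inc v = 3 := fun v hv => h3 v (hB.sub hv)
  have hcardB : Nat.card B = B.ncard := Nat.card_coe_set_eq B
  obtain ⟨hb1, hb2, hb3⟩ := num_B (L := L) (b := B.ncard) hY1 hYy (by omega) (by rw [← hs]; exact hBt)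
  rw [← hy] at hb1 hb2
  obtain ⟨a, ha⟩ : ∃ a, a = Nat.log 2 B.ncard / 200 := ⟨_, rfl⟩
  rw [← ha] at hb2
  by_cases hfam : ∀ F : Set (Set B), (∀ Q ∈ F, Short (incB inc B) a Q) →
      (∀ X ∈ F, ∀ Y ∈ F, X ≠ Y → Far (incB inc B) X Y) → F.ncard ≤ 2 ^ (12 * a + 4)
  · -- the expander lemma
    have hE := hexp B (insE inc B) (incB inc B) (by rw [hcardB]; omega) (atomic_incB hB h3)
      (by rw [hcardB, ← ha]; exact hfam)
    rw [hcardB] at hE
    refine concl_mono (concl_of_part inc H W B hBW h3B _ hE) ?_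
    have : (1 : ℝ) / (Nat.log 2 B.ncard : ℝ) ≤ 1 / (y : ℝ) :=
      one_div_le_one_div_of_le (by exact_mod_cast hy0) (by exact_mod_cast hb1)
    linarith
  · -- many short pieces
    push Not at hfam
    obtain ⟨F', hF'1, hF'2, hF'3⟩ := hfam
    let F2 : Set (Set V) := (fun Q : Set B => Subtype.val '' Q) '' F'
    have hinj : Function.Injective (fun Q : Set B => (Subtype.val '' Q : Set V)) :=
      Set.image_injective.mpr Subtype.val_injective
    have hF2c : F2.ncard = F'.ncard := Set.ncard_image_of_injective F' hinj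
    have hne : F2.Nonempty := by
      rw [← Set.ncard_pos (Set.toFinite _), hF2c]
      exact lt_of_le_of_lt (Nat.zero_le _) hF'3
    have hmp := mpl inc (3 * a) F2 hne ?_ ?_ ?_ ?_
    · refine concl_mono (concl_of_family inc H W F2 ?_ _ hmp) ?_
      · rintro _ ⟨Q, _, rfl⟩
        rintro _ ⟨v, _, rfl⟩
        exact hBW v.2
      have := num_frac (p := 3 * (3 * a) + 2) (q := 3 * a + 2) (y := y) (F := F2.ncard) ?_ hb2 hy0
      · linarith
      · rw [hF2c]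
        have : 3 * (3 * a) + 2 + (3 * a + 2) = 12 * a + 4 := by ring
        rw [this]
        exact hF'3.le
    · rintro _ ⟨X, hX, rfl⟩ _ ⟨X', hX', rfl⟩ hne
      exact far_image inc B X X' (hF'2 X hX X' hX' (fun h => hne (by rw [h])))
    · rintro _ ⟨X, hX, rfl⟩
      exact lconn_image inc B X (hF'1 X hX).1
    · rintro _ ⟨X, hX, rfl⟩
      have e1 := half_ncard inc (Subtype.val '' X) (by rintro _ ⟨v, _, rfl⟩; exact h3B v.1 v.2)
      have e2 := half_eq inc (Subtype.val '' X)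
      have e5 : (Subtype.val '' X).ncard = X.ncard :=
        Set.ncard_image_of_injective X Subtype.val_injective
      have e6 : X.ncard ≤ a := (hF'1 X hX).2.1
      show (cutE inc (Subtype.val '' X)).ncard ≤ 3 * a
      rw [e5] at e1
      omega
    · rintro _ ⟨X, hX, rfl⟩
      exact even_image inc B X (hF'1 X hX).2.2

end Pool.Agent.Bondy
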