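import Mathlib

/-! # Module LEVELS: the purely numerical part of the lower bound for pancyclic graphs

One bit is lost on every level of the tower of thresholds `thr`.
-/

set_option autoImplicit false

namespace Pool.Agent.Bondy

/-- the thresholds -/
def thr (t0 : ℕ) : ℕ → ℕ
  | 0 => t0
  | j + 1 => 2 ^ (thr t0 j) ^ 4

theorem lev_mono {K : ℕ} {ρ : ℕ → ℕ} (h1 : ∀ k < K, ρ k < ρ (k + 1)) {i k : ℕ}
    (hik : i ≤ k) (hkK : k ≤ K) : ρ i ≤ ρ k := by
  induction k, hik using Nat.le_induction with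
  | base => exact le_rfl
  | succ k hik ih => exact (ih (by omega)).trans (h1 k (by omega)).le

theorem lev_A {K : ℕ} {v ρ : ℕ → ℕ} (h1 : ∀ k < K, ρ k < ρ (k + 1))
    (h3 : ∀ i k, i ≤ k → k < K → v (k + 1) ≤ v k + 2 ^ (ρ k - ρ i) * (v i + 1) + 3)
    {i k : ℕ} (hik : i ≤ k) (hkK : k ≤ K) : v k ≤ 2 ^ (ρ k - ρ i) * (v i + 4) := by
  induction k, hik using Nat.le_induction with
  | base => simp
  | succ k hik ih =>
    have ih' := ih (by omega)
    have h := h3 i k hik (by omega)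
    have hm : ρ i ≤ ρ k := lev_mono h1 hik (by omega)
    have hs := h1 k (by omega)
    have hp : 2 * 2 ^ (ρ k - ρ i) ≤ 2 ^ (ρ (k + 1) - ρ i) := by
      rw [← pow_succ']
      exact Nat.pow_le_pow_right (by norm_num) (by omega)
    have h1' : 1 ≤ 2 ^ (ρ k - ρ i) := Nat.one_le_two_pow
    calc v (k + 1) ≤ v k + 2 ^ (ρ k - ρ i) * (v i + 1) + 3 := h
      _ ≤ 2 ^ (ρ k - ρ i) * (v i + 4) + 2 ^ (ρ k - ρ i) * (v i + 1) + 3 * 2 ^ (ρ k - ρ i) := by
          omega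
      _ = 2 * 2 ^ (ρ k - ρ i) * (v i + 4) := by ring
      _ ≤ 2 ^ (ρ (k + 1) - ρ i) * (v i + 4) := Nat.mul_le_mul_right _ hp

/-- one level of the tower -/
theorem lev_one {w0 t K : ℕ} {v ρ : ℕ → ℕ} (ht : 32 ≤ t) (htw : w0 ≤ t)
    (h1 : ∀ k < K, ρ k < ρ (k + 1)) (h2 : ∀ k < K, v (k + 1) ≤ 2 * v k + 3)
    (h3 : ∀ i k, i ≤ k → k < K → v (k + 1) ≤ v k + 2 ^ (ρ k - ρ i) * (v i + 1) + 3)
    (h4 : ∀ i k, i ≤ k → k < K → w0 ≤ v i → ρ i + v i ^ 3 ≤ ρ k →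
      (v (k + 1) : ℝ) ≤ v k + 2 ^ (ρ k - ρ i) *
        ((1 / 2 + 1 / (Nat.log 2 (Nat.log 2 (v i)) : ℝ)) * (v i + 1) + 1) + 3)
    {i i' : ℕ} (hi : t ≤ v i) (hi2 : v i ≤ 2 * t + 1) (hii' : i ≤ i') (hi'K : i' ≤ K)
    (hi' : 2 ^ t ^ 4 ≤ v i') :
    (v i' : ℝ) ≤ 2 ^ (ρ i' - ρ i) * (v i * (1 / 2 * (1 + (2 /
      (Nat.log 2 (Nat.log 2 (v i)) : ℝ) + 9 / v i)))) := by
  -- sizes
  have hA := lev_A h1 h3 hii' hi'K
  have hv3 : v i ^ 3 ≤ 27 * t ^ 3 := by
    calc v i ^ 3 ≤ (3 * t) ^ 3 := Nat.pow_le_pow_left (by omega) 3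
      _ = 27 * t ^ 3 := by ring
  have hvt : v i + 4 ≤ 2 ^ t := by
    have : ∀ m : ℕ, 32 ≤ m → 2 * m + 5 ≤ 2 ^ m := by
      intro m hm
      induction m, hm using Nat.le_induction with
      | base => norm_num
      | succ m hm ih => rw [pow_succ]; omega
    exact le_trans (by omega) (this t ht)
  have hbig : (v i + 4) * (2 ^ (v i ^ 3) * (v i + 4) + 3) ≤ 2 ^ t ^ 4 := by
    have e1 : 2 ^ (v i ^ 3) * (v i + 4) + 3 ≤ 2 ^ (27 * t ^ 3) * 2 ^ t * 2 := by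
      have : 2 ^ (v i ^ 3) * (v i + 4) ≤ 2 ^ (27 * t ^ 3) * 2 ^ t :=
        Nat.mul_le_mul (Nat.pow_le_pow_right (by norm_num) hv3) hvt
      have h3' : 3 ≤ 2 ^ (27 * t ^ 3) * 2 ^ t := by
        calc 3 ≤ v i + 4 := by omega
          _ ≤ 2 ^ t := hvt
          _ ≤ 2 ^ (27 * t ^ 3) * 2 ^ t := Nat.le_mul_of_pos_left _ (by positivity)
      omega
    calc (v i + 4) * (2 ^ (v i ^ 3) * (v i + 4) + 3)
        ≤ 2 ^ t * (2 ^ (27 * t ^ 3) * 2 ^ t * 2) := Nat.mul_le_mul hvt e1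
      _ = 2 ^ (27 * t ^ 3 + 2 * t + 1) := by ring
      _ ≤ 2 ^ t ^ 4 := by
          apply Nat.pow_le_pow_right (by norm_num)
          have : t ^ 4 = t * t ^ 3 := by ring
          have h5 : 32 * t ^ 3 ≤ t * t ^ 3 := Nat.mul_le_mul_right _ ht
          have h6 : t ≤ t ^ 3 := Nat.le_self_pow (by norm_num) t
          omega
  -- the power of two at `i'`
  have hD : 2 ^ (v i ^ 3) * (v i + 4) + 3 ≤ 2 ^ (ρ i' - ρ i) := by
    have : (v i + 4) * (2 ^ (v i ^ 3) * (v i + 4) + 3) ≤ (v i + 4) * 2 ^ (ρ i' - ρ i) := by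
      calc _ ≤ 2 ^ t ^ 4 := hbig
        _ ≤ v i' := hi'
        _ ≤ 2 ^ (ρ i' - ρ i) * (v i + 4) := hA
        _ = _ := by ring
    exact Nat.le_of_mul_le_mul_left this (by omega)
  have hρi' : ρ i + v i ^ 3 ≤ ρ i' := by
    by_contra hcon
    have h7 : ρ i' - ρ i ≤ v i ^ 3 := by omega
    have h8 : 2 ^ (ρ i' - ρ i) ≤ 2 ^ (v i ^ 3) := Nat.pow_le_pow_right (by norm_num) h7
    have h9 : 2 ^ (v i ^ 3) ≤ 2 ^ (v i ^ 3) * (v i + 4) := Nat.le_mul_of_pos_right _ (by omega)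
    omega
  -- first index with `ρ` large
  classical
  have hex : ∃ k, i ≤ k ∧ ρ i + v i ^ 3 ≤ ρ k := ⟨i', hii', hρi'⟩
  obtain ⟨hk0i, hk0ρ⟩ := Nat.find_spec hex
  set k0 := Nat.find hex with hk0
  have hk0i' : k0 ≤ i' := Nat.find_min' hex ⟨hii', hρi'⟩
  have hv1 : 1 ≤ v i ^ 3 := Nat.one_le_pow _ _ (by omega)
  have hne : i ≠ k0 := by
    intro h
    rw [← h] at hk0ρ
    omega
  have hvk0 : v k0 ≤ 2 ^ (v i ^ 3) * (v i + 4) + 3 := by
    obtain ⟨m, hm⟩ : ∃ m, k0 = m + 1 := ⟨k0 - 1, by omega⟩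
    have hmin := Nat.find_min hex (m := m) (by omega)
    have hρm : ρ m < ρ i + v i ^ 3 := by
      by_contra hcon
      exact hmin ⟨by omega, by omega⟩
    have hAm := lev_A h1 h3 (i := i) (k := m) (by omega) (by omega)
    have h2m := h2 m (by omega)
    rw [hm]
    have h10 : 2 * 2 ^ (ρ m - ρ i) ≤ 2 ^ (v i ^ 3) := by
      rw [← pow_succ']
      exact Nat.pow_le_pow_right (by norm_num) (by omega)
    have h11 : 2 * 2 ^ (ρ m - ρ i) * (v i + 4) ≤ 2 ^ (v i ^ 3) * (v i + 4) :=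
      Nat.mul_le_mul_right _ h10
    have h12 : 2 * (2 ^ (ρ m - ρ i) * (v i + 4)) ≤ 2 ^ (v i ^ 3) * (v i + 4) := by
      rw [← mul_assoc]; exact h11
    omega
  set L : ℝ := (Nat.log 2 (Nat.log 2 (v i)) : ℝ) with hL
  have hL0 : 0 ≤ L := by positivity
  have hL1 : 1 ≤ Nat.log 2 (Nat.log 2 (v i)) := by
    have h13 : 2 ≤ Nat.log 2 (v i) := by
      rw [Nat.le_log_iff_pow_le (by norm_num) (by omega)]
      omega
    rw [Nat.le_log_iff_pow_le (by norm_num) (by omega)]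
    omega
  have hL1' : 1 ≤ L := by rw [hL]; exact_mod_cast hL1
  set θ' : ℝ := (1 / 2 + 1 / L) * (v i + 1) + 2 with hθ'
  -- summation
  have hsum : ∀ k, k0 ≤ k → k ≤ K → (v k : ℝ) ≤ v k0 + 2 ^ (ρ k - ρ i) * θ' := by
    intro k hk
    induction k, hk using Nat.le_induction with
    | base =>
      intro _
      have : 0 ≤ (2 : ℝ) ^ (ρ k0 - ρ i) * θ' := by positivity
      linarith
    | succ k hk ih =>
      intro hkK
      have ih' := ih (by omega)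
      have hρk : ρ i + v i ^ 3 ≤ ρ k := hk0ρ.trans (lev_mono h1 hk (by omega))
      have h := h4 i k (by omega) (by omega) (by omega) hρk
      have hs := h1 k (by omega)
      have hp : 2 * (2 : ℝ) ^ (ρ k - ρ i) ≤ 2 ^ (ρ (k + 1) - ρ i) := by
        rw [← pow_succ']
        exact pow_le_pow_right₀ (by norm_num) (by omega)
      have h4' : (4 : ℝ) ≤ 2 ^ (ρ k - ρ i) := by
        have : (2 : ℝ) ^ 2 ≤ 2 ^ (ρ k - ρ i) := by
          apply pow_le_pow_right₀ (by norm_num)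
          have : 2 ≤ v i ^ 3 := le_trans (by omega) (Nat.le_self_pow (by norm_num) (v i))
          omega
        linarith
      have hθpos : 0 ≤ θ' := by positivity
      have e1 : (2 : ℝ) ^ (ρ k - ρ i) * ((1 / 2 + 1 / L) * (v i + 1) + 1) + 3 ≤
          2 ^ (ρ k - ρ i) * θ' := by
        rw [hθ']
        nlinarith
      calc (v (k + 1) : ℝ) ≤ v k + 2 ^ (ρ k - ρ i) * ((1 / 2 + 1 / L) * (v i + 1) + 1) + 3 := h
        _ ≤ v k + 2 ^ (ρ k - ρ i) * θ' := by linarith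
        _ ≤ v k0 + 2 ^ (ρ k - ρ i) * θ' + 2 ^ (ρ k - ρ i) * θ' := by linarith
        _ = v k0 + (2 * 2 ^ (ρ k - ρ i)) * θ' := by ring
        _ ≤ v k0 + 2 ^ (ρ (k + 1) - ρ i) * θ' := by
            have := mul_le_mul_of_nonneg_right hp hθpos
            linarith
  have hfin := hsum i' hk0i' hi'K
  have hvk0' : (v k0 : ℝ) ≤ 2 ^ (ρ i' - ρ i) := by exact_mod_cast hvk0.trans hD
  have hvpos : (0 : ℝ) < v i := by
    have : 0 < v i := by omega
    exact_mod_cast this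
  have hpow : (0 : ℝ) < 2 ^ (ρ i' - ρ i) := by positivity
  have hkey : 1 + θ' ≤ v i * (1 / 2 * (1 + (2 / L + 9 / v i))) := by
    have e2 : (v i : ℝ) * (1 / 2 * (1 + (2 / L + 9 / v i))) = v i / 2 + v i / L + 9 / 2 := by
      field_simp
      ring
    rw [e2, hθ']
    have e3 : 1 / L ≤ 1 := by
      rw [div_le_one (by linarith)]
      exact hL1'
    have e4 : (1 / 2 + 1 / L) * ((v i : ℝ) + 1) = v i / 2 + v i / L + 1 / 2 + 1 / L := by ring
    rw [e4]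
    linarith
  calc (v i' : ℝ) ≤ v k0 + 2 ^ (ρ i' - ρ i) * θ' := hfin
    _ ≤ 2 ^ (ρ i' - ρ i) + 2 ^ (ρ i' - ρ i) * θ' := by linarith
    _ = 2 ^ (ρ i' - ρ i) * (1 + θ') := by ring
    _ ≤ _ := mul_le_mul_of_nonneg_left hkey hpow.le

theorem thr_ge (t0 : ℕ) (h : 32 ≤ t0) (j : ℕ) : 2 ^ (2 ^ (2 ^ j)) ≤ thr t0 j := by
  induction j with
  | zero => simp [thr]; omega
  | succ j ih =>
    rw [thr]
    apply Nat.pow_le_pow_right (by norm_num)
    have h1 : 2 ^ (2 ^ j) ≤ thr t0 j := le_trans (Nat.pow_le_pow_right (by norm_num)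
      (Nat.lt_two_pow_self).le) ih
    calc 2 ^ (2 ^ (j + 1)) = (2 ^ (2 ^ j)) ^ 2 := by rw [← pow_mul, pow_succ]
      _ ≤ (thr t0 j) ^ 2 := Nat.pow_le_pow_left h1 2
      _ ≤ (thr t0 j) ^ 4 := by
          apply Nat.pow_le_pow_right _ (by norm_num)
          have : 0 < 2 ^ (2 ^ j) := by positivity
          omega

theorem thr_le_succ (t0 j : ℕ) : thr t0 j < thr t0 (j + 1) := by
  rw [thr]
  calc thr t0 j ≤ (thr t0 j) ^ 4 := Nat.le_self_pow (by norm_num) _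
    _ < 2 ^ (thr t0 j) ^ 4 := Nat.lt_two_pow_self

theorem thr_mono (t0 : ℕ) : StrictMono (thr t0) := strictMono_nat_of_lt_succ (thr_le_succ t0)

theorem lev_eps {t0 j x : ℕ} (h : 32 ≤ t0) (hx : thr t0 j ≤ x) :
    2 / (Nat.log 2 (Nat.log 2 x) : ℝ) + 9 / (x : ℝ) ≤ 11 / 2 ^ j := by
  have h1 := (thr_ge t0 h j).trans hx
  have hx0 : x ≠ 0 := by
    have : 0 < 2 ^ (2 ^ (2 ^ j)) := by positivity
    omega
  have h2 : 2 ^ (2 ^ j) ≤ Nat.log 2 x := by
    rwa [Nat.le_log_iff_pow_le (by norm_num) hx0]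
  have h3 : 2 ^ j ≤ Nat.log 2 (Nat.log 2 x) := by
    rwa [Nat.le_log_iff_pow_le (by norm_num)]
    have : 0 < 2 ^ (2 ^ j) := by positivity
    omega
  have h4 : 2 ^ j ≤ x := h3.trans ((Nat.log_le_self _ _).trans (Nat.log_le_self _ _))
  have h3' : (2 : ℝ) ^ j ≤ (Nat.log 2 (Nat.log 2 x) : ℝ) := by exact_mod_cast h3
  have h4' : (2 : ℝ) ^ j ≤ (x : ℝ) := by exact_mod_cast h4
  have hp : (0 : ℝ) < 2 ^ j := by positivity
  calc 2 / (Nat.log 2 (Nat.log 2 x) : ℝ) + 9 / (x : ℝ) ≤ 2 / 2 ^ j + 9 / 2 ^ j := by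
        gcongr
    _ = 11 / 2 ^ j := by ring

/-- first index reaching a threshold -/
theorem lev_first {K n s : ℕ} {v : ℕ → ℕ} (hs : 3 < s) (hn : v K = n) (h0 : v 0 ≤ 3)
    (h2 : ∀ k < K, v (k + 1) ≤ 2 * v k + 3) (hsn : s ≤ n) :
    ∃ i ≤ K, s ≤ v i ∧ v i ≤ 2 * s + 1 ∧ ∀ k < i, v k < s := by
  classical
  have hex : ∃ k, s ≤ v k := ⟨K, by omega⟩
  have hi := Nat.find_spec hex
  have hmin := fun m (hm : m < Nat.find hex) => Nat.find_min hex hm
  have hK : Nat.find hex ≤ K := Nat.find_min' hex (by omega)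
  set i := Nat.find hex
  have hi0 : i ≠ 0 := by
    intro h
    rw [h] at hi
    omega
  obtain ⟨m, hm⟩ : ∃ m, i = m + 1 := ⟨i - 1, by omega⟩
  refine ⟨i, hK, hi, ?_, fun k hk => by have := hmin k hk; omega⟩
  have h3 := hmin m (by omega)
  have h4 := h2 m (by omega)
  rw [hm]
  omega

theorem lev_chain {w0 t0 n K : ℕ} {v ρ : ℕ → ℕ} (ht0 : 32 ≤ t0) (htw : w0 ≤ t0)
    (hn : v K = n) (h0 : v 0 ≤ 3)
    (h1 : ∀ k < K, ρ k < ρ (k + 1)) (h2 : ∀ k < K, v (k + 1) ≤ 2 * v k + 3)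
    (h3 : ∀ i k, i ≤ k → k < K → v (k + 1) ≤ v k + 2 ^ (ρ k - ρ i) * (v i + 1) + 3)
    (h4 : ∀ i k, i ≤ k → k < K → w0 ≤ v i → ρ i + v i ^ 3 ≤ ρ k →
      (v (k + 1) : ℝ) ≤ v k + 2 ^ (ρ k - ρ i) *
        ((1 / 2 + 1 / (Nat.log 2 (Nat.log 2 (v i)) : ℝ)) * (v i + 1) + 1) + 3)
    (j : ℕ) (hj : thr t0 j ≤ n) :
    ∃ i ≤ K, thr t0 j ≤ v i ∧ v i ≤ 2 * thr t0 j + 1 ∧ (∀ k < i, v k < thr t0 j) ∧
      (v i : ℝ) ≤ 2 ^ ρ i * ((2 * t0 + 1 : ℕ) : ℝ) * (1 / 2) ^ j *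
        Real.exp (∑ m ∈ Finset.range j, 11 / 2 ^ m) := by
  induction j with
  | zero =>
    obtain ⟨i, hiK, hi1, hi2, hi3⟩ := lev_first (s := thr t0 0) (by rw [thr]; omega) hn h0 h2 hj
    refine ⟨i, hiK, hi1, hi2, hi3, ?_⟩
    simp only [pow_zero, mul_one, Finset.range_zero, Finset.sum_empty, Real.exp_zero]
    have hle : (v i : ℝ) ≤ ((2 * t0 + 1 : ℕ) : ℝ) := by exact_mod_cast hi2
    have hp : (1 : ℝ) ≤ 2 ^ ρ i := one_le_pow₀ (by norm_num)
    have hnn : (0 : ℝ) ≤ ((2 * t0 + 1 : ℕ) : ℝ) := by positivity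
    calc (v i : ℝ) ≤ 1 * ((2 * t0 + 1 : ℕ) : ℝ) := by linarith
      _ ≤ 2 ^ ρ i * ((2 * t0 + 1 : ℕ) : ℝ) := mul_le_mul_of_nonneg_right hp hnn
  | succ j ih =>
    have hlt := thr_le_succ t0 j
    obtain ⟨i, hiK, hi1, hi2, hi3, hi4⟩ := ih (by omega)
    have htj : 32 ≤ thr t0 j := by
      calc 32 ≤ t0 := ht0
        _ = thr t0 0 := rfl
        _ ≤ thr t0 j := (thr_mono t0).monotone (Nat.zero_le j)
    have htjw : w0 ≤ thr t0 j := by
      calc w0 ≤ t0 := htw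
        _ = thr t0 0 := rfl
        _ ≤ thr t0 j := (thr_mono t0).monotone (Nat.zero_le j)
    obtain ⟨i', hi'K, hi'1, hi'2, hi'3⟩ :=
      lev_first (s := thr t0 (j + 1)) (by omega) hn h0 h2 hj
    have hbig : 2 * thr t0 j + 1 < thr t0 (j + 1) := by
      rw [thr]
      have : ∀ m : ℕ, 32 ≤ m → 2 * m + 1 < 2 ^ m := by
        intro m hm
        induction m, hm using Nat.le_induction with
        | base => norm_num
        | succ m hm ih => rw [pow_succ]; omega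
      calc 2 * thr t0 j + 1 < 2 ^ thr t0 j := this _ htj
        _ ≤ 2 ^ (thr t0 j) ^ 4 := Nat.pow_le_pow_right (by norm_num)
            (Nat.le_self_pow (by norm_num) _)
    have hii' : i ≤ i' := by
      by_contra hcon
      have := hi3 i' (by omega)
      omega
    have hone := lev_one htj htjw h1 h2 h3 h4 hi1 hi2 hii' hi'K (by rw [thr] at hi'1; exact hi'1)
    refine ⟨i', hi'K, hi'1, hi'2, hi'3, ?_⟩
    have heps := lev_eps ht0 hi1
    have hexp : 1 + (2 / (Nat.log 2 (Nat.log 2 (v i)) : ℝ) + 9 / (v i : ℝ)) ≤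
        Real.exp (11 / 2 ^ j) := by
      have := Real.add_one_le_exp (11 / 2 ^ j : ℝ)
      linarith
    have hρ : ρ i' = ρ i + (ρ i' - ρ i) := by
      have := lev_mono h1 hii' hi'K
      omega
    have hvnn : (0 : ℝ) ≤ v i := by positivity
    calc (v i' : ℝ) ≤ 2 ^ (ρ i' - ρ i) * (v i * (1 / 2 * (1 + (2 /
          (Nat.log 2 (Nat.log 2 (v i)) : ℝ) + 9 / v i)))) := hone
      _ ≤ 2 ^ (ρ i' - ρ i) * (v i * (1 / 2 * Real.exp (11 / 2 ^ j))) := by
          gcongr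
      _ ≤ 2 ^ (ρ i' - ρ i) * ((2 ^ ρ i * ((2 * t0 + 1 : ℕ) : ℝ) * (1 / 2) ^ j *
        Real.exp (∑ m ∈ Finset.range j, 11 / 2 ^ m)) * (1 / 2 * Real.exp (11 / 2 ^ j))) := by
          gcongr
      _ = 2 ^ ρ i' * ((2 * t0 + 1 : ℕ) : ℝ) * (1 / 2) ^ (j + 1) *
        Real.exp (∑ m ∈ Finset.range (j + 1), 11 / 2 ^ m) := by
          rw [Finset.sum_range_succ, Real.exp_add]
          nth_rewrite 2 [hρ]
          rw [pow_add, pow_succ]
          ring

theorem lev_sum (j : ℕ) : ∑ m ∈ Finset.range j, (11 : ℝ) / 2 ^ m ≤ 22 := by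
  have : ∀ j : ℕ, ∑ m ∈ Finset.range j, (11 : ℝ) / 2 ^ m = 22 - 22 / 2 ^ j := by
    intro j
    induction j with
    | zero => simp
    | succ j ih => rw [Finset.sum_range_succ, ih, pow_succ]; field_simp; ring
  rw [this]
  have : (0 : ℝ) ≤ 22 / 2 ^ j := by positivity
  linarith

/-- the iterated logarithm, small numbers -/
theorem lev_star_base (m : ℕ) : ∀ x : ℝ, x ≤ m → ∃ k ≤ m, (Real.logb 2)^[k] x ≤ 1 := by
  induction m with
  | zero => intro x hx; exact ⟨0, le_rfl, by simpa using le_trans hx (by norm_num)⟩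
  | succ m ih =>
    intro x hx
    by_cases h1 : x ≤ 1
    · exact ⟨0, by omega, by simpa using h1⟩
    · push Not at h1
      by_cases h2 : x ≤ 2
      · refine ⟨1, by omega, ?_⟩
        simp only [Function.iterate_one]
        calc Real.logb 2 x ≤ Real.logb 2 2 := Real.logb_le_logb_of_le (by norm_num) (by linarith) h2
          _ = 1 := Real.logb_self_eq_one (by norm_num)
      · push Not at h2
        have h3 : Real.logb 2 x ≤ m := by
          have h4 : Real.logb 2 x ≤ x - 1 := by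
            rw [Real.logb_le_iff_le_rpow (by norm_num) (by linarith)]
            have h5 : 1 + (x - 1) * (2 - 1) ≤ (1 + (2 - 1 : ℝ)) ^ (x - 1) := by
              have := one_add_mul_self_le_rpow_one_add (s := (1 : ℝ)) (by norm_num)
                (p := x - 1) (by linarith)
              have e : (1 + (2 - 1 : ℝ)) = 1 + 1 := by norm_num
              rw [e]
              linarith
            have e2 : (1 + (2 - 1 : ℝ)) = 2 := by norm_num
            rw [e2] at h5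
            linarith
          push_cast at hx
          linarith
        obtain ⟨k, hk, hk2⟩ := ih _ h3
        exact ⟨k + 1, by omega, by rwa [Function.iterate_succ_apply]⟩

theorem lev_star {t0 : ℕ} (ht0 : 32 ≤ t0) (j : ℕ) : ∀ x : ℝ, x ≤ ((thr t0 j : ℕ) : ℝ) ^ 5 →
    ∃ k ≤ j + t0 ^ 5, (Real.logb 2)^[k] x ≤ 1 := by
  induction j with
  | zero =>
    intro x hx
    obtain ⟨k, hk, hk2⟩ := lev_star_base (t0 ^ 5) x (by rw [thr] at hx; exact_mod_cast hx)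
    exact ⟨k, by omega, hk2⟩
  | succ j ih =>
    intro x hx
    by_cases h1 : x ≤ 1
    · exact ⟨0, by omega, by simpa using h1⟩
    · push Not at h1
      have htj : 32 ≤ thr t0 j := by
        calc 32 ≤ t0 := ht0
          _ = thr t0 0 := rfl
          _ ≤ thr t0 j := (thr_mono t0).monotone (Nat.zero_le j)
      have h2 : Real.logb 2 x ≤ ((thr t0 j : ℕ) : ℝ) ^ 5 := by
        have h3 : x ≤ (2 : ℝ) ^ (5 * (thr t0 j) ^ 4) := by
          calc x ≤ _ := hx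
            _ = (2 : ℝ) ^ (5 * (thr t0 j) ^ 4) := by
                rw [thr]; push_cast; rw [← pow_mul, mul_comm]
        calc Real.logb 2 x ≤ Real.logb 2 ((2 : ℝ) ^ (5 * (thr t0 j) ^ 4)) :=
              Real.logb_le_logb_of_le (by norm_num) (by linarith) h3
          _ = ((5 * (thr t0 j) ^ 4 : ℕ) : ℝ) := by
              rw [Real.logb_pow, Real.logb_self_eq_one (by norm_num), mul_one]
          _ ≤ ((thr t0 j : ℕ) : ℝ) ^ 5 := by
              have : 5 * (thr t0 j) ^ 4 ≤ (thr t0 j) ^ 5 := by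
                rw [pow_succ (thr t0 j) 4, mul_comm]
                exact Nat.mul_le_mul_left _ (by omega)
              exact_mod_cast this
      obtain ⟨k, hk, hk2⟩ := ih _ h2
      exact ⟨k + 1, by omega, by rwa [Function.iterate_succ_apply]⟩

theorem levels (w0 : ℕ) : ∃ C : ℝ, ∀ (n K : ℕ) (v ρ : ℕ → ℕ), 3 ≤ n → v K = n → v 0 ≤ 3 →
    (∀ k < K, ρ k < ρ (k + 1)) → (∀ k < K, v (k + 1) ≤ 2 * v k + 3) →
    (∀ i k, i ≤ k → k < K → v (k + 1) ≤ v k + 2 ^ (ρ k - ρ i) * (v i + 1) + 3) →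
    (∀ i k, i ≤ k → k < K → w0 ≤ v i → ρ i + v i ^ 3 ≤ ρ k →
      (v (k + 1) : ℝ) ≤ v k + 2 ^ (ρ k - ρ i) *
        ((1 / 2 + 1 / (Nat.log 2 (Nat.log 2 (v i)) : ℝ)) * (v i + 1) + 1) + 3) →
    Real.logb 2 (n : ℝ) + ((sInf {k : ℕ | (Real.logb 2)^[k] (n : ℝ) ≤ 1} : ℕ) : ℝ) - C ≤ ρ K := by
  set t0 : ℕ := max 32 w0 with ht0
  have h32 : 32 ≤ t0 := le_max_left _ _
  have hw : w0 ≤ t0 := le_max_right _ _
  set A : ℝ := Real.logb 2 (2 * (((2 * t0 + 1 : ℕ) : ℝ) * Real.exp 22)) with hA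
  refine ⟨max (Real.logb 2 t0) A + t0 ^ 5 + 1, ?_⟩
  intro n K v ρ hn3 hvK hv0 h1 h2 h3 h4
  have hn0 : (0 : ℝ) < n := by
    have : 0 < n := by omega
    exact_mod_cast this
  by_cases hsmall : n < t0
  · -- small case
    obtain ⟨k, hk, hk2⟩ := lev_star h32 0 (n : ℝ) (by
      rw [thr]
      have : n ≤ t0 ^ 5 := hsmall.le.trans (Nat.le_self_pow (by norm_num) _)
      exact_mod_cast this)
    have hinf : sInf {k : ℕ | (Real.logb 2)^[k] (n : ℝ) ≤ 1} ≤ t0 ^ 5 :=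
      (Nat.sInf_le (by exact hk2)).trans (by omega)
    have hinf' : ((sInf {k : ℕ | (Real.logb 2)^[k] (n : ℝ) ≤ 1} : ℕ) : ℝ) ≤ (t0 : ℝ) ^ 5 := by
      exact_mod_cast hinf
    have hlog : Real.logb 2 n ≤ Real.logb 2 t0 :=
      Real.logb_le_logb_of_le (by norm_num) hn0 (by exact_mod_cast hsmall.le)
    have hmax := le_max_left (Real.logb 2 (t0 : ℝ)) A
    have hρ : (0 : ℝ) ≤ ρ K := by positivity
    linarith
  · push Not at hsmall
    classical
    -- the last threshold below n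
    have hex : ∃ j, n < thr t0 j := ⟨n + 1, lt_of_lt_of_le (Nat.lt_succ_self n)
      ((thr_mono t0).le_apply)⟩
    have hspec := Nat.find_spec hex
    have hmin := fun m (hm : m < Nat.find hex) => Nat.find_min hex hm
    set j' := Nat.find hex
    have hj0 : j' ≠ 0 := by
      intro h
      rw [h, thr] at hspec
      omega
    obtain ⟨j, hj⟩ : ∃ j, j' = j + 1 := ⟨j' - 1, by omega⟩
    have hjn : thr t0 j ≤ n := by
      have := hmin j (by omega)
      omega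
    rw [hj] at hspec
    obtain ⟨i, hiK, hi1, hi2, hi3, hi4⟩ := lev_chain h32 hw hvK hv0 h1 h2 h3 h4 j hjn
    have hAK := lev_A h1 h3 hiK le_rfl
    have htj : 32 ≤ thr t0 j := by
      calc 32 ≤ t0 := h32
        _ = thr t0 0 := rfl
        _ ≤ thr t0 j := (thr_mono t0).monotone (Nat.zero_le j)
    have hρ : ρ K = (ρ K - ρ i) + ρ i := by
      have := lev_mono h1 hiK le_rfl
      omega
    have hbound : (n : ℝ) ≤ 2 ^ ρ K * (1 / 2) ^ j * (2 * (((2 * t0 + 1 : ℕ) : ℝ) * Real.exp 22)) := by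
      have e1 : (n : ℝ) ≤ 2 ^ (ρ K - ρ i) * (v i + 4) := by
        rw [← hvK]; exact_mod_cast hAK
      have e2 : (v i : ℝ) + 4 ≤ 2 * v i := by
        have : v i + 4 ≤ 2 * v i := by omega
        exact_mod_cast this
      have e3 : Real.exp (∑ m ∈ Finset.range j, (11 : ℝ) / 2 ^ m) ≤ Real.exp 22 :=
        Real.exp_le_exp.mpr (lev_sum j)
      calc (n : ℝ) ≤ 2 ^ (ρ K - ρ i) * (v i + 4) := e1
        _ ≤ 2 ^ (ρ K - ρ i) * (2 * v i) := by gcongr
        _ ≤ 2 ^ (ρ K - ρ i) * (2 * (2 ^ ρ i * ((2 * t0 + 1 : ℕ) : ℝ) * (1 / 2) ^ j *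
              Real.exp (∑ m ∈ Finset.range j, 11 / 2 ^ m))) := by gcongr
        _ ≤ 2 ^ (ρ K - ρ i) * (2 * (2 ^ ρ i * ((2 * t0 + 1 : ℕ) : ℝ) * (1 / 2) ^ j *
              Real.exp 22)) := by gcongr
        _ = 2 ^ ρ K * (1 / 2) ^ j * (2 * (((2 * t0 + 1 : ℕ) : ℝ) * Real.exp 22)) := by
            nth_rewrite 2 [hρ]
            rw [pow_add]
            ring
    have hlog : Real.logb 2 n ≤ ρ K - j + A := by
      calc Real.logb 2 n ≤ Real.logb 2 (2 ^ ρ K * (1 / 2) ^ j *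
            (2 * (((2 * t0 + 1 : ℕ) : ℝ) * Real.exp 22))) :=
              Real.logb_le_logb_of_le (by norm_num) hn0 hbound
        _ = ρ K - j + A := by
            rw [Real.logb_mul (by positivity) (by positivity),
              Real.logb_mul (by positivity) (by positivity), Real.logb_pow, Real.logb_pow,
              Real.logb_self_eq_one (by norm_num), one_div, Real.logb_inv,
              Real.logb_self_eq_one (by norm_num)]
            ring
    obtain ⟨k, hk, hk2⟩ := lev_star h32 (j + 1) (n : ℝ) (by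
      have : n ≤ (thr t0 (j + 1)) ^ 5 := hspec.le.trans (Nat.le_self_pow (by norm_num) _)
      exact_mod_cast this)
    have hinf : sInf {k : ℕ | (Real.logb 2)^[k] (n : ℝ) ≤ 1} ≤ j + 1 + t0 ^ 5 :=
      (Nat.sInf_le (by exact hk2)).trans hk
    have hinf' : ((sInf {k : ℕ | (Real.logb 2)^[k] (n : ℝ) ≤ 1} : ℕ) : ℝ) ≤
        (j : ℝ) + 1 + (t0 : ℝ) ^ 5 := by
      exact_mod_cast hinf
    have hmax := le_max_right (Real.logb 2 (t0 : ℝ)) A
    linarith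

end Pool.Agent.Bondy
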